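import Pool.Agent.Q235.FD.Series
import Mathlib.NumberTheory.RamificationInertia.Basic
import Mathlib.NumberTheory.NumberField.Basic
import Mathlib.RingTheory.Ideal.Norm.AbsNorm

/-! The number of the places of degree one of a number field above a prime. -/

set_option autoImplicit false

namespace Pool.Agent.Q235.FD

open Finset NumberField

/-- The number of the places of degree one of the number field `K` above `p`, that is, of the prime ideals of norm `p`. -/
noncomputable def degreeOne (K : Type) [Field K] [NumberField K] (p : ℕ) : ℕ :=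
  Nat.card {P : Ideal (𝓞 K) // P.IsPrime ∧ Ideal.absNorm P = p}

set_option linter.deprecated false in
lemma degreeOne_le (K : Type) [Field K] [NumberField K] {p : ℕ} (hp : p.Prime) : degreeOne K p ≤ Module.finrank ℚ K := by
  classical
  have : Fact p.Prime := ⟨hp⟩
  have hpZ : Prime (p : ℤ) := Nat.prime_iff_prime_int.1 hp
  obtain ⟨I, hI⟩ : ∃ I : Ideal ℤ, I = Ideal.span {(p : ℤ)} := ⟨_, rfl⟩
  have hI0 : I ≠ ⊥ := by
    rw [hI, Ne, Ideal.span_singleton_eq_bot]
    exact hpZ.ne_zero
  have hprime : I.IsPrime := by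
    rw [hI]
    exact (Ideal.span_singleton_prime hpZ.ne_zero).2 hpZ
  have hmax : I.IsMaximal := hprime.isMaximal hI0
  have h1 := Ideal.card_primesOverFinset_le_finrank (S := 𝓞 K) ℚ K hI0
  refine le_trans ?_ h1
  unfold degreeOne
  have hmem : ∀ P : Ideal (𝓞 K), P.IsPrime → Ideal.absNorm P = p → P ∈ IsDedekindDomain.primesOverFinset I (𝓞 K) := by
    intro P hP hn
    rw [IsDedekindDomain.mem_primesOverFinset_iff hI0]
    refine ⟨hP, ⟨?_⟩⟩
    have hle : I ≤ P.under ℤ := by
      rw [hI, Ideal.span_singleton_le_iff_mem]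
      have h2 := Ideal.absNorm_mem P
      rw [hn] at h2
      show algebraMap ℤ (𝓞 K) (p : ℤ) ∈ P
      simpa using h2
    have hne : P.under ℤ ≠ ⊤ := (Ideal.IsPrime.under ℤ P).ne_top
    exact hmax.eq_of_le hne hle
  have h3 : Nat.card {P : Ideal (𝓞 K) // P ∈ IsDedekindDomain.primesOverFinset I (𝓞 K)} =
      (IsDedekindDomain.primesOverFinset I (𝓞 K)).card := by
    rw [Nat.card_eq_fintype_card, Fintype.card_coe]
  refine le_trans (Nat.card_le_card_of_injective (β := {P : Ideal (𝓞 K) // P ∈ IsDedekindDomain.primesOverFinset I (𝓞 K)})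
    (fun P => ⟨P.1, hmem P.1 P.2.1 P.2.2⟩) (fun P P' h => ?_)) h3.le
  exact Subtype.ext (Subtype.mk.inj h)

end Pool.Agent.Q235.FD
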