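import Pool.Agent.Q235.FD.PairSum

/-! Families of double planes. -/

set_option autoImplicit false

namespace Pool.Agent.Q235.FD

open Finset

/-- the coefficients `∑ c(l, k) t^k` of the member with the parameters `t` -/
def coeffAt {d m E : ℕ} {R : Type} [CommRing R] (v : Mon d × (Fin m → Fin (E + 1)) → R) (t : Fin m → R) (l : Mon d) : R :=
  ∑ k, v (l, k) * ∏ i, t i ^ (k i : ℕ)

/-- The number of all the points of all the members of the family `w^2 = F_t(x, y, z)` over the field with `p` elements: the points over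
the points `(1 : y : z)`, over the points `(0 : 1 : z)` and over the point `(0 : 0 : 1)` of the plane. -/
noncomputable def familyPoints {m E : ℕ} (d p : ℕ) (n : Mon d × (Fin m → Fin (E + 1)) → ℕ) : ℕ :=
  Nat.card {P : ((Fin m → ZMod p) × (ZMod p × ZMod p)) × ZMod p //
    P.2 ^ 2 = form d (coeffAt (fun l => (n l : ZMod p)) P.1.1) 1 P.1.2.1 P.1.2.2} +
  Nat.card {P : ((Fin m → ZMod p) × ZMod p) × ZMod p // P.2 ^ 2 = form d (coeffAt (fun l => (n l : ZMod p)) P.1.1) 0 1 P.1.2} +
  Nat.card {P : (Fin m → ZMod p) × ZMod p // P.2 ^ 2 = form d (coeffAt (fun l => (n l : ZMod p)) P.1) 0 0 1}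

/-- The average `B_p = p^(-m) ∑ b_p(V_t)` of the traces of Frobenius on the second cohomology of the members `V_t`: here
`b_p(V_t)` is the number of the points of `V_t` over the field with `p` elements minus `1 + p^2`, so the average is
`N / p^m - 1 - p^2`, where `N` is the number of all the points of all the members. -/
noncomputable def familyTrace {m E : ℕ} (d p : ℕ) (n : Mon d × (Fin m → Fin (E + 1)) → ℕ) : ℝ :=
  (familyPoints d p n : ℝ) / (p : ℝ) ^ m - 1 - (p : ℝ) ^ 2

section

variable {d m E p : ℕ}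

lemma coeffAt_add {R : Type} [CommRing R] (v w : Mon d × (Fin m → Fin (E + 1)) → R) (c : R) (t : Fin m → R) :
    coeffAt (v + c • w) t = coeffAt v t + c • coeffAt w t := by
  funext l
  unfold coeffAt
  rw [Pi.add_apply, Pi.smul_apply, smul_eq_mul, mul_sum, ← sum_add_distrib]
  refine sum_congr rfl fun k _ => ?_
  rw [Pi.add_apply, Pi.smul_apply, smul_eq_mul]
  ring

/-- the direction with the constant coefficients `w` -/
def lift0 {R : Type} [CommRing R] (w : Mon d → R) : Mon d × (Fin m → Fin (E + 1)) → R :=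
  fun l => if l.2 = (fun _ => 0) then w l.1 else 0

lemma coeffAt_lift0 {R : Type} [CommRing R] (w : Mon d → R) (t : Fin m → R) : coeffAt (E := E) (lift0 w) t = w := by
  funext l
  unfold coeffAt lift0
  rw [sum_eq_single_of_mem (fun _ => 0) (mem_univ _)]
  · simp
  · intro k _ hk
    rw [if_neg hk, zero_mul]

/-- the direction with the coefficients `w (t_κ - a)` -/
def lift1 {R : Type} [CommRing R] (hE : 1 ≤ E) (w : Mon d → R) (κ : Fin m) (a : R) : Mon d × (Fin m → Fin (E + 1)) → R :=
  fun l => (if l.2 = Pi.single κ ⟨1, by omega⟩ then w l.1 else 0) - (if l.2 = (fun _ => 0) then a * w l.1 else 0)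

lemma coeffAt_lift1 {R : Type} [CommRing R] (hE : 1 ≤ E) (w : Mon d → R) (κ : Fin m) (a : R) (t : Fin m → R) :
    coeffAt (lift1 hE w κ a) t = (t κ - a) • w := by
  funext l
  unfold coeffAt lift1
  simp only [sub_mul]
  rw [sum_sub_distrib, sum_eq_single_of_mem (Pi.single κ ⟨1, by omega⟩) (mem_univ _), sum_eq_single_of_mem (fun _ => 0) (mem_univ _)]
  · have e1 : ∏ j, t j ^ (((Pi.single κ ⟨1, by omega⟩ : Fin m → Fin (E + 1)) j : Fin (E + 1)) : ℕ) = t κ := by
      rw [prod_eq_single_of_mem κ (mem_univ κ)]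
      · rw [Pi.single_eq_same, pow_one]
      · intro j _ hj
        rw [Pi.single_eq_of_ne hj]
        exact pow_zero _
    rw [if_pos rfl, if_pos rfl, e1]
    simp only [Fin.val_zero, pow_zero, prod_const_one, Pi.smul_apply, smul_eq_mul]
    ring
  · intro k _ hk
    rw [if_neg hk, zero_mul]
  · intro k _ hk
    rw [if_neg hk, zero_mul]

lemma lin_smul {R : Type} [CommRing R] (w : Mon d → R) (c x y z : R) : lin d (c • w) x y z = c * lin d w x y z := by
  unfold lin
  rw [mul_sum]
  refine sum_congr rfl fun l _ => ?_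
  rw [Pi.smul_apply, smul_eq_mul]
  ring

variable [Fact p.Prime]

/-- the total character sum -/
noncomputable def familySum (v : Mon d × (Fin m → Fin (E + 1)) → ZMod p) : ℝ := ∑ t : Fin m → ZMod p, planeSum d p (coeffAt v t)

lemma familySum_moments (hd : 2 ≤ d) (hE : 1 ≤ E) (hp : p ≠ 2) :
    ∑ v : Mon d × (Fin m → Fin (E + 1)) → ZMod p, familySum v = 0 ∧
    ∑ v : Mon d × (Fin m → Fin (E + 1)) → ZMod p, familySum v ^ 2 ≤
      ((p : ℝ) ^ m * ((p : ℝ) ^ 2 + p)) * (p : ℝ) ^ Fintype.card (Mon d × (Fin m → Fin (E + 1))) := by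
  classical
  have h := pair_law (L := Mon d × (Fin m → Fin (E + 1))) (p := p) (ι := (Fin m → ZMod p) × ((ZMod p × ZMod p) ⊕ ZMod p)) hp
    (fun P v => form d (coeffAt v P.1) (co P.2).1 (co P.2).2.1 (co P.2).2.2)
    (fun P w => lin d (coeffAt w P.1) (co P.2).1 (co P.2).2.1 (co P.2).2.2)
    (fun P v c w => by rw [coeffAt_add, form_add]) (fun P => by
      obtain ⟨w, hw⟩ := dir1 (d := d) (by omega) P.2
      exact ⟨lift0 w, by rw [coeffAt_lift0]; exact hw⟩) (fun P P' hne => by
      by_cases h1 : P.2 = P'.2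
      · have ht : P.1 ≠ P'.1 := fun h' => hne (Prod.ext h' h1)
        obtain ⟨κ, hκ⟩ := Function.ne_iff.1 ht
        obtain ⟨w, hw⟩ := dir1 (d := d) (by omega) P'.2
        refine ⟨lift1 hE w κ (P.1 κ), Or.inl ⟨?_, ?_⟩⟩
        · rw [coeffAt_lift1, lin_smul, sub_self, zero_mul]
        · rw [coeffAt_lift1, lin_smul]
          exact mul_ne_zero (sub_ne_zero.2 (Ne.symm hκ)) hw
      · obtain ⟨w, hw⟩ := dir2 hd P.2 P'.2 h1
        refine ⟨lift0 w, ?_⟩
        rw [coeffAt_lift0, coeffAt_lift0]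
        exact hw)
  have e : (Fintype.card ((Fin m → ZMod p) × ((ZMod p × ZMod p) ⊕ ZMod p)) : ℝ) = (p : ℝ) ^ m * ((p : ℝ) ^ 2 + p) := by
    rw [Fintype.card_prod, Fintype.card_sum, Fintype.card_prod, ZMod.card, Fintype.card_pi]
    simp only [ZMod.card, prod_const, card_univ, Fintype.card_fin]
    push_cast
    ring
  rw [e] at h
  have e2 : ∀ v : Mon d × (Fin m → Fin (E + 1)) → ZMod p,
      ∑ P : (Fin m → ZMod p) × ((ZMod p × ZMod p) ⊕ ZMod p), qc (form d (coeffAt v P.1) (co P.2).1 (co P.2).2.1 (co P.2).2.2) = familySum v := by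
    intro v
    unfold familySum planeSum
    rw [Fintype.sum_prod_type]
  simp only [e2] at h
  exact h

lemma familySum_bound (hd : 2 ≤ d) (hp : p ≠ 2) (v : Mon d × (Fin m → Fin (E + 1)) → ZMod p) :
    |familySum v| ≤ (p : ℝ) ^ m * (2 * d * (Real.sqrt p * p)) := by
  classical
  unfold familySum
  refine (abs_sum_le_sum_abs _ _).trans ((sum_le_sum (g := fun _ : Fin m → ZMod p => (2 * d * (Real.sqrt p * p) : ℝ))
    fun t _ => planeSum_bound hd hp _).trans (le_of_eq ?_))
  rw [sum_const, card_univ, nsmul_eq_mul, Fintype.card_pi]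
  simp [ZMod.card]

lemma familyPoints_mod (n : Mon d × (Fin m → Fin (E + 1)) → ℕ) : familyPoints d p (fun l => n l % p) = familyPoints d p n := by
  unfold familyPoints
  simp only [ZMod.natCast_mod]

lemma familyPoints_eq (hp : p ≠ 2) (n : Mon d × (Fin m → Fin (E + 1)) → ℕ) :
    (familyPoints d p n : ℝ) = (p : ℝ) ^ m * ((p : ℝ) ^ 2 + p + 1) + familySum (fun l => (n l : ZMod p)) := by
  classical
  unfold familyPoints
  have h1 := count_sq (p := p) hp (fun a : (Fin m → ZMod p) × (ZMod p × ZMod p) => form d (coeffAt (fun l => (n l : ZMod p)) a.1) 1 a.2.1 a.2.2)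
  have h2 := count_sq (p := p) hp (fun a : (Fin m → ZMod p) × ZMod p => form d (coeffAt (fun l => (n l : ZMod p)) a.1) 0 1 a.2)
  have h3 : Nat.card {P : (Fin m → ZMod p) × ZMod p // P.2 ^ 2 = form d (coeffAt (fun l => (n l : ZMod p)) P.1) 0 0 1} = p ^ m := by
    simp only [form_tangent]
    have : Nat.card {P : (Fin m → ZMod p) × ZMod p // P.2 ^ 2 = 0} = Nat.card (Fin m → ZMod p) := by
      refine Nat.card_congr ⟨fun P => P.1.1, fun t => ⟨(t, 0), by simp⟩, fun P => ?_, fun t => rfl⟩
      apply Subtype.ext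
      apply Prod.ext
      · rfl
      · exact (pow_eq_zero_iff (two_ne_zero) |>.1 P.2).symm
    rw [this, Nat.card_fun, Nat.card_zmod]
    simp
  push_cast
  rw [h1, h2, h3]
  have e1 : (Fintype.card ((Fin m → ZMod p) × (ZMod p × ZMod p)) : ℝ) = (p : ℝ) ^ m * p ^ 2 := by
    rw [Fintype.card_prod, Fintype.card_prod, ZMod.card, Fintype.card_pi]
    simp only [ZMod.card, prod_const, card_univ, Fintype.card_fin]
    push_cast
    ring
  have e2 : (Fintype.card ((Fin m → ZMod p) × ZMod p) : ℝ) = (p : ℝ) ^ m * p := by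
    rw [Fintype.card_prod, ZMod.card, Fintype.card_pi]
    simp only [ZMod.card, prod_const, card_univ, Fintype.card_fin]
    push_cast
    ring
  rw [e1, e2]
  have e3 : familySum (fun l => (n l : ZMod p)) =
      ∑ a : (Fin m → ZMod p) × (ZMod p × ZMod p), qc (form d (coeffAt (fun l => (n l : ZMod p)) a.1) 1 a.2.1 a.2.2) +
      ∑ a : (Fin m → ZMod p) × ZMod p, qc (form d (coeffAt (fun l => (n l : ZMod p)) a.1) 0 1 a.2) := by
    unfold familySum planeSum
    rw [Fintype.sum_prod_type, Fintype.sum_prod_type, ← sum_add_distrib]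
    refine sum_congr rfl fun t _ => ?_
    rw [Fintype.sum_sum_type]
    simp only [co]
  rw [e3]
  push_cast
  ring

lemma familyTrace_eq (hp : p ≠ 2) (n : Mon d × (Fin m → Fin (E + 1)) → ℕ) :
    familyTrace d p n / p - 1 = familySum (fun l => (n l : ZMod p)) / ((p : ℝ) ^ m * p) := by
  have hp0 : (p : ℝ) ≠ 0 := by exact_mod_cast (Fact.out : p.Prime).ne_zero
  unfold familyTrace
  rw [familyPoints_eq hp]
  field_simp
  ring

lemma familyTrace_two (n : Mon d × (Fin m → Fin (E + 1)) → ℕ) : familyTrace d 2 n / ((2 : ℕ) : ℝ) - 1 = 0 := by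
  have e1 : ∀ {α : Type} (φ : α → ZMod 2), Nat.card {P : α × ZMod 2 // P.2 ^ 2 = φ P.1} = Nat.card α := by
    intro α φ
    refine Nat.card_congr ⟨fun P => P.1.1, fun a => ⟨(a, φ a), sq_two _⟩, fun P => ?_, fun a => rfl⟩
    apply Subtype.ext
    apply Prod.ext
    · rfl
    · show φ P.1.1 = P.1.2
      rw [← P.2, sq_two]
  have h1 := e1 (fun a : (Fin m → ZMod 2) × (ZMod 2 × ZMod 2) => form d (coeffAt (fun l => (n l : ZMod 2)) a.1) 1 a.2.1 a.2.2)
  have h2 := e1 (fun a : (Fin m → ZMod 2) × ZMod 2 => form d (coeffAt (fun l => (n l : ZMod 2)) a.1) 0 1 a.2)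
  have h3 := e1 (fun a : Fin m → ZMod 2 => form d (coeffAt (fun l => (n l : ZMod 2)) a) 0 0 1)
  unfold familyTrace familyPoints
  rw [h1, h2, h3]
  have e2 : Nat.card (Fin m → ZMod 2) = 2 ^ m := by
    rw [Nat.card_fun, Nat.card_zmod]
    simp
  rw [Nat.card_prod, Nat.card_prod, Nat.card_prod, Nat.card_zmod, e2]
  push_cast
  field_simp
  ring

end

/-- **The average traces of families of double planes.** -/
theorem families {d m E : ℕ} (hd : 2 ≤ d) (hE : 1 ≤ E) {b : ℕ} (hb : 2 ≤ b) {δ : ℝ} (hδ : 0 < δ) (A B : ℕ) :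
    ForAlmostAll (Mon d × (Fin m → Fin (E + 1))) b A (fun (θ : Weights B) x n => ∀ w ∈ θ.W x,
      |∑ p ∈ primesTo x, w p * Real.log p * (familyTrace d p n / p - 1)| ≤ (x : ℝ) ^ (1 / 2 + δ)) := by
  classical
  have hd0 : (2 : ℝ) ≤ d := by exact_mod_cast hd
  have : Nonempty (Mon d × (Fin m → Fin (E + 1))) := ⟨(monOf d (2 * d) 0 (by omega) (by omega), fun _ => 0)⟩
  have key := rough (L := Mon d × (Fin m → Fin (E + 1))) hb hδ A B 0 (τ := Unit) (fun _ => {()}) (fun x _ => by simp)
    (fun _ p n => familyTrace d p n / p - 1)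
    (fun _ p n hp => by
      have : Fact p.Prime := ⟨hp⟩
      beta_reduce
      unfold familyTrace
      rw [familyPoints_mod]) (C := 2 * d) (by linarith) (by
      intro _ p n hp
      have : Fact p.Prime := ⟨hp⟩
      have hp0 : (0 : ℝ) < p := by exact_mod_cast hp.pos
      by_cases h2 : p = 2
      · subst h2
        rw [familyTrace_two, abs_zero]
        positivity
      · rw [familyTrace_eq h2, abs_div, abs_of_pos (show (0 : ℝ) < (p : ℝ) ^ m * p by positivity), div_le_iff₀ (by positivity)]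
        refine (familySum_bound hd h2 _).trans (le_of_eq ?_)
        ring) (by
      intro _ p hp
      have : Fact p.Prime := ⟨hp⟩
      by_cases h2 : p = 2
      · subst h2
        have e : (fun n : Mon d × (Fin m → Fin (E + 1)) → ℕ => familyTrace d 2 n / ((2 : ℕ) : ℝ) - 1) = fun _ => 0 := funext fun n => familyTrace_two n
        beta_reduce
        rw [e, avg_const]
        norm_num
      · have e : (fun n : Mon d × (Fin m → Fin (E + 1)) → ℕ => familyTrace d p n / p - 1) =
            fun n => familySum (fun l => (n l : ZMod p)) / ((p : ℝ) ^ m * p) :=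
          funext fun n => familyTrace_eq h2 n
        beta_reduce
        rw [e, avg_zmod (fun v => familySum v / ((p : ℝ) ^ m * p)), ← sum_div, (familySum_moments hd hE h2).1]
        simp) (by
      intro _ p hp
      have : Fact p.Prime := ⟨hp⟩
      have hp0 : (0 : ℝ) < p := by exact_mod_cast hp.pos
      have hp1 : (1 : ℝ) ≤ p := by exact_mod_cast hp.one_lt.le
      by_cases h2 : p = 2
      · subst h2
        have e : (fun n : Mon d × (Fin m → Fin (E + 1)) → ℕ => (familyTrace d 2 n / ((2 : ℕ) : ℝ) - 1) ^ 2) = fun _ => 0 := funext fun n => by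
          rw [familyTrace_two]; norm_num
        beta_reduce
        rw [e, avg_const]
        · positivity
        all_goals norm_num
      · have e : (fun n : Mon d × (Fin m → Fin (E + 1)) → ℕ => (familyTrace d p n / p - 1) ^ 2) =
            fun n => (familySum (fun l => (n l : ZMod p)) / ((p : ℝ) ^ m * p)) ^ 2 :=
          funext fun n => by rw [familyTrace_eq h2 n]
        beta_reduce
        rw [e, avg_zmod (fun v => (familySum v / ((p : ℝ) ^ m * p)) ^ 2)]
        simp only [div_pow]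
        rw [← sum_div, div_div, div_le_iff₀ (by positivity)]
        refine (familySum_moments hd hE h2).2.trans ?_
        have h3 : (p : ℝ) ^ m * ((p : ℝ) ^ 2 + p) ≤ 2 * d * ((p : ℝ) ^ m * p) ^ 2 := by
          have h4 : (1 : ℝ) ≤ (p : ℝ) ^ m := one_le_pow₀ hp1
          have h5 : (p : ℝ) ^ 2 + p ≤ 2 * (p : ℝ) ^ 2 := by nlinarith
          have h6 : (0 : ℝ) < (p : ℝ) ^ m := by positivity
          calc (p : ℝ) ^ m * ((p : ℝ) ^ 2 + p) ≤ (p : ℝ) ^ m * (2 * (p : ℝ) ^ 2) := mul_le_mul_of_nonneg_left h5 h6.le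
            _ = 2 * 1 * ((p : ℝ) ^ m * (p : ℝ) ^ 2) := by ring
            _ ≤ 2 * d * (((p : ℝ) ^ m) * ((p : ℝ) ^ m * (p : ℝ) ^ 2)) := by
                apply mul_le_mul (by linarith) _ (by positivity) (by positivity)
                exact le_mul_of_one_le_left (by positivity) h4
            _ = _ := by ring
        calc ((p : ℝ) ^ m * ((p : ℝ) ^ 2 + p)) * (p : ℝ) ^ Fintype.card (Mon d × (Fin m → Fin (E + 1))) ≤
              2 * d * ((p : ℝ) ^ m * p) ^ 2 * (p : ℝ) ^ Fintype.card (Mon d × (Fin m → Fin (E + 1))) :=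
              mul_le_mul_of_nonneg_right h3 (by positivity)
          _ = _ := by ring)
  refine ForAlmostAll.mono key 0 ?_
  intro θ x n _ h w hw
  exact h w hw () (mem_singleton_self _)

/-- **The Dirichlet series of the average traces.** -/
theorem family_series {d m E : ℕ} (hd : 2 ≤ d) (hE : 1 ≤ E) {b : ℕ} (hb : 2 ≤ b) {δ : ℝ} (hδ : 0 < δ) (A B : ℕ) :
    ForAlmostAllFrom (Mon d × (Fin m → Fin (E + 1))) b A (fun (θ : Weights B) y x n => ∀ w ∈ θ.W y, ∀ z : ℂ, 1 / 2 + δ ≤ z.re →
      ‖primeSum y x (fun p => ((w p * Real.log p * (familyTrace d p n / p - 1) : ℝ) : ℂ) * (p : ℂ) ^ (-z))‖ ≤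
        (1 + ‖z‖) * (y : ℝ) ^ (-(δ / 4))) := by
  obtain ⟨y₁, hy₁⟩ := half_plane hδ
  refine (families hd hE hb (show 0 < δ / 2 by positivity) A B).from' y₁ ?_
  intro θ y hy
  refine ⟨constWeights θ y, fun x n hx h w hw z hz => ?_⟩
  have hw' : ∀ t, y ≤ t → w ∈ (constWeights θ y).W t := by
    intro t ht
    show w ∈ if y ≤ t then θ.W y else ∅
    rw [if_pos ht]
    exact hw
  exact hy₁ y x hy hx (fun p => w p * Real.log p * (familyTrace d p n / p - 1)) (fun t ht htx => h t ht htx w (hw' t ht)) z hz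

end Pool.Agent.Q235.FD
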