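import Pool.Agent.Q235.FD.Tools

/-! The law for functions whose averages are `O(1 / p)`. -/

set_option autoImplicit false

namespace Pool.Agent.Q235.FD

open Finset Filter

lemma sum_inv_primes {P : Finset ℕ} {x : ℕ} (hP : ∀ p ∈ P, p.Prime ∧ p ≤ x) : ∑ p ∈ P, 1 / (p : ℝ) ≤ 1 + Real.log x := by
  have h1 : P ⊆ Icc 1 x := by
    intro p hp
    rw [mem_Icc]
    exact ⟨(hP p hp).1.one_lt.le, (hP p hp).2⟩
  have h2 : ∑ p ∈ P, 1 / (p : ℝ) ≤ ∑ n ∈ Icc 1 x, 1 / (n : ℝ) := sum_le_sum_of_subset_of_nonneg h1 fun n _ _ => by positivity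
  refine h2.trans ?_
  have h3 := harmonic_le_one_add_log x
  rw [harmonic_eq_sum_Icc] at h3
  push_cast at h3
  simpa [one_div] using h3

lemma eventually_le {δ : ℝ} (hδ : 0 < δ) (C : ℝ) (hC : 0 ≤ C) : ∃ x₁ : ℕ, ∀ x : ℕ, x₁ ≤ x → C * (x : ℝ) ^ (δ / 2) + C * (1 + Real.log x) ≤ (x : ℝ) ^ δ := by
  have h1 : Tendsto (fun x : ℝ => x ^ (δ / 2)) atTop atTop := tendsto_rpow_atTop (by positivity)
  have hev := (h1.comp tendsto_natCast_atTop_atTop).eventually (eventually_ge_atTop (C * (2 + 2 / δ)))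
  obtain ⟨x₁, hx₁⟩ := eventually_atTop.1 (hev.and (eventually_ge_atTop 1))
  refine ⟨x₁, fun x hx => ?_⟩
  obtain ⟨h2, h3⟩ := hx₁ x hx
  have hx1 : (1 : ℝ) ≤ x := by exact_mod_cast h3
  have hx0 : (0 : ℝ) < x := by linarith
  obtain ⟨u, hu⟩ : ∃ u, u = (x : ℝ) ^ (δ / 2) := ⟨_, rfl⟩
  have hlog : Real.log x ≤ (x : ℝ) ^ (δ / 2) / (δ / 2) := Real.log_le_rpow_div hx0.le (by positivity)
  have hu1 : 1 ≤ u := by rw [hu]; exact Real.one_le_rpow hx1 (by positivity)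
  have hpow : (x : ℝ) ^ δ = u * u := by
    rw [hu, ← Real.rpow_add hx0]
    congr 1
    ring
  have h2' : C * (2 + 2 / δ) ≤ u := by rw [hu]; exact h2
  rw [hpow, ← hu]
  rw [← hu] at hlog
  have h4 : u / (δ / 2) = 2 / δ * u := by field_simp
  rw [h4] at hlog
  calc C * u + C * (1 + Real.log x) ≤ C * u + C * (u + 2 / δ * u) := by
        have := mul_le_mul_of_nonneg_left (add_le_add hu1 hlog) hC
        linarith
    _ = C * (2 + 2 / δ) * u := by ring
    _ ≤ u * u := mul_le_mul_of_nonneg_right h2' (by linarith)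

variable {L : Type} [Fintype L]

/-- the data for bounded functions -/
noncomputable def funData {A₂ A₃ : ℕ} (θ : Sets A₂) {τ : Type} (U : ℕ → Finset τ) (hU : ∀ x, 2 ≤ x → (U x).card ≤ x ^ A₃)
    (G : τ → ℕ → (L → ℕ) → ℝ) (hper : ∀ t p n, p.Prime → G t p n = G t p (fun i => n i % p))
    (hb : ∀ t p n, p.Prime → |G t p n| ≤ 1) : Data L (A₂ + A₃) where
  κ := Finset ℕ × τ
  Λ := fun x => θ.S x ×ˢ U x
  card := by
    intro x hx
    rw [card_product, pow_add]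
    exact Nat.mul_le_mul (θ.card x) (hU x hx)
  P := fun x l => l.1.filter (fun p => p.Prime ∧ p ≤ x)
  prime := by
    intro x l p hp
    rw [mem_filter] at hp
    exact hp.2
  G := fun _ l p n => G l.2 p n
  per := by
    intro x l p n hp
    rw [mem_filter] at hp
    exact hper _ _ _ hp.2.1
  bound := by
    intro x l p n hp
    rw [mem_filter] at hp
    exact hb _ _ _ hp.2.1

theorem law_fun {A₂ A₃ : ℕ} (θ : Sets A₂) {τ : Type} (U : ℕ → Finset τ) (hU : ∀ x, 2 ≤ x → (U x).card ≤ x ^ A₃)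
    (G : τ → ℕ → (L → ℕ) → ℝ) (hper : ∀ t p n, p.Prime → G t p n = G t p (fun i => n i % p))
    (hb : ∀ t p n, p.Prime → |G t p n| ≤ 1) {δ : ℝ} {x : ℕ} {m : L → ℕ}
    (h : Law δ (funData θ U hU G hper hb) x m) : ∀ P ∈ θ.S x, ∀ t ∈ U x,
      |∑ p ∈ P, G t p m - ∑ p ∈ P, avg p (G t p)| ≤
        Real.sqrt (max 1 (∑ p ∈ P, avg p (fun n => G t p n ^ 2))) * (x : ℝ) ^ δ := by
  intro P hP t ht
  have h1 := h (P, t) (mem_product.2 ⟨hP, ht⟩)
  have h2 : P.filter (fun p => p.Prime ∧ p ≤ x) = P := filter_true_of_mem (fun p hp => θ.prime x P hP p hp)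
  have h3 : (funData θ U hU G hper hb).P x (P, t) = P := h2
  rw [h3] at h1
  exact h1

/-- functions whose averages are `O(1 / p)` -/
theorem centered [Nonempty L] {b : ℕ} (hb : 2 ≤ b) {δ : ℝ} (hδ : 0 < δ) (A B A₃ : ℕ) {τ : Type} (U : ℕ → Finset τ)
    (hU : ∀ x, 2 ≤ x → (U x).card ≤ x ^ A₃) (G : τ → ℕ → (L → ℕ) → ℝ)
    (hper : ∀ t p n, p.Prime → G t p n = G t p (fun i => n i % p)) {C : ℝ} (hC : 1 ≤ C)
    (hbd : ∀ t p n, p.Prime → |G t p n| ≤ C) (hav : ∀ t p, p.Prime → |avg p (G t p)| ≤ C / p) :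
    ForAlmostAll L b A (fun (θ : Sets B) x m => ∀ P ∈ θ.S x, ∀ t ∈ U x,
      |∑ p ∈ P, G t p m| ≤ Real.sqrt (max 1 P.card) * (x : ℝ) ^ δ) := by
  have hC0 : 0 < C := by linarith
  obtain ⟨x₁, hx₁⟩ := eventually_le hδ C hC0.le
  have hper' : ∀ t p n, p.Prime → G t p n / C = G t p (fun i => n i % p) / C := fun t p n hp => by rw [hper t p n hp]
  have hb' : ∀ t p n, p.Prime → |G t p n / C| ≤ 1 := fun t p n hp => by
    rw [abs_div, abs_of_pos hC0, div_le_one hC0]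
    exact hbd t p n hp
  refine forAlmostAll_of hb (show 0 < δ / 2 by positivity) (fun θ : Sets B => funData θ U hU (fun t p n => G t p n / C) hper' hb') (x₁ + 2) ?_
  intro θ x m hx h P hP t ht
  have hPr := θ.prime x P hP
  have h1 := law_fun θ U hU _ hper' hb' h P hP t ht
  have h2 : ∑ p ∈ P, avg p (fun n => (G t p n / C) ^ 2) ≤ P.card := by
    have : ∑ p ∈ P, avg p (fun n => (G t p n / C) ^ 2) ≤ ∑ p ∈ P, (1 : ℝ) := by
      apply sum_le_sum
      intro p hp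
      have h3 : avg p (fun n => (G t p n / C) ^ 2) ≤ avg (L := L) p (fun _ => 1) := by
        apply avg_mono
        intro n
        rw [sq_le_one_iff_abs_le_one]
        exact hb' t p n (hPr p hp).1
      rwa [avg_const (hPr p hp).1.one_lt.le] at h3
    simpa using this
  have h4 : Real.sqrt (max 1 (∑ p ∈ P, avg p (fun n => (G t p n / C) ^ 2))) ≤ Real.sqrt (max 1 P.card) :=
    Real.sqrt_le_sqrt (max_le_max le_rfl h2)
  have h5 : |∑ p ∈ P, avg p (fun n => G t p n / C)| ≤ 1 + Real.log x := by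
    refine (abs_sum_le_sum_abs _ _).trans (le_trans (sum_le_sum fun p hp => ?_) (sum_inv_primes hPr))
    rw [avg_div, abs_div, abs_of_pos hC0, div_le_iff₀ hC0]
    have := hav t p (hPr p hp).1
    calc |avg p (G t p)| ≤ C / p := this
      _ = 1 / p * C := by ring
  have h6 : ∑ p ∈ P, G t p m / C = (∑ p ∈ P, G t p m) / C := (sum_div _ _ _).symm
  rw [h6] at h1
  obtain ⟨W, hW⟩ : ∃ W, W = Real.sqrt (max 1 (P.card : ℝ)) := ⟨_, rfl⟩
  have hW1 : 1 ≤ W := by rw [hW, Real.one_le_sqrt]; exact le_max_left _ _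
  rw [← hW] at h4 ⊢
  have hxp : (0 : ℝ) ≤ (x : ℝ) ^ (δ / 2) := by positivity
  have h7 : |(∑ p ∈ P, G t p m) / C| ≤ W * (x : ℝ) ^ (δ / 2) + (1 + Real.log x) := by
    have h8 := abs_add_le ((∑ p ∈ P, G t p m) / C - ∑ p ∈ P, avg p (fun n => G t p n / C)) (∑ p ∈ P, avg p (fun n => G t p n / C))
    rw [sub_add_cancel] at h8
    have h9 := mul_le_mul_of_nonneg_right h4 hxp
    linarith
  rw [abs_div, abs_of_pos hC0, div_le_iff₀ hC0] at h7
  have hx2 : (1 : ℝ) ≤ x := by exact_mod_cast (by omega : 1 ≤ x)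
  have hlog : 0 ≤ Real.log x := Real.log_nonneg hx2
  calc |∑ p ∈ P, G t p m| ≤ (W * (x : ℝ) ^ (δ / 2) + (1 + Real.log x)) * C := h7
    _ ≤ (W * (x : ℝ) ^ (δ / 2) + W * (1 + Real.log x)) * C := by
        apply mul_le_mul_of_nonneg_right _ hC0.le
        have : 1 * (1 + Real.log x) ≤ W * (1 + Real.log x) := mul_le_mul_of_nonneg_right hW1 (by linarith)
        linarith
    _ = W * (C * (x : ℝ) ^ (δ / 2) + C * (1 + Real.log x)) := by ring
    _ ≤ W * (x : ℝ) ^ δ := mul_le_mul_of_nonneg_left (hx₁ x (by omega)) (by linarith)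

end Pool.Agent.Q235.FD
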