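import Mathlib

/-! The moments of a sum of `n` independent symmetric variables with the values `0`, `1`, `-1`. -/

set_option autoImplicit false

namespace Pool.Agent.Q235.FD

open Finset

/-- the moments of one variable -/
noncomputable def mu (θ : ℝ) (j : ℕ) : ℝ := if j = 0 then 1 else if Even j then θ else 0

/-- the moments of the sum of `n` independent variables -/
noncomputable def mom (θ : ℝ) : ℕ → ℕ → ℝ
  | 0, k => if k = 0 then 1 else 0
  | n + 1, k => ∑ j ∈ range (k + 1), mu θ j * mom θ n (k - j) * (k.choose j : ℝ)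

/-- the Gaussian moments -/
noncomputable def gm : ℕ → ℝ
  | 0 => 1
  | k + 1 => (2 * k + 1) * gm k

lemma gm_nonneg (k : ℕ) : 0 ≤ gm k := by
  induction k with
  | zero => simp [gm]
  | succ k ih => rw [gm]; positivity

lemma gm_eq (k : ℕ) : gm k = ((2 * k - 1).doubleFactorial : ℝ) := by
  induction k with
  | zero => simp [gm]
  | succ k ih =>
    rw [gm, ih]
    cases k with
    | zero => simp
    | succ k =>
      have e1 : 2 * (k + 1 + 1) - 1 = (2 * (k + 1) - 1) + 2 := by omega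
      rw [e1, Nat.doubleFactorial_add_two]
      have e2 : 2 * (k + 1) - 1 + 2 = 2 * (k + 1) + 1 := by omega
      rw [e2]
      push_cast
      ring

lemma mom_zero_right (θ : ℝ) (n : ℕ) : mom θ n 0 = 1 := by
  induction n with
  | zero => simp [mom]
  | succ n ih => simp [mom, ih, mu]

lemma mom_odd (θ : ℝ) (n : ℕ) : ∀ k, Odd k → mom θ n k = 0 := by
  induction n with
  | zero =>
    intro k hk
    rw [mom, if_neg (by rintro rfl; exact absurd hk (by decide))]
  | succ n ih =>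
    intro k hk
    rw [mom]
    apply sum_eq_zero
    intro j hj
    rw [mem_range] at hj
    by_cases h : Even j
    · rw [ih (k - j) (Nat.Odd.sub_even (by omega) hk h), mul_zero, zero_mul]
    · have : mu θ j = 0 := by
        unfold mu
        rw [if_neg (by rintro rfl; exact h (by decide)), if_neg h]
      rw [this, zero_mul, zero_mul]

lemma mu_abs {θ : ℝ} (h0 : 0 ≤ θ) (h1 : θ ≤ 1) (j : ℕ) : |mu θ j| ≤ 1 := by
  unfold mu
  split_ifs
  · simp
  · rw [abs_of_nonneg h0]; exact h1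
  · simp

lemma pow_diff (n : ℝ) (hn : 0 ≤ n) (k : ℕ) : ∃ R, (n + 1) ^ (k + 2) = n ^ (k + 2) + (k + 2) * n ^ (k + 1) + R ∧
    0 ≤ R ∧ R ≤ 2 ^ (k + 2) * (n + 1) ^ k := by
  induction k with
  | zero => exact ⟨1, by ring, by norm_num, by norm_num⟩
  | succ k ih =>
    obtain ⟨R, h1, h2, h3⟩ := ih
    refine ⟨(k + 2) * n ^ (k + 1) + R * (n + 1), ?_, by positivity, ?_⟩
    · have : (n + 1) ^ (k + 1 + 2) = (n + 1) ^ (k + 2) * (n + 1) := by ring
      rw [this, h1]
      push_cast
      ring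
    · have e1 : (k + 2 : ℝ) ≤ 2 ^ (k + 2) := by
        have := Nat.lt_two_pow_self (n := k + 2)
        exact_mod_cast this.le
      have e2 : n ^ (k + 1) ≤ (n + 1) ^ (k + 1) := pow_le_pow_left₀ hn (by linarith) _
      have e3 : (k + 2) * n ^ (k + 1) ≤ 2 ^ (k + 2) * (n + 1) ^ (k + 1) := mul_le_mul e1 e2 (by positivity) (by positivity)
      have e4 : R * (n + 1) ≤ 2 ^ (k + 2) * (n + 1) ^ k * (n + 1) := mul_le_mul_of_nonneg_right h3 (by linarith)
      calc (k + 2) * n ^ (k + 1) + R * (n + 1) ≤ 2 ^ (k + 2) * (n + 1) ^ (k + 1) + 2 ^ (k + 2) * (n + 1) ^ k * (n + 1) := add_le_add e3 e4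
        _ = 2 ^ (k + 1 + 2) * (n + 1) ^ (k + 1) := by ring

/-- the asymptotic expansion -/
theorem mom_even (k : ℕ) : ∃ C : ℝ, 0 ≤ C ∧ ∀ θ : ℝ, 0 ≤ θ → θ ≤ 1 → ∀ n : ℕ,
    |mom θ n (2 * k) - gm k * (θ * n) ^ k| ≤ C * (n : ℝ) ^ (k - 1) := by
  induction k using Nat.strong_induction_on with
  | _ k ih =>
    match k with
    | 0 =>
      refine ⟨0, le_rfl, fun θ _ _ n => ?_⟩
      rw [mul_zero, mom_zero_right]
      simp [gm]
    | 1 =>
      refine ⟨0, le_rfl, fun θ _ _ n => ?_⟩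
      have : mom θ n 2 = θ * n := by
        induction n with
        | zero => simp [mom]
        | succ n ih2 =>
          rw [mom, sum_range_succ, sum_range_succ, sum_range_one, mom_zero_right, Nat.sub_zero, ih2]
          have e0 : mu θ 0 = 1 := by simp [mu]
          have e1 : mu θ 1 = 0 := by simp [mu]
          have e2 : mu θ 2 = θ := by simp [mu]
          rw [e0, e1, e2]
          push_cast
          simp
          ring
      rw [mul_one, this]
      simp [gm]
    | k + 2 =>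
      -- bound for the lower moments
      have hB : ∃ B : ℝ, 0 ≤ B ∧ ∀ i, i ≤ k → ∀ θ : ℝ, 0 ≤ θ → θ ≤ 1 → ∀ n : ℕ, |mom θ n (2 * i)| ≤ B * ((n : ℝ) + 1) ^ k := by
        choose C hC0 hC using fun i : Fin (k + 1) => ih i.1 (by omega)
        refine ⟨∑ i : Fin (k + 1), (gm i.1 + C i), sum_nonneg fun i _ => add_nonneg (gm_nonneg _) (hC0 i), fun i hi θ h0 h1 n => ?_⟩
        have h2 := hC ⟨i, by omega⟩ θ h0 h1 n
        have h3 : gm i + C ⟨i, by omega⟩ ≤ ∑ i : Fin (k + 1), (gm i.1 + C i) :=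
          single_le_sum (f := fun i : Fin (k + 1) => gm i.1 + C i) (fun i _ => add_nonneg (gm_nonneg _) (hC0 i)) (mem_univ ⟨i, by omega⟩)
        have hn : (0 : ℝ) ≤ n := Nat.cast_nonneg n
        have h4 : gm i * (θ * n) ^ i ≤ gm i * ((n : ℝ) + 1) ^ k := by
          apply mul_le_mul_of_nonneg_left _ (gm_nonneg i)
          calc (θ * n) ^ i ≤ ((n : ℝ) + 1) ^ i := by
                apply pow_le_pow_left₀ (mul_nonneg h0 hn)
                nlinarith
            _ ≤ ((n : ℝ) + 1) ^ k := pow_le_pow_right₀ (by linarith) hi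
        have h5 : C ⟨i, by omega⟩ * (n : ℝ) ^ (i - 1) ≤ C ⟨i, by omega⟩ * ((n : ℝ) + 1) ^ k := by
          apply mul_le_mul_of_nonneg_left _ (hC0 _)
          calc (n : ℝ) ^ (i - 1) ≤ ((n : ℝ) + 1) ^ (i - 1) := pow_le_pow_left₀ hn (by linarith) _
            _ ≤ ((n : ℝ) + 1) ^ k := pow_le_pow_right₀ (by linarith) (by omega)
        have h6 : 0 ≤ gm i * (θ * n) ^ i := mul_nonneg (gm_nonneg i) (pow_nonneg (mul_nonneg h0 hn) _)
        have h7 : |mom θ n (2 * i)| ≤ |mom θ n (2 * i) - gm i * (θ * n) ^ i| + gm i * (θ * n) ^ i := by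
          have := abs_add_le (mom θ n (2 * i) - gm i * (θ * n) ^ i) (gm i * (θ * n) ^ i)
          rwa [sub_add_cancel, abs_of_nonneg h6] at this
        calc |mom θ n (2 * i)| ≤ C ⟨i, by omega⟩ * ((n : ℝ) + 1) ^ k + gm i * ((n : ℝ) + 1) ^ k := h7.trans (add_le_add (h2.trans h5) h4)
          _ = (gm i + C ⟨i, by omega⟩) * ((n : ℝ) + 1) ^ k := by ring
          _ ≤ _ := mul_le_mul_of_nonneg_right h3 (by positivity)
      obtain ⟨B, hB0, hB⟩ := hB
      obtain ⟨C1, hC10, hC1⟩ := ih (k + 1) (by omega)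
      -- the constant
      obtain ⟨W, hW⟩ : ∃ W : ℝ, W = ∑ j ∈ range (2 * (k + 2) + 1 - 3), B * ((2 * (k + 2)).choose (j + 3) : ℝ) := ⟨_, rfl⟩
      have hW0 : 0 ≤ W := by rw [hW]; exact sum_nonneg fun j _ => mul_nonneg hB0 (Nat.cast_nonneg _)
      obtain ⟨C, hC⟩ : ∃ C : ℝ, C = C1 * ((2 * (k + 2)).choose 2 : ℝ) + W + gm (k + 2) * 2 ^ (k + 2) := ⟨_, rfl⟩
      have hC0 : 0 ≤ C := by
        rw [hC]
        have := gm_nonneg (k + 2)
        positivity
      refine ⟨C, hC0, fun θ h0 h1 n => ?_⟩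
      have e9 : k + 2 - 1 = k + 1 := by omega
      rw [e9]
      induction n with
      | zero =>
        rw [mom, if_neg (by omega)]
        simp
      | succ n ih2 =>
        have hn : (0 : ℝ) ≤ n := Nat.cast_nonneg n
        have hrec : mom θ (n + 1) (2 * (k + 2)) = mom θ n (2 * (k + 2)) + θ * mom θ n (2 * (k + 1)) * ((2 * (k + 2)).choose 2 : ℝ) +
            ∑ j ∈ range (2 * (k + 2) + 1 - 3), mu θ (j + 3) * mom θ n (2 * (k + 2) - (j + 3)) * ((2 * (k + 2)).choose (j + 3) : ℝ) := by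
          rw [mom]
          have e1 : 2 * (k + 2) + 1 = (2 * (k + 2) + 1 - 3) + 1 + 1 + 1 := by omega
          rw [e1, sum_range_succ', sum_range_succ', sum_range_succ']
          have e0 : mu θ 0 = 1 := by simp [mu]
          have e2 : mu θ (0 + 1) = 0 := by simp [mu]
          have e3 : mu θ (0 + 1 + 1) = θ := by simp [mu]
          have e4 : 2 * (k + 2) - (0 + 1 + 1) = 2 * (k + 1) := by omega
          have e5 : (2 * (k + 2) + 1 - 3) + 1 + 1 + 1 - 3 = 2 * (k + 2) + 1 - 3 := by omega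
          rw [e0, e2, e3, e4, e5, Nat.sub_zero, Nat.choose_zero_right]
          push_cast
          ring
        have hsum : |∑ j ∈ range (2 * (k + 2) + 1 - 3), mu θ (j + 3) * mom θ n (2 * (k + 2) - (j + 3)) * ((2 * (k + 2)).choose (j + 3) : ℝ)| ≤
            W * ((n : ℝ) + 1) ^ k := by
          refine (abs_sum_le_sum_abs _ _).trans ?_
          rw [hW, sum_mul]
          apply sum_le_sum
          intro j hj
          rw [mem_range] at hj
          rw [abs_mul, abs_mul, abs_of_nonneg (show (0 : ℝ) ≤ ((2 * (k + 2)).choose (j + 3) : ℝ) from Nat.cast_nonneg _)]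
          have h2 : |mu θ (j + 3)| * |mom θ n (2 * (k + 2) - (j + 3))| ≤ B * ((n : ℝ) + 1) ^ k := by
            rcases Nat.even_or_odd j with hj2 | hj2
            · rw [mom_odd θ n _ (by obtain ⟨i, hi⟩ := hj2; exact ⟨k - i, by omega⟩), abs_zero, mul_zero]
              positivity
            · obtain ⟨i, hi⟩ := hj2
              have e1 : 2 * (k + 2) - (j + 3) = 2 * (k - i) := by omega
              rw [e1]
              calc |mu θ (j + 3)| * |mom θ n (2 * (k - i))| ≤ 1 * |mom θ n (2 * (k - i))| :=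
                    mul_le_mul_of_nonneg_right (mu_abs h0 h1 _) (abs_nonneg _)
                _ = |mom θ n (2 * (k - i))| := one_mul _
                _ ≤ _ := hB (k - i) (by omega) θ h0 h1 n
          calc |mu θ (j + 3)| * |mom θ n (2 * (k + 2) - (j + 3))| * ((2 * (k + 2)).choose (j + 3) : ℝ)
              ≤ B * ((n : ℝ) + 1) ^ k * ((2 * (k + 2)).choose (j + 3) : ℝ) := mul_le_mul_of_nonneg_right h2 (Nat.cast_nonneg _)
            _ = B * ((2 * (k + 2)).choose (j + 3) : ℝ) * ((n : ℝ) + 1) ^ k := by ring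
        obtain ⟨R, hR1, hR2, hR3⟩ := pow_diff n hn k
        have hch : ((2 * (k + 2)).choose 2 : ℝ) = (k + 2) * (2 * k + 3) := by
          rw [Nat.cast_choose_two]
          push_cast
          ring
        have hlow := hC1 θ h0 h1 n
        rw [Nat.add_sub_cancel] at hlow
        have hgm : gm (k + 2) = (2 * k + 3) * gm (k + 1) := by
          rw [gm]
          push_cast
          ring
        have key : mom θ (n + 1) (2 * (k + 2)) - gm (k + 2) * (θ * ((n + 1 : ℕ) : ℝ)) ^ (k + 2) =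
            (mom θ n (2 * (k + 2)) - gm (k + 2) * (θ * n) ^ (k + 2)) +
            θ * (mom θ n (2 * (k + 1)) - gm (k + 1) * (θ * n) ^ (k + 1)) * ((2 * (k + 2)).choose 2 : ℝ) +
            (∑ j ∈ range (2 * (k + 2) + 1 - 3), mu θ (j + 3) * mom θ n (2 * (k + 2) - (j + 3)) * ((2 * (k + 2)).choose (j + 3) : ℝ)) -
            gm (k + 2) * θ ^ (k + 2) * R := by
          rw [hrec, mul_pow, mul_pow, mul_pow]
          push_cast
          rw [hR1, hch, hgm]
          ring
        rw [key]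
        have b1 : |θ * (mom θ n (2 * (k + 1)) - gm (k + 1) * (θ * n) ^ (k + 1)) * ((2 * (k + 2)).choose 2 : ℝ)| ≤
            C1 * ((2 * (k + 2)).choose 2 : ℝ) * ((n : ℝ) + 1) ^ k := by
          rw [abs_mul, abs_mul, abs_of_nonneg h0, abs_of_nonneg (show (0 : ℝ) ≤ ((2 * (k + 2)).choose 2 : ℝ) from Nat.cast_nonneg _)]
          have h3 : (n : ℝ) ^ k ≤ ((n : ℝ) + 1) ^ k := pow_le_pow_left₀ hn (by linarith) _
          have h4 : θ * |mom θ n (2 * (k + 1)) - gm (k + 1) * (θ * n) ^ (k + 1)| ≤ C1 * ((n : ℝ) + 1) ^ k := by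
            calc θ * |mom θ n (2 * (k + 1)) - gm (k + 1) * (θ * n) ^ (k + 1)| ≤ 1 * (C1 * (n : ℝ) ^ k) :=
                  mul_le_mul h1 hlow (abs_nonneg _) (by norm_num)
              _ ≤ C1 * ((n : ℝ) + 1) ^ k := by rw [one_mul]; exact mul_le_mul_of_nonneg_left h3 hC10
          calc _ ≤ C1 * ((n : ℝ) + 1) ^ k * ((2 * (k + 2)).choose 2 : ℝ) := mul_le_mul_of_nonneg_right h4 (Nat.cast_nonneg _)
            _ = _ := by ring
        have b2 : |gm (k + 2) * θ ^ (k + 2) * R| ≤ gm (k + 2) * 2 ^ (k + 2) * ((n : ℝ) + 1) ^ k := by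
          rw [abs_of_nonneg (mul_nonneg (mul_nonneg (gm_nonneg _) (pow_nonneg h0 _)) hR2)]
          have h3 : θ ^ (k + 2) ≤ 1 := pow_le_one₀ h0 h1
          have h4 : gm (k + 2) * θ ^ (k + 2) ≤ gm (k + 2) := mul_le_of_le_one_right (gm_nonneg _) h3
          calc gm (k + 2) * θ ^ (k + 2) * R ≤ gm (k + 2) * (2 ^ (k + 2) * ((n : ℝ) + 1) ^ k) :=
                mul_le_mul h4 hR3 hR2 (gm_nonneg _)
            _ = _ := by ring
        have b3 : ((n : ℝ)) ^ (k + 1) + ((n : ℝ) + 1) ^ k ≤ (((n + 1 : ℕ) : ℝ)) ^ (k + 1) := by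
          push_cast
          have h3 : (n : ℝ) ^ k ≤ ((n : ℝ) + 1) ^ k := pow_le_pow_left₀ hn (by linarith) _
          calc (n : ℝ) ^ (k + 1) + ((n : ℝ) + 1) ^ k = (n : ℝ) ^ k * n + ((n : ℝ) + 1) ^ k := by rw [pow_succ]
            _ ≤ ((n : ℝ) + 1) ^ k * n + ((n : ℝ) + 1) ^ k := by
                have := mul_le_mul_of_nonneg_right h3 hn
                linarith
            _ = ((n : ℝ) + 1) ^ (k + 1) := by ring
        have b4 : ∀ a c d e : ℝ, |a + c + d - e| ≤ |a| + |c| + |d| + |e| := by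
          intro a c d e
          have := abs_add_le a c
          have := abs_add_le (a + c) d
          have := abs_sub (a + c + d) e
          linarith
        calc _ ≤ C * (n : ℝ) ^ (k + 1) + C1 * ((2 * (k + 2)).choose 2 : ℝ) * ((n : ℝ) + 1) ^ k + W * ((n : ℝ) + 1) ^ k +
              gm (k + 2) * 2 ^ (k + 2) * ((n : ℝ) + 1) ^ k := (b4 _ _ _ _).trans (by linarith)
          _ = C * ((n : ℝ) ^ (k + 1) + ((n : ℝ) + 1) ^ k) := by rw [hC]; ring
          _ ≤ _ := mul_le_mul_of_nonneg_left b3 hC0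

end Pool.Agent.Q235.FD
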