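import Pool.Agent.Q235.FD.Tools
import Pool.Agent.Q235.FD.Mom

/-! Averages over the monic polynomials of degree `D` modulo `p`. -/

set_option autoImplicit false

namespace Pool.Agent.Q235.FD

open Finset

/-! ### tuples of residues -/

lemma avg_zmod {L : Type} [Fintype L] [DecidableEq L] {p : ℕ} [Fact p.Prime] (F : (L → ZMod p) → ℝ) :
    avg p (fun n : L → ℕ => F (fun l => (n l : ZMod p))) = (∑ v : L → ZMod p, F v) / (p : ℝ) ^ Fintype.card L := by
  unfold avg
  congr 1
  refine sum_bij (fun n _ => fun l => (n l : ZMod p)) ?_ ?_ ?_ ?_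
  · intro n _
    exact mem_univ _
  · intro n hn n' hn' h
    simp only [Fintype.mem_piFinset, mem_range] at hn hn'
    funext l
    have h1 := congrFun h l
    beta_reduce at h1
    rw [ZMod.natCast_eq_natCast_iff', Nat.mod_eq_of_lt (hn l), Nat.mod_eq_of_lt (hn' l)] at h1
    exact h1
  · intro v _
    refine ⟨fun l => (v l).val, ?_, ?_⟩
    · simp only [Fintype.mem_piFinset, mem_range]
      exact fun l => ZMod.val_lt _
    · funext l
      exact ZMod.natCast_zmod_val _
  · intro n _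
    rfl

section

variable {D p : ℕ} [Fact p.Prime]

/-- the value at `z` of the monic polynomial with the coefficients `v` -/
def ev (v : Fin D → ZMod p) (z : ZMod p) : ZMod p := z ^ D + ∑ i : Fin D, v i * z ^ (i : ℕ)

lemma ev_add (v w : Fin D → ZMod p) (c z : ZMod p) : ev (v + c • w) z = ev v z + c * ∑ i : Fin D, w i * z ^ (i : ℕ) := by
  unfold ev
  rw [mul_sum, add_assoc, ← sum_add_distrib]
  congr 1
  refine sum_congr rfl fun i _ => ?_
  rw [Pi.add_apply, Pi.smul_apply, smul_eq_mul]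
  ring

lemma key (F : (Fin D → ZMod p) → ℝ) (g : ZMod p → ℝ) (z : ZMod p) (w : Fin D → ZMod p)
    (hF : ∀ (v : Fin D → ZMod p) (c : ZMod p), F (v + c • w) = F v) (hw : ∑ i : Fin D, w i * z ^ (i : ℕ) ≠ 0) :
    ∑ v, F v * g (ev v z) = (∑ v, F v) * ((∑ c, g c) / p) := by
  have hp0 : (p : ℝ) ≠ 0 := by exact_mod_cast (Fact.out : p.Prime).ne_zero
  have h1 : ∀ c : ZMod p, ∑ v, F v * g (ev v z) = ∑ v, F v * g (ev v z + c * ∑ i : Fin D, w i * z ^ (i : ℕ)) := by
    intro c
    rw [← Equiv.sum_comp (Equiv.addRight (c • w))]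
    refine sum_congr rfl fun v _ => ?_
    rw [Equiv.coe_addRight, hF, ev_add]
  have h2 : (p : ℝ) * ∑ v, F v * g (ev v z) = ∑ c : ZMod p, ∑ v, F v * g (ev v z + c * ∑ i : Fin D, w i * z ^ (i : ℕ)) := by
    rw [← sum_congr rfl (fun c _ => h1 c), sum_const, card_univ, ZMod.card, nsmul_eq_mul]
  have h3 : ∀ v : Fin D → ZMod p, ∑ c : ZMod p, g (ev v z + c * ∑ i : Fin D, w i * z ^ (i : ℕ)) = ∑ c, g c := by
    intro v
    refine Function.Bijective.sum_comp (e := fun c => ev v z + c * ∑ i : Fin D, w i * z ^ (i : ℕ)) ?_ g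
    rw [← Finite.injective_iff_bijective]
    intro c c' h
    beta_reduce at h
    exact mul_right_cancel₀ hw (add_left_cancel h)
  rw [sum_comm] at h2
  have h4 : ∀ v : Fin D → ZMod p, ∑ c : ZMod p, F v * g (ev v z + c * ∑ i : Fin D, w i * z ^ (i : ℕ)) = F v * ∑ c, g c := by
    intro v
    rw [← mul_sum, h3 v]
  rw [sum_congr rfl (fun v _ => h4 v), ← sum_mul] at h2
  field_simp
  linarith

open Polynomial in
lemma exists_dir (B : Finset (ZMod p)) (hB : B.card < D) (z : ZMod p) (hz : z ∉ B) :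
    ∃ w : Fin D → ZMod p, (∀ b ∈ B, ∑ i : Fin D, w i * b ^ (i : ℕ) = 0) ∧ ∑ i : Fin D, w i * z ^ (i : ℕ) ≠ 0 := by
  obtain ⟨W, hW⟩ : ∃ W : (ZMod p)[X], W = ∏ b ∈ B, (X - C b) := ⟨_, rfl⟩
  have hdeg : W.natDegree < D := by
    rw [hW, natDegree_prod_of_monic _ _ (fun b _ => monic_X_sub_C b)]
    simpa using hB
  have hev : ∀ y : ZMod p, ∑ i : Fin D, W.coeff i * y ^ (i : ℕ) = W.eval y := by
    intro y
    rw [eval_eq_sum_range' hdeg, Finset.sum_range]
  refine ⟨fun i => W.coeff i, fun b hb => ?_, ?_⟩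
  · rw [hev, hW, eval_prod]
    exact prod_eq_zero hb (by simp)
  · rw [hev, hW, eval_prod]
    refine prod_ne_zero_iff.2 fun b hb => ?_
    rw [eval_sub, eval_X, eval_C]
    intro h
    exact hz (by rw [sub_eq_zero.1 h]; exact hb)

lemma ev_dir {B : Finset (ZMod p)} {w : Fin D → ZMod p} (hw : ∀ b ∈ B, ∑ i : Fin D, w i * b ^ (i : ℕ) = 0)
    (v : Fin D → ZMod p) (c : ZMod p) {b : ZMod p} (hb : b ∈ B) : ev (v + c • w) b = ev v b := by
  rw [ev_add, hw b hb, mul_zero, add_zero]

/-- values at at most `D` points are independent -/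
theorem indep (B : Finset (ZMod p)) : ∀ (_ : B.card ≤ D) (h : ZMod p → ZMod p → ℝ),
    ∑ v : Fin D → ZMod p, ∏ b ∈ B, h b (ev v b) = (p : ℝ) ^ D * ∏ b ∈ B, ((∑ c, h b c) / p) := by
  classical
  induction B using Finset.induction_on with
  | empty =>
    intro _ h
    simp only [prod_empty, mul_one, sum_const, card_univ, nsmul_eq_mul, Fintype.card_pi, prod_const, ZMod.card, Fintype.card_fin]
    push_cast
    rfl
  | insert z B hz ih =>
    intro hB h
    rw [card_insert_of_notMem hz] at hB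
    obtain ⟨w, hw1, hw2⟩ := exists_dir (D := D) B (by omega) z hz
    have h1 := key (fun v => ∏ b ∈ B, h b (ev v b)) (h z) z w (fun v c => prod_congr rfl fun b hb => by rw [ev_dir hw1 v c hb]) hw2
    rw [ih (by omega) h] at h1
    rw [prod_insert hz, ← mul_assoc, mul_comm ((p : ℝ) ^ D), mul_assoc, mul_comm _ ((p : ℝ) ^ D * _), ← h1]
    refine sum_congr rfl fun v _ => ?_
    rw [prod_insert hz, mul_comm]

end

end Pool.Agent.Q235.FD
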