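import Pool.Agent.Q235.FD.Plane

/-! Pencils and linear systems of hyperelliptic curves with prescribed sections. -/

set_option autoImplicit false

namespace Pool.Agent.Q235.FD

open Finset Polynomial

section

variable {p : ℕ} [Fact p.Prime]

lemma monic_bound (hp : p ≠ 2) {D : ℕ} (hD : Odd D) (P : (ZMod p)[X]) (hP : P.Monic) (hdeg : P.natDegree = D) :
    |∑ z : ZMod p, qc (P.eval z)| ≤ ((D : ℝ) - 1) * Real.sqrt p := by
  have h := chs_bound (D := D) hp hD (fun k : Fin D => P.coeff k)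
  refine le_trans (le_of_eq ?_) h
  unfold chs ev
  congr 1
  refine sum_congr rfl fun z _ => ?_
  congr 1
  rw [eval_eq_sum_range, hdeg, sum_range_succ, ← hdeg, hP.coeff_natDegree, one_mul, add_comm, hdeg, Finset.sum_range]

end

/-- The right-hand side of `y^2 = f(x)^2 + (x - c_1) ... (x - c_s) (x^q + ∑ v(i,j) x^i t^j)`, a family of curves with the parameters
`t = (t_1, ..., t_m)`; the sum is over `i < q` and `j ∈ {0, ..., E}^m`. -/
noncomputable def pencil {s q m E : ℕ} (f : ℤ[X]) (c : Fin s → ℤ) {R : Type} [CommRing R] (v : Fin q × (Fin m → Fin (E + 1)) → R)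
    (x : R) (t : Fin m → R) : R :=
  (aeval x f) ^ 2 + (∏ i, (x - (c i : R))) * (x ^ q + ∑ l, v l * x ^ (l.1 : ℕ) * ∏ k, t k ^ (l.2 k : ℕ))

/-- The average `p^(-m) ∑ a_p(C_t)` over the values of the parameters modulo `p`; here `a_p(C_t)` is `p` minus the number of the affine
points of the curve `C_t` over the field with `p` elements (there is one point at infinity), so the average is `p - N / p^m`, where `N`
is the number of all solutions `(x, t, y)` modulo `p`. -/
noncomputable def fibreAverage {s q m E : ℕ} (f : ℤ[X]) (c : Fin s → ℤ) (p : ℕ) (n : Fin q × (Fin m → Fin (E + 1)) → ℕ) : ℝ :=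
  p - (Nat.card {P : (ZMod p × (Fin m → ZMod p)) × ZMod p // P.2 ^ 2 = pencil f c (fun l => (n l : ZMod p)) P.1.1 P.1.2} : ℝ) / (p : ℝ) ^ m

section

variable {s q m E p : ℕ} {f : ℤ[X]} {c : Fin s → ℤ}

lemma fibreAverage_mod (n : Fin q × (Fin m → Fin (E + 1)) → ℕ) : fibreAverage f c p (fun l => n l % p) = fibreAverage f c p n := by
  unfold fibreAverage
  simp only [ZMod.natCast_mod]

/-- the linear part without the factor -/
def plin {R : Type} [CommRing R] (w : Fin q × (Fin m → Fin (E + 1)) → R) (x : R) (t : Fin m → R) : R :=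
  ∑ l, w l * (x ^ (l.1 : ℕ) * ∏ k, t k ^ (l.2 k : ℕ))

lemma pencil_add {R : Type} [CommRing R] (v w : Fin q × (Fin m → Fin (E + 1)) → R) (a x : R) (t : Fin m → R) :
    pencil f c (v + a • w) x t = pencil f c v x t + a * ((∏ i, (x - (c i : R))) * plin w x t) := by
  unfold pencil plin
  have e : ∑ l, (v + a • w) l * x ^ (l.1 : ℕ) * ∏ k, t k ^ (l.2 k : ℕ) =
      ∑ l, v l * x ^ (l.1 : ℕ) * ∏ k, t k ^ (l.2 k : ℕ) + a * ∑ l, w l * (x ^ (l.1 : ℕ) * ∏ k, t k ^ (l.2 k : ℕ)) := by
    rw [mul_sum, ← sum_add_distrib]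
    refine sum_congr rfl fun l _ => ?_
    rw [Pi.add_apply, Pi.smul_apply, smul_eq_mul]
    ring
  rw [e]
  ring

lemma plin_single {R : Type} [CommRing R] [DecidableEq (Fin q × (Fin m → Fin (E + 1)))] (l : Fin q × (Fin m → Fin (E + 1)))
    (a x : R) (t : Fin m → R) :
    plin (Pi.single l a) x t = a * (x ^ (l.1 : ℕ) * ∏ k, t k ^ (l.2 k : ℕ)) := by
  unfold plin
  rw [sum_eq_single_of_mem l (mem_univ l)]
  · rw [Pi.single_eq_same]
  · intro l' _ h
    rw [Pi.single_eq_of_ne h, zero_mul]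

lemma plin_sub {R : Type} [CommRing R] (v w : Fin q × (Fin m → Fin (E + 1)) → R) (x : R) (t : Fin m → R) :
    plin (v - w) x t = plin v x t - plin w x t := by
  unfold plin
  rw [← sum_sub_distrib]
  refine sum_congr rfl fun l _ => ?_
  rw [Pi.sub_apply]
  ring

variable [Fact p.Prime]

/-- the points of the sections modulo `p` -/
def sec (c : Fin s → ℤ) (p : ℕ) [Fact p.Prime] : Finset (ZMod p) := univ.image (fun i => (c i : ZMod p))

lemma prod_ne_zero_of {x : ZMod p} (hx : x ∉ sec c p) : ∏ i, (x - (c i : ZMod p)) ≠ 0 := by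
  rw [prod_ne_zero_iff]
  intro i _ h
  exact hx (mem_image.2 ⟨i, mem_univ _, (sub_eq_zero.1 h).symm⟩)

lemma prod_zero_of {x : ZMod p} (hx : x ∈ sec c p) : ∏ i, (x - (c i : ZMod p)) = 0 := by
  obtain ⟨i, _, hi⟩ := mem_image.1 hx
  exact prod_eq_zero (mem_univ i) (sub_eq_zero.2 hi.symm)

/-- the sum over the points outside the sections -/
noncomputable def outside (f : ℤ[X]) (c : Fin s → ℤ) (v : Fin q × (Fin m → Fin (E + 1)) → ZMod p) : ℝ :=
  ∑ P : {x : ZMod p // x ∉ sec c p} × (Fin m → ZMod p), qc (pencil f c v P.1.1 P.2)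

/-- the number of the sections modulo `p` -/
noncomputable def rankMod (f : ℤ[X]) (c : Fin s → ℤ) (p : ℕ) [Fact p.Prime] : ℕ :=
  ((sec c p).filter (fun x => aeval x f ≠ 0)).card

lemma total_eq (v : Fin q × (Fin m → Fin (E + 1)) → ZMod p) :
    ∑ a : ZMod p × (Fin m → ZMod p), qc (pencil f c v a.1 a.2) = rankMod f c p * (p : ℝ) ^ m + outside f c v := by
  classical
  unfold outside
  rw [Fintype.sum_prod_type, Fintype.sum_prod_type]
  have h1 := Fintype.sum_subtype_add_sum_subtype (fun x : ZMod p => x ∈ sec c p) (fun x => ∑ t : Fin m → ZMod p, qc (pencil f c v x t))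
  rw [← h1]
  congr 1
  have h2 : ∀ x ∈ sec c p, ∑ t : Fin m → ZMod p, qc (pencil f c v x t) = if aeval x f ≠ 0 then (p : ℝ) ^ m else 0 := by
    intro x hx
    have h3 : ∀ t : Fin m → ZMod p, qc (pencil f c v x t) = if aeval x f ≠ 0 then 1 else 0 := by
      intro t
      unfold pencil
      rw [prod_zero_of hx, zero_mul, add_zero]
      split_ifs with h
      · unfold qc
        rw [quadraticChar_sq_one' h]
        norm_num
      · rw [not_not] at h
        rw [h]
        unfold qc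
        simp
    rw [sum_congr rfl (fun t _ => h3 t), sum_const, card_univ, nsmul_eq_mul]
    split_ifs
    · simp [ZMod.card]
    · simp
  have h5 : ∑ x ∈ sec c p, ∑ t : Fin m → ZMod p, qc (pencil f c v x t) = rankMod f c p * (p : ℝ) ^ m := by
    rw [sum_congr rfl h2, ← sum_filter, sum_const, nsmul_eq_mul]
    rfl
  exact (Finset.sum_subtype (sec c p) (fun x => Iff.rfl) (fun x => ∑ t : Fin m → ZMod p, qc (pencil f c v x t))).symm.trans h5

lemma fibreAverage_eq (hp : p ≠ 2) (n : Fin q × (Fin m → Fin (E + 1)) → ℕ) :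
    fibreAverage f c p n = -(rankMod f c p : ℝ) - outside f c (fun l => (n l : ZMod p)) / (p : ℝ) ^ m := by
  classical
  have hp0 : (p : ℝ) ≠ 0 := by exact_mod_cast (Fact.out : p.Prime).ne_zero
  unfold fibreAverage
  rw [count_sq hp (fun a : ZMod p × (Fin m → ZMod p) => pencil f c (fun l => (n l : ZMod p)) a.1 a.2), total_eq]
  have e : (Fintype.card (ZMod p × (Fin m → ZMod p)) : ℝ) = p * (p : ℝ) ^ m := by
    rw [Fintype.card_prod, ZMod.card, Fintype.card_pi]
    simp [ZMod.card]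
  rw [e]
  field_simp
  ring

lemma outside_moments (hp : p ≠ 2) (hq : 2 ≤ q) (hE : 1 ≤ E) :
    ∑ v : Fin q × (Fin m → Fin (E + 1)) → ZMod p, outside f c v = 0 ∧
    ∑ v : Fin q × (Fin m → Fin (E + 1)) → ZMod p, outside f c v ^ 2 ≤
      (p * (p : ℝ) ^ m) * (p : ℝ) ^ Fintype.card (Fin q × (Fin m → Fin (E + 1))) := by
  classical
  have hq0 : 0 < q := by omega
  obtain ⟨o, ho⟩ : ∃ o : Fin m → Fin (E + 1), o = fun _ => 0 := ⟨_, rfl⟩
  have h := pair_law (L := Fin q × (Fin m → Fin (E + 1))) (p := p) (ι := {x : ZMod p // x ∉ sec c p} × (Fin m → ZMod p)) hp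
    (fun P v => pencil f c v P.1.1 P.2) (fun P w => (∏ i, (P.1.1 - (c i : ZMod p))) * plin w P.1.1 P.2)
    (fun P v a w => pencil_add v w a _ _) (fun P => by
      refine ⟨Pi.single (⟨0, hq0⟩, o) 1, mul_ne_zero (prod_ne_zero_of P.1.2) ?_⟩
      rw [plin_single, ho]
      simp) (fun P P' hne => by
      by_cases hx : P.1.1 = P'.1.1
      · have ht : P.2 ≠ P'.2 := fun h' => hne (Prod.ext (Subtype.ext hx) h')
        obtain ⟨k, hk⟩ := Function.ne_iff.1 ht
        obtain ⟨u, hu⟩ : ∃ u : Fin m → Fin (E + 1), u = Pi.single k ⟨1, by omega⟩ := ⟨_, rfl⟩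
        have e1 : ∀ t : Fin m → ZMod p, ∏ j, t j ^ (u j : ℕ) = t k := by
          intro t
          rw [prod_eq_single_of_mem k (mem_univ k)]
          · rw [hu, Pi.single_eq_same, pow_one]
          · intro j _ hj
            rw [hu, Pi.single_eq_of_ne hj]
            exact pow_zero _
        refine ⟨Pi.single (⟨0, hq0⟩, u) 1 - Pi.single (⟨0, hq0⟩, o) (P.2 k), Or.inl ⟨?_, mul_ne_zero (prod_ne_zero_of P'.1.2) ?_⟩⟩
        · rw [plin_sub, plin_single, plin_single, e1, ho]
          simp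
        · rw [plin_sub, plin_single, plin_single, e1, ho]
          simp only [pow_zero, one_mul, Fin.val_zero, prod_const_one, mul_one]
          exact sub_ne_zero.2 (Ne.symm hk)
      · refine ⟨Pi.single (⟨1, by omega⟩, o) 1 - Pi.single (⟨0, hq0⟩, o) P.1.1, Or.inl ⟨?_, mul_ne_zero (prod_ne_zero_of P'.1.2) ?_⟩⟩
        · rw [plin_sub, plin_single, plin_single, ho]
          simp
        · rw [plin_sub, plin_single, plin_single, ho]
          simp only [pow_zero, pow_one, one_mul, Fin.val_zero, prod_const_one, mul_one]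
          exact sub_ne_zero.2 (Ne.symm hx))
  refine ⟨h.1, h.2.trans ?_⟩
  apply mul_le_mul_of_nonneg_right _ (by positivity)
  have e : Fintype.card ({x : ZMod p // x ∉ sec c p} × (Fin m → ZMod p)) ≤ p * p ^ m := by
    rw [Fintype.card_prod]
    apply Nat.mul_le_mul
    · exact (Fintype.card_subtype_le _).trans (by rw [ZMod.card])
    · rw [Fintype.card_pi]; simp [ZMod.card]
  exact_mod_cast e

/-- the polynomial of the fibre -/
lemma fibre_poly (hf : 2 * f.natDegree < s + q) (v : Fin q × (Fin m → Fin (E + 1)) → ZMod p) (t : Fin m → ZMod p) :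
    ∃ P : (ZMod p)[X], P.Monic ∧ P.natDegree = s + q ∧ ∀ x, P.eval x = pencil f c v x t := by
  obtain ⟨R, hR⟩ : ∃ R : (ZMod p)[X], R = X ^ q + ∑ l, C (v l * ∏ k, t k ^ (l.2 k : ℕ)) * X ^ (l.1 : ℕ) := ⟨_, rfl⟩
  have hlow : (∑ l : Fin q × (Fin m → Fin (E + 1)), C (v l * ∏ k, t k ^ (l.2 k : ℕ)) * (X : (ZMod p)[X]) ^ (l.1 : ℕ)).degree < q := by
    refine mem_degreeLT.1 (Submodule.sum_mem _ fun l _ => mem_degreeLT.2 ?_)
    refine (degree_C_mul_X_pow_le _ _).trans_lt ?_
    exact_mod_cast l.1.2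
  have hRm : R.Monic := by rw [hR]; exact monic_X_pow_add (hlow.trans_le (by simp))
  have hRd : R.natDegree = q := by
    rw [hR]
    exact natDegree_eq_of_degree_eq_some (by rw [degree_add_eq_left_of_degree_lt (by rw [degree_X_pow]; exact hlow), degree_X_pow])
  obtain ⟨W, hW⟩ : ∃ W : (ZMod p)[X], W = ∏ i, (X - C (c i : ZMod p)) := ⟨_, rfl⟩
  have hWm : W.Monic := by rw [hW]; exact monic_prod_of_monic _ _ fun i _ => monic_X_sub_C _
  have hWd : W.natDegree = s := by
    rw [hW, natDegree_prod_of_monic _ _ (fun b _ => monic_X_sub_C _), sum_congr rfl (fun i _ => natDegree_X_sub_C _)]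
    simp
  obtain ⟨f', hf'⟩ : ∃ f' : (ZMod p)[X], f' = f.map (algebraMap ℤ (ZMod p)) := ⟨_, rfl⟩
  have hdf : (f' ^ 2).natDegree < (W * R).natDegree := by
    rw [hWm.natDegree_mul hRm, hWd, hRd]
    refine lt_of_le_of_lt (natDegree_pow_le.trans ?_) hf
    rw [hf']
    exact Nat.mul_le_mul_left 2 natDegree_map_le
  have hdf' : (f' ^ 2).degree < (W * R).degree := degree_lt_degree hdf
  refine ⟨f' ^ 2 + W * R, (hWm.mul hRm).add_of_right hdf', ?_, ?_⟩
  · rw [natDegree_add_eq_right_of_natDegree_lt hdf, hWm.natDegree_mul hRm, hWd, hRd]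
  · intro x
    rw [eval_add, eval_mul, eval_pow, hf', hW, hR, eval_prod, eval_add, eval_pow, eval_X, eval_finsetSum]
    unfold pencil
    rw [eval_map_algebraMap]
    congr 2
    · refine prod_congr rfl fun i _ => ?_
      rw [eval_sub, eval_X, eval_C]
    · congr 1
      refine sum_congr rfl fun l _ => ?_
      rw [eval_mul, eval_C, eval_pow, eval_X]
      ring

lemma rankMod_le : (rankMod f c p : ℝ) ≤ s := by
  have h : rankMod f c p ≤ s := by
    unfold rankMod sec
    refine (card_filter_le _ _).trans (card_image_le.trans ?_)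
    simp
  exact_mod_cast h

lemma outside_bound (hp : p ≠ 2) (hodd : Odd (s + q)) (hf : 2 * f.natDegree < s + q) (v : Fin q × (Fin m → Fin (E + 1)) → ZMod p) :
    |outside f c v / (p : ℝ) ^ m| ≤ (s + q + s) * Real.sqrt p := by
  classical
  have hp1 : (1 : ℝ) ≤ p := by exact_mod_cast (Fact.out : p.Prime).one_lt.le
  have hs1 : 1 ≤ Real.sqrt p := Real.one_le_sqrt.2 hp1
  have hpm : (0 : ℝ) < (p : ℝ) ^ m := by positivity
  have h1 : |∑ a : ZMod p × (Fin m → ZMod p), qc (pencil f c v a.1 a.2)| ≤ (p : ℝ) ^ m * (((s + q : ℕ) : ℝ) * Real.sqrt p) := by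
    rw [Fintype.sum_prod_type_right]
    refine (abs_sum_le_sum_abs _ _).trans
      ((sum_le_sum (g := fun _ : Fin m → ZMod p => ((s + q : ℕ) : ℝ) * Real.sqrt p) fun t _ => ?_).trans (le_of_eq ?_))
    · obtain ⟨P, hP1, hP2, hP3⟩ := fibre_poly (c := c) hf v t
      have h2 := monic_bound hp hodd P hP1 hP2
      simp only [hP3] at h2
      refine h2.trans ?_
      apply mul_le_mul_of_nonneg_right _ (by positivity)
      linarith
    · rw [sum_const, card_univ, nsmul_eq_mul]
      simp [ZMod.card]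
  rw [total_eq] at h1
  have h3 := rankMod_le (p := p) (f := f) (c := c)
  have h4 : (0 : ℝ) ≤ rankMod f c p := Nat.cast_nonneg _
  push_cast at h1
  rw [abs_le] at h1
  rw [abs_div, abs_of_pos hpm, div_le_iff₀ hpm, abs_le]
  have h5 : (rankMod f c p : ℝ) * (p : ℝ) ^ m ≤ s * Real.sqrt p * (p : ℝ) ^ m := by
    apply mul_le_mul_of_nonneg_right _ hpm.le
    nlinarith
  have h6 : 0 ≤ (rankMod f c p : ℝ) * (p : ℝ) ^ m := by positivity
  have h7 : 0 ≤ s * Real.sqrt p * (p : ℝ) ^ m := by positivity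
  constructor <;> nlinarith

lemma fibreAverage_two (n : Fin q × (Fin m → Fin (E + 1)) → ℕ) : fibreAverage f c 2 n = 0 := by
  have e1 : ∀ {α : Type} (φ : α → ZMod 2), Nat.card {P : α × ZMod 2 // P.2 ^ 2 = φ P.1} = Nat.card α := by
    intro α φ
    refine Nat.card_congr ⟨fun P => P.1.1, fun a => ⟨(a, φ a), sq_two _⟩, fun P => ?_, fun a => rfl⟩
    apply Subtype.ext
    apply Prod.ext
    · rfl
    · show φ P.1.1 = P.1.2
      rw [← P.2, sq_two]
  unfold fibreAverage
  rw [e1 (fun a : ZMod 2 × (Fin m → ZMod 2) => pencil f c (fun l => (n l : ZMod 2)) a.1 a.2)]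
  have e2 : Nat.card (ZMod 2 × (Fin m → ZMod 2)) = 2 * 2 ^ m := by
    rw [Nat.card_prod, Nat.card_zmod, Nat.card_fun, Nat.card_zmod]
    simp
  rw [e2]
  push_cast
  field_simp
  ring

lemma avg_fibre (hp : p ≠ 2) (hq : 2 ≤ q) (hE : 1 ≤ E) :
    avg p (fun n : Fin q × (Fin m → Fin (E + 1)) → ℕ => fibreAverage f c p n) = -(rankMod f c p : ℝ) := by
  classical
  have e : (fun n : Fin q × (Fin m → Fin (E + 1)) → ℕ => fibreAverage f c p n) =
      fun n => -(rankMod f c p : ℝ) - outside f c (fun l => (n l : ZMod p)) / (p : ℝ) ^ m := funext fun n => fibreAverage_eq hp n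
  rw [e, avg_sub, avg_const (Fact.out : p.Prime).one_lt.le, avg_zmod (fun v => outside f c v / (p : ℝ) ^ m), ← sum_div,
    (outside_moments hp hq hE).1]
  simp

lemma rankMod_eq (hc : Function.Injective c) (hfc : ∀ i, f.eval (c i) ≠ 0)
    (hp : ∀ i j, (c i - c j).natAbs < p) (hp' : ∀ i, (f.eval (c i)).natAbs < p) : rankMod f c p = s := by
  classical
  have key : ∀ z : ℤ, z.natAbs < p → (z : ZMod p) = 0 → z = 0 := by
    intro z hz h
    rw [ZMod.intCast_zmod_eq_zero_iff_dvd] at h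
    exact Int.eq_zero_of_abs_lt_dvd h (by rw [Int.abs_eq_natAbs]; exact_mod_cast hz)
  unfold rankMod
  rw [filter_true_of_mem, sec, card_image_of_injective, card_univ, Fintype.card_fin]
  · intro i j h
    apply hc
    have h1 := key (c i - c j) (hp i j) (by push_cast; beta_reduce at h; rw [h, sub_self])
    omega
  · intro x hx h
    obtain ⟨i, _, rfl⟩ := mem_image.1 hx
    rw [← eval_map_algebraMap] at h
    have h1 : (f.map (algebraMap ℤ (ZMod p))).eval ((c i : ℤ) : ZMod p) = ((f.eval (c i) : ℤ) : ZMod p) :=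
      eval_intCast_map (Int.castRingHom (ZMod p)) f (c i)
    rw [h1] at h
    exact hfc i (key _ (hp' i) h)

end

/-- **Nagao's sums for linear systems of hyperelliptic curves with sections.** -/
theorem pencils {s q m E : ℕ} {f : ℤ[X]} {c : Fin s → ℤ} (hodd : Odd (s + q)) (hq : 2 ≤ q) (hm : 1 ≤ m) (hE : 1 ≤ E)
    (hf : 2 * f.natDegree < s + q) (hc : Function.Injective c) (hfc : ∀ i, f.eval (c i) ≠ 0)
    {b : ℕ} (hb : 2 ≤ b) {δ : ℝ} (hδ : 0 < δ) (A B : ℕ) :
    ForAlmostAll (Fin q × (Fin m → Fin (E + 1))) b A (fun (θ : Weights B) x n => ∀ w ∈ θ.W x,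
      |∑ p ∈ primesTo x, w p * Real.log p * (fibreAverage f c p n + s)| ≤ (x : ℝ) ^ (1 / 2 + δ)) := by
  classical
  have : Nonempty (Fin q × (Fin m → Fin (E + 1))) := ⟨(⟨0, by omega⟩, fun _ => 0)⟩
  obtain ⟨ct, hct⟩ : ∃ ct : ℕ → ℝ, ct = fun p => avg p (fun n : Fin q × (Fin m → Fin (E + 1)) → ℕ => fibreAverage f c p n) := ⟨_, rfl⟩
  have hct2 : ct 2 = 0 := by
    rw [hct]
    beta_reduce
    have e : (fun n : Fin q × (Fin m → Fin (E + 1)) → ℕ => fibreAverage f c 2 n) = fun _ => 0 := funext fun n => fibreAverage_two n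
    rw [e, avg_const]
    norm_num
  have hq1 : (2 : ℝ) ≤ q := by exact_mod_cast hq
  have key := rough (L := Fin q × (Fin m → Fin (E + 1))) hb (show 0 < δ / 2 by positivity) A B 0 (τ := Unit) (fun _ => {()}) (fun x _ => by simp)
    (fun _ p n => fibreAverage f c p n - ct p)
    (fun _ p n hp => by rw [fibreAverage_mod]) (C := (s : ℝ) + q + s) (by linarith [(Nat.cast_nonneg s : (0 : ℝ) ≤ s)]) (by
      intro _ p n hp
      have : Fact p.Prime := ⟨hp⟩
      by_cases h2 : p = 2
      · subst h2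
        rw [fibreAverage_two, hct2, sub_zero, abs_zero]
        positivity
      · rw [hct]
        beta_reduce
        rw [avg_fibre h2 hq hE, fibreAverage_eq h2]
        have := outside_bound (c := c) h2 hodd hf (fun l => (n l : ZMod p))
        rw [sub_neg_eq_add, abs_le] at *
        constructor <;> linarith [this.1, this.2]) (by
      intro _ p hp
      beta_reduce
      rw [avg_sub, avg_const hp.one_lt.le, hct]
      beta_reduce
      rw [sub_self]) (by
      intro _ p hp
      have : Fact p.Prime := ⟨hp⟩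
      have hp0 : (0 : ℝ) < p := by exact_mod_cast hp.pos
      have hp1 : (1 : ℝ) ≤ p := by exact_mod_cast hp.one_lt.le
      beta_reduce
      by_cases h2 : p = 2
      · subst h2
        have e : (fun n : Fin q × (Fin m → Fin (E + 1)) → ℕ => (fibreAverage f c 2 n - ct 2) ^ 2) = fun _ => 0 := funext fun n => by
          rw [fibreAverage_two, hct2]; norm_num
        rw [e, avg_const]
        · positivity
        all_goals norm_num
      · have e : (fun n : Fin q × (Fin m → Fin (E + 1)) → ℕ => (fibreAverage f c p n - ct p) ^ 2) =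
            fun n => (outside f c (fun l => (n l : ZMod p)) / (p : ℝ) ^ m) ^ 2 :=
          funext fun n => by
            rw [hct]
            beta_reduce
            rw [avg_fibre h2 hq hE, fibreAverage_eq h2]
            ring
        rw [e, avg_zmod (fun v => (outside f c v / (p : ℝ) ^ m) ^ 2)]
        simp only [div_pow]
        rw [← sum_div, div_div, div_le_iff₀ (by positivity)]
        refine (outside_moments h2 hq hE).2.trans ?_
        have h3 : (p : ℝ) * (p : ℝ) ^ m ≤ (s + q + s) * ((p : ℝ) ^ m) ^ 2 := by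
          have h4 : (p : ℝ) ≤ (p : ℝ) ^ m := le_self_pow₀ hp1 (by omega)
          have h5 : (0 : ℝ) < (p : ℝ) ^ m := by positivity
          have h6 : (1 : ℝ) ≤ (s : ℝ) + q + s := by linarith [(Nat.cast_nonneg s : (0 : ℝ) ≤ s)]
          calc (p : ℝ) * (p : ℝ) ^ m ≤ (p : ℝ) ^ m * (p : ℝ) ^ m := mul_le_mul_of_nonneg_right h4 h5.le
            _ = 1 * ((p : ℝ) ^ m) ^ 2 := by ring
            _ ≤ _ := mul_le_mul_of_nonneg_right h6 (by positivity)
        calc (p * (p : ℝ) ^ m) * (p : ℝ) ^ Fintype.card (Fin q × (Fin m → Fin (E + 1))) ≤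
              (s + q + s) * ((p : ℝ) ^ m) ^ 2 * (p : ℝ) ^ Fintype.card (Fin q × (Fin m → Fin (E + 1))) :=
              mul_le_mul_of_nonneg_right h3 (by positivity)
          _ = _ := by ring)
  -- the small primes
  obtain ⟨P₀, hP₀⟩ : ∃ P₀ : ℕ, P₀ = 2 + ∑ i, ∑ j, (c i - c j).natAbs + ∑ i, (f.eval (c i)).natAbs := ⟨_, rfl⟩
  have hbig : ∀ p : ℕ, p.Prime → P₀ < p → ct p = -(s : ℝ) := by
    intro p hp hlt
    have : Fact p.Prime := ⟨hp⟩
    rw [hct]
    beta_reduce
    rw [avg_fibre (by omega) hq hE, rankMod_eq hc hfc]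
    · intro i j
      have h1 : (c i - c j).natAbs ≤ ∑ j, (c i - c j).natAbs := single_le_sum (f := fun j => (c i - c j).natAbs) (fun _ _ => Nat.zero_le _) (mem_univ j)
      have h2 : ∑ j, (c i - c j).natAbs ≤ ∑ i, ∑ j, (c i - c j).natAbs :=
        single_le_sum (f := fun i => ∑ j, (c i - c j).natAbs) (fun _ _ => Nat.zero_le _) (mem_univ i)
      omega
    · intro i
      have h1 : (f.eval (c i)).natAbs ≤ ∑ i, (f.eval (c i)).natAbs := single_le_sum (f := fun i => (f.eval (c i)).natAbs) (fun _ _ => Nat.zero_le _) (mem_univ i)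
      omega
  have hsmall : ∀ p : ℕ, p.Prime → |ct p + s| ≤ s := by
    intro p hp
    have : Fact p.Prime := ⟨hp⟩
    by_cases h2 : p = 2
    · subst h2
      rw [hct2, zero_add, abs_of_nonneg (Nat.cast_nonneg _)]
    · rw [hct]
      beta_reduce
      rw [avg_fibre h2 hq hE, abs_le]
      have h3 := rankMod_le (p := p) (f := f) (c := c)
      have h4 : (0 : ℝ) ≤ rankMod f c p := Nat.cast_nonneg _
      constructor <;> linarith
  obtain ⟨K₀, hK₀⟩ : ∃ K₀ : ℝ, K₀ = ∑ p ∈ primesTo P₀, Real.log p * s := ⟨_, rfl⟩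
  have hlog : ∀ p : ℕ, p.Prime → 0 < Real.log p := fun p hp => Real.log_pos (by exact_mod_cast hp.one_lt)
  have hK0 : 0 ≤ K₀ := by
    rw [hK₀]
    exact sum_nonneg fun p hp => mul_nonneg (hlog p (mem_primesTo.1 hp).1).le (Nat.cast_nonneg _)
  obtain ⟨x₁, hx₁⟩ := eventually_le (δ := δ / 2) (by positivity) (K₀ + 2) (by positivity)
  refine ForAlmostAll.mono key (x₁ + 1) ?_
  intro θ x n hx h w hw
  have h1 := h w hw () (mem_singleton_self _)
  have hx0 : (0 : ℝ) < x := by exact_mod_cast (by omega : 0 < x)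
  have hx1 : (1 : ℝ) ≤ x := by exact_mod_cast (by omega : 1 ≤ x)
  have h2 : ∑ p ∈ primesTo x, w p * Real.log p * (fibreAverage f c p n + s) =
      ∑ p ∈ primesTo x, w p * Real.log p * (fibreAverage f c p n - ct p) + ∑ p ∈ primesTo x, w p * Real.log p * (ct p + s) := by
    rw [← sum_add_distrib]
    exact sum_congr rfl fun p _ => by ring
  have h3 : |∑ p ∈ primesTo x, w p * Real.log p * (ct p + s)| ≤ K₀ := by
    have h4 : ∀ p ∈ primesTo x, |w p * Real.log p * (ct p + s)| ≤ if p ≤ P₀ then Real.log p * s else 0 := by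
      intro p hp
      have hpp := (mem_primesTo.1 hp).1
      split_ifs with h5
      · rw [abs_mul, abs_mul, abs_of_pos (hlog p hpp)]
        have h6 := θ.bound x w hw p
        calc |w p| * Real.log p * |ct p + s| ≤ 1 * Real.log p * s :=
              mul_le_mul (mul_le_mul_of_nonneg_right h6 (hlog p hpp).le) (hsmall p hpp) (abs_nonneg _) (by rw [one_mul]; exact (hlog p hpp).le)
          _ = _ := by ring
      · rw [hbig p hpp (by omega)]
        simp
    refine (abs_sum_le_sum_abs _ _).trans ((sum_le_sum h4).trans ?_)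
    rw [← sum_filter, hK₀]
    apply sum_le_sum_of_subset_of_nonneg
    · intro p hp
      rw [mem_filter] at hp
      exact mem_primesTo.2 ⟨(mem_primesTo.1 hp.1).1, hp.2⟩
    · intro p hp _
      exact mul_nonneg (hlog p (mem_primesTo.1 hp).1).le (Nat.cast_nonneg _)
  rw [h2]
  refine (abs_add_le _ _).trans ((add_le_add h1 h3).trans ?_)
  have h7 := hx₁ x (by omega)
  have h8 : 0 ≤ Real.log x := Real.log_nonneg hx1
  have h9 : (1 : ℝ) ≤ (x : ℝ) ^ (δ / 2 / 2) := Real.one_le_rpow hx1 (by positivity)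
  have h10 : K₀ + 1 ≤ (x : ℝ) ^ (δ / 2) - 1 := by nlinarith
  have h11 : (1 : ℝ) ≤ (x : ℝ) ^ (1 / 2 + δ / 2) := Real.one_le_rpow hx1 (by positivity)
  have h12 : (x : ℝ) ^ (1 / 2 + δ) = (x : ℝ) ^ (1 / 2 + δ / 2) * (x : ℝ) ^ (δ / 2) := by
    rw [← Real.rpow_add hx0]
    congr 1
    ring
  rw [h12]
  nlinarith

end Pool.Agent.Q235.FD
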