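import Pool.Agent.Q235.FD.Joint
import Pool.Agent.Q235.FD.Pencil

/-! Dirichlet polynomials over primes: from partial sums to the half plane. -/

set_option autoImplicit false

namespace Pool.Agent.Q235.FD

open Finset

/-- The property `E θ y x m` holds for almost all tuples `m` obtained by changing a few digits of arbitrary integers, for all `x` in
the range `y ≤ x ≤ exp (c r l)`: as `ForAlmostAll`, for a property which depends also on `y`. -/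
def ForAlmostAllFrom (L : Type) [Fintype L] (b A : ℕ) {Θ : Type} (E : Θ → ℕ → ℕ → (L → ℕ) → Prop) : Prop :=
  ∃ c : ℝ, 0 < c ∧ ∃ y₀ : ℕ, ∀ (θ : Θ) (K r N : L → ℕ) (f : L → ℕ → ℕ) (y : ℕ), Setting b K r N f → y₀ ≤ y →
    (exceptions b K r N f (fun m => ∀ x : ℕ, y ≤ x → (∀ l, (x : ℝ) ≤ Real.exp (c * r l)) → E θ y x m) : ℝ) ≤
      1 / (y : ℝ) ^ A * ∏ l, ((K l).choose (r l) : ℝ)

theorem ForAlmostAll.from {L : Type} [Fintype L] {b A : ℕ} {Θ : Type} {F : Θ → ℕ → (L → ℕ) → Prop}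
    {E : Θ → ℕ → ℕ → (L → ℕ) → Prop} (h1 : ForAlmostAll L b A F) (y₁ : ℕ)
    (h : ∀ θ y x m, y₁ ≤ y → y ≤ x → (∀ t, y ≤ t → t ≤ x → F θ t m) → E θ y x m) : ForAlmostAllFrom L b A E := by
  obtain ⟨c, hc, y₀, H⟩ := h1
  refine ⟨c, hc, y₀ + y₁, fun θ K r N f y hs hy => ?_⟩
  refine le_trans (Nat.cast_le.2 (exceptions_mono ?_)) (H θ K r N f y hs (by omega))
  intro m hm x hx hr
  exact h θ y x m (by omega) hx fun t ht htx => hm t ht fun l => le_trans (by exact_mod_cast htx) (hr l)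

/-! ### summation by parts -/

/-- the sum of `g n` over `y < n ≤ x` -/
lemma abel (g : ℕ → ℂ) (φ : ℕ → ℂ) (G : ℕ → ℂ) (hG : ∀ n, G (n + 1) = G n + g (n + 1)) (y : ℕ) : ∀ x : ℕ, y ≤ x →
    ∑ n ∈ Ioc y x, g n * φ n = G x * φ x - G y * φ y + ∑ n ∈ Ico y x, G n * (φ n - φ (n + 1)) := by
  intro x hx
  induction x, hx using Nat.le_induction with
  | base => simp
  | succ x hx ih =>
    rw [← Finset.insert_Ioc_right_eq_Ioc_add_one hx, sum_insert (by simp), ih, Finset.sum_Ico_succ_top hx, hG]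
    ring

lemma cpow_sub_le {z : ℂ} {n : ℕ} (hn : 1 ≤ n) (hz : 0 ≤ z.re) :
    ‖((n : ℕ) : ℂ) ^ (-z) - ((n + 1 : ℕ) : ℂ) ^ (-z)‖ ≤ ‖z‖ * (n : ℝ) ^ (-z.re - 1) := by
  have hn0 : (0 : ℝ) < n := by exact_mod_cast hn
  by_cases hz0 : z = 0
  · rw [hz0]
    simp
  have h1 : ∀ u ∈ Set.Icc (n : ℝ) (n + 1), HasDerivWithinAt (fun u : ℝ => (u : ℂ) ^ (-z)) ((-z) * (u : ℂ) ^ (-z - 1)) (Set.Icc (n : ℝ) (n + 1)) u := by
    intro u hu
    have hu0 : 0 < u := lt_of_lt_of_le hn0 hu.1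
    exact (hasDerivAt_ofReal_cpow_const hu0.ne' (neg_ne_zero.2 hz0)).hasDerivWithinAt
  have h2 : ∀ u ∈ Set.Icc (n : ℝ) (n + 1), ‖(-z) * (u : ℂ) ^ (-z - 1)‖ ≤ ‖z‖ * (n : ℝ) ^ (-z.re - 1) := by
    intro u hu
    have hu0 : 0 < u := lt_of_lt_of_le hn0 hu.1
    rw [norm_mul, norm_neg, Complex.norm_cpow_eq_rpow_re_of_pos hu0]
    apply mul_le_mul_of_nonneg_left _ (norm_nonneg _)
    have e : (-z - 1).re = -z.re - 1 := by simp
    rw [e]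
    exact Real.rpow_le_rpow_of_nonpos hn0 hu.1 (by linarith)
  have h3 := (convex_Icc (n : ℝ) (n + 1)).norm_image_sub_le_of_norm_hasDerivWithin_le h1 h2
    (Set.right_mem_Icc.2 (by linarith)) (Set.left_mem_Icc.2 (by linarith))
  have e1 : ‖(n : ℝ) - ((n : ℝ) + 1)‖ = 1 := by simp
  rw [e1, mul_one] at h3
  have e2 : (((n : ℝ) + 1 : ℝ) : ℂ) = ((n + 1 : ℕ) : ℂ) := by push_cast; rfl
  have e3 : (((n : ℝ) : ℝ) : ℂ) = ((n : ℕ) : ℂ) := by push_cast; rfl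
  beta_reduce at h3
  rw [e2, e3] at h3
  exact h3

lemma step_le {β : ℝ} (hβ : 0 < β) {n : ℕ} (hn : 1 ≤ n) : β * ((n + 1 : ℕ) : ℝ) ^ (-1 - β) ≤ (n : ℝ) ^ (-β) - ((n + 1 : ℕ) : ℝ) ^ (-β) := by
  have hn0 : (0 : ℝ) < n := by exact_mod_cast hn
  have hn1 : (0 : ℝ) < ((n + 1 : ℕ) : ℝ) := by positivity
  have h1 : 1 / ((n + 1 : ℕ) : ℝ) ≤ Real.log (((n + 1 : ℕ) : ℝ) / n) := by
    have h2 := Real.one_sub_inv_le_log_of_pos (show (0 : ℝ) < ((n + 1 : ℕ) : ℝ) / n by positivity)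
    refine le_trans (le_of_eq ?_) h2
    push_cast
    field_simp
    ring
  have h3 : 1 + β / ((n + 1 : ℕ) : ℝ) ≤ (((n + 1 : ℕ) : ℝ) / n) ^ β := by
    rw [Real.rpow_def_of_pos (by positivity)]
    have h4 := Real.add_one_le_exp (Real.log (((n + 1 : ℕ) : ℝ) / n) * β)
    have h5 := mul_le_mul_of_nonneg_right h1 hβ.le
    calc 1 + β / ((n + 1 : ℕ) : ℝ) = 1 / ((n + 1 : ℕ) : ℝ) * β + 1 := by ring
      _ ≤ Real.log (((n + 1 : ℕ) : ℝ) / n) * β + 1 := by linarith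
      _ ≤ _ := h4
  have h6 : (n : ℝ) ^ (-β) = ((n + 1 : ℕ) : ℝ) ^ (-β) * (((n + 1 : ℕ) : ℝ) / n) ^ β := by
    rw [Real.div_rpow hn1.le hn0.le, Real.rpow_neg hn1.le, Real.rpow_neg hn0.le]
    have : (((n + 1 : ℕ) : ℝ)) ^ β ≠ 0 := by positivity
    have : ((n : ℝ)) ^ β ≠ 0 := by positivity
    field_simp
  have h7 : ((n + 1 : ℕ) : ℝ) ^ (-1 - β) = ((n + 1 : ℕ) : ℝ) ^ (-β) / ((n + 1 : ℕ) : ℝ) := by
    rw [show -1 - β = -β + -1 by ring, Real.rpow_add hn1, Real.rpow_neg_one]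
    rfl
  rw [h6, h7]
  have h8 : (0 : ℝ) < ((n + 1 : ℕ) : ℝ) ^ (-β) := by positivity
  calc β * (((n + 1 : ℕ) : ℝ) ^ (-β) / ((n + 1 : ℕ) : ℝ)) = ((n + 1 : ℕ) : ℝ) ^ (-β) * (1 + β / ((n + 1 : ℕ) : ℝ)) - ((n + 1 : ℕ) : ℝ) ^ (-β) := by
        ring
    _ ≤ _ := by
        have := mul_le_mul_of_nonneg_left h3 h8.le
        linarith

lemma tail_le {β : ℝ} (hβ : 0 < β) {y : ℕ} (hy : 1 ≤ y) : ∀ x : ℕ, y ≤ x → β * ∑ n ∈ Ioc y x, (n : ℝ) ^ (-1 - β) ≤ (y : ℝ) ^ (-β) - (x : ℝ) ^ (-β) := by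
  intro x hx
  induction x, hx using Nat.le_induction with
  | base => simp
  | succ x hx ih =>
    rw [← Finset.insert_Ioc_right_eq_Ioc_add_one hx, sum_insert (by simp), mul_add]
    have := step_le hβ (n := x) (by omega)
    linarith

/-- from the partial sums to the half plane -/
theorem dirichlet {α β : ℝ} (hα : 0 ≤ α) (hβ : 0 < β) {y x : ℕ} (hy : 1 ≤ y) (hx : y ≤ x) (g G : ℕ → ℂ)
    (hG : ∀ n, G (n + 1) = G n + g (n + 1)) (hb : ∀ n, y ≤ n → n ≤ x → ‖G n‖ ≤ (n : ℝ) ^ α) (z : ℂ) (hz : α + β ≤ z.re) :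
    ‖∑ n ∈ Ioc y x, g n * ((n : ℕ) : ℂ) ^ (-z)‖ ≤ (2 + ‖z‖ * (1 + 1 / β)) * (y : ℝ) ^ (-β) := by
  have hy0 : (0 : ℝ) < y := by exact_mod_cast hy
  have hx0 : (0 : ℝ) < x := by exact_mod_cast (by omega : 0 < x)
  have hyx : (y : ℝ) ≤ x := by exact_mod_cast hx
  rw [abel g (fun n => ((n : ℕ) : ℂ) ^ (-z)) G hG y x hx]
  have hend : ∀ n : ℕ, y ≤ n → n ≤ x → ‖G n * ((n : ℕ) : ℂ) ^ (-z)‖ ≤ (y : ℝ) ^ (-β) := by
    intro n hn hnx
    have hn0 : (0 : ℝ) < n := by exact_mod_cast (by omega : 0 < n)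
    have hn1 : (1 : ℝ) ≤ n := by exact_mod_cast (by omega : 1 ≤ n)
    rw [norm_mul, Complex.norm_natCast_cpow_of_pos (by omega)]
    calc ‖G n‖ * (n : ℝ) ^ (-z).re ≤ (n : ℝ) ^ α * (n : ℝ) ^ (-(α + β)) := by
          apply mul_le_mul (hb n hn hnx) _ (by positivity) (by positivity)
          apply Real.rpow_le_rpow_of_exponent_le hn1
          rw [Complex.neg_re]
          linarith
      _ = (n : ℝ) ^ (-β) := by
          rw [← Real.rpow_add hn0]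
          congr 1
          ring
      _ ≤ (y : ℝ) ^ (-β) := Real.rpow_le_rpow_of_nonpos hy0 (by exact_mod_cast hn) (by linarith)
  have h1 : ‖∑ n ∈ Ico y x, G n * (((n : ℕ) : ℂ) ^ (-z) - ((n + 1 : ℕ) : ℂ) ^ (-z))‖ ≤ ‖z‖ * (1 + 1 / β) * (y : ℝ) ^ (-β) := by
    have h2 : ∀ n ∈ Ico y x, ‖G n * (((n : ℕ) : ℂ) ^ (-z) - ((n + 1 : ℕ) : ℂ) ^ (-z))‖ ≤ ‖z‖ * (n : ℝ) ^ (-1 - β) := by
      intro n hn
      rw [mem_Ico] at hn
      have hn0 : (0 : ℝ) < n := by exact_mod_cast (by omega : 0 < n)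
      have hn1 : (1 : ℝ) ≤ n := by exact_mod_cast (by omega : 1 ≤ n)
      rw [norm_mul]
      have h3 := cpow_sub_le (z := z) (n := n) (by omega) (by linarith)
      calc ‖G n‖ * ‖((n : ℕ) : ℂ) ^ (-z) - ((n + 1 : ℕ) : ℂ) ^ (-z)‖ ≤ (n : ℝ) ^ α * (‖z‖ * (n : ℝ) ^ (-z.re - 1)) :=
            mul_le_mul (hb n hn.1 (by omega)) h3 (norm_nonneg _) (by positivity)
        _ = ‖z‖ * (n : ℝ) ^ (α + (-z.re - 1)) := by rw [Real.rpow_add hn0]; ring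
        _ ≤ ‖z‖ * (n : ℝ) ^ (-1 - β) := by
            apply mul_le_mul_of_nonneg_left _ (norm_nonneg _)
            exact Real.rpow_le_rpow_of_exponent_le hn1 (by linarith)
    refine (norm_sum_le _ _).trans ((sum_le_sum h2).trans ?_)
    rw [← mul_sum, mul_assoc]
    apply mul_le_mul_of_nonneg_left _ (norm_nonneg _)
    have h4 : ∑ n ∈ Ico y x, (n : ℝ) ^ (-1 - β) ≤ (y : ℝ) ^ (-1 - β) + ∑ n ∈ Ioc y x, (n : ℝ) ^ (-1 - β) := by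
      have h5 : Ico y x ⊆ insert y (Ioc y x) := by
        intro n hn
        rw [mem_Ico] at hn
        rw [mem_insert, mem_Ioc]
        omega
      refine (sum_le_sum_of_subset_of_nonneg h5 (fun n _ _ => by positivity)).trans (le_of_eq ?_)
      rw [sum_insert (by simp)]
    have h6 := tail_le hβ hy x hx
    have h7 : (y : ℝ) ^ (-1 - β) ≤ (y : ℝ) ^ (-β) := Real.rpow_le_rpow_of_exponent_le (by exact_mod_cast hy) (by linarith)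
    have h8 : (0 : ℝ) < (x : ℝ) ^ (-β) := by positivity
    have h9 : ∑ n ∈ Ioc y x, (n : ℝ) ^ (-1 - β) ≤ 1 / β * (y : ℝ) ^ (-β) := by
      rw [one_div, ← div_eq_inv_mul, le_div_iff₀ hβ]
      linarith
    linarith
  calc _ ≤ ‖G x * ((x : ℕ) : ℂ) ^ (-z) - G y * ((y : ℕ) : ℂ) ^ (-z)‖ + ‖∑ n ∈ Ico y x, G n * (((n : ℕ) : ℂ) ^ (-z) - ((n + 1 : ℕ) : ℂ) ^ (-z))‖ :=
        norm_add_le _ _
    _ ≤ ((y : ℝ) ^ (-β) + (y : ℝ) ^ (-β)) + ‖z‖ * (1 + 1 / β) * (y : ℝ) ^ (-β) :=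
        add_le_add ((norm_sub_le _ _).trans (add_le_add (hend x hx le_rfl) (hend y le_rfl hx))) h1
    _ = _ := by ring

end Pool.Agent.Q235.FD
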