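import Pool.Agent.Q235.FD.Tools

/-! Systems of elliptic curves. -/

set_option autoImplicit false

namespace Pool.Agent.Q235.FD

open Finset

/-- The number of the solutions of `Y ^ 2 = X ^ 3 + a X + b` modulo `p`. -/
def points (p a b : ℕ) : ℕ :=
  ((range p ×ˢ range p).filter (fun xy => xy.2 ^ 2 % p = (xy.1 ^ 3 + a * xy.1 + b) % p)).card

/-- The curve `Y ^ 2 = X ^ 3 + a X + b` modulo `p` is smooth, and `p ≠ 2`. -/
def Smooth (p a b : ℕ) : Prop := ¬ p ∣ 2 * (4 * a ^ 3 + 27 * b ^ 2)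

open Classical in
/-- The proportion of the pairs `(a, b)` of residues modulo `p` with a property. -/
noncomputable def curveProportion (p : ℕ) (Q : ℕ → ℕ → Prop) : ℝ :=
  (((range p ×ˢ range p).filter (fun ab => Q ab.1 ab.2)).card : ℝ) / (p : ℝ) ^ 2

lemma points_mod (p a b : ℕ) : points p (a % p) (b % p) = points p a b := by
  unfold points
  congr 1
  apply filter_congr
  intro xy _
  have h : xy.1 ^ 3 + a % p * xy.1 + b % p ≡ xy.1 ^ 3 + a * xy.1 + b [MOD p] :=
    (((Nat.mod_modEq a p).mul_right xy.1).add_left (xy.1 ^ 3)).add (Nat.mod_modEq b p)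
  rw [h]

lemma smooth_mod (p a b : ℕ) : Smooth p (a % p) (b % p) ↔ Smooth p a b := by
  unfold Smooth
  have h : 2 * (4 * (a % p) ^ 3 + 27 * (b % p) ^ 2) ≡ 2 * (4 * a ^ 3 + 27 * b ^ 2) [MOD p] :=
    ((((Nat.mod_modEq a p).pow 3).mul_left 4).add (((Nat.mod_modEq b p).pow 2).mul_left 27)).mul_left 2
  rw [h.dvd_iff dvd_rfl]

lemma points_le (p a b : ℕ) : points p a b ≤ p ^ 2 := by
  unfold points
  refine (card_filter_le _ _).trans ?_
  rw [card_product, card_range, sq]

lemma proportion_prod {s : ℕ} (p : ℕ) (Q : Fin s → ℕ → ℕ → Prop) :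
    proportion (L := Fin s × Fin 2) p (fun n => ∀ j, Q j (n (j, 0)) (n (j, 1))) = ∏ j, curveProportion p (Q j) := by
  classical
  unfold proportion curveProportion
  rw [prod_div_distrib, prod_const, card_univ, Fintype.card_fin, Fintype.card_prod, Fintype.card_fin, Fintype.card_fin,
    ← pow_mul, mul_comm 2 s]
  congr 1
  rw [← Nat.cast_prod]
  congr 1
  have h1 : ∏ j, ((range p ×ˢ range p).filter (fun ab => Q j ab.1 ab.2)).card =
      (Fintype.piFinset (fun j => (range p ×ˢ range p).filter (fun ab => Q j ab.1 ab.2))).card := by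
    rw [Fintype.card_piFinset]
  rw [h1]
  refine card_bij (fun n _ => fun j => (n (j, 0), n (j, 1))) ?_ ?_ ?_
  · intro n hn
    simp only [mem_filter, Fintype.mem_piFinset, mem_product] at hn ⊢
    exact fun j => ⟨⟨hn.1 _, hn.1 _⟩, hn.2 j⟩
  · intro n _ n' _ h
    funext ji
    obtain ⟨j, i⟩ := ji
    have h2 := congrFun h j
    rw [Prod.mk.injEq] at h2
    fin_cases i
    · exact h2.1
    · exact h2.2
  · intro g hg
    rw [Fintype.mem_piFinset] at hg
    refine ⟨fun ji => if ji.2 = 0 then (g ji.1).1 else (g ji.1).2, ?_, ?_⟩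
    · simp only [mem_filter, Fintype.mem_piFinset]
      refine ⟨fun ji => ?_, fun j => ?_⟩
      · have h2 := hg ji.1
        rw [mem_filter, mem_product] at h2
        split_ifs
        · exact h2.1.1
        · exact h2.1.2
      · have h2 := hg j
        rw [mem_filter] at h2
        exact h2.2
    · funext j
      rfl

lemma number_eq_zero {P : Finset ℕ} {E : ℕ → Prop} (h : ∀ p ∈ P, ¬ E p) : number P E = 0 := by
  classical
  unfold number
  rw [card_eq_zero, filter_eq_empty_iff]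
  exact fun p hp => h p hp

lemma curveProportion_eq_zero {p : ℕ} {Q : ℕ → ℕ → Prop} (h : ∀ a b, ¬ Q a b) : curveProportion p Q = 0 := by
  classical
  unfold curveProportion
  have : (range p ×ˢ range p).filter (fun ab => Q ab.1 ab.2) = ∅ := by
    rw [filter_eq_empty_iff]
    intro ab _
    exact h _ _
  rw [this, card_empty, Nat.cast_zero, zero_div]

theorem ell_law (s : ℕ) (hs : 1 ≤ s) {b : ℕ} (hb : 2 ≤ b) {δ : ℝ} (hδ : 0 < δ) (A B C : ℕ) {τ : Type} (U : ℕ → Finset τ)
    (hU : ∀ x, 2 ≤ x → (U x).card ≤ x ^ C) (Q : τ → ℕ → ℕ → ℕ → Prop) (hQ : ∀ t p a b, Q t p a b ↔ Q t p (a % p) (b % p)) :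
    ForAlmostAll (Fin s × Fin 2) b A (fun (θ : Sets B) x m => ∀ P ∈ θ.S x, ∀ t : Fin s → τ, (∀ j, t j ∈ U x) →
      |(number P (fun p => ∀ j, Q (t j) p (m (j, 0)) (m (j, 1))) : ℝ) - ∑ p ∈ P, ∏ j, curveProportion p (Q (t j) p)| ≤
        Real.sqrt (max 1 (∑ p ∈ P, ∏ j, curveProportion p (Q (t j) p))) * (x : ℝ) ^ δ) := by
  classical
  have : Nonempty (Fin s × Fin 2) := ⟨(⟨0, hs⟩, 0)⟩
  have hU' : ∀ x, 2 ≤ x → (Fintype.piFinset (fun _ : Fin s => U x)).card ≤ x ^ (C * s) := by
    intro x hx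
    rw [Fintype.card_piFinset, prod_const, card_univ, Fintype.card_fin, pow_mul]
    exact Nat.pow_le_pow_left (hU x hx) s
  refine forAlmostAll_of hb hδ (fun θ : Sets B => propData θ (fun x => Fintype.piFinset (fun _ : Fin s => U x)) hU'
    (fun t p n => ∀ j, Q (t j) p (n (j, 0)) (n (j, 1))) (fun t p n => forall_congr' fun j => hQ _ _ _ _)) 0 ?_
  intro θ x m _ h P hP t ht
  have h1 := law_prop θ _ hU' _ _ h P hP t (by
    rw [Fintype.mem_piFinset]
    exact ht)
  have h2 : ∀ p, proportion (L := Fin s × Fin 2) p (fun n => ∀ j, Q (t j) p (n (j, 0)) (n (j, 1))) = ∏ j, curveProportion p (Q (t j) p) :=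
    fun p => proportion_prod p (fun j => Q (t j) p)
  simp only [h2] at h1
  exact h1

end Pool.Agent.Q235.FD
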