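import Pool.Agent.Q235.FD.Cen

/-! The law for functions of the size `p ^ (1 / 2)` with bounded mean square. -/

set_option autoImplicit false

namespace Pool.Agent.Q235.FD

open Finset Filter

/-- at most `x ^ B` weight functions with values in `[-1, 1]`, for every `x` -/
structure Weights (B : ℕ) where
  /-- the weight functions -/
  W : ℕ → Finset (ℕ → ℝ)
  card : ∀ x, (W x).card ≤ x ^ B
  bound : ∀ x, ∀ w ∈ W x, ∀ p, |w p| ≤ 1

/-- the primes up to `x` -/
def primesTo (x : ℕ) : Finset ℕ := (range (x + 1)).filter Nat.Prime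

lemma mem_primesTo {x p : ℕ} : p ∈ primesTo x ↔ p.Prime ∧ p ≤ x := by
  unfold primesTo
  rw [mem_filter, mem_range]
  constructor
  · rintro ⟨h1, h2⟩; exact ⟨h2, by omega⟩
  · rintro ⟨h1, h2⟩; exact ⟨by omega, h1⟩

lemma card_primesTo (x : ℕ) : ((primesTo x).card : ℝ) ≤ x := by
  have h : (primesTo x) ⊆ Icc 1 x := by
    intro p hp
    rw [mem_primesTo] at hp
    rw [mem_Icc]
    exact ⟨hp.1.one_lt.le, hp.2⟩
  have := card_le_card h
  rw [Nat.card_Icc, Nat.add_sub_cancel] at this
  exact_mod_cast this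

variable {L : Type} [Fintype L]

open Classical in
/-- the data -/
noncomputable def roughData {A₂ A₃ : ℕ} (θ : Weights A₂) {τ : Type} (U : ℕ → Finset τ) (hU : ∀ x, 2 ≤ x → (U x).card ≤ x ^ A₃)
    (G : τ → ℕ → (L → ℕ) → ℝ) (hper : ∀ t p n, p.Prime → G t p n = G t p (fun i => n i % p)) {C : ℝ} (hC : 1 ≤ C)
    (hb : ∀ t p n, p.Prime → |G t p n| ≤ C * Real.sqrt p) : Data L (A₂ + A₃) where
  κ := (ℕ → ℝ) × τ
  Λ := fun x => θ.W x ×ˢ U x
  card := by
    intro x hx
    rw [card_product, pow_add]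
    exact Nat.mul_le_mul (θ.card x) (hU x hx)
  P := fun x _ => primesTo x
  prime := by
    intro x l p hp
    exact mem_primesTo.1 hp
  G := fun x l p n => if |l.1 p| ≤ 1 then l.1 p * (Real.log p / Real.log x) * (G l.2 p n / (C * Real.sqrt x)) else 0
  per := by
    intro x l p n hp
    rw [mem_primesTo] at hp
    split_ifs
    · rw [hper _ _ _ hp.1]
    · rfl
  bound := by
    intro x l p n hp
    rw [mem_primesTo] at hp
    split_ifs with h
    · have hp1 : (1 : ℝ) < p := by exact_mod_cast hp.1.one_lt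
      have hpx : (p : ℝ) ≤ x := by exact_mod_cast hp.2
      have hlp : 0 < Real.log p := Real.log_pos hp1
      have hlx : 0 < Real.log x := Real.log_pos (by linarith)
      have h1 : |Real.log p / Real.log x| ≤ 1 := by
        rw [abs_of_nonneg (div_nonneg hlp.le hlx.le), div_le_one hlx]
        exact Real.log_le_log (by linarith) hpx
      have hsx : 0 < Real.sqrt x := Real.sqrt_pos.2 (by linarith)
      have h2 : |G l.2 p n / (C * Real.sqrt x)| ≤ 1 := by
        rw [abs_div, abs_of_pos (by positivity : 0 < C * Real.sqrt x), div_le_one (by positivity)]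
        exact (hb _ _ _ hp.1).trans (mul_le_mul_of_nonneg_left (Real.sqrt_le_sqrt hpx) (by linarith))
      rw [abs_mul, abs_mul]
      calc |l.1 p| * |Real.log p / Real.log x| * |G l.2 p n / (C * Real.sqrt x)| ≤ 1 * 1 * 1 := by
            apply mul_le_mul (mul_le_mul h h1 (abs_nonneg _) (by norm_num)) h2 (abs_nonneg _) (by norm_num)
        _ = 1 := by norm_num
    · simp

/-- functions of the size `p ^ (1 / 2)` with the average zero and bounded mean square -/
theorem rough [Nonempty L] {b : ℕ} (hb : 2 ≤ b) {δ : ℝ} (hδ : 0 < δ) (A B A₃ : ℕ) {τ : Type} (U : ℕ → Finset τ)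
    (hU : ∀ x, 2 ≤ x → (U x).card ≤ x ^ A₃) (G : τ → ℕ → (L → ℕ) → ℝ)
    (hper : ∀ t p n, p.Prime → G t p n = G t p (fun i => n i % p)) {C : ℝ} (hC : 1 ≤ C)
    (hbd : ∀ t p n, p.Prime → |G t p n| ≤ C * Real.sqrt p) (hav : ∀ t p, p.Prime → avg p (G t p) = 0)
    (hsq : ∀ t p, p.Prime → avg p (fun n => G t p n ^ 2) ≤ C) :
    ForAlmostAll L b A (fun (θ : Weights B) x m => ∀ w ∈ θ.W x, ∀ t ∈ U x,
      |∑ p ∈ primesTo x, w p * Real.log p * G t p m| ≤ (x : ℝ) ^ (1 / 2 + δ)) := by
  have hC0 : 0 < C := by linarith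
  have h1 : Tendsto (fun x : ℝ => x ^ (δ / 2)) atTop atTop := tendsto_rpow_atTop (by positivity)
  have hev := (h1.comp tendsto_natCast_atTop_atTop).eventually (eventually_ge_atTop (C * (4 / δ)))
  obtain ⟨x₁, hx₁⟩ := eventually_atTop.1 hev
  refine forAlmostAll_of hb (show 0 < δ / 4 by positivity) (fun θ : Weights B => roughData θ U hU G hper hC hbd) (x₁ + 3) ?_
  intro θ x m hx h w hw t ht
  have hx3 : (3 : ℝ) ≤ x := by exact_mod_cast (by omega : 3 ≤ x)
  have hx0 : (0 : ℝ) < x := by linarith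
  have hlx : 0 < Real.log x := Real.log_pos (by linarith)
  have hsx : 0 < Real.sqrt x := Real.sqrt_pos.2 hx0
  have h2 := h (w, t) (mem_product.2 ⟨hw, ht⟩)
  have hP : (roughData θ U hU G hper hC hbd).P x (w, t) = primesTo x := rfl
  have hG : ∀ p n, (roughData θ U hU G hper hC hbd).G x (w, t) p n = (w p * (Real.log p / Real.log x) / (C * Real.sqrt x)) * G t p n := by
    intro p n
    show (if |w p| ≤ 1 then w p * (Real.log p / Real.log x) * (G t p n / (C * Real.sqrt x)) else 0) = _
    rw [if_pos (θ.bound x w hw p)]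
    ring
  have hG' : ∀ p, (roughData θ U hU G hper hC hbd).G x (w, t) p = fun n => (w p * (Real.log p / Real.log x) / (C * Real.sqrt x)) * G t p n :=
    fun p => funext fun n => hG p n
  rw [hP] at h2
  have h3 : ∑ p ∈ primesTo x, avg p ((roughData θ U hU G hper hC hbd).G x (w, t) p) = 0 := by
    apply sum_eq_zero
    intro p hp
    rw [hG' p, avg_mul, hav t p (mem_primesTo.1 hp).1, mul_zero]
  have h4 : ∑ p ∈ primesTo x, avg p (fun n => (roughData θ U hU G hper hC hbd).G x (w, t) p n ^ 2) ≤ 1 := by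
    have h5 : ∀ p ∈ primesTo x, avg p (fun n => (roughData θ U hU G hper hC hbd).G x (w, t) p n ^ 2) ≤ 1 / x := by
      intro p hp
      have hpp := (mem_primesTo.1 hp).1
      have hp1 : (1 : ℝ) < p := by exact_mod_cast hpp.one_lt
      have hpx : (p : ℝ) ≤ x := by exact_mod_cast (mem_primesTo.1 hp).2
      have hlp : 0 < Real.log p := Real.log_pos hp1
      have e1 : (fun n => (roughData θ U hU G hper hC hbd).G x (w, t) p n ^ 2) =
          fun n => (w p * (Real.log p / Real.log x) / (C * Real.sqrt x)) ^ 2 * G t p n ^ 2 := by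
        funext n
        rw [hG, mul_pow]
      rw [e1, avg_mul]
      have h6 : |w p * (Real.log p / Real.log x)| ≤ 1 := by
        rw [abs_mul]
        have h7 : |Real.log p / Real.log x| ≤ 1 := by
          rw [abs_of_nonneg (div_nonneg hlp.le hlx.le), div_le_one hlx]
          exact Real.log_le_log (by linarith) hpx
        calc |w p| * |Real.log p / Real.log x| ≤ 1 * 1 := mul_le_mul (θ.bound x w hw p) h7 (abs_nonneg _) (by norm_num)
          _ = 1 := by norm_num
      have h8 : (w p * (Real.log p / Real.log x) / (C * Real.sqrt x)) ^ 2 ≤ 1 / (C ^ 2 * x) := by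
        rw [div_pow, mul_pow C, Real.sq_sqrt hx0.le]
        apply div_le_div_of_nonneg_right _ (by positivity)
        rw [← sq_abs]
        exact pow_le_one₀ (abs_nonneg _) h6
      have h9 := avg_nonneg (p := p) (F := fun n => G t p n ^ 2) (fun n => sq_nonneg _)
      calc (w p * (Real.log p / Real.log x) / (C * Real.sqrt x)) ^ 2 * avg p (fun n => G t p n ^ 2) ≤ 1 / (C ^ 2 * x) * C :=
            mul_le_mul h8 (hsq t p hpp) h9 (by positivity)
        _ = 1 / (C * x) := by field_simp
        _ ≤ 1 / x := by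
            apply one_div_le_one_div_of_le hx0
            nlinarith
    refine (sum_le_sum h5).trans ?_
    rw [sum_const, nsmul_eq_mul, mul_one_div, div_le_one hx0]
    exact card_primesTo x
  rw [h3, sub_zero, max_eq_left h4, Real.sqrt_one, one_mul] at h2
  have h10 : ∑ p ∈ primesTo x, (roughData θ U hU G hper hC hbd).G x (w, t) p m =
      (∑ p ∈ primesTo x, w p * Real.log p * G t p m) / (Real.log x * (C * Real.sqrt x)) := by
    rw [sum_div]
    refine sum_congr rfl fun p _ => ?_
    rw [hG]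
    field_simp
  have hden : 0 < Real.log x * (C * Real.sqrt x) := by positivity
  rw [h10, abs_div, abs_of_pos hden, div_le_iff₀ hden] at h2
  refine h2.trans ?_
  have hlog : Real.log x ≤ (x : ℝ) ^ (δ / 4) / (δ / 4) := Real.log_le_rpow_div hx0.le (by positivity)
  have h11 := hx₁ x (by omega)
  have h11' : C * (4 / δ) ≤ (x : ℝ) ^ (δ / 2) := h11
  obtain ⟨u, hu⟩ : ∃ u, u = (x : ℝ) ^ (δ / 4) := ⟨_, rfl⟩
  have hu0 : 0 < u := by rw [hu]; positivity
  have e2 : (x : ℝ) ^ (δ / 2) = u * u := by
    rw [hu, ← Real.rpow_add hx0]; congr 1; ring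
  have e3 : (x : ℝ) ^ (1 / 2 + δ) = Real.sqrt x * (u * u) * (u * u) := by
    rw [Real.sqrt_eq_rpow, hu, ← Real.rpow_add hx0, ← Real.rpow_add hx0, ← Real.rpow_add hx0]
    congr 1
    ring
  rw [e2] at h11'
  rw [← hu] at hlog ⊢
  rw [e3]
  have h12 : Real.log x ≤ 4 / δ * u := by
    calc Real.log x ≤ u / (δ / 4) := hlog
      _ = 4 / δ * u := by field_simp
  calc u * (Real.log x * (C * Real.sqrt x)) ≤ u * (4 / δ * u * (C * Real.sqrt x)) := by
        apply mul_le_mul_of_nonneg_left _ hu0.le
        exact mul_le_mul_of_nonneg_right h12 (by positivity)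
    _ = Real.sqrt x * (C * (4 / δ)) * (u * u) := by ring
    _ ≤ Real.sqrt x * (u * u) * (u * u) := by
        apply mul_le_mul_of_nonneg_right _ (by positivity)
        exact mul_le_mul_of_nonneg_left h11' hsx.le

end Pool.Agent.Q235.FD
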