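import Pool.Agent.Q235.FD.Pair
import Pool.Agent.Q235.FD.Rough
import Mathlib.NumberTheory.Chebyshev

/-! Values of affine forms at tuples obtained by changing a few digits: they are not zero and not squares. -/

set_option autoImplicit false

namespace Pool.Agent.Q235.FD

open Finset Filter

section

variable {L : Type} [Fintype L]

/-- the value of an affine form -/
def val (a₀ : ℤ) (a : L → ℤ) (m : L → ℕ) : ℤ := a₀ + ∑ l, a l * m l

/-- the value modulo `p` -/
def valMod {p : ℕ} (a₀ : ℤ) (a : L → ℤ) (v : L → ZMod p) : ZMod p := a₀ + ∑ l, (a l : ZMod p) * v l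

lemma val_cast (p : ℕ) (a₀ : ℤ) (a : L → ℤ) (m : L → ℕ) : ((val a₀ a m : ℤ) : ZMod p) = valMod a₀ a (fun l => (m l : ZMod p)) := by
  unfold val valMod
  push_cast
  rfl

section

variable [DecidableEq L] {p : ℕ} [Fact p.Prime]

omit [DecidableEq L] in
lemma valMod_add (a₀ : ℤ) (a : L → ℤ) (v w : L → ZMod p) (c : ZMod p) :
    valMod a₀ a (v + c • w) = valMod a₀ a v + c * ∑ l, (a l : ZMod p) * w l := by
  unfold valMod
  rw [mul_sum, add_assoc, ← sum_add_distrib]
  congr 1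
  refine sum_congr rfl fun l _ => ?_
  rw [Pi.add_apply, Pi.smul_apply, smul_eq_mul]
  ring

/-- the value of a form with a coefficient prime to `p` is equidistributed -/
lemma shift_avg (g : ZMod p → ℝ) (a₀ : ℤ) (a : L → ℤ) {l : L} (hl : ¬ (p : ℤ) ∣ a l) :
    ∑ v : L → ZMod p, g (valMod a₀ a v) = (p : ℝ) ^ Fintype.card L * ((∑ c, g c) / p) := by
  have hp0 : (p : ℝ) ≠ 0 := by exact_mod_cast (Fact.out : p.Prime).ne_zero
  obtain ⟨u, hu⟩ : ∃ u : ZMod p, u = (a l : ZMod p) := ⟨_, rfl⟩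
  have hu0 : u ≠ 0 := by
    rw [hu]
    intro h
    exact hl ((ZMod.intCast_zmod_eq_zero_iff_dvd _ _).1 h)
  have hlam : ∑ l', (a l' : ZMod p) * (Pi.single l 1 : L → ZMod p) l' = u := by
    rw [sum_eq_single_of_mem l (mem_univ l), Pi.single_eq_same, mul_one, hu]
    intro l' _ h
    rw [Pi.single_eq_of_ne h, mul_zero]
  have h1 : ∀ c : ZMod p, ∑ v : L → ZMod p, g (valMod a₀ a v) = ∑ v : L → ZMod p, g (valMod a₀ a v + c * u) := by
    intro c
    rw [← Equiv.sum_comp (Equiv.addRight (c • (Pi.single l 1 : L → ZMod p)))]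
    refine sum_congr rfl fun v _ => ?_
    rw [Equiv.coe_addRight, valMod_add, hlam]
  have h2 : (p : ℝ) * ∑ v : L → ZMod p, g (valMod a₀ a v) = ∑ c : ZMod p, ∑ v : L → ZMod p, g (valMod a₀ a v + c * u) := by
    rw [← sum_congr rfl (fun c _ => h1 c), sum_const, card_univ, ZMod.card, nsmul_eq_mul]
  have h3 : ∀ v : L → ZMod p, ∑ c : ZMod p, g (valMod a₀ a v + c * u) = ∑ c, g c := by
    intro v
    refine Function.Bijective.sum_comp (e := fun c => valMod a₀ a v + c * u) ?_ g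
    rw [← Finite.injective_iff_bijective]
    intro c c' h
    beta_reduce at h
    exact mul_right_cancel₀ hu0 (add_left_cancel h)
  rw [sum_comm, sum_congr rfl (fun v _ => h3 v), sum_const, card_univ, nsmul_eq_mul] at h2
  have h4 : (Fintype.card (L → ZMod p) : ℝ) = (p : ℝ) ^ Fintype.card L := by
    rw [Fintype.card_pi]
    simp [ZMod.card]
  rw [h4] at h2
  field_simp
  linarith

end

/-- the index of the functions: the constant term, the coefficients and the twist -/
abbrev Form (L : Type) : Type := (ℤ × (L → ℤ)) × ℤ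

/-- some coefficient is prime to `p` -/
def Primitive (t : Form L) (p : ℕ) : Prop := ∃ l, ¬ (p : ℤ) ∣ t.1.2 l

open scoped Classical in
/-- the quadratic symbol of the value times the twist -/
noncomputable def gchi (t : Form L) (p : ℕ) (m : L → ℕ) : ℝ :=
  if h : p.Prime ∧ p ≠ 2 ∧ Primitive t p ∧ ¬ (p : ℤ) ∣ t.2 then
    (haveI : Fact p.Prime := ⟨h.1⟩; qc (((t.2 * val t.1.1 t.1.2 m : ℤ) : ZMod p))) else 0

open scoped Classical in
/-- the centered indicator function of the divisibility of the value -/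
noncomputable def gzero (t : Form L) (p : ℕ) (m : L → ℕ) : ℝ :=
  if Primitive t p then (if (p : ℤ) ∣ val t.1.1 t.1.2 m then 1 else 0) - 1 / (p : ℝ) else 0

lemma val_mod (p : ℕ) (t : Form L) (m : L → ℕ) : ((val t.1.1 t.1.2 (fun l => m l % p) : ℤ) : ZMod p) = (val t.1.1 t.1.2 m : ℤ) := by
  rw [val_cast, val_cast]
  simp only [ZMod.natCast_mod]

lemma gchi_mod (t : Form L) (p : ℕ) (m : L → ℕ) : gchi t p m = gchi t p (fun l => m l % p) := by
  classical
  unfold gchi
  split_ifs with h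
  · congr 1
    push_cast
    rw [val_mod]
  · rfl

lemma gzero_mod (t : Form L) (p : ℕ) (m : L → ℕ) : gzero t p m = gzero t p (fun l => m l % p) := by
  classical
  unfold gzero
  split_ifs with h1 h2 h3 h3
  · rfl
  · exact absurd ((ZMod.intCast_zmod_eq_zero_iff_dvd _ _).1 (by rw [val_mod]; exact (ZMod.intCast_zmod_eq_zero_iff_dvd _ _).2 h2)) h3
  · exact absurd ((ZMod.intCast_zmod_eq_zero_iff_dvd _ _).1 (by rw [← val_mod]; exact (ZMod.intCast_zmod_eq_zero_iff_dvd _ _).2 h3)) h2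
  · rfl
  · rfl

lemma gchi_bound (t : Form L) (p : ℕ) (m : L → ℕ) : |gchi t p m| ≤ 1 := by
  classical
  unfold gchi
  split_ifs with h
  · have : Fact p.Prime := ⟨h.1⟩
    rcases qc_cases (((t.2 * val t.1.1 t.1.2 m : ℤ) : ZMod p)) with ⟨_, h⟩ | ⟨_, h | h⟩ <;> rw [h] <;> norm_num
  · simp

lemma gzero_bound (t : Form L) {p : ℕ} (hp : p.Prime) (m : L → ℕ) : |gzero t p m| ≤ 1 := by
  classical
  have hp1 : (1 : ℝ) ≤ p := by exact_mod_cast hp.one_lt.le
  have h1 : (0 : ℝ) ≤ 1 / p := by positivity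
  have h2 : 1 / (p : ℝ) ≤ 1 := by rw [div_le_one (by linarith)]; exact hp1
  unfold gzero
  split_ifs <;> rw [abs_le] <;> constructor <;> linarith

lemma avg_gchi (t : Form L) {p : ℕ} (hp : p.Prime) : avg p (gchi t p) = 0 := by
  classical
  have : Fact p.Prime := ⟨hp⟩
  by_cases h : p.Prime ∧ p ≠ 2 ∧ Primitive t p ∧ ¬ (p : ℤ) ∣ t.2
  · have e : gchi t p = fun n => (fun v : L → ZMod p => qc ((t.2 : ZMod p) * valMod t.1.1 t.1.2 v)) (fun l => (n l : ZMod p)) := by
      funext n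
      unfold gchi
      rw [dif_pos h]
      beta_reduce
      rw [← val_cast]
      congr 1
      push_cast
      rfl
    obtain ⟨l, hl⟩ := h.2.2.1
    rw [e, avg_zmod (fun v : L → ZMod p => qc ((t.2 : ZMod p) * valMod t.1.1 t.1.2 v)),
      shift_avg (fun c => qc ((t.2 : ZMod p) * c)) t.1.1 t.1.2 hl]
    have hd : (t.2 : ZMod p) ≠ 0 := fun h0 => h.2.2.2 ((ZMod.intCast_zmod_eq_zero_iff_dvd _ _).1 h0)
    have e2 : ∑ c : ZMod p, qc ((t.2 : ZMod p) * c) = 0 := by
      rw [← sum_qc h.2.1]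
      exact Function.Bijective.sum_comp (e := fun c => (t.2 : ZMod p) * c) (mulLeft_bijective₀ _ hd) qc
    rw [e2]
    simp
  · have e : gchi t p = fun _ => 0 := by
      funext n
      unfold gchi
      rw [dif_neg h]
    rw [e, avg_const hp.one_lt.le]

lemma avg_gzero (t : Form L) {p : ℕ} (hp : p.Prime) : avg p (gzero t p) = 0 := by
  classical
  have : Fact p.Prime := ⟨hp⟩
  have hp0 : (p : ℝ) ≠ 0 := by exact_mod_cast hp.ne_zero
  by_cases h : Primitive t p
  · have e : gzero t p = fun n => (fun v : L → ZMod p => (if valMod t.1.1 t.1.2 v = 0 then (1 : ℝ) else 0) - 1 / (p : ℝ)) (fun l => (n l : ZMod p)) := by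
      funext n
      unfold gzero
      rw [if_pos h]
      beta_reduce
      rw [← val_cast]
      by_cases h2 : (p : ℤ) ∣ val t.1.1 t.1.2 n
      · rw [if_pos h2, if_pos ((ZMod.intCast_zmod_eq_zero_iff_dvd _ _).2 h2)]
      · rw [if_neg h2, if_neg (fun h3 => h2 ((ZMod.intCast_zmod_eq_zero_iff_dvd _ _).1 h3))]
    obtain ⟨l, hl⟩ := h
    rw [e, avg_zmod (fun v : L → ZMod p => (if valMod t.1.1 t.1.2 v = 0 then (1 : ℝ) else 0) - 1 / (p : ℝ)),
      shift_avg (fun c => (if c = 0 then (1 : ℝ) else 0) - 1 / (p : ℝ)) t.1.1 t.1.2 hl]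
    have e2 : ∑ c : ZMod p, ((if c = 0 then (1 : ℝ) else 0) - 1 / (p : ℝ)) = 0 := by
      rw [sum_sub_distrib, sum_ite_eq' univ (0 : ZMod p), if_pos (mem_univ _), sum_const, card_univ, ZMod.card, nsmul_eq_mul]
      field_simp
      ring
    rw [e2]
    simp
  · have e : gzero t p = fun _ => 0 := by
      funext n
      unfold gzero
      rw [if_neg h]
    rw [e, avg_const hp.one_lt.le]

/-- the family which consists of the set of all primes up to `x` -/
def allPrimes : Sets 0 where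
  S := fun x => {primesTo x}
  card := by intro x; simp
  prime := by
    intro x P hP p hp
    rw [mem_singleton] at hP
    rw [hP] at hp
    exact mem_primesTo.1 hp

lemma card_primesTo_eq (x : ℕ) : (primesTo x).card = Nat.primeCounting x := by
  unfold primesTo
  rw [Nat.primeCounting, Nat.primeCounting', Nat.count_eq_card_filter_range]

/-- Chebyshev's bound in a weak form -/
lemma many_primes : ∃ x₁ : ℕ, ∀ x : ℕ, x₁ ≤ x → 9 * (x : ℝ) ^ (3 / 4 : ℝ) ≤ (primesTo x).card := by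
  have h1 : Tendsto (fun x : ℝ => x ^ (1 / 8 : ℝ)) atTop atTop := tendsto_rpow_atTop (by norm_num)
  have hev := (h1.comp tendsto_natCast_atTop_atTop).eventually (eventually_ge_atTop 800)
  obtain ⟨x₁, hx₁⟩ := eventually_atTop.1 hev
  refine ⟨x₁ + 3, fun x hx => ?_⟩
  have h2 : (800 : ℝ) ≤ (x : ℝ) ^ (1 / 8 : ℝ) := hx₁ x (by omega)
  have hx0 : (0 : ℝ) < x := by exact_mod_cast (by omega : 0 < x)
  have hx3 : (3 : ℝ) ≤ x := by exact_mod_cast (by omega : 3 ≤ x)
  have h3 := Chebyshev.psi_le_primeCounting_mul_log x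
  have h4 := Chebyshev.psi_ge x
  rw [← card_primesTo_eq] at h3
  have hlog : Real.log x ≤ 8 * (x : ℝ) ^ (1 / 8 : ℝ) := by
    have := Real.log_le_rpow_div hx0.le (show (0 : ℝ) < 1 / 8 by norm_num)
    linarith
  have hlog1 : Real.log (x + 1) ≤ Real.log x + 1 := by
    have h5 : Real.log ((x + 1) / x) ≤ (x + 1) / x - 1 := Real.log_le_sub_one_of_pos (by positivity)
    rw [Real.log_div (by positivity) (by positivity)] at h5
    have h6 : ((x : ℝ) + 1) / x - 1 ≤ 1 := by
      rw [sub_le_iff_le_add, div_le_iff₀ hx0]; linarith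
    linarith
  have hlog2 : (1 / 2 : ℝ) < Real.log 2 := by have := Real.log_two_gt_d9; linarith
  have hlx : 0 < Real.log x := Real.log_pos (by linarith)
  obtain ⟨u, hu⟩ : ∃ u, u = (x : ℝ) ^ (1 / 8 : ℝ) := ⟨_, rfl⟩
  rw [← hu] at h2 hlog
  have e1 : (x : ℝ) = u ^ 8 := by
    rw [hu, ← Real.rpow_natCast, ← Real.rpow_mul hx0.le]
    norm_num
  have e2 : (x : ℝ) ^ (3 / 4 : ℝ) = u ^ 6 := by
    rw [hu, ← Real.rpow_natCast, ← Real.rpow_mul hx0.le]
    norm_num
  rw [e2]
  by_contra hcon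
  rw [not_le] at hcon
  have h5 : ((primesTo x).card : ℝ) * Real.log x ≤ 9 * u ^ 6 * (8 * u) :=
    mul_le_mul hcon.le hlog hlx.le (by positivity)
  have h6 : (x : ℝ) * (1 / 2) ≤ x * Real.log 2 := mul_le_mul_of_nonneg_left hlog2.le hx0.le
  have h7 : u ^ 8 * (1 / 2) - (8 * u + 1) ≤ 72 * u ^ 7 := by
    have : u ^ 8 * (1 / 2) = (x : ℝ) * (1 / 2) := by rw [e1]
    rw [this]
    nlinarith
  have hu0 : 0 < u := by linarith
  have h8 : u ^ 8 * (1 / 2) ≥ 400 * u ^ 7 := by
    have : u ^ 8 = u * u ^ 7 := by ring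
    rw [this]
    have h9 : 0 < u ^ 7 := by positivity
    nlinarith
  have h10 : u ≤ u ^ 7 := by
    have : (1 : ℝ) ≤ u ^ 6 := one_le_pow₀ (by linarith)
    calc u = 1 * u := (one_mul u).symm
      _ ≤ u ^ 6 * u := mul_le_mul_of_nonneg_right this hu0.le
      _ = u ^ 7 := by ring
  linarith

/-- **The values are not zero and not squares.** -/
theorem forms [Nonempty L] {b : ℕ} (hb : 2 ≤ b) (A A₃ : ℕ) (U : ℕ → Finset (Form L)) (hU : ∀ x, 2 ≤ x → (U x).card ≤ x ^ A₃) :
    ForAlmostAll L b A (fun (_ : Unit) x m => ∀ t ∈ U x,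
      (((primesTo x).filter (fun p : ℕ => (∀ l, (p : ℤ) ∣ t.1.2 l) ∨ (p : ℤ) ∣ t.2)).card : ℝ) ≤ (x : ℝ) ^ (3 / 4 : ℝ) →
      val t.1.1 t.1.2 m ≠ 0 ∧ ¬ IsSquare (t.2 * val t.1.1 t.1.2 m)) := by
  classical
  have h1 := centered (L := L) hb (show (0 : ℝ) < 1 / 4 by norm_num) (A + 1) 0 A₃ U hU (fun t p m => gchi t p m)
    (fun t p n _ => gchi_mod t p n) (C := 1) le_rfl (fun t p n _ => gchi_bound t p n) (fun t p hp => by
      beta_reduce
      rw [show (fun m => gchi t p m) = gchi t p from rfl, avg_gchi t hp, abs_zero]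
      positivity)
  have h2 := centered (L := L) hb (show (0 : ℝ) < 1 / 4 by norm_num) (A + 1) 0 A₃ U hU (fun t p m => gzero t p m)
    (fun t p n _ => gzero_mod t p n) (C := 1) le_rfl (fun t p n hp => gzero_bound t hp n) (fun t p hp => by
      beta_reduce
      rw [show (fun m => gzero t p m) = gzero t p from rfl, avg_gzero t hp, abs_zero]
      positivity)
  have h3 := ForAlmostAll.and h1 h2 (F := fun (θ : Sets 0) x m => ∀ P ∈ θ.S x, ∀ t ∈ U x,
      |∑ p ∈ P, gchi t p m| ≤ Real.sqrt (max 1 P.card) * (x : ℝ) ^ (1 / 4 : ℝ) ∧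
      |∑ p ∈ P, gzero t p m| ≤ Real.sqrt (max 1 P.card) * (x : ℝ) ^ (1 / 4 : ℝ))
    (fun θ x m g1 g2 P hP t ht => ⟨g1 P hP t ht, g2 P hP t ht⟩)
  obtain ⟨x₁, hx₁⟩ := many_primes
  obtain ⟨c, hc, y₀, H⟩ := h3
  refine ⟨c, hc, y₀ + x₁ + 3, fun _ K r N f y hs hy => ?_⟩
  refine le_trans (Nat.cast_le.2 (exceptions_mono ?_)) (H allPrimes K r N f y hs (by omega))
  intro m hm x hx hr t ht hbad
  obtain ⟨g1, g2⟩ := hm x hx hr (primesTo x) (mem_singleton_self _) t ht
  have hx1 : (1 : ℝ) ≤ x := by exact_mod_cast (by omega : 1 ≤ x)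
  have hx0 : (0 : ℝ) < x := by linarith
  have hmany := hx₁ x (by omega)
  obtain ⟨W, hW⟩ : ∃ W : ℝ, W = (x : ℝ) ^ (3 / 4 : ℝ) := ⟨_, rfl⟩
  have hW1 : 1 ≤ W := by rw [hW]; exact Real.one_le_rpow hx1 (by norm_num)
  have hbound : Real.sqrt (max 1 (primesTo x).card) * (x : ℝ) ^ (1 / 4 : ℝ) ≤ W := by
    have h4 : Real.sqrt (max 1 ((primesTo x).card : ℝ)) ≤ (x : ℝ) ^ (1 / 2 : ℝ) := by
      rw [← Real.sqrt_eq_rpow]
      exact Real.sqrt_le_sqrt (max_le hx1 (card_primesTo x))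
    have h5 : (x : ℝ) ^ (1 / 2 : ℝ) * (x : ℝ) ^ (1 / 4 : ℝ) = W := by
      rw [hW, ← Real.rpow_add hx0]; norm_num
    rw [← h5]
    exact mul_le_mul_of_nonneg_right h4 (by positivity)
  rw [← hW] at hbad hmany
  have g1' := g1.trans hbound
  have g2' := g2.trans hbound
  obtain ⟨Q, hQ⟩ : ∃ Q, Q = (primesTo x).filter (fun p : ℕ => ¬ ((∀ l, (p : ℤ) ∣ t.1.2 l) ∨ (p : ℤ) ∣ t.2)) := ⟨_, rfl⟩
  have hQcard : (Q.card : ℝ) ≥ (primesTo x).card - W := by
    have h4 := card_filter_add_card_filter_not (s := primesTo x) (fun p : ℕ => (∀ l, (p : ℤ) ∣ t.1.2 l) ∨ (p : ℤ) ∣ t.2)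
    have h5 : (((primesTo x).filter (fun p : ℕ => (∀ l, (p : ℤ) ∣ t.1.2 l) ∨ (p : ℤ) ∣ t.2)).card : ℝ) + Q.card = (primesTo x).card := by
      rw [hQ]
      exact_mod_cast h4
    linarith
  have hprim : ∀ p ∈ Q, p.Prime ∧ Primitive t p ∧ ¬ (p : ℤ) ∣ t.2 := by
    intro p hp
    rw [hQ, mem_filter, not_or] at hp
    refine ⟨(mem_primesTo.1 hp.1).1, ?_, hp.2.2⟩
    unfold Primitive
    by_contra h
    push Not at h
    exact hp.2.1 h
  -- few primes of `Q` divide the value
  have hzero : ((Q.filter (fun p : ℕ => (p : ℤ) ∣ val t.1.1 t.1.2 m)).card : ℝ) ≤ W + (primesTo x).card * (1 / 2) := by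
    have h4 : ∑ p ∈ primesTo x, gzero t p m ≥ ((Q.filter (fun p : ℕ => (p : ℤ) ∣ val t.1.1 t.1.2 m)).card : ℝ) - (primesTo x).card * (1 / 2) := by
      have h5 : ∀ p ∈ primesTo x, gzero t p m ≥ (if p ∈ Q ∧ (p : ℤ) ∣ val t.1.1 t.1.2 m then 1 else 0) - 1 / 2 := by
        intro p hp
        have hpp := (mem_primesTo.1 hp).1
        have hp2 : (2 : ℝ) ≤ p := by exact_mod_cast hpp.two_le
        have h6 : 1 / (p : ℝ) ≤ 1 / 2 := one_div_le_one_div_of_le (by norm_num) hp2
        have h7 : 0 ≤ 1 / (p : ℝ) := by positivity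
        unfold gzero
        by_cases hPr : Primitive t p
        · rw [if_pos hPr]
          split_ifs with h8 h9 h9
          · linarith
          · linarith
          · exact absurd h9.2 h8
          · linarith
        · rw [if_neg hPr, if_neg (fun h => hPr (hprim p h.1).2.1)]
          linarith
      calc ∑ p ∈ primesTo x, gzero t p m ≥ ∑ p ∈ primesTo x, ((if p ∈ Q ∧ (p : ℤ) ∣ val t.1.1 t.1.2 m then (1 : ℝ) else 0) - 1 / 2) :=
            sum_le_sum h5
        _ = _ := by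
          rw [sum_sub_distrib, sum_const, nsmul_eq_mul, ← sum_filter, sum_const, nsmul_eq_mul, mul_one]
          congr 3
          ext p
          rw [mem_filter, mem_filter]
          constructor
          · rintro ⟨_, h⟩; exact h
          · rintro ⟨h1, h2⟩
            refine ⟨?_, h1, h2⟩
            rw [hQ, mem_filter] at h1
            exact h1.1
    have h6 := (abs_le.1 g2').2
    linarith
  refine ⟨fun h0 => ?_, fun hsq => ?_⟩
  · have h4 : Q.filter (fun p : ℕ => (p : ℤ) ∣ val t.1.1 t.1.2 m) = Q := by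
      apply filter_true_of_mem
      intro p _
      rw [h0]
      exact dvd_zero _
    rw [h4] at hzero
    linarith
  · -- the symbols
    obtain ⟨k, hk⟩ := hsq
    have h4 : ∀ p ∈ primesTo x, gchi t p m ≥ (if p ∈ Q ∧ ¬ (p : ℤ) ∣ val t.1.1 t.1.2 m then 1 else 0) - (if p = 2 then 1 else 0) := by
      intro p hp
      have hpp := (mem_primesTo.1 hp).1
      have : Fact p.Prime := ⟨hpp⟩
      unfold gchi
      by_cases h5 : p.Prime ∧ p ≠ 2 ∧ Primitive t p ∧ ¬ (p : ℤ) ∣ t.2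
      · rw [dif_pos h5, if_neg h5.2.1, sub_zero]
        have e1 : (((t.2 * val t.1.1 t.1.2 m : ℤ)) : ZMod p) = (k : ZMod p) ^ 2 := by rw [hk]; push_cast; ring
        rw [e1]
        by_cases h6 : (k : ZMod p) = 0
        · have h7 : (p : ℤ) ∣ t.2 * val t.1.1 t.1.2 m := by
            rw [← ZMod.intCast_zmod_eq_zero_iff_dvd, e1, h6]
            norm_num
          have h8 : (p : ℤ) ∣ val t.1.1 t.1.2 m := by
            rcases (Nat.prime_iff_prime_int.1 hpp).dvd_or_dvd h7 with h | h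
            · exact absurd h h5.2.2.2
            · exact h
          rw [h6, if_neg (fun h => h.2 h8)]
          unfold qc
          simp
        · have h7 : qc ((k : ZMod p) ^ 2) = 1 := by
            unfold qc
            rw [quadraticChar_sq_one' h6]
            norm_num
          rw [h7]
          split_ifs <;> norm_num
      · rw [dif_neg h5]
        by_cases h2 : p = 2
        · rw [if_pos h2]
          split_ifs <;> norm_num
        · rw [if_neg h2, if_neg]
          · norm_num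
          · intro h
            exact h5 ⟨hpp, h2, (hprim p h.1).2⟩
    have h5 : ∑ p ∈ primesTo x, gchi t p m ≥ ((Q.filter (fun p : ℕ => ¬ (p : ℤ) ∣ val t.1.1 t.1.2 m)).card : ℝ) - 1 := by
      refine ge_trans (sum_le_sum h4) ?_
      rw [sum_sub_distrib, ← sum_filter, sum_const, nsmul_eq_mul, mul_one]
      have h6 : (primesTo x).filter (fun p : ℕ => p ∈ Q ∧ ¬ (p : ℤ) ∣ val t.1.1 t.1.2 m) = Q.filter (fun p : ℕ => ¬ (p : ℤ) ∣ val t.1.1 t.1.2 m) := by
        ext p
        rw [mem_filter, mem_filter]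
        constructor
        · rintro ⟨_, h⟩; exact h
        · rintro ⟨h1, h2⟩
          refine ⟨?_, h1, h2⟩
          rw [hQ, mem_filter] at h1
          exact h1.1
      rw [h6]
      have h7 : ∑ p ∈ primesTo x, (if p = 2 then (1 : ℝ) else 0) ≤ 1 := by
        rw [sum_ite_eq']
        split_ifs <;> norm_num
      linarith
    have h6 := card_filter_add_card_filter_not (s := Q) (fun p : ℕ => (p : ℤ) ∣ val t.1.1 t.1.2 m)
    have h7 : ((Q.filter (fun p : ℕ => (p : ℤ) ∣ val t.1.1 t.1.2 m)).card : ℝ) + (Q.filter (fun p : ℕ => ¬ (p : ℤ) ∣ val t.1.1 t.1.2 m)).card = Q.card := by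
      exact_mod_cast h6
    have h8 := (abs_le.1 g1').2
    linarith

end

end Pool.Agent.Q235.FD
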