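import Pool.Agent.TH894.NE5

/-!
# Almost all tuples of integers which arise from arbitrary integers by changing a few digits

The general law for sums over primes of bounded functions of the residues of the tuple, for an arbitrary finite index
set (from the library `TH894.NE`).
-/

set_option autoImplicit false

namespace Pool.Agent.Q235.FD

open Finset

/-- The digit number `i` (counted from the right, beginning with `0`) of `n` in base `b`. -/
def digit (b i n : ℕ) : ℕ := n / b ^ i % b

/-- The number which arises from the number `N` with at most `K` digits in base `b`, if for every `i ∈ S`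
the digit number `i` is replaced by `f i`. -/
def change (b K N : ℕ) (f : ℕ → ℕ) (S : Finset ℕ) : ℕ :=
  ∑ i ∈ range K, (if i ∈ S then f i else digit b i N) * b ^ i

open Classical in
/-- The number of the choices of `r l` of `K l` positions for all `l` for which the tuple of the numbers obtained by
changing the digits of the `N l` at the chosen positions (according to `f l`) does not have the property `E`. -/
noncomputable def exceptions {L : Type} [Fintype L] (b : ℕ) (K r N : L → ℕ) (f : L → ℕ → ℕ) (E : (L → ℕ) → Prop) : ℕ :=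
  ((Fintype.piFinset (fun l => powersetCard (r l) (range (K l)))).filter
    (fun S => ¬ E (fun l => change b (K l) (N l) (f l) (S l)))).card

/-- `N l` has at most `K l` digits in base `b`, at most half of them are changed, and `f l j` is a digit different from
the digit number `j` of `N l`, for all `l`. -/
def Setting {L : Type} (b : ℕ) (K r N : L → ℕ) (f : L → ℕ → ℕ) : Prop :=
  (∀ l, 2 * r l ≤ K l) ∧ (∀ l, N l < b ^ K l) ∧ ∀ l j, f l j < b ∧ f l j ≠ digit b j (N l)

/-- The property `E θ x` holds for almost all tuples `m` obtained by changing a few digits of arbitrary integers, for all `x` in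
the range `y ≤ x ≤ exp (c r l)`: there are `c > 0` and `y₀` such that for all `θ`, all integers `N l` with `K l` digits in base `b`,
all `r l ≤ K l / 2`, all prescriptions `f` of new digits and all `y ≥ y₀` the proportion of the choices of `r l` positions for all `l`
such that the tuple obtained does not have this property is at most `1 / y ^ A`. -/
def ForAlmostAll (L : Type) [Fintype L] (b A : ℕ) {Θ : Type} (E : Θ → ℕ → (L → ℕ) → Prop) : Prop :=
  ∃ c : ℝ, 0 < c ∧ ∃ y₀ : ℕ, ∀ (θ : Θ) (K r N : L → ℕ) (f : L → ℕ → ℕ) (y : ℕ), Setting b K r N f → y₀ ≤ y →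
    (exceptions b K r N f (fun m => ∀ x : ℕ, y ≤ x → (∀ l, (x : ℝ) ≤ Real.exp (c * r l)) → E θ x m) : ℝ) ≤
      1 / (y : ℝ) ^ A * ∏ l, ((K l).choose (r l) : ℝ)

open Classical in
/-- The average over all tuples of residues modulo `p`. -/
noncomputable def avg {L : Type} [Fintype L] (p : ℕ) (F : (L → ℕ) → ℝ) : ℝ :=
  (∑ n ∈ Fintype.piFinset (fun _ : L => range p), F n) / (p : ℝ) ^ Fintype.card L

/-- The data of the general law: for every `x` a set `Λ x` of parameters, and for every parameter `l` a set `P x l` of primes and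
bounded functions `G x l p` of the tuples of residues modulo `p`. -/
structure Data (L : Type) [Fintype L] (A₂ : ℕ) where
  κ : Type
  Λ : ℕ → Finset κ
  card : ∀ x, 2 ≤ x → (Λ x).card ≤ x ^ A₂
  P : ℕ → κ → Finset ℕ
  prime : ∀ x l, ∀ p ∈ P x l, p.Prime ∧ p ≤ x
  G : ℕ → κ → ℕ → (L → ℕ) → ℝ
  per : ∀ x l p n, p ∈ P x l → G x l p n = G x l p (fun i => n i % p)
  bound : ∀ x l p n, p ∈ P x l → |G x l p n| ≤ 1

/-- the general law -/
def Law {L : Type} [Fintype L] {A₂ : ℕ} (δ : ℝ) (D : Data L A₂) (x : ℕ) (m : L → ℕ) : Prop :=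
  ∀ l ∈ D.Λ x, |∑ p ∈ D.P x l, D.G x l p m - ∑ p ∈ D.P x l, avg p (D.G x l p)| ≤
    Real.sqrt (max 1 (∑ p ∈ D.P x l, avg p (fun n => D.G x l p n ^ 2))) * (x : ℝ) ^ δ

lemma avg_equiv {L : Type} [Fintype L] {d : ℕ} (e : L ≃ Fin d) (p : ℕ) (F : (L → ℕ) → ℝ) :
    Pool.Agent.TH894.NE.mean d p (fun n => F (fun l => n (e l))) = avg p F := by
  classical
  unfold Pool.Agent.TH894.NE.mean avg Pool.Agent.TH894.NE.box
  have hd : Fintype.card L = d := by rw [Fintype.card_congr e, Fintype.card_fin]
  rw [hd, div_mul_eq_mul_div, one_mul]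
  congr 1
  refine sum_bij (fun n _ => fun l => n (e l)) ?_ ?_ ?_ ?_
  · intro n hn
    rw [Fintype.mem_piFinset] at hn ⊢
    exact fun l => hn (e l)
  · intro n _ n' _ h
    funext i
    have := congrFun h (e.symm i)
    simpa using this
  · intro n hn
    refine ⟨fun i => n (e.symm i), ?_, ?_⟩
    · rw [Fintype.mem_piFinset] at hn ⊢
      exact fun i => hn (e.symm i)
    · funext l
      simp
  · intro n _
    rfl

theorem gen (L : Type) [Fintype L] [Nonempty L] (b : ℕ) (hb : 2 ≤ b) (δ : ℝ) (hδ : 0 < δ) (A A₂ : ℕ) :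
    ∃ c : ℝ, 0 < c ∧ ∃ y₀ : ℕ, ∀ (D : Data L A₂) (K r N : L → ℕ) (f : L → ℕ → ℕ) (y : ℕ), Setting b K r N f → y₀ ≤ y →
    (exceptions b K r N f (fun m => ∀ x : ℕ, y ≤ x → (∀ l, (x : ℝ) ≤ Real.exp (c * r l)) → Law δ D x m) : ℝ) ≤
      1 / (y : ℝ) ^ A * ∏ l, ((K l).choose (r l) : ℝ) := by
  classical
  obtain ⟨d, e⟩ : ∃ d, Nonempty (L ≃ Fin d) := ⟨Fintype.card L, ⟨Fintype.equivFin L⟩⟩
  obtain ⟨e⟩ := e
  have hd : 1 ≤ d := by
    obtain ⟨l⟩ := (inferInstance : Nonempty L)
    have := (e l).isLt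
    omega
  obtain ⟨c, hc, x₀, h⟩ := Pool.Agent.TH894.NE.law3 b d hb hd δ A A₂ hδ
  refine ⟨c, hc, x₀ + 3, fun D K r N f y hs hy => ?_⟩
  have hy0 : (0 : ℝ) < y := by exact_mod_cast (by omega : 0 < y)
  have h1 : 1 / (y : ℝ) ^ A = (y : ℝ) ^ (-(A : ℝ)) := by
    rw [Real.rpow_neg hy0.le, Real.rpow_natCast, one_div]
  rw [h1]
  unfold exceptions
  obtain ⟨Ex, hEx⟩ : ∃ Ex, Ex = (Fintype.piFinset (fun l => powersetCard (r l) (range (K l)))).filter
    (fun S => ¬ (fun m => ∀ x : ℕ, y ≤ x → (∀ l, (x : ℝ) ≤ Real.exp (c * r l)) → Law δ D x m)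
      (fun l => change b (K l) (N l) (f l) (S l))) := ⟨_, rfl⟩
  have hinj : Function.Injective (fun (S : L → Finset ℕ) (i : Fin d) => S (e.symm i)) := by
    intro S S' h
    funext l
    have := congrFun h (e l)
    simpa using this
  have hcard : (Ex.card : ℝ) = ((Ex.image (fun S i => S (e.symm i))).card : ℝ) := by
    rw [card_image_of_injective _ hinj]
  have hprod : ∏ l, ((K l).choose (r l) : ℝ) = ∏ i : Fin d, ((K (e.symm i)).choose (r (e.symm i)) : ℝ) :=
    (Equiv.prod_comp e.symm (fun l => ((K l).choose (r l) : ℝ))).symm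
  rw [← hEx, hcard, hprod]
  refine h (fun i => r (e.symm i)) (fun i => K (e.symm i)) y (fun i => hs.1 _) (by omega) (fun i => N (e.symm i))
    (fun i => hs.2.1 _) (fun i => f (e.symm i)) (fun i j => hs.2.2 _ j) (ℕ × D.κ)
    (fun x => if 2 ≤ x then (({x} : Finset ℕ) ×ˢ D.Λ x) else ∅) ?_ ℕ
    (fun _ l => D.P l.1 l.2) (fun _ p => p) ?_ ?_
    (fun l p n => D.G l.1 l.2 p (fun i => n (e i))) ?_ ?_ _ ?_ ?_
  · intro x _
    beta_reduce
    split_ifs with hx
    · rw [card_product, card_singleton, one_mul, Real.rpow_natCast]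
      exact_mod_cast D.card x hx
    · rw [card_empty, Nat.cast_zero]
      positivity
  · intro x l hl p hp
    beta_reduce at hl
    split_ifs at hl with hx
    · rw [mem_product, mem_singleton] at hl
      obtain ⟨h1, h2⟩ := D.prime l.1 l.2 p hp
      rw [hl.1] at h2
      exact ⟨h1.one_lt.le, h2⟩
    · exact absurd hl (notMem_empty _)
  · intro x l _ p hp p' hp' hne
    exact (Nat.coprime_primes (D.prime l.1 l.2 p hp).1 (D.prime l.1 l.2 p' hp').1).2 hne
  · intro x l _ p hp n
    exact D.per l.1 l.2 p _ hp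
  · intro x l _ p hp n
    exact D.bound l.1 l.2 p _ hp
  · intro S hS
    rw [mem_image] at hS
    obtain ⟨S', hS', rfl⟩ := hS
    rw [hEx, mem_filter, Fintype.mem_piFinset] at hS'
    rw [Fintype.mem_piFinset]
    exact fun i => hS'.1 (e.symm i)
  · intro S hS
    rw [mem_image] at hS
    obtain ⟨S', hS', rfl⟩ := hS
    rw [hEx, mem_filter] at hS'
    obtain ⟨_, hS2⟩ := hS'
    unfold Law at hS2
    push Not at hS2
    obtain ⟨x, hyx, hxr, l, hl, hlt⟩ := hS2
    have hx0 : (0 : ℝ) < x := by exact_mod_cast (by omega : 0 < x)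
    refine ⟨x, hyx, fun i => (Real.log_le_iff_le_exp hx0).2 (hxr _), (x, l), ?_, ?_⟩
    · beta_reduce
      rw [if_pos (by omega), mem_product, mem_singleton]
      exact ⟨rfl, hl⟩
    · have e1 : ∀ i : L, e.symm (e i) = i := fun i => e.symm_apply_apply i
      have e2 : ∀ p, Pool.Agent.TH894.NE.mean d p (fun n => (D.G x l p (fun i => n (e i))) ^ 2) = avg p (fun n => D.G x l p n ^ 2) :=
        fun p => avg_equiv e p (fun n => D.G x l p n ^ 2)
      beta_reduce
      simp only [e1, e2, avg_equiv e]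
      exact hlt

end Pool.Agent.Q235.FD
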