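import Pool.Agent.Q235.FD.Hyp
import Pool.Agent.H341R2.WeilSharp

/-! Moments of the character sums. -/

set_option autoImplicit false

namespace Pool.Agent.Q235.FD

open Finset

section

variable {D p : ℕ} [Fact p.Prime]

/-- the quadratic character with real values -/
noncomputable def qc (z : ZMod p) : ℝ := (quadraticChar (ZMod p) z : ℝ)

lemma qc_cases (z : ZMod p) : (z = 0 ∧ qc z = 0) ∨ (z ≠ 0 ∧ (qc z = 1 ∨ qc z = -1)) := by
  unfold qc
  by_cases hz : z = 0
  · left
    exact ⟨hz, by rw [hz, quadraticChar_zero]; simp⟩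
  · right
    refine ⟨hz, ?_⟩
    rcases quadraticChar_dichotomy hz with h | h
    · left; rw [h]; simp
    · right; rw [h]; simp

lemma qc_pow (hp : p ≠ 2) (j : ℕ) : (∑ c : ZMod p, qc c ^ j) / p = mu (((p : ℝ) - 1) / p) j := by
  have hp0 : (p : ℝ) ≠ 0 := by exact_mod_cast (Fact.out : p.Prime).ne_zero
  unfold mu
  split_ifs with h1 h2
  · rw [h1]
    simp only [pow_zero, sum_const, card_univ, ZMod.card, nsmul_eq_mul, mul_one]
    exact div_self hp0
  · congr 1
    have e : ∀ c : ZMod p, qc c ^ j = if c = 0 then 0 else 1 := by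
      intro c
      rcases qc_cases c with ⟨hc, h⟩ | ⟨hc, h | h⟩
      · rw [h, if_pos hc, zero_pow h1]
      · rw [h, if_neg hc, one_pow]
      · rw [h, if_neg hc, h2.neg_one_pow]
    simp only [e]
    have e2 : ∀ c : ZMod p, (if c = 0 then (0 : ℝ) else 1) = 1 - if c = 0 then 1 else 0 := by
      intro c; split_ifs <;> simp
    simp only [e2, sum_sub_distrib, sum_const, card_univ, ZMod.card, nsmul_eq_mul, mul_one, sum_ite_eq', mem_univ, if_true]
  · have e : ∀ c : ZMod p, qc c ^ j = qc c := by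
      intro c
      rw [Nat.not_even_iff_odd] at h2
      rcases qc_cases c with ⟨hc, h⟩ | ⟨hc, h | h⟩
      · rw [h, zero_pow h1]
      · rw [h, one_pow]
      · rw [h, h2.neg_one_pow]
    simp only [e]
    have h3 : ∑ c : ZMod p, quadraticChar (ZMod p) c = 0 := quadraticChar_sum_zero (by rw [ZMod.ringChar_zmod_n]; exact hp)
    have h4 : ∑ c : ZMod p, qc c = 0 := by
      unfold qc
      rw [← Int.cast_sum, h3, Int.cast_zero]
    rw [h4, zero_div]

/-- the moments of the character sums are those of a sum of independent variables -/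
theorem mom_eq (hp : p ≠ 2) (A : Finset (ZMod p)) : ∀ (B : Finset (ZMod p)) (h : ZMod p → ZMod p → ℝ) (k : ℕ), Disjoint A B → B.card + k ≤ D →
    ∑ v : Fin D → ZMod p, (∏ b ∈ B, h b (ev v b)) * (∑ x ∈ A, qc (ev v x)) ^ k =
      (p : ℝ) ^ D * (∏ b ∈ B, ((∑ c, h b c) / p)) * mom (((p : ℝ) - 1) / p) A.card k := by
  classical
  induction A using Finset.induction_on with
  | empty =>
    intro B h k _ hk
    rw [card_empty, mom]
    by_cases h0 : k = 0
    · rw [if_pos h0, mul_one, h0]
      simp only [sum_empty, pow_zero, mul_one]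
      exact indep B (by omega) h
    · rw [if_neg h0, mul_zero]
      simp only [sum_empty, zero_pow h0, mul_zero, sum_const_zero]
  | insert z A hz ih =>
    intro B h k hd hk
    rw [disjoint_insert_left] at hd
    rw [card_insert_of_notMem hz, mom]
    have e1 : ∀ v : Fin D → ZMod p, (∏ b ∈ B, h b (ev v b)) * (∑ x ∈ insert z A, qc (ev v x)) ^ k =
        ∑ j ∈ range (k + 1), ((∏ b ∈ B, h b (ev v b)) * (qc (ev v z) ^ j * (∑ x ∈ A, qc (ev v x)) ^ (k - j))) * (k.choose j : ℝ) := by
      intro v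
      rw [sum_insert hz, add_pow, mul_sum]
      exact sum_congr rfl fun j _ => by ring
    rw [sum_congr rfl (fun v _ => e1 v), sum_comm, mul_sum]
    refine sum_congr rfl fun j hj => ?_
    rw [mem_range] at hj
    rw [← sum_mul]
    have e2 : ∑ v : Fin D → ZMod p, (∏ b ∈ B, h b (ev v b)) * (qc (ev v z) ^ j * (∑ x ∈ A, qc (ev v x)) ^ (k - j)) =
        (p : ℝ) ^ D * (∏ b ∈ B, ((∑ c, h b c) / p)) * (mu (((p : ℝ) - 1) / p) j * mom (((p : ℝ) - 1) / p) A.card (k - j)) := by
      by_cases h0 : j = 0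
      · subst h0
        have e3 : mu (((p : ℝ) - 1) / p) 0 = 1 := by simp [mu]
        rw [e3, one_mul, Nat.sub_zero]
        simp only [pow_zero, one_mul]
        exact ih B h k hd.2 hk
      · have hB : B.card + 1 + (k - j) ≤ D := by omega
        have h1 := ih (insert z B) (Function.update h z (fun c => qc c ^ j)) (k - j) (by
          rw [disjoint_insert_right]
          exact ⟨hz, hd.2⟩) (by
          rw [card_insert_of_notMem hd.1]
          exact hB)
        rw [prod_insert hd.1, Function.update_self, qc_pow hp] at h1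
        have e4 : ∏ b ∈ B, ((∑ c, Function.update h z (fun c => qc c ^ j) b c) / (p : ℝ)) = ∏ b ∈ B, ((∑ c, h b c) / (p : ℝ)) := by
          refine prod_congr rfl fun b hb => ?_
          rw [Function.update_of_ne (fun h' => hd.1 (by rw [← h']; exact hb))]
        rw [e4] at h1
        have e5 : ∀ v : Fin D → ZMod p, (∏ b ∈ insert z B, Function.update h z (fun c => qc c ^ j) b (ev v b)) =
            qc (ev v z) ^ j * ∏ b ∈ B, h b (ev v b) := by
          intro v
          rw [prod_insert hd.1, Function.update_self]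
          congr 1
          refine prod_congr rfl fun b hb => ?_
          rw [Function.update_of_ne (fun h' => hd.1 (by rw [← h']; exact hb))]
        simp only [e5] at h1
        have e6 : ∀ v : Fin D → ZMod p, (∏ b ∈ B, h b (ev v b)) * (qc (ev v z) ^ j * (∑ x ∈ A, qc (ev v x)) ^ (k - j)) =
            qc (ev v z) ^ j * (∏ b ∈ B, h b (ev v b)) * (∑ x ∈ A, qc (ev v x)) ^ (k - j) := fun v => by ring
        rw [sum_congr rfl (fun v _ => e6 v), h1]
        ring
    rw [e2]
    ring

/-- the character sum -/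
noncomputable def chs (v : Fin D → ZMod p) : ℝ := ∑ x : ZMod p, qc (ev v x)

theorem chs_mom (hp : p ≠ 2) {k : ℕ} (hk : k ≤ D) :
    ∑ v : Fin D → ZMod p, chs v ^ k = (p : ℝ) ^ D * mom (((p : ℝ) - 1) / p) p k := by
  have h := mom_eq (D := D) hp (univ : Finset (ZMod p)) ∅ (fun _ _ => 1) k (disjoint_empty_right _) (by simpa using hk)
  simp only [prod_empty, one_mul, mul_one, card_univ, ZMod.card] at h
  exact h

/-- the Gaussian moments, for all exponents -/
noncomputable def gmom (k : ℕ) : ℝ := if Even k then ((k - 1).doubleFactorial : ℝ) else 0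

lemma gmom_even (k : ℕ) : gmom (2 * k) = gm k := by
  unfold gmom
  rw [if_pos (even_two_mul k), gm_eq]

lemma gmom_nonneg (k : ℕ) : 0 ≤ gmom k := by
  unfold gmom
  split_ifs
  · positivity
  · exact le_rfl

/-- the moments of the normalized sums -/
theorem norm_mom (k : ℕ) : ∃ C : ℝ, 0 ≤ C ∧ ∀ (p D : ℕ) [Fact p.Prime], p ≠ 2 → k ≤ D →
    |(∑ v : Fin D → ZMod p, (chs v / Real.sqrt p) ^ k) / (p : ℝ) ^ D - gmom k| ≤ C / p := by
  rcases Nat.even_or_odd k with hk | hk
  · obtain ⟨j, hj⟩ := hk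
    have hj2 : k = 2 * j := by omega
    subst hj2
    obtain ⟨C, hC0, hC⟩ := mom_even j
    refine ⟨C + gm j * j, by have := gm_nonneg j; positivity, fun p D _ hp hkD => ?_⟩
    have hpp : (0 : ℝ) < p := by exact_mod_cast (Fact.out : p.Prime).pos
    have hp1 : (1 : ℝ) ≤ p := by exact_mod_cast (Fact.out : p.Prime).one_lt.le
    obtain ⟨θ, hθ⟩ : ∃ θ : ℝ, θ = ((p : ℝ) - 1) / p := ⟨_, rfl⟩
    have hθ0 : 0 ≤ θ := by rw [hθ]; exact div_nonneg (by linarith) hpp.le
    have hθ1 : θ ≤ 1 := by rw [hθ, div_le_one hpp]; linarith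
    have e1 : ∀ v : Fin D → ZMod p, (chs v / Real.sqrt p) ^ (2 * j) = chs v ^ (2 * j) / (p : ℝ) ^ j := by
      intro v
      rw [div_pow, pow_mul (Real.sqrt p), Real.sq_sqrt hpp.le]
    rw [sum_congr rfl (fun v _ => e1 v), ← sum_div, chs_mom hp hkD, gmom_even, ← hθ]
    have e2 : (p : ℝ) ^ D * mom θ p (2 * j) / (p : ℝ) ^ j / (p : ℝ) ^ D = mom θ p (2 * j) / (p : ℝ) ^ j := by
      field_simp
    rw [e2]
    have h1 := hC θ hθ0 hθ1 p
    have h2 : |mom θ p (2 * j) / (p : ℝ) ^ j - gm j * θ ^ j| ≤ C / p := by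
      have e3 : mom θ p (2 * j) / (p : ℝ) ^ j - gm j * θ ^ j = (mom θ p (2 * j) - gm j * (θ * p) ^ j) / (p : ℝ) ^ j := by
        rw [mul_pow]
        field_simp
      rw [e3, abs_div, abs_of_pos (pow_pos hpp j)]
      cases j with
      | zero =>
        have e8 : mom θ p (2 * 0) - gm 0 * (θ * p) ^ 0 = 0 := by
          rw [mul_zero, mom_zero_right]
          simp [gm]
        rw [e8, abs_zero, zero_div]
        positivity
      | succ j =>
        rw [Nat.add_sub_cancel] at h1
        rw [div_le_div_iff₀ (by positivity) hpp]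
        calc |mom θ p (2 * (j + 1)) - gm (j + 1) * (θ * p) ^ (j + 1)| * p ≤ C * (p : ℝ) ^ j * p :=
              mul_le_mul_of_nonneg_right h1 hpp.le
          _ = C * (p : ℝ) ^ (j + 1) := by ring
    have h3 : |gm j * θ ^ j - gm j| ≤ gm j * j / p := by
      have e4 : 1 - (j : ℝ) / p ≤ θ ^ j := by
        have h4 := one_add_mul_le_pow (show (-2 : ℝ) ≤ -(1 / p) by
          have : 1 / (p : ℝ) ≤ 1 := by rw [div_le_one hpp]; exact hp1
          linarith) j
        have e5 : θ = 1 + -(1 / (p : ℝ)) := by rw [hθ]; field_simp; ring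
        rw [e5]
        calc 1 - (j : ℝ) / p = 1 + j * -(1 / (p : ℝ)) := by ring
          _ ≤ _ := h4
      have e6 : θ ^ j ≤ 1 := pow_le_one₀ hθ0 hθ1
      have e7 := gm_nonneg j
      rw [abs_le]
      constructor
      · have := mul_le_mul_of_nonneg_left e4 e7
        calc -(gm j * j / p) = gm j * (1 - (j : ℝ) / p) - gm j := by ring
          _ ≤ _ := by linarith
      · have := mul_le_mul_of_nonneg_left e6 e7
        have : 0 ≤ gm j * j / p := by positivity
        linarith
    calc |mom θ p (2 * j) / (p : ℝ) ^ j - gm j| = |(mom θ p (2 * j) / (p : ℝ) ^ j - gm j * θ ^ j) + (gm j * θ ^ j - gm j)| := by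
          congr 1; ring
      _ ≤ C / p + gm j * j / p := (abs_add_le _ _).trans (add_le_add h2 h3)
      _ = (C + gm j * j) / p := by ring
  · refine ⟨0, le_rfl, fun p D _ hp hkD => ?_⟩
    have e1 : ∀ v : Fin D → ZMod p, (chs v / Real.sqrt p) ^ k = chs v ^ k / (Real.sqrt p) ^ k := fun v => div_pow _ _ _
    rw [sum_congr rfl (fun v _ => e1 v), ← sum_div, chs_mom hp hkD, mom_odd _ _ k hk]
    unfold gmom
    rw [if_neg (Nat.not_even_iff_odd.2 hk)]
    simp

end

end Pool.Agent.Q235.FD
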