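import Pool.Agent.Q235.FD.Hyp2

/-! Hyperelliptic curves: good reduction, Weil's bound, averages. -/

set_option autoImplicit false

namespace Pool.Agent.Q235.FD

open Finset Polynomial

/-- The polynomial `X ^ D + m (D - 1) X ^ (D - 1) + ... + m 0` modulo `p`. -/
noncomputable def poly {D : ℕ} (p : ℕ) (m : Fin D → ℕ) : (ZMod p)[X] :=
  X ^ D + ∑ i : Fin D, C ((m i : ℕ) : ZMod p) * X ^ (i : ℕ)

/-- `p ≠ 2` and the polynomial is separable modulo `p`; the curve `Y ^ 2 = X ^ D + m (D - 1) X ^ (D - 1) + ... + m 0` has good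
reduction at `p`. -/
def GoodPrime {D : ℕ} (p : ℕ) (m : Fin D → ℕ) : Prop := p ≠ 2 ∧ (poly p m).Separable

/-- The number of the solutions of `Y ^ 2 = X ^ D + m (D - 1) X ^ (D - 1) + ... + m 0` modulo `p`. -/
noncomputable def affine {D : ℕ} (p : ℕ) (m : Fin D → ℕ) : ℕ :=
  Nat.card {P : ZMod p × ZMod p // P.2 ^ 2 = (poly p m).eval P.1}

section

variable {D p : ℕ} [Fact p.Prime]

lemma eval_poly (m : Fin D → ℕ) (z : ZMod p) : (poly p m).eval z = ev (fun i => ((m i : ℕ) : ZMod p)) z := by
  unfold poly ev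
  rw [eval_add, eval_pow, eval_X, eval_finsetSum]
  congr 1
  exact sum_congr rfl fun i _ => by rw [eval_mul, eval_C, eval_pow, eval_X]

/-- the general polynomial -/
noncomputable def pol (v : Fin D → ZMod p) : (ZMod p)[X] := X ^ D + ∑ i : Fin D, C (v i) * X ^ (i : ℕ)

lemma pol_low (v : Fin D → ZMod p) : (∑ i : Fin D, C (v i) * X ^ (i : ℕ)).degree < ((D : ℕ) : WithBot ℕ) := by
  exact degree_sum_fin_lt v

lemma pol_monic (v : Fin D → ZMod p) (hD : 1 ≤ D) : (pol v).Monic := monic_X_pow_add (pol_low v)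

lemma pol_natDegree (v : Fin D → ZMod p) (hD : 1 ≤ D) : (pol v).natDegree = D := by
  unfold pol
  rw [natDegree_eq_of_degree_eq_some]
  rw [degree_add_eq_left_of_degree_lt]
  · rw [degree_X_pow]
  · rw [degree_X_pow]
    exact pol_low v

lemma eval_pol (v : Fin D → ZMod p) (z : ZMod p) : (pol v).eval z = ev v z := by
  unfold pol ev
  rw [eval_add, eval_pow, eval_X, eval_finsetSum]
  congr 1
  exact sum_congr rfl fun i _ => by rw [eval_mul, eval_C, eval_pow, eval_X]

/-- Weil's bound -/
theorem chs_bound (hp : p ≠ 2) (hD : Odd D) (v : Fin D → ZMod p) : |chs v| ≤ ((D : ℝ) - 1) * Real.sqrt p := by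
  have hD1 : 1 ≤ D := hD.pos
  have h := Pool.Agent.H341R2.Sharp.weil_sharp (F := ZMod p) (by rw [ZMod.ringChar_zmod_n]; exact hp) (pol v)
    (by rw [pol_natDegree v hD1]; exact hD1) (by
    intro c q hcq
    have h1 := pol_natDegree v hD1
    have h0 : pol v ≠ 0 := (pol_monic v hD1).ne_zero
    have hc : c ≠ 0 := by
      rintro rfl
      exact h0 (by rw [hcq]; simp)
    have hq : q ≠ 0 := by
      rintro rfl
      exact h0 (by rw [hcq]; simp)
    rw [hcq, natDegree_C_mul hc, natDegree_pow] at h1
    obtain ⟨j, hj⟩ := hD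
    omega)
  rw [pol_natDegree v hD1, ZMod.card] at h
  unfold chs qc
  simp only [← eval_pol]
  exact h

/-- the number of the points -/
theorem affine_eq (hp : p ≠ 2) (m : Fin D → ℕ) : (affine p m : ℝ) = p + chs (fun i => ((m i : ℕ) : ZMod p)) := by
  classical
  have hp' : ringChar (ZMod p) ≠ 2 := by rw [ZMod.ringChar_zmod_n]; exact hp
  have h1 : affine p m = ∑ x : ZMod p, (Finset.univ.filter (fun y : ZMod p => y ^ 2 = (poly p m).eval x)).card := by
    unfold affine
    rw [Nat.card_eq_fintype_card, Fintype.card_subtype]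
    rw [card_filter, ← univ_product_univ, sum_product]
    exact sum_congr rfl fun x _ => by rw [card_filter]
  have h2 : ∀ x : ZMod p, (((Finset.univ.filter (fun y : ZMod p => y ^ 2 = (poly p m).eval x)).card : ℕ) : ℝ) =
      1 + qc (ev (fun i => ((m i : ℕ) : ZMod p)) x) := by
    intro x
    have h3 := quadraticChar_card_sqrts hp' ((poly p m).eval x)
    have h4 : (Finset.univ.filter (fun y : ZMod p => y ^ 2 = (poly p m).eval x)).card = {y : ZMod p | y ^ 2 = (poly p m).eval x}.toFinset.card := by
      congr 1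
      ext y
      simp
    rw [h4]
    have h5 : ((({y : ZMod p | y ^ 2 = (poly p m).eval x}.toFinset.card : ℤ)) : ℝ) = ((quadraticChar (ZMod p) ((poly p m).eval x) + 1 : ℤ) : ℝ) := by
      rw [h3]
    push_cast at h5
    rw [h5, eval_poly]
    unfold qc
    ring
  rw [h1]
  push_cast
  rw [sum_congr rfl (fun x _ => h2 x), sum_add_distrib, sum_const, card_univ, ZMod.card, nsmul_eq_mul, mul_one]
  rfl

end

/-- The normalized trace of Frobenius `(p - N) / p ^ (1 / 2)`, where `N` is the number of the solutions modulo `p`. -/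
noncomputable def ntrace {D : ℕ} (p : ℕ) (m : Fin D → ℕ) : ℝ := ((p : ℝ) - affine p m) / Real.sqrt p

lemma poly_mod {D : ℕ} (p : ℕ) (m : Fin D → ℕ) : poly p (fun i => m i % p) = poly p m := by
  unfold poly
  simp only [ZMod.natCast_mod]

lemma good_mod {D : ℕ} (p : ℕ) (m : Fin D → ℕ) : GoodPrime p (fun i => m i % p) ↔ GoodPrime p m := by
  unfold GoodPrime
  rw [poly_mod]

lemma ntrace_mod {D : ℕ} (p : ℕ) (m : Fin D → ℕ) : ntrace p (fun i => m i % p) = ntrace p m := by
  unfold ntrace affine
  rw [poly_mod]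

lemma ntrace_eq {D p : ℕ} [Fact p.Prime] (hp : p ≠ 2) (m : Fin D → ℕ) :
    ntrace p m = -(chs (fun i => ((m i : ℕ) : ZMod p)) / Real.sqrt p) := by
  unfold ntrace
  rw [affine_eq hp]
  ring

lemma ntrace_bound {D p : ℕ} [Fact p.Prime] (hp : p ≠ 2) (hD : Odd D) (m : Fin D → ℕ) : |ntrace p m| ≤ (D : ℝ) - 1 := by
  have hpp : (0 : ℝ) < Real.sqrt p := Real.sqrt_pos.2 (by exact_mod_cast (Fact.out : p.Prime).pos)
  rw [ntrace_eq hp, abs_neg, abs_div, abs_of_pos hpp, div_le_iff₀ hpp]
  exact chs_bound hp hD _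

/-! ### polynomials which are not separable -/

section

variable {D p : ℕ} [Fact p.Prime]

lemma pol_shift (hD : 1 ≤ D) (v : Fin D → ZMod p) (c : ZMod p) :
    pol (v + c • (fun i : Fin D => if (i : ℕ) = 0 then (1 : ZMod p) else 0)) = pol v + C c := by
  unfold pol
  rw [add_assoc]
  congr 1
  have e1 : ∀ i : Fin D, C ((v + c • (fun i : Fin D => if (i : ℕ) = 0 then (1 : ZMod p) else 0)) i) * X ^ (i : ℕ) =
      C (v i) * X ^ (i : ℕ) + (if (i : ℕ) = 0 then C c else 0) := by
    intro i
    rw [Pi.add_apply, Pi.smul_apply, smul_eq_mul]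
    split_ifs with h
    · rw [h, pow_zero, mul_one, mul_one, mul_one, C_add]
    · rw [mul_zero, add_zero, add_zero]
  rw [sum_congr rfl (fun i _ => e1 i), sum_add_distrib]
  congr 1
  rw [Fintype.sum_eq_single (⟨0, hD⟩ : Fin D)]
  · simp
  · intro i hi
    rw [if_neg]
    intro h
    exact hi (Fin.ext h)

open scoped Classical in
lemma few_shift (hD : 1 ≤ D) (hpD : D < p) (v : Fin D → ZMod p) :
    (univ.filter (fun c : ZMod p => ¬ (pol v + C c).Separable)).card ≤ D := by
  have hder : (pol v).derivative ≠ 0 := by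
    intro h0
    have h1 : (pol v).derivative.coeff (D - 1) = 0 := by rw [h0, coeff_zero]
    rw [coeff_derivative, Nat.sub_add_cancel hD] at h1
    have h2 : (pol v).coeff D = 1 := by
      have := pol_monic v hD
      rw [Monic, leadingCoeff, pol_natDegree v hD] at this
      exact this
    rw [h2, one_mul] at h1
    have h3 : ((D : ℕ) : ZMod p) = 0 := by
      have : ((D - 1 : ℕ) : ZMod p) + 1 = ((D : ℕ) : ZMod p) := by
        have h4 : D = (D - 1) + 1 := by omega
        conv_rhs => rw [h4]
        push_cast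
        rfl
      rw [← this]
      exact h1
    rw [ZMod.natCast_eq_zero_iff] at h3
    exact absurd (Nat.le_of_dvd (by omega) h3) (by omega)
  have hcard : (((pol v).derivative.map (algebraMap (ZMod p) (AlgebraicClosure (ZMod p)))).roots.toFinset).card ≤ D := by
    refine (Multiset.toFinset_card_le _).trans ((card_roots' _).trans ?_)
    rw [natDegree_map]
    refine (natDegree_derivative_le _).trans ?_
    rw [pol_natDegree v hD]
    omega
  refine le_trans ?_ hcard
  have hex : ∀ c ∈ univ.filter (fun c : ZMod p => ¬ (pol v + C c).Separable), ∃ ξ : AlgebraicClosure (ZMod p),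
      ξ ∈ ((pol v).derivative.map (algebraMap (ZMod p) (AlgebraicClosure (ZMod p)))).roots.toFinset ∧
      aeval ξ (pol v) + algebraMap (ZMod p) (AlgebraicClosure (ZMod p)) c = 0 := by
    intro c hc
    rw [mem_filter] at hc
    have h1 : ¬ ∀ a : AlgebraicClosure (ZMod p), aeval a (pol v + C c) ≠ 0 ∨ aeval a (derivative (pol v + C c)) ≠ 0 :=
      fun h => hc.2 ((isCoprime_iff_aeval_ne_zero_of_isAlgClosed (ZMod p) (AlgebraicClosure (ZMod p)) _ _).2 h)
    push Not at h1
    obtain ⟨ξ, h2, h3⟩ := h1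
    refine ⟨ξ, ?_, ?_⟩
    · rw [Multiset.mem_toFinset, mem_roots (by rwa [Ne, Polynomial.map_eq_zero])]
      rw [IsRoot, eval_map_algebraMap]
      rw [derivative_add, derivative_C, add_zero] at h3
      exact h3
    · rw [map_add, aeval_C] at h2
      exact h2
  choose! g hg using hex
  refine card_le_card_of_injOn g (fun c hc => (hg c hc).1) ?_
  intro c hc c' hc' h
  have h1 := (hg c hc).2
  have h2 := (hg c' hc').2
  rw [← h] at h2
  exact (algebraMap (ZMod p) (AlgebraicClosure (ZMod p))).injective (by linear_combination h1 - h2)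

open scoped Classical in
/-- the proportion of the polynomials which are not separable -/
theorem sep_count (hD : 1 ≤ D) : ((univ.filter (fun v : Fin D → ZMod p => ¬ (pol v).Separable)).card : ℝ) / (p : ℝ) ^ D ≤ D / p := by
  have hpp : (0 : ℝ) < p := by exact_mod_cast (Fact.out : p.Prime).pos
  have htot : (univ.filter (fun v : Fin D → ZMod p => ¬ (pol v).Separable)).card ≤ p ^ D := by
    refine (card_filter_le _ _).trans ?_
    simp [ZMod.card]
  rcases Nat.lt_or_ge D p with hpD | hpD
  · have h1 : p * (univ.filter (fun v : Fin D → ZMod p => ¬ (pol v).Separable)).card ≤ p ^ D * D := by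
      have h2 : ∀ c : ZMod p, (univ.filter (fun v : Fin D → ZMod p => ¬ (pol v).Separable)).card =
          ∑ v : Fin D → ZMod p, if ¬ (pol v + C c).Separable then 1 else 0 := by
        intro c
        rw [card_filter, ← Equiv.sum_comp (Equiv.addRight (c • (fun i : Fin D => if (i : ℕ) = 0 then (1 : ZMod p) else 0)))]
        refine sum_congr rfl fun v _ => ?_
        rw [Equiv.coe_addRight, pol_shift hD]
      have h3 : p * (univ.filter (fun v : Fin D → ZMod p => ¬ (pol v).Separable)).card =
          ∑ c : ZMod p, ∑ v : Fin D → ZMod p, if ¬ (pol v + C c).Separable then 1 else 0 := by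
        rw [← sum_congr rfl (fun c _ => h2 c), sum_const, card_univ, ZMod.card, smul_eq_mul]
      rw [h3, sum_comm]
      have h4 : ∀ v : Fin D → ZMod p, ∑ c : ZMod p, (if ¬ (pol v + C c).Separable then 1 else 0) ≤ D := by
        intro v
        rw [← card_filter]
        exact few_shift hD hpD v
      refine (sum_le_sum fun v _ => h4 v).trans ?_
      simp [ZMod.card]
    rw [div_le_div_iff₀ (by positivity) hpp]
    have h5 : (p : ℝ) * ((univ.filter (fun v : Fin D → ZMod p => ¬ (pol v).Separable)).card : ℝ) ≤ (p : ℝ) ^ D * D := by exact_mod_cast h1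
    linarith
  · have h1 : (1 : ℝ) ≤ D / p := by
      rw [le_div_iff₀ hpp, one_mul]
      exact_mod_cast hpD
    refine le_trans ?_ h1
    rw [div_le_one (by positivity)]
    exact_mod_cast htot

end

end Pool.Agent.Q235.FD
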