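import Pool.Agent.Q235.FD.Cen
import Pool.Agent.Q235.FD.Hyp3

/-! Moments of the traces of Frobenius. -/

set_option autoImplicit false

namespace Pool.Agent.Q235.FD

open Finset

open scoped Classical in
/-- the centered powers of the traces at good primes -/
noncomputable def cpow {D : ℕ} (k p : ℕ) (m : Fin D → ℕ) : ℝ := if GoodPrime p m then ntrace p m ^ k - gmom k else 0

open scoped Classical in
/-- the indicator function of the bad primes -/
noncomputable def bad {D : ℕ} (p : ℕ) (m : Fin D → ℕ) : ℝ := if GoodPrime p m then 0 else 1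

lemma cpow_mod {D : ℕ} (k p : ℕ) (m : Fin D → ℕ) : cpow k p m = cpow k p (fun i => m i % p) := by
  unfold cpow
  rw [ntrace_mod]
  by_cases h : GoodPrime p m
  · rw [if_pos h, if_pos ((good_mod p m).2 h)]
  · rw [if_neg h, if_neg (fun h' => h ((good_mod p m).1 h'))]

lemma bad_mod {D : ℕ} (p : ℕ) (m : Fin D → ℕ) : bad p m = bad p (fun i => m i % p) := by
  unfold bad
  by_cases h : GoodPrime p m
  · rw [if_pos h, if_pos ((good_mod p m).2 h)]
  · rw [if_neg h, if_neg (fun h' => h ((good_mod p m).1 h'))]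

/-- the constant -/
noncomputable def C0 (D : ℕ) : ℝ := (D : ℝ) ^ D + ∑ k ∈ range (D + 1), gmom k + 1

lemma C0_one (D : ℕ) : 1 ≤ C0 D := by
  unfold C0
  have : 0 ≤ ∑ k ∈ range (D + 1), gmom k := sum_nonneg fun k _ => gmom_nonneg k
  have : (0 : ℝ) ≤ (D : ℝ) ^ D := by positivity
  linarith

lemma pow_sub_bound {D k : ℕ} (hD : 1 ≤ D) (hk : k ≤ D) {t : ℝ} (ht : |t| ≤ (D : ℝ) - 1) : |t ^ k - gmom k| ≤ C0 D := by
  have hD1 : (1 : ℝ) ≤ D := by exact_mod_cast hD
  have h1 : |t ^ k| ≤ (D : ℝ) ^ D := by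
    rw [abs_pow]
    calc |t| ^ k ≤ (D : ℝ) ^ k := pow_le_pow_left₀ (abs_nonneg _) (by linarith) _
      _ ≤ (D : ℝ) ^ D := pow_le_pow_right₀ hD1 hk
  have h2 : gmom k ≤ ∑ k ∈ range (D + 1), gmom k :=
    single_le_sum (f := fun k => gmom k) (fun k _ => gmom_nonneg k) (mem_range.2 (by omega))
  have h3 := gmom_nonneg k
  have h4 := abs_sub (t ^ k) (gmom k)
  rw [abs_of_nonneg h3] at h4
  unfold C0
  linarith

lemma cpow_bound {D : ℕ} (hD : Odd D) {k : ℕ} (hk : k ≤ D) {p : ℕ} (hp : p.Prime) (m : Fin D → ℕ) : |cpow k p m| ≤ C0 D := by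
  have : Fact p.Prime := ⟨hp⟩
  unfold cpow
  split_ifs with h
  · exact pow_sub_bound hD.pos hk (ntrace_bound h.1 hD m)
  · rw [abs_zero]
    linarith [C0_one D]

open scoped Classical in
lemma avg_bad {D : ℕ} (hD : 1 ≤ D) {p : ℕ} (hp : p.Prime) : |avg p (bad (D := D) p)| ≤ (D + 2) / p := by
  have : Fact p.Prime := ⟨hp⟩
  have hpp : (0 : ℝ) < p := by exact_mod_cast hp.pos
  rw [abs_of_nonneg (avg_nonneg fun n => by unfold bad; split_ifs <;> norm_num)]
  by_cases h2 : p = 2
  · have h1 : avg p (bad (D := D) p) ≤ avg (L := Fin D) p (fun _ => 1) := avg_mono fun n => by unfold bad; split_ifs <;> norm_num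
    rw [avg_const hp.one_lt.le] at h1
    refine h1.trans ?_
    rw [h2, le_div_iff₀ (by norm_num)]
    have : (0 : ℝ) ≤ D := Nat.cast_nonneg D
    push_cast
    linarith
  · have h1 : bad (D := D) p = fun n => (fun v : Fin D → ZMod p => if (pol v).Separable then (0 : ℝ) else 1) (fun l => ((n l : ℕ) : ZMod p)) := by
      funext n
      have e : GoodPrime p n ↔ (pol (fun l => ((n l : ℕ) : ZMod p))).Separable := ⟨fun h => h.2, fun h => ⟨h2, h⟩⟩
      unfold bad
      by_cases h3 : GoodPrime p n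
      · rw [if_pos h3]
        exact (if_pos (e.1 h3)).symm
      · rw [if_neg h3]
        exact (if_neg (fun h => h3 (e.2 h))).symm
    rw [h1, avg_zmod (fun v : Fin D → ZMod p => if (pol v).Separable then (0 : ℝ) else 1), Fintype.card_fin]
    have h3 : ∑ v : Fin D → ZMod p, (if (pol v).Separable then (0 : ℝ) else 1) = ((univ.filter (fun v : Fin D → ZMod p => ¬ (pol v).Separable)).card : ℝ) := by
      rw [card_filter]
      push_cast
      refine sum_congr rfl fun v _ => ?_
      split_ifs <;> simp_all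
    have h4 := sep_count (D := D) (p := p) hD
    have h5 : ((univ.filter (fun v : Fin D → ZMod p => ¬ (pol v).Separable)).card : ℝ) / (p : ℝ) ^ D ≤ D / p := by
      refine le_trans (le_of_eq ?_) h4
      congr!
    have h6 : (∑ v : Fin D → ZMod p, (if (pol v).Separable then (0 : ℝ) else 1)) / (p : ℝ) ^ D ≤ D / p := by
      rw [h3]
      exact h5
    refine le_trans (le_trans (le_of_eq ?_) h6) ?_
    · congr!
    · exact div_le_div_of_nonneg_right (by linarith) hpp.le

open scoped Classical in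
lemma avg_cpow {D : ℕ} (hD : Odd D) (k : ℕ) (hk : k ≤ D) : ∃ C : ℝ, 0 ≤ C ∧ ∀ p : ℕ, p.Prime → |avg p (cpow (D := D) k p)| ≤ C / p := by
  obtain ⟨C, hC0, hC⟩ := norm_mom k
  have hD1 : 1 ≤ D := hD.pos
  refine ⟨C + C0 D * D, by have := C0_one D; positivity, fun p hp => ?_⟩
  have : Fact p.Prime := ⟨hp⟩
  have hpp : (0 : ℝ) < p := by exact_mod_cast hp.pos
  by_cases h2 : p = 2
  · have h1 : cpow (D := D) k p = fun _ => 0 := by
      funext n
      unfold cpow
      rw [if_neg (fun h => h.1 h2)]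
    rw [h1, avg_const hp.one_lt.le, abs_zero]
    have := C0_one D
    positivity
  · have h1 : cpow (D := D) k p = fun n => (fun v : Fin D → ZMod p => if (pol v).Separable then (-(chs v / Real.sqrt p)) ^ k - gmom k else 0)
        (fun l => ((n l : ℕ) : ZMod p)) := by
      funext n
      have e : GoodPrime p n ↔ (pol (fun l => ((n l : ℕ) : ZMod p))).Separable := ⟨fun h => h.2, fun h => ⟨h2, h⟩⟩
      unfold cpow
      rw [ntrace_eq h2]
      by_cases h3 : GoodPrime p n
      · rw [if_pos h3]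
        exact (if_pos (e.1 h3)).symm
      · rw [if_neg h3]
        exact (if_neg (fun h => h3 (e.2 h))).symm
    rw [h1, avg_zmod (fun v : Fin D → ZMod p => if (pol v).Separable then (-(chs v / Real.sqrt p)) ^ k - gmom k else 0), Fintype.card_fin]
    have h3 : ∀ v : Fin D → ZMod p, (if (pol v).Separable then (-(chs v / Real.sqrt p)) ^ k - gmom k else 0) =
        ((-(chs v / Real.sqrt p)) ^ k - gmom k) - (if ¬ (pol v).Separable then (-(chs v / Real.sqrt p)) ^ k - gmom k else 0) := by
      intro v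
      split_ifs <;> simp_all
    rw [sum_congr rfl (fun v _ => h3 v), sum_sub_distrib, sub_div]
    have hA : |(∑ v : Fin D → ZMod p, ((-(chs v / Real.sqrt p)) ^ k - gmom k)) / (p : ℝ) ^ D| ≤ C / p := by
      have h4 := hC p D h2 hk
      have hpD : (0 : ℝ) < (p : ℝ) ^ D := by positivity
      have h5 : (∑ v : Fin D → ZMod p, ((-(chs v / Real.sqrt p)) ^ k - gmom k)) / (p : ℝ) ^ D =
          (-1) ^ k * ((∑ v : Fin D → ZMod p, (chs v / Real.sqrt p) ^ k) / (p : ℝ) ^ D) - gmom k := by
        rw [sum_sub_distrib, sum_const, card_univ, Fintype.card_pi, prod_const, ZMod.card, card_univ, Fintype.card_fin, nsmul_eq_mul,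
          sub_div]
        have h6 : ∀ v : Fin D → ZMod p, (-(chs v / Real.sqrt p)) ^ k = (-1) ^ k * (chs v / Real.sqrt p) ^ k := fun v => by
          rw [neg_pow]
        rw [sum_congr rfl (fun v _ => h6 v), ← mul_sum]
        push_cast
        field_simp
      rw [h5]
      rcases Nat.even_or_odd k with he | ho
      · rw [he.neg_one_pow, one_mul]
        exact h4
      · have h7 : gmom k = 0 := by unfold gmom; rw [if_neg (Nat.not_even_iff_odd.2 ho)]
        rw [h7, sub_zero] at h4 ⊢
        rw [ho.neg_one_pow, neg_one_mul, abs_neg]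
        exact h4
    have hB : |(∑ v : Fin D → ZMod p, (if ¬ (pol v).Separable then (-(chs v / Real.sqrt p)) ^ k - gmom k else 0)) / (p : ℝ) ^ D| ≤ C0 D * D / p := by
      rw [abs_div, abs_of_pos (show (0 : ℝ) < (p : ℝ) ^ D by positivity)]
      have h4 : |∑ v : Fin D → ZMod p, (if ¬ (pol v).Separable then (-(chs v / Real.sqrt p)) ^ k - gmom k else 0)| ≤
          C0 D * ((univ.filter (fun v : Fin D → ZMod p => ¬ (pol v).Separable)).card : ℝ) := by
        refine (abs_sum_le_sum_abs _ _).trans ?_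
        rw [card_filter]
        push_cast
        rw [mul_sum]
        refine sum_le_sum fun v _ => ?_
        by_cases h : (pol v).Separable
        · rw [if_neg (not_not.2 h), if_neg (not_not.2 h)]
          simp
        · rw [if_pos h, if_pos h, mul_one]
          refine pow_sub_bound hD1 hk ?_
          have hs : (0 : ℝ) < Real.sqrt p := Real.sqrt_pos.2 hpp
          rw [abs_neg, abs_div, abs_of_pos hs, div_le_iff₀ hs]
          exact chs_bound h2 hD v
      have h5 := sep_count (D := D) (p := p) hD1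
      have h0 := C0_one D
      calc _ ≤ C0 D * ((univ.filter (fun v : Fin D → ZMod p => ¬ (pol v).Separable)).card : ℝ) / (p : ℝ) ^ D :=
            div_le_div_of_nonneg_right h4 (by positivity)
        _ = C0 D * (((univ.filter (fun v : Fin D → ZMod p => ¬ (pol v).Separable)).card : ℝ) / (p : ℝ) ^ D) := by ring
        _ ≤ C0 D * (D / p) := mul_le_mul_of_nonneg_left h5 (by linarith)
        _ = _ := by ring
    have h9 := abs_sub ((∑ v : Fin D → ZMod p, ((-(chs v / Real.sqrt p)) ^ k - gmom k)) / (p : ℝ) ^ D)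
      ((∑ v : Fin D → ZMod p, (if ¬ (pol v).Separable then (-(chs v / Real.sqrt p)) ^ k - gmom k else 0)) / (p : ℝ) ^ D)
    calc _ ≤ C / p + C0 D * D / p := h9.trans (add_le_add hA hB)
      _ = (C + C0 D * D) / p := by ring

/-- the law for the moments -/
theorem moment_law (D : ℕ) (hD : Odd D) {b : ℕ} (hb : 2 ≤ b) {δ : ℝ} (hδ : 0 < δ) (A B : ℕ) :
    ForAlmostAll (Fin D) b A (fun (θ : Sets B) x m => ∀ P ∈ θ.S x,
      |∑ p ∈ P, bad p m| ≤ Real.sqrt (max 1 P.card) * (x : ℝ) ^ δ ∧
      ∀ k ≤ D, |∑ p ∈ P, cpow k p m| ≤ Real.sqrt (max 1 P.card) * (x : ℝ) ^ δ) := by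
  classical
  have : Nonempty (Fin D) := ⟨⟨0, hD.pos⟩⟩
  choose C hC0 hC using fun k : Fin (D + 1) => avg_cpow hD k.1 (by omega)
  have hS : 0 ≤ ∑ k, C k := sum_nonneg fun k _ => hC0 k
  have h0 := C0_one D
  have h1 := centered (L := Fin D) hb hδ (A + 1) B (D + 1) (fun _ => (univ : Finset (Fin (D + 1)))) (by
    intro x hx
    rw [card_univ, Fintype.card_fin]
    calc D + 1 ≤ 2 ^ (D + 1) := Nat.lt_two_pow_self.le
      _ ≤ x ^ (D + 1) := Nat.pow_le_pow_left hx _) (fun k p m => cpow k.1 p m) (fun k p n _ => cpow_mod k.1 p n)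
    (C := C0 D + ∑ k, C k) (by linarith) (fun k p n hp => (cpow_bound hD (by omega) hp n).trans (by linarith)) (fun k p hp => by
      have hpp : (0 : ℝ) < p := by exact_mod_cast hp.pos
      refine (hC k p hp).trans (div_le_div_of_nonneg_right ?_ hpp.le)
      have := single_le_sum (f := C) (fun k _ => hC0 k) (mem_univ k)
      linarith)
  have h2 := centered (L := Fin D) hb hδ (A + 1) B 1 (fun _ => (univ : Finset Unit)) (by
    intro x hx
    rw [card_univ, Fintype.card_unit, pow_one]
    omega) (fun _ p m => bad p m) (fun _ p n _ => bad_mod p n)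
    (C := (D : ℝ) + 2) (by have : (0 : ℝ) ≤ D := Nat.cast_nonneg D; linarith) (fun _ p n hp => by
      have : (0 : ℝ) ≤ D := Nat.cast_nonneg D
      unfold bad
      split_ifs
      · rw [abs_zero]; linarith
      · rw [abs_one]; linarith) (fun _ p hp => avg_bad hD.pos hp)
  refine ForAlmostAll.and h1 h2 ?_
  intro θ x m g1 g2 P hP
  exact ⟨g2 P hP () (mem_univ _), fun k hk => g1 P hP ⟨k, by omega⟩ (mem_univ _)⟩

end Pool.Agent.Q235.FD
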