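import Mathlib

/-! A positive proportion of the polynomials over `𝔽_p` is irreducible; irreducibility over `ℚ` from irreducibility modulo `p`. -/

set_option autoImplicit false

namespace Pool.Agent.Q235.FD

open Finset Polynomial

section

variable {p : ℕ} [Fact p.Prime]

/-- the polynomial with the coefficients `v` -/
noncomputable def cpol {R : Type} [CommRing R] {n : ℕ} (v : Fin (n + 1) → R) : R[X] := ∑ j : Fin (n + 1), C (v j) * X ^ (j : ℕ)

lemma cpol_coeff {R : Type} [CommRing R] {n : ℕ} (v : Fin (n + 1) → R) (j : Fin (n + 1)) : (cpol v).coeff j = v j := by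
  unfold cpol
  rw [finsetSum_coeff, sum_eq_single_of_mem j (mem_univ j)]
  · rw [coeff_C_mul, coeff_X_pow, if_pos rfl, mul_one]
  · intro i _ hi
    rw [coeff_C_mul, coeff_X_pow, if_neg (fun h => hi (Fin.ext h.symm)), mul_zero]

lemma cpol_coeff_gt {R : Type} [CommRing R] {n : ℕ} (v : Fin (n + 1) → R) {k : ℕ} (hk : n < k) : (cpol v).coeff k = 0 := by
  unfold cpol
  rw [finsetSum_coeff]
  apply sum_eq_zero
  intro i _
  rw [coeff_C_mul, coeff_X_pow, if_neg (by have := i.2; omega), mul_zero]

lemma cpol_inj {R : Type} [CommRing R] {n : ℕ} {v w : Fin (n + 1) → R} (h : cpol v = cpol w) : v = w := by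
  funext j
  rw [← cpol_coeff v j, ← cpol_coeff w j, h]

lemma cpol_of {R : Type} [CommRing R] {n : ℕ} (f : R[X]) (h : f.natDegree ≤ n) : cpol (fun j : Fin (n + 1) => f.coeff j) = f := by
  ext k
  rcases lt_or_ge n k with h1 | h1
  · rw [cpol_coeff_gt _ h1, coeff_eq_zero_of_natDegree_lt (by omega)]
  · exact cpol_coeff (fun j : Fin (n + 1) => f.coeff j) ⟨k, by omega⟩

lemma cpol_natDegree_le {R : Type} [CommRing R] {n : ℕ} (v : Fin (n + 1) → R) : (cpol v).natDegree ≤ n := by
  rw [natDegree_le_iff_coeff_eq_zero]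
  intro k hk
  exact cpol_coeff_gt v (by exact_mod_cast hk)

noncomputable instance (n : ℕ) : Fintype (GaloisField p n) := Fintype.ofFinite _

/-- elements of degree less than `n` -/
lemma card_small (n : ℕ) (hn : 1 ≤ n) (hp : 3 ≤ p) :
    2 * (univ.filter (fun α : GaloisField p n => (minpoly (ZMod p) α).natDegree ≠ n)).card ≤ p ^ n := by
  classical
  have hfin : FiniteDimensional (ZMod p) (GaloisField p n) := inferInstance
  have hcard : Fintype.card (GaloisField p n) = p ^ n := by
    rw [← Nat.card_eq_fintype_card]; exact GaloisField.card p n (by omega)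
  have h1 : univ.filter (fun α : GaloisField p n => (minpoly (ZMod p) α).natDegree ≠ n) ⊆
      (Ico 1 n).biUnion (fun d => (X ^ p ^ d - X : (GaloisField p n)[X]).roots.toFinset) := by
    intro α hα
    rw [mem_filter] at hα
    have hint : IsIntegral (ZMod p) α := Algebra.IsIntegral.isIntegral α
    have hdeg : (minpoly (ZMod p) α).natDegree ≤ n := by
      have h2 := minpoly.natDegree_le (A := ZMod p) α
      rwa [GaloisField.finrank p (by omega)] at h2
    have hpos : 0 < (minpoly (ZMod p) α).natDegree := minpoly.natDegree_pos hint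
    rw [mem_biUnion]
    refine ⟨(minpoly (ZMod p) α).natDegree, ?_, ?_⟩
    · rw [mem_Ico]
      exact ⟨hpos, lt_of_le_of_ne hdeg hα.2⟩
    · rw [Multiset.mem_toFinset, mem_roots]
      · rw [IsRoot.def, eval_sub, eval_pow, eval_X, sub_eq_zero]
        -- `α ∈ 𝔽_p(α)`, a field with `p ^ d` elements
        have hfin2 : FiniteDimensional (ZMod p) (IntermediateField.adjoin (ZMod p) {α}) := IntermediateField.adjoin.finiteDimensional hint
        have : Finite (IntermediateField.adjoin (ZMod p) {α}) := Module.finite_of_finite (ZMod p)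
        have : Fintype (IntermediateField.adjoin (ZMod p) {α}) := Fintype.ofFinite _
        have hc : Fintype.card (IntermediateField.adjoin (ZMod p) {α}) = p ^ (minpoly (ZMod p) α).natDegree := by
          rw [Module.card_eq_pow_finrank (K := ZMod p), ZMod.card, IntermediateField.adjoin.finrank hint]
        have h3 := FiniteField.pow_card (IntermediateField.AdjoinSimple.gen (ZMod p) α)
        rw [hc] at h3
        have h4 := congrArg (fun z : IntermediateField.adjoin (ZMod p) {α} => (z : GaloisField p n)) h3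
        simpa using h4
      · intro h0
        have h5 := FiniteField.X_pow_card_pow_sub_X_ne_zero (GaloisField p n) (show (minpoly (ZMod p) α).natDegree ≠ 0 by omega) (Fact.out : p.Prime).one_lt
        exact h5 h0
  have h2 : (univ.filter (fun α : GaloisField p n => (minpoly (ZMod p) α).natDegree ≠ n)).card ≤ ∑ d ∈ Ico 1 n, p ^ d := by
    refine (card_le_card h1).trans (card_biUnion_le.trans (sum_le_sum fun d hd => ?_))
    rw [mem_Ico] at hd
    refine (Multiset.toFinset_card_le _).trans ((card_roots' _).trans ?_)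
    rw [FiniteField.X_pow_card_pow_sub_X_natDegree_eq (GaloisField p n) (by omega) (Fact.out : p.Prime).one_lt]
  have h3 : ∀ k : ℕ, 2 * ∑ d ∈ Ico 1 (k + 1), p ^ d ≤ p ^ (k + 1) := by
    intro k
    induction k with
    | zero => simp
    | succ k ih =>
      rw [sum_Ico_succ_top (by omega), mul_add, pow_succ p (k + 1)]
      nlinarith [Nat.zero_le (p ^ (k + 1))]
  obtain ⟨k, rfl⟩ : ∃ k, n = k + 1 := ⟨n - 1, by omega⟩
  have := h3 k
  omega

/-- the number of monic irreducible polynomials of degree `n` is at least `p ^ n / (2 n)` -/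
theorem card_monic_irr (n : ℕ) (hn : 1 ≤ n) (hp : 3 ≤ p) (S : Finset (ZMod p)[X]) (hS : ∀ f : (ZMod p)[X], f.Monic → Irreducible f → f.natDegree = n → f ∈ S) :
    p ^ n ≤ 2 * n * S.card := by
  classical
  have hcard : Fintype.card (GaloisField p n) = p ^ n := by
    rw [← Nat.card_eq_fintype_card]; exact GaloisField.card p n (by omega)
  have h1 := card_small (p := p) n hn hp
  have h2 := card_filter_add_card_filter_not (s := (univ : Finset (GaloisField p n))) (fun α => (minpoly (ZMod p) α).natDegree ≠ n)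
  rw [card_univ, hcard] at h2
  have h3 : (univ.filter (fun α : GaloisField p n => ¬ (minpoly (ZMod p) α).natDegree ≠ n)).card ≤ S.card * n := by
    refine card_le_mul_card_image_of_maps_to (f := fun α : GaloisField p n => minpoly (ZMod p) α) (t := S) ?_ n ?_ |>.trans (le_of_eq (mul_comm _ _))
    · intro α hα
      rw [mem_filter, not_not] at hα
      have hint : IsIntegral (ZMod p) α := Algebra.IsIntegral.isIntegral α
      exact hS _ (minpoly.monic hint) (minpoly.irreducible hint) hα.2
    · intro f hf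
      by_cases hne : ((univ.filter (fun α : GaloisField p n => ¬ (minpoly (ZMod p) α).natDegree ≠ n)).filter (fun α => minpoly (ZMod p) α = f)).Nonempty
      · obtain ⟨α, hα⟩ := hne
        rw [mem_filter, mem_filter, not_not] at hα
        have hint : IsIntegral (ZMod p) α := Algebra.IsIntegral.isIntegral α
        have hf0 : f ≠ 0 := by rw [← hα.2]; exact minpoly.ne_zero hint
        have hmap : f.map (algebraMap (ZMod p) (GaloisField p n)) ≠ 0 := (Polynomial.map_ne_zero_iff (algebraMap (ZMod p) (GaloisField p n)).injective).2 hf0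
        have hsub : (univ.filter (fun α : GaloisField p n => ¬ (minpoly (ZMod p) α).natDegree ≠ n)).filter (fun α => minpoly (ZMod p) α = f) ⊆
            (f.map (algebraMap (ZMod p) (GaloisField p n))).roots.toFinset := by
          intro β hβ
          rw [mem_filter] at hβ
          rw [Multiset.mem_toFinset, mem_roots hmap, IsRoot.def, eval_map_algebraMap, ← hβ.2]
          exact minpoly.aeval _ _
        refine (card_le_card hsub).trans ((Multiset.toFinset_card_le _).trans ((card_roots' _).trans ?_))
        rw [natDegree_map, ← hα.2, hα.1.2]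
      · rw [not_nonempty_iff_eq_empty] at hne
        rw [hne, card_empty]
        exact Nat.zero_le _
  nlinarith

open scoped Classical in
/-- a positive proportion of the polynomials of degree at most `n` is irreducible of degree `n` -/
theorem irr_count (n : ℕ) (hn : 1 ≤ n) (hp : 3 ≤ p) :
    (p : ℝ) ^ (n + 1) / (4 * n) ≤ ((univ.filter (fun v : Fin (n + 1) → ZMod p => (cpol v).natDegree = n ∧ Irreducible (cpol v))).card : ℝ) := by
  classical
  have hpr : p.Prime := Fact.out
  have hn0 : (0 : ℝ) < n := by exact_mod_cast hn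
  obtain ⟨S, hS⟩ : ∃ S : Finset (ZMod p)[X], S = (univ.filter (fun v : Fin (n + 1) → ZMod p => (cpol v).Monic ∧ (cpol v).natDegree = n ∧ Irreducible (cpol v))).image cpol := ⟨_, rfl⟩
  have hSmem : ∀ f : (ZMod p)[X], f ∈ S ↔ f.Monic ∧ Irreducible f ∧ f.natDegree = n := by
    intro f
    rw [hS, mem_image]
    constructor
    · rintro ⟨v, hv, rfl⟩
      rw [mem_filter] at hv
      exact ⟨hv.2.1, hv.2.2.2, hv.2.2.1⟩
    · rintro ⟨h1, h2, h3⟩
      refine ⟨fun j => f.coeff j, ?_, cpol_of f h3.le⟩
      rw [mem_filter, cpol_of f h3.le]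
      exact ⟨mem_univ _, h1, h3, h2⟩
  have h1 := card_monic_irr (p := p) n hn hp S (fun f a b c => (hSmem f).2 ⟨a, b, c⟩)
  -- multiplication by the nonzero constants
  have h2 : ((univ : Finset (ZMod p)ˣ) ×ˢ S).card ≤ (univ.filter (fun v : Fin (n + 1) → ZMod p => (cpol v).natDegree = n ∧ Irreducible (cpol v))).card := by
    apply card_le_card_of_injOn (fun x : (ZMod p)ˣ × (ZMod p)[X] => fun j : Fin (n + 1) => (C (x.1 : ZMod p) * x.2).coeff j)
    · rintro ⟨u, f⟩ hx
      rw [mem_coe, mem_product] at hx
      have hf := (hSmem f).1 hx.2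
      have hu : (u : ZMod p) ≠ 0 := u.ne_zero
      have hd : (C (u : ZMod p) * f).natDegree = n := by rw [natDegree_C_mul hu, hf.2.2]
      rw [mem_coe, mem_filter]
      beta_reduce
      rw [cpol_of _ hd.le]
      refine ⟨mem_univ _, hd, ?_⟩
      rw [irreducible_isUnit_mul (isUnit_C.2 u.isUnit)]
      exact hf.2.1
    · rintro ⟨u, f⟩ hx ⟨u', f'⟩ hx' h
      rw [mem_coe, mem_product] at hx hx'
      have hf := (hSmem f).1 hx.2
      have hf' := (hSmem f').1 hx'.2
      have e : C (u : ZMod p) * f = C (u' : ZMod p) * f' := by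
        have hd : (C (u : ZMod p) * f).natDegree = n := by rw [natDegree_C_mul u.ne_zero, hf.2.2]
        have hd' : (C (u' : ZMod p) * f').natDegree = n := by rw [natDegree_C_mul u'.ne_zero, hf'.2.2]
        rw [← cpol_of _ hd.le, ← cpol_of _ hd'.le]
        exact congrArg cpol h
      have e2 : (u : ZMod p) = u' := by
        have := congrArg leadingCoeff e
        rwa [leadingCoeff_mul, leadingCoeff_mul, hf.1.leadingCoeff, hf'.1.leadingCoeff, leadingCoeff_C, leadingCoeff_C, mul_one, mul_one] at this
      rw [e2] at e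
      have e3 : f = f' := mul_left_cancel₀ (C_ne_zero.2 u'.ne_zero) e
      rw [Prod.mk.injEq]
      exact ⟨Units.ext e2, e3⟩
  rw [card_product, card_univ, ZMod.card_units_eq_totient, Nat.totient_prime hpr] at h2
  have h3 : ((p - 1 : ℕ) : ℝ) * S.card ≤ ((univ.filter (fun v : Fin (n + 1) → ZMod p => (cpol v).natDegree = n ∧ Irreducible (cpol v))).card : ℝ) := by
    exact_mod_cast h2
  refine le_trans ?_ h3
  have h4 : (p : ℝ) ^ n ≤ 2 * n * S.card := by exact_mod_cast h1
  rw [Nat.cast_sub hpr.one_lt.le, Nat.cast_one, div_le_iff₀ (by positivity)]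
  have hp2 : (2 : ℝ) ≤ p := by exact_mod_cast hpr.two_le
  calc (p : ℝ) ^ (n + 1) = p * (p : ℝ) ^ n := by ring
    _ ≤ (2 * (p - 1)) * (2 * n * S.card) := mul_le_mul (by linarith) h4 (by positivity) (by linarith)
    _ = ((p : ℝ) - 1) * S.card * (4 * n) := by ring

end

/-- irreducibility over `ℚ` from irreducibility modulo `p` -/
theorem irr_of_mod {p : ℕ} [Fact p.Prime] {n : ℕ} (hn : 1 ≤ n) (g : ℤ[X]) (hg : g.natDegree ≤ n) (h1 : (g.map (Int.castRingHom (ZMod p))).natDegree = n)
    (h2 : Irreducible (g.map (Int.castRingHom (ZMod p)))) : g.natDegree = n ∧ Irreducible (g.map (Int.castRingHom ℚ)) := by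
  have hgn : g.natDegree = n := le_antisymm hg (by rw [← h1]; exact natDegree_map_le)
  have hg0 : g ≠ 0 := by
    rintro rfl
    rw [natDegree_zero] at hgn
    omega
  obtain ⟨c, hc⟩ : ∃ c, c = g.content := ⟨_, rfl⟩
  obtain ⟨g', hg'⟩ : ∃ g', g' = g.primPart := ⟨_, rfl⟩
  have hprim : g'.IsPrimitive := by rw [hg']; exact isPrimitive_primPart g
  have hgc : g = C c * g' := by rw [hc, hg']; exact g.eq_C_content_mul_primPart
  have hc0 : c ≠ 0 := by rw [hc]; exact content_eq_zero_iff.not.2 hg0
  have hdeg' : g'.natDegree = n := by rw [hg', natDegree_primPart, hgn]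
  have hlead : (Int.castRingHom (ZMod p)) g.leadingCoeff ≠ 0 := by
    intro h0
    have h3 : (g.map (Int.castRingHom (ZMod p))).coeff n = 0 := by rw [coeff_map, ← hgn]; exact h0
    have h4 : (g.map (Int.castRingHom (ZMod p))).leadingCoeff = 0 := by rw [leadingCoeff, h1]; exact h3
    rw [leadingCoeff_eq_zero] at h4
    exact h2.ne_zero h4
  refine ⟨hgn, ?_⟩
  rw [hgc, Polynomial.map_mul, map_C, irreducible_isUnit_mul (isUnit_C.2 (isUnit_iff_ne_zero.2 (by simpa using hc0)))]
  rw [← IsPrimitive.Int.irreducible_iff_irreducible_map_cast hprim]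
  have hg'0 : ¬ IsUnit g' := by
    intro hu
    have := natDegree_eq_zero_of_isUnit hu
    omega
  refine ⟨hg'0, fun a b hab => ?_⟩
  have hm : g.map (Int.castRingHom (ZMod p)) = C ((Int.castRingHom (ZMod p)) c) * (a.map (Int.castRingHom (ZMod p)) * b.map (Int.castRingHom (ZMod p))) := by
    rw [hgc, hab, Polynomial.map_mul, Polynomial.map_mul, map_C]
  have hl : g.leadingCoeff = c * (a.leadingCoeff * b.leadingCoeff) := by
    rw [hgc, hab, leadingCoeff_mul, leadingCoeff_mul, leadingCoeff_C]
  rw [hl, map_mul, map_mul] at hlead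
  have hcp : (Int.castRingHom (ZMod p)) c ≠ 0 := left_ne_zero_of_mul hlead
  have hap : (Int.castRingHom (ZMod p)) a.leadingCoeff ≠ 0 := left_ne_zero_of_mul (right_ne_zero_of_mul hlead)
  have hbp : (Int.castRingHom (ZMod p)) b.leadingCoeff ≠ 0 := right_ne_zero_of_mul (right_ne_zero_of_mul hlead)
  rw [hm, irreducible_isUnit_mul (isUnit_C.2 (isUnit_iff_ne_zero.2 hcp))] at h2
  have key : ∀ q : ℤ[X], (Int.castRingHom (ZMod p)) q.leadingCoeff ≠ 0 → IsUnit (q.map (Int.castRingHom (ZMod p))) → q ∣ g' → IsUnit q := by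
    intro q hq hu hd
    have h3 := natDegree_eq_zero_of_isUnit hu
    rw [natDegree_map_of_leadingCoeff_ne_zero _ hq] at h3
    rw [eq_C_of_natDegree_eq_zero h3] at hd ⊢
    exact isUnit_C.2 (hprim _ hd)
  rcases h2.isUnit_or_isUnit rfl with h | h
  · exact Or.inl (key a hap h (hab ▸ dvd_mul_right _ _))
  · exact Or.inr (key b hbp h (hab ▸ dvd_mul_left _ _))

end Pool.Agent.Q235.FD
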