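import Pool.Agent.Q235.FD.Hyp4

/-! Joint moments of the traces of Frobenius of systems of hyperelliptic curves. -/

set_option autoImplicit false

namespace Pool.Agent.Q235.FD

open Finset

/-! ### averages of products -/

lemma avg_sigma {s : ℕ} {D : Fin s → ℕ} (p : ℕ) (F : (i : Fin s) → (Fin (D i) → ℕ) → ℝ) :
    avg p (fun n : (Σ i, Fin (D i)) → ℕ => ∏ i, F i (fun j => n ⟨i, j⟩)) = ∏ i, avg p (F i) := by
  classical
  unfold avg
  rw [prod_div_distrib, prod_pow_eq_pow_sum, Finset.prod_univ_sum]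
  have hcard : Fintype.card (Σ i, Fin (D i)) = ∑ i, Fintype.card (Fin (D i)) := Fintype.card_sigma
  rw [hcard]
  congr 1
  refine sum_bij (fun n _ => fun i j => n ⟨i, j⟩) ?_ ?_ ?_ ?_
  · intro n hn
    simp only [Fintype.mem_piFinset, mem_range] at hn ⊢
    exact fun i j => hn ⟨i, j⟩
  · intro n _ n' _ h
    funext l
    exact congrFun (congrFun h l.1) l.2
  · intro g hg
    refine ⟨fun l => g l.1 l.2, ?_, rfl⟩
    simp only [Fintype.mem_piFinset, mem_range] at hg ⊢
    exact fun l => hg l.1 l.2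
  · intro n _
    rfl

lemma prod_close {s : ℕ} {M η : ℝ} (hM : 1 ≤ M) (u g : Fin s → ℝ) (S : Finset (Fin s))
    (hu : ∀ i, |u i| ≤ M) (hg : ∀ i, |g i| ≤ M) (h : ∀ i, |u i - g i| ≤ η) (hη : 0 ≤ η) :
    |∏ i ∈ S, u i - ∏ i ∈ S, g i| ≤ S.card * M ^ S.card * η ∧ |∏ i ∈ S, u i| ≤ M ^ S.card ∧ |∏ i ∈ S, g i| ≤ M ^ S.card := by
  classical
  induction S using Finset.induction_on with
  | empty => simp
  | insert a S ha ih =>
    obtain ⟨h1, h2, h3⟩ := ih
    have hM0 : 0 ≤ M := by linarith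
    rw [prod_insert ha, prod_insert ha, card_insert_of_notMem ha]
    refine ⟨?_, ?_, ?_⟩
    · have e : u a * ∏ i ∈ S, u i - g a * ∏ i ∈ S, g i = (u a - g a) * ∏ i ∈ S, u i + g a * (∏ i ∈ S, u i - ∏ i ∈ S, g i) := by ring
      rw [e]
      refine (abs_add_le _ _).trans ?_
      rw [abs_mul, abs_mul]
      have h4 : |u a - g a| * |∏ i ∈ S, u i| ≤ η * M ^ S.card := mul_le_mul (h a) h2 (abs_nonneg _) hη
      have h5 : |g a| * |∏ i ∈ S, u i - ∏ i ∈ S, g i| ≤ M * (S.card * M ^ S.card * η) := mul_le_mul (hg a) h1 (abs_nonneg _) hM0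
      have h6 : η * M ^ S.card ≤ M ^ (S.card + 1) * η := by
        rw [pow_succ]
        have : M ^ S.card * 1 ≤ M ^ S.card * M := mul_le_mul_of_nonneg_left hM (by positivity)
        nlinarith
      calc _ ≤ M ^ (S.card + 1) * η + M * (S.card * M ^ S.card * η) := add_le_add (h4.trans h6) h5
        _ = _ := by push_cast; ring
    · rw [abs_mul, pow_succ, mul_comm]
      exact mul_le_mul h2 (hu a) (abs_nonneg _) (by positivity)
    · rw [abs_mul, pow_succ, mul_comm]
      exact mul_le_mul h3 (hg a) (abs_nonneg _) (by positivity)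

section

variable {s : ℕ} {D : Fin s → ℕ}

/-- All curves of the system have good reduction at `p`. -/
def AllGood (p : ℕ) (m : (Σ i, Fin (D i)) → ℕ) : Prop := ∀ i, GoodPrime p (fun j => m ⟨i, j⟩)

open scoped Classical in
/-- the centered mixed powers of the traces at good primes -/
noncomputable def jpow (k : Fin s → ℕ) (p : ℕ) (m : (Σ i, Fin (D i)) → ℕ) : ℝ :=
  if AllGood p m then ∏ i, ntrace p (fun j => m ⟨i, j⟩) ^ k i - ∏ i, gmom (k i) else 0

open scoped Classical in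
/-- the indicator function of the bad primes -/
noncomputable def jbad (p : ℕ) (m : (Σ i, Fin (D i)) → ℕ) : ℝ := if AllGood p m then 0 else 1

lemma allGood_mod (p : ℕ) (m : (Σ i, Fin (D i)) → ℕ) : AllGood p (fun l => m l % p) ↔ AllGood p m :=
  forall_congr' fun i => good_mod p (fun j => m ⟨i, j⟩)

lemma jpow_mod (k : Fin s → ℕ) (p : ℕ) (m : (Σ i, Fin (D i)) → ℕ) : jpow k p m = jpow k p (fun l => m l % p) := by
  unfold jpow
  have e : ∀ i, ntrace p (fun j => (fun l => m l % p) (⟨i, j⟩ : Σ i, Fin (D i))) = ntrace p (fun j => m ⟨i, j⟩) :=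
    fun i => ntrace_mod p (fun j => m ⟨i, j⟩)
  simp only [e]
  by_cases h : AllGood p m
  · rw [if_pos h, if_pos ((allGood_mod p m).2 h)]
  · rw [if_neg h, if_neg (fun h' => h ((allGood_mod p m).1 h'))]

lemma jbad_mod (p : ℕ) (m : (Σ i, Fin (D i)) → ℕ) : jbad p m = jbad p (fun i => m i % p) := by
  unfold jbad
  by_cases h : AllGood p m
  · rw [if_pos h, if_pos ((allGood_mod p m).2 h)]
  · rw [if_neg h, if_neg (fun h' => h ((allGood_mod p m).1 h'))]

open scoped Classical in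
/-- the powers of the trace of one curve -/
noncomputable def gpow {E : ℕ} (k p : ℕ) (m : Fin E → ℕ) : ℝ := if GoodPrime p m then ntrace p m ^ k else 0

lemma gpow_eq {E : ℕ} (k p : ℕ) (m : Fin E → ℕ) : gpow k p m = cpow k p m + gmom k * (1 - bad p m) := by
  unfold gpow cpow bad
  by_cases h : GoodPrime p m
  · rw [if_pos h, if_pos h, if_pos h]; ring
  · rw [if_neg h, if_neg h, if_neg h]; ring

lemma gmom_le {E k : ℕ} (hk : k ≤ E) : gmom k ≤ C0 E := by
  have h2 : gmom k ≤ ∑ k ∈ range (E + 1), gmom k :=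
    single_le_sum (f := fun k => gmom k) (fun k _ => gmom_nonneg k) (mem_range.2 (by omega))
  have : (0 : ℝ) ≤ (E : ℝ) ^ E := by positivity
  unfold C0
  linarith

lemma gpow_bound {E : ℕ} (hE : Odd E) {k : ℕ} (hk : k ≤ E) {p : ℕ} (hp : p.Prime) (m : Fin E → ℕ) : |gpow k p m| ≤ C0 E := by
  have : Fact p.Prime := ⟨hp⟩
  have h0 := C0_one E
  unfold gpow
  split_ifs with h
  · have hE1 : (1 : ℝ) ≤ E := by exact_mod_cast hE.pos
    rw [abs_pow]
    have h1 := ntrace_bound h.1 hE m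
    calc |ntrace p m| ^ k ≤ (E : ℝ) ^ k := pow_le_pow_left₀ (abs_nonneg _) (by linarith) _
      _ ≤ (E : ℝ) ^ E := pow_le_pow_right₀ hE1 hk
      _ ≤ C0 E := by
        unfold C0
        have : 0 ≤ ∑ k ∈ range (E + 1), gmom k := sum_nonneg fun k _ => gmom_nonneg k
        linarith
  · rw [abs_zero]; linarith

lemma avg_gpow {E : ℕ} (hE : Odd E) (k : ℕ) (hk : k ≤ E) :
    ∃ C : ℝ, 0 ≤ C ∧ ∀ p : ℕ, p.Prime → |avg p (gpow (E := E) k p) - gmom k| ≤ C / p := by
  obtain ⟨C, hC0, hC⟩ := avg_cpow hE k hk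
  have hg := gmom_nonneg k
  refine ⟨C + gmom k * (E + 2), by positivity, fun p hp => ?_⟩
  have hpp : (0 : ℝ) < p := by exact_mod_cast hp.pos
  have e1 : gpow (E := E) k p = fun m => cpow k p m + gmom k * (1 - bad p m) := funext fun m => gpow_eq k p m
  have e2 : avg p (gpow (E := E) k p) = avg p (cpow (D := E) k p) + gmom k * (1 - avg p (bad (D := E) p)) := by
    rw [e1, avg_add, avg_mul, avg_sub, avg_const hp.one_lt.le]
  have h1 := hC p hp
  have h2 := avg_bad (D := E) hE.pos hp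
  rw [e2]
  have e3 : avg p (cpow (D := E) k p) + gmom k * (1 - avg p (bad (D := E) p)) - gmom k =
      avg p (cpow (D := E) k p) - gmom k * avg p (bad (D := E) p) := by ring
  rw [e3]
  have h3 := abs_sub (avg p (cpow (D := E) k p)) (gmom k * avg p (bad (D := E) p))
  rw [abs_mul, abs_of_nonneg hg] at h3
  calc _ ≤ C / p + gmom k * ((E + 2) / p) := h3.trans (add_le_add h1 (mul_le_mul_of_nonneg_left h2 hg))
    _ = _ := by ring

/-- the constant -/
noncomputable def CJ (D : Fin s → ℕ) : ℝ := ∑ i, C0 (D i) + 1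

lemma CJ_one : 1 ≤ CJ D := by
  unfold CJ
  have : 0 ≤ ∑ i, C0 (D i) := sum_nonneg fun i _ => by linarith [C0_one (D i)]
  linarith

lemma C0_le_CJ (i : Fin s) : C0 (D i) ≤ CJ D := by
  unfold CJ
  have := single_le_sum (f := fun i => C0 (D i)) (fun i _ => by linarith [C0_one (D i)]) (mem_univ i)
  linarith

lemma jpow_eq (k : Fin s → ℕ) (p : ℕ) (m : (Σ i, Fin (D i)) → ℕ) :
    jpow k p m = ∏ i, gpow (k i) p (fun j => m ⟨i, j⟩) - (∏ i, gmom (k i)) * ∏ i, (1 - bad p (fun j => m ⟨i, j⟩)) := by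
  unfold jpow
  by_cases h : AllGood p m
  · rw [if_pos h]
    have e1 : ∀ i, gpow (k i) p (fun j => m ⟨i, j⟩) = ntrace p (fun j => m ⟨i, j⟩) ^ k i := fun i => if_pos (h i)
    have e2 : ∀ i, bad p (fun j => m ⟨i, j⟩) = 0 := fun i => if_pos (h i)
    rw [prod_congr rfl (fun i _ => e1 i)]
    have e3 : ∏ i, (1 - bad p (fun j => m (⟨i, j⟩ : Σ i, Fin (D i)))) = 1 := prod_eq_one fun i _ => by rw [e2]; ring
    rw [e3, mul_one]
  · rw [if_neg h]
    unfold AllGood at h
    push Not at h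
    obtain ⟨i, hi⟩ := h
    have e1 : ∏ i, gpow (k i) p (fun j => m (⟨i, j⟩ : Σ i, Fin (D i))) = 0 := prod_eq_zero (mem_univ i) (if_neg hi)
    have e2 : ∏ i, (1 - bad p (fun j => m (⟨i, j⟩ : Σ i, Fin (D i)))) = 0 :=
      prod_eq_zero (mem_univ i) (by unfold bad; rw [if_neg hi]; ring)
    rw [e1, e2]
    ring

lemma jpow_bound (hD : ∀ i, Odd (D i)) {k : Fin s → ℕ} (hk : ∀ i, k i ≤ D i) {p : ℕ} (hp : p.Prime) (m : (Σ i, Fin (D i)) → ℕ) :
    |jpow k p m| ≤ 2 * CJ D ^ s := by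
  have h1 := (prod_close (s := s) (M := CJ D) (η := 2 * CJ D) CJ_one (fun i => gpow (k i) p (fun j => m ⟨i, j⟩)) (fun i => gmom (k i)) univ
    (fun i => (gpow_bound (hD i) (hk i) hp _).trans (C0_le_CJ i)) (fun i => by
      rw [abs_of_nonneg (gmom_nonneg _)]
      exact (gmom_le (hk i)).trans (C0_le_CJ i)) (fun i => by
      have h2 := (gpow_bound (hD i) (hk i) hp (fun j => m ⟨i, j⟩)).trans (C0_le_CJ i)
      have h3 := (gmom_le (hk i)).trans (C0_le_CJ (D := D) i)
      have h4 := gmom_nonneg (k i)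
      rw [abs_le] at h2 ⊢
      constructor <;> linarith) (by linarith [CJ_one (D := D)])).2
  rw [card_univ, Fintype.card_fin] at h1
  have h0 : 0 ≤ CJ D ^ s := by
    have := CJ_one (D := D)
    positivity
  unfold jpow
  split_ifs with h
  · have e1 : ∀ i, gpow (k i) p (fun j => m ⟨i, j⟩) = ntrace p (fun j => m ⟨i, j⟩) ^ k i := fun i => if_pos (h i)
    rw [prod_congr rfl (fun i _ => e1 i)] at h1
    have := abs_sub (∏ i, ntrace p (fun j => m ⟨i, j⟩) ^ k i) (∏ i, gmom (k i))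
    linarith [h1.1, h1.2]
  · rw [abs_zero]; linarith

lemma avg_jpow (hD : ∀ i, Odd (D i)) {k : Fin s → ℕ} (hk : ∀ i, k i ≤ D i) :
    ∃ C : ℝ, 0 ≤ C ∧ ∀ p : ℕ, p.Prime → |avg p (jpow (D := D) k p)| ≤ C / p := by
  choose C hC0 hC using fun i => avg_gpow (hD i) (k i) (hk i)
  obtain ⟨T, hT⟩ : ∃ T : ℝ, T = ∑ i, C i + ∑ i, ((D i : ℝ) + 2) := ⟨_, rfl⟩
  have hC1 : ∀ i, C i ≤ T := by
    intro i
    have h1 := single_le_sum (f := C) (fun i _ => hC0 i) (mem_univ i)
    have h2 : 0 ≤ ∑ i, ((D i : ℝ) + 2) := sum_nonneg fun i _ => by positivity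
    linarith
  have hD1 : ∀ i, (D i : ℝ) + 2 ≤ T := by
    intro i
    have h1 := single_le_sum (f := fun i => (D i : ℝ) + 2) (fun i _ => by positivity) (mem_univ i)
    have h2 : 0 ≤ ∑ i, C i := sum_nonneg fun i _ => hC0 i
    linarith
  have hT0 : 0 ≤ T := by
    rw [hT]
    have h2 : 0 ≤ ∑ i, ((D i : ℝ) + 2) := sum_nonneg fun i _ => by positivity
    have h3 : 0 ≤ ∑ i, C i := sum_nonneg fun i _ => hC0 i
    linarith
  have hCJ := CJ_one (D := D)
  refine ⟨s * CJ D ^ s * T + CJ D ^ s * (s * CJ D ^ s * T), by positivity, fun p hp => ?_⟩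
  have hpp : (0 : ℝ) < p := by exact_mod_cast hp.pos
  have e1 : jpow (D := D) k p = fun m => ∏ i, gpow (k i) p (fun j => m ⟨i, j⟩) - (∏ i, gmom (k i)) * ∏ i, (1 - bad p (fun j => m ⟨i, j⟩)) :=
    funext fun m => jpow_eq k p m
  have e2 : avg p (jpow (D := D) k p) = ∏ i, avg p (gpow (E := D i) (k i) p) - (∏ i, gmom (k i)) * ∏ i, (1 - avg p (bad (D := D i) p)) := by
    rw [e1, avg_sub, avg_mul, avg_sigma p (fun i => gpow (E := D i) (k i) p), avg_sigma p (fun i m => 1 - bad (D := D i) p m)]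
    congr 2
    refine prod_congr rfl fun i _ => ?_
    rw [avg_sub, avg_const hp.one_lt.le]
  have hb1 : ∀ i, |1 - avg p (bad (D := D i) p)| ≤ 1 := by
    intro i
    have h1 : 0 ≤ avg p (bad (D := D i) p) := avg_nonneg fun n => by unfold bad; split_ifs <;> norm_num
    have h2 : avg p (bad (D := D i) p) ≤ avg (L := Fin (D i)) p (fun _ => 1) := avg_mono fun n => by unfold bad; split_ifs <;> norm_num
    rw [avg_const hp.one_lt.le] at h2
    rw [abs_le]
    constructor <;> linarith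
  have h1 := prod_close (s := s) (M := CJ D) (η := T / p) CJ_one (fun i => avg p (gpow (E := D i) (k i) p)) (fun i => gmom (k i)) univ
    (fun i => by
      refine (abs_avg_le _).trans (le_trans (avg_mono (G := fun _ => CJ D) fun n => (gpow_bound (hD i) (hk i) hp n).trans (C0_le_CJ i)) ?_)
      rw [avg_const hp.one_lt.le]) (fun i => by
      rw [abs_of_nonneg (gmom_nonneg _)]
      exact (gmom_le (hk i)).trans (C0_le_CJ i))
    (fun i => (hC i p hp).trans (div_le_div_of_nonneg_right (hC1 i) hpp.le)) (by positivity)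
  have h2 := prod_close (s := s) (M := CJ D) (η := T / p) CJ_one (fun i => 1 - avg p (bad (D := D i) p)) (fun _ => 1) univ
    (fun i => (hb1 i).trans CJ_one) (fun i => by rw [abs_one]; exact CJ_one)
    (fun i => by
      have h3 := avg_bad (D := D i) (hD i).pos hp
      have e3 : 1 - avg p (bad (D := D i) p) - 1 = -avg p (bad (D := D i) p) := by ring
      rw [e3, abs_neg]
      exact h3.trans (div_le_div_of_nonneg_right (hD1 i) hpp.le)) (by positivity)
  rw [card_univ, Fintype.card_fin] at h1 h2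
  rw [prod_const_one] at h2
  rw [e2]
  have e4 : ∏ i, avg p (gpow (E := D i) (k i) p) - (∏ i, gmom (k i)) * ∏ i, (1 - avg p (bad (D := D i) p)) =
      (∏ i, avg p (gpow (E := D i) (k i) p) - ∏ i, gmom (k i)) - (∏ i, gmom (k i)) * (∏ i, (1 - avg p (bad (D := D i) p)) - 1) := by ring
  rw [e4]
  refine (abs_sub _ _).trans ?_
  rw [abs_mul]
  have h5 := mul_le_mul h1.2.2 h2.1 (abs_nonneg _) (by positivity)
  calc _ ≤ s * CJ D ^ s * (T / p) + CJ D ^ s * (s * CJ D ^ s * (T / p)) := add_le_add h1.1 h5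
    _ = _ := by ring

lemma avg_jbad (hD : ∀ i, Odd (D i)) :
    ∀ p : ℕ, p.Prime → |avg p (jbad (D := D) p)| ≤ (∑ i, ((D i : ℝ) + 2)) / p := by
  intro p hp
  have hpp : (0 : ℝ) < p := by exact_mod_cast hp.pos
  rw [abs_of_nonneg (avg_nonneg fun n => by unfold jbad; split_ifs <;> norm_num)]
  have hcomp : ∀ i, avg p (fun m : (Σ i, Fin (D i)) → ℕ => bad p (fun j => m ⟨i, j⟩)) = avg p (bad (D := D i) p) := by
    intro i
    have h := avg_sigma (D := D) p (fun i' => if h : i' = i then bad (D := D i') p else fun _ => 1)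
    have e1 : (fun n : (Σ i, Fin (D i)) → ℕ => ∏ i', (if h : i' = i then bad (D := D i') p else fun _ => 1) (fun j => n ⟨i', j⟩)) =
        fun n => bad p (fun j => n ⟨i, j⟩) := by
      funext n
      rw [prod_eq_single_of_mem i (mem_univ i)]
      · rw [dif_pos rfl]
      · intro i' _ hne
        rw [dif_neg hne]
    rw [e1] at h
    rw [h, prod_eq_single_of_mem i (mem_univ i)]
    · rw [dif_pos rfl]
    · intro i' _ hne
      rw [dif_neg hne]
      exact avg_const hp.one_lt.le 1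
  have hsum : ∀ S : Finset (Fin s), avg p (fun m : (Σ i, Fin (D i)) → ℕ => ∑ i ∈ S, bad p (fun j => m ⟨i, j⟩)) =
      ∑ i ∈ S, avg p (bad (D := D i) p) := by
    classical
    intro S
    induction S using Finset.induction_on with
    | empty => simp only [sum_empty]; exact avg_const hp.one_lt.le 0
    | insert a S ha ih =>
      simp only [sum_insert ha]
      rw [avg_add, ih, hcomp]
  have h1 : avg p (jbad (D := D) p) ≤ avg p (fun m : (Σ i, Fin (D i)) → ℕ => ∑ i, bad p (fun j => m ⟨i, j⟩)) := by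
    apply avg_mono
    intro n
    have hnn : ∀ i, 0 ≤ bad p (fun j => n (⟨i, j⟩ : Σ i, Fin (D i))) := fun i => by unfold bad; split_ifs <;> norm_num
    unfold jbad
    split_ifs with h
    · exact sum_nonneg fun i _ => hnn i
    · unfold AllGood at h
      push Not at h
      obtain ⟨i, hi⟩ := h
      have h2 : bad p (fun j => n (⟨i, j⟩ : Σ i, Fin (D i))) = 1 := by unfold bad; rw [if_neg hi]
      rw [← h2]
      exact single_le_sum (f := fun i => bad p (fun j => n (⟨i, j⟩ : Σ i, Fin (D i)))) (fun i _ => hnn i) (mem_univ i)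
  refine h1.trans ?_
  rw [hsum univ, sum_div]
  exact sum_le_sum fun i _ => (le_abs_self _).trans (avg_bad (hD i).pos hp)

/-- **The law for the joint moments.** -/
theorem joint_law (hs : 1 ≤ s) (hD : ∀ i, Odd (D i)) {b : ℕ} (hb : 2 ≤ b) {δ : ℝ} (hδ : 0 < δ) (A B : ℕ) :
    ForAlmostAll (Σ i, Fin (D i)) b A (fun (θ : Sets B) x m => ∀ P ∈ θ.S x,
      |∑ p ∈ P, jbad p m| ≤ Real.sqrt (max 1 P.card) * (x : ℝ) ^ δ ∧
      ∀ k : Fin s → ℕ, (∀ i, k i ≤ D i) → |∑ p ∈ P, jpow k p m| ≤ Real.sqrt (max 1 P.card) * (x : ℝ) ^ δ) := by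
  classical
  have : Nonempty (Σ i, Fin (D i)) := ⟨⟨⟨0, hs⟩, ⟨0, (hD _).pos⟩⟩⟩
  obtain ⟨Q, hQ⟩ : ∃ Q : Finset (Fin s → ℕ), Q = Fintype.piFinset (fun i => range (D i + 1)) := ⟨_, rfl⟩
  have hQ' : ∀ k, k ∈ Q ↔ ∀ i, k i ≤ D i := by
    intro k
    rw [hQ, Fintype.mem_piFinset]
    exact forall_congr' fun i => by rw [mem_range]; omega
  have hex : ∀ k : {k // k ∈ Q}, ∃ C : ℝ, 0 ≤ C ∧ ∀ p : ℕ, p.Prime → |avg p (jpow (D := D) k.1 p)| ≤ C / p :=
    fun k => avg_jpow hD ((hQ' k.1).1 k.2)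
  choose C hC0 hC using hex
  have hS : 0 ≤ ∑ k, C k := sum_nonneg fun k _ => hC0 k
  have h0 := CJ_one (D := D)
  have h0' : 1 ≤ CJ D ^ s := one_le_pow₀ h0
  have h1 := centered (L := Σ i, Fin (D i)) hb hδ (A + 1) B Q.card (fun _ => (univ : Finset {k // k ∈ Q})) (by
    intro x hx
    rw [card_univ, Fintype.card_coe]
    calc Q.card ≤ 2 ^ Q.card := Nat.lt_two_pow_self.le
      _ ≤ x ^ Q.card := Nat.pow_le_pow_left hx _) (fun k p m => jpow k.1 p m) (fun k p n _ => jpow_mod k.1 p n)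
    (C := 2 * CJ D ^ s + ∑ k, C k) (by linarith) (fun k p n hp => (jpow_bound hD ((hQ' k.1).1 k.2) hp n).trans (by linarith)) (fun k p hp => by
      have hpp : (0 : ℝ) < p := by exact_mod_cast hp.pos
      refine (hC k p hp).trans (div_le_div_of_nonneg_right ?_ hpp.le)
      have := single_le_sum (f := C) (fun k _ => hC0 k) (mem_univ k)
      linarith)
  have hDs : 0 ≤ ∑ i, ((D i : ℝ) + 2) := sum_nonneg fun i _ => by positivity
  have h2 := centered (L := Σ i, Fin (D i)) hb hδ (A + 1) B 1 (fun _ => (univ : Finset Unit)) (by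
    intro x hx
    rw [card_univ, Fintype.card_unit, pow_one]
    omega) (fun _ p m => jbad p m) (fun _ p n _ => jbad_mod p n)
    (C := 1 + ∑ i, ((D i : ℝ) + 2)) (by linarith) (fun _ p n hp => by
      unfold jbad
      split_ifs
      · rw [abs_zero]; linarith
      · rw [abs_one]; linarith) (fun _ p hp => (avg_jbad hD p hp).trans (by
        have hpp : (0 : ℝ) < p := by exact_mod_cast hp.pos
        exact div_le_div_of_nonneg_right (by linarith) hpp.le))
  refine ForAlmostAll.and h1 h2 ?_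
  intro θ x m g1 g2 P hP
  exact ⟨g2 P hP () (mem_univ _), fun k hk => g1 P hP ⟨k, (hQ' k).2 hk⟩ (mem_univ _)⟩

end

end Pool.Agent.Q235.FD
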