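import Pool.Agent.Q235.FD.Lines

/-! Points on lines of small height. -/

set_option autoImplicit false

namespace Pool.Agent.Q235.FD

open Finset Polynomial

lemma hform_smul {N n : ℕ} {R S : Type} [CommRing R] [CommRing S] [Algebra R S] (m : Mo N n → R) (c : S) (x : Fin (N + 1) → S) :
    hform m (fun i => c * x i) = c ^ n * hform m x := by
  unfold hform
  rw [mul_sum]
  refine sum_congr rfl fun e _ => ?_
  have h1 : ∏ i, (c * x i) ^ (e.1 i : ℕ) = c ^ n * ∏ i, x i ^ (e.1 i : ℕ) := by
    rw [prod_congr rfl (fun i _ => mul_pow c (x i) (e.1 i : ℕ)), prod_mul_distrib, prod_pow_eq_pow_sum, e.2]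
  rw [h1]
  ring

lemma aeval_restr {N n : ℕ} {K : Type} [Field K] [Algebra ℚ K] (m : Mo N n → ℤ) (P Q : Fin (N + 1) → ℤ) (s : K) :
    aeval s ((restr m P Q).map (Int.castRingHom ℚ)) = hform m (fun i => s * P i + Q i) := by
  rw [restr_map]
  unfold restr hform
  rw [map_sum]
  refine sum_congr rfl fun e _ => ?_
  rw [map_mul, aeval_C, map_prod]
  congr 1
  · simp
  · refine prod_congr rfl fun i _ => ?_
    rw [map_pow]
    congr 1
    simp
    ring

lemma no_root {n : ℕ} {K : Type} [Field K] [Algebra ℚ K] [FiniteDimensional ℚ K] (hK : Module.finrank ℚ K < n) {f : ℚ[X]} (hf : Irreducible f)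
    (hd : f.natDegree = n) (s : K) : aeval s f ≠ 0 := by
  intro h
  have h1 := minpoly.eq_of_irreducible hf h
  have h2 : (minpoly ℚ s).natDegree = n := by
    rw [← h1, natDegree_mul hf.ne_zero (C_ne_zero.2 (inv_ne_zero (leadingCoeff_ne_zero.2 hf.ne_zero))), natDegree_C, add_zero, hd]
  have h3 := minpoly.natDegree_le (A := ℚ) s
  omega

/-- The restriction of a form of degree `n` to the line through the integral vectors `P` and `Q` is irreducible, and no point of this line over
a field of degree less than `n` over `ℚ` is a zero of the form. -/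
def IrreducibleOn {N n : ℕ} (m : Mo N n → ℤ) (P Q : Fin (N + 1) → ℤ) : Prop :=
  ((restr m P Q).natDegree = n ∧ Irreducible ((restr m P Q).map (Int.castRingHom ℚ))) ∧
    ∀ (K : Type) [Field K] [Algebra ℚ K] [FiniteDimensional ℚ K], Module.finrank ℚ K < n → ∀ a c : K, (a ≠ 0 ∨ c ≠ 0) →
      hform m (fun i => a * P i + c * Q i) ≠ 0

theorem irreducibleOn_of {N n : ℕ} (m : Mo N n → ℤ) (P Q : Fin (N + 1) → ℤ)
    (h1 : (restr m P Q).natDegree = n ∧ Irreducible ((restr m P Q).map (Int.castRingHom ℚ)))
    (h2 : (restr m Q P).natDegree = n ∧ Irreducible ((restr m Q P).map (Int.castRingHom ℚ))) : IrreducibleOn m P Q := by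
  refine ⟨h1, ?_⟩
  intro K _ _ _ hK a c hac
  have hinj : Function.Injective (Int.castRingHom ℚ) := Int.cast_injective
  rcases hac with h | h
  · have e : (fun i => a * (P i : K) + c * (Q i : K)) = fun i => a * (c / a * (Q i : K) + (P i : K)) := by
      funext i
      field_simp
      ring
    rw [e, hform_smul, ← aeval_restr]
    exact mul_ne_zero (pow_ne_zero _ h) (no_root hK h2.2 (by rw [natDegree_map_eq_of_injective hinj, h2.1]) _)
  · have e : (fun i => a * (P i : K) + c * (Q i : K)) = fun i => c * (a / c * (P i : K) + (Q i : K)) := by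
      funext i
      field_simp
    rw [e, hform_smul, ← aeval_restr]
    exact mul_ne_zero (pow_ne_zero _ h) (no_root hK h1.2 (by rw [natDegree_map_eq_of_injective hinj, h1.1]) _)

end Pool.Agent.Q235.FD
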