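import Pool.Agent.Q235.FD.Powers
import Pool.Agent.Q235.FD.Irr

/-! Restrictions to lines of small height of forms whose coefficients arise by changing a few digits are irreducible. -/

set_option autoImplicit false

namespace Pool.Agent.Q235.FD

open Finset Polynomial Filter

/-- the exponents of the monomials of degree `n` in `N + 1` variables -/
abbrev Mo (N n : ℕ) : Type := {e : Fin (N + 1) → Fin (n + 1) // ∑ i, (e i : ℕ) = n}

instance (N n : ℕ) : Nonempty (Mo N n) :=
  ⟨⟨fun i => if i = 0 then Fin.last n else 0, by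
    rw [Finset.sum_eq_single_of_mem 0 (mem_univ _)]
    · simp
    · intro i _ hi
      simp [hi]⟩⟩

/-- The form of degree `n` in `N + 1` variables with the coefficients `m`. -/
def hform {N n : ℕ} {R S : Type} [CommRing R] [CommRing S] [Algebra R S] (m : Mo N n → R) (x : Fin (N + 1) → S) : S :=
  ∑ e : Mo N n, algebraMap R S (m e) * ∏ i, x i ^ (e.1 i : ℕ)

/-- the restriction to the line through `P` and `Q` -/
noncomputable def restr {N n : ℕ} {R : Type} [CommRing R] (m : Mo N n → R) (P Q : Fin (N + 1) → R) : R[X] :=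
  ∑ e : Mo N n, C (m e) * ∏ i, (C (P i) * X + C (Q i)) ^ (e.1 i : ℕ)

lemma restr_natDegree {N n : ℕ} {R : Type} [CommRing R] (m : Mo N n → R) (P Q : Fin (N + 1) → R) : (restr m P Q).natDegree ≤ n := by
  unfold restr
  refine natDegree_sum_le_of_forall_le _ _ fun e _ => ?_
  refine (natDegree_C_mul_le _ _).trans ((natDegree_prod_le _ _).trans ?_)
  refine le_trans (sum_le_sum (g := fun i => (e.1 i : ℕ)) fun i _ => ?_) e.2.le
  refine natDegree_pow_le.trans ?_
  have h1 : (C (P i) * X + C (Q i)).natDegree ≤ 1 := natDegree_linear_le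
  calc (e.1 i : ℕ) * (C (P i) * X + C (Q i)).natDegree ≤ (e.1 i : ℕ) * 1 := Nat.mul_le_mul_left _ h1
    _ = _ := mul_one _

lemma restr_map {N n : ℕ} {R S : Type} [CommRing R] [CommRing S] (φ : R →+* S) (m : Mo N n → R) (P Q : Fin (N + 1) → R) :
    (restr m P Q).map φ = restr (fun e => φ (m e)) (fun i => φ (P i)) (fun i => φ (Q i)) := by
  unfold restr
  rw [Polynomial.map_sum]
  refine sum_congr rfl fun e _ => ?_
  rw [Polynomial.map_mul, Polynomial.map_prod, map_C]
  congr 1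
  refine prod_congr rfl fun i _ => ?_
  rw [Polynomial.map_pow, Polynomial.map_add, Polynomial.map_mul, map_C, map_C, map_X]

lemma restr_add {N n : ℕ} {R : Type} [CommRing R] (m m' : Mo N n → R) (P Q : Fin (N + 1) → R) :
    restr (m + m') P Q = restr m P Q + restr m' P Q := by
  unfold restr
  rw [← sum_add_distrib]
  refine sum_congr rfl fun e _ => ?_
  rw [Pi.add_apply, C_add, add_mul]

lemma restr_smul {N n : ℕ} {R : Type} [CommRing R] (c : R) (m : Mo N n → R) (P Q : Fin (N + 1) → R) :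
    restr (c • m) P Q = C c * restr m P Q := by
  unfold restr
  rw [mul_sum]
  refine sum_congr rfl fun e _ => ?_
  rw [Pi.smul_apply, smul_eq_mul, C_mul, mul_assoc]

/-- the exponent as a finitely supported function -/
noncomputable def emb {N n : ℕ} (e : Mo N n) : Fin (N + 1) →₀ ℕ := Finsupp.equivFunOnFinite.symm (fun i => (e.1 i : ℕ))

lemma emb_inj {N n : ℕ} : Function.Injective (emb (N := N) (n := n)) := by
  intro e e' h
  have h1 := Finsupp.equivFunOnFinite.symm.injective h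
  apply Subtype.ext
  funext i
  exact Fin.ext (congrFun h1 i)

lemma restr_of_homogeneous {N n : ℕ} {R : Type} [CommRing R] (H : MvPolynomial (Fin (N + 1)) R) (hH : H.IsHomogeneous n) (P Q : Fin (N + 1) → R) :
    restr (fun e : Mo N n => H.coeff (emb e)) P Q = MvPolynomial.aeval (fun i => C (P i) * X + C (Q i)) H := by
  classical
  rw [MvPolynomial.aeval_def, MvPolynomial.eval₂_eq']
  have h1 : H.support ⊆ univ.image (emb (N := N) (n := n)) := by
    intro d hd
    have h2 := hH (MvPolynomial.mem_support_iff.1 hd)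
    rw [Finsupp.weight_apply] at h2
    have h3 : ∑ i, d i = n := by
      rw [← h2, Finsupp.sum_fintype _ _ (by simp)]
      simp
    rw [mem_image]
    refine ⟨⟨fun i => ⟨d i, ?_⟩, h3⟩, mem_univ _, ?_⟩
    · have := single_le_sum (f := fun i => d i) (fun i _ => Nat.zero_le _) (mem_univ i)
      beta_reduce at this
      omega
    · ext i
      rfl
  rw [sum_subset h1 (fun d _ hd => by rw [MvPolynomial.notMem_support_iff.1 hd, map_zero, zero_mul]), sum_image (fun e _ e' _ h => emb_inj h)]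
  rfl

lemma restr_surj {N n : ℕ} {K : Type} [Field K] {P Q : Fin (N + 1) → K} {i j : Fin (N + 1)} (h : P i * Q j - P j * Q i ≠ 0) (w : Fin (n + 1) → K) :
    ∃ m : Mo N n → K, restr m P Q = cpol w := by
  classical
  obtain ⟨Δ, hΔ⟩ : ∃ Δ, Δ = P i * Q j - P j * Q i := ⟨_, rfl⟩
  rw [← hΔ] at h
  obtain ⟨lam, hlam⟩ : ∃ lam : MvPolynomial (Fin (N + 1)) K, lam = MvPolynomial.C (Q j / Δ) * MvPolynomial.X i + MvPolynomial.C (-(Q i / Δ)) * MvPolynomial.X j := ⟨_, rfl⟩
  obtain ⟨mu, hmu⟩ : ∃ mu : MvPolynomial (Fin (N + 1)) K, mu = MvPolynomial.C (-(P j / Δ)) * MvPolynomial.X i + MvPolynomial.C (P i / Δ) * MvPolynomial.X j := ⟨_, rfl⟩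
  have hlin : ∀ (a b : K), (MvPolynomial.C a * MvPolynomial.X i + MvPolynomial.C b * MvPolynomial.X j : MvPolynomial (Fin (N + 1)) K).IsHomogeneous 1 := by
    intro a b
    apply MvPolynomial.IsHomogeneous.add
    · have := (MvPolynomial.isHomogeneous_C (Fin (N + 1)) a).mul (MvPolynomial.isHomogeneous_X K i)
      rwa [zero_add] at this
    · have := (MvPolynomial.isHomogeneous_C (Fin (N + 1)) b).mul (MvPolynomial.isHomogeneous_X K j)
      rwa [zero_add] at this
  have e1 : MvPolynomial.aeval (fun i => C (P i) * X + C (Q i)) lam = (X : K[X]) := by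
    rw [hlam]
    simp only [map_add, map_mul, MvPolynomial.aeval_X, MvPolynomial.algHom_C, Polynomial.algebraMap_eq]
    have a1 : Q j / Δ * P i + -(Q i / Δ) * P j = 1 := by
      have : Q j / Δ * P i + -(Q i / Δ) * P j = (P i * Q j - P j * Q i) / Δ := by ring
      rw [this, ← hΔ, div_self h]
    have a2 : Q j / Δ * Q i + -(Q i / Δ) * Q j = 0 := by ring
    calc C (Q j / Δ) * (C (P i) * X + C (Q i)) + C (-(Q i / Δ)) * (C (P j) * X + C (Q j)) =
        C (Q j / Δ * P i + -(Q i / Δ) * P j) * X + C (Q j / Δ * Q i + -(Q i / Δ) * Q j) := by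
          simp only [C_add, C_mul]; ring
      _ = X := by rw [a1, a2]; simp
  have e2 : MvPolynomial.aeval (fun i => C (P i) * X + C (Q i)) mu = (1 : K[X]) := by
    rw [hmu]
    simp only [map_add, map_mul, MvPolynomial.aeval_X, MvPolynomial.algHom_C, Polynomial.algebraMap_eq]
    have a1 : -(P j / Δ) * P i + P i / Δ * P j = 0 := by ring
    have a2 : -(P j / Δ) * Q i + P i / Δ * Q j = 1 := by
      have : -(P j / Δ) * Q i + P i / Δ * Q j = (P i * Q j - P j * Q i) / Δ := by ring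
      rw [this, ← hΔ, div_self h]
    calc C (-(P j / Δ)) * (C (P i) * X + C (Q i)) + C (P i / Δ) * (C (P j) * X + C (Q j)) =
        C (-(P j / Δ) * P i + P i / Δ * P j) * X + C (-(P j / Δ) * Q i + P i / Δ * Q j) := by
          simp only [C_add, C_mul]; ring
      _ = 1 := by rw [a1, a2]; simp
  have h3 : ∀ k : Fin (n + 1), ∃ m : Mo N n → K, restr m P Q = X ^ (k : ℕ) := by
    intro k
    have hh : (lam ^ (k : ℕ) * mu ^ (n - (k : ℕ))).IsHomogeneous n := by
      have h4 := ((hlin (Q j / Δ) (-(Q i / Δ))).pow (k : ℕ)).mul ((hlin (-(P j / Δ)) (P i / Δ)).pow (n - (k : ℕ)))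
      rw [← hlam, ← hmu, one_mul, one_mul] at h4
      have h5 : (k : ℕ) + (n - (k : ℕ)) = n := by have := k.2; omega
      rwa [h5] at h4
    refine ⟨fun e => (lam ^ (k : ℕ) * mu ^ (n - (k : ℕ))).coeff (emb e), ?_⟩
    rw [restr_of_homogeneous _ hh, map_mul, map_pow, map_pow, e1, e2, one_pow, mul_one]
  choose μ hμ using h3
  refine ⟨∑ k, w k • μ k, ?_⟩
  have h4 : ∀ s : Finset (Fin (n + 1)), restr (∑ k ∈ s, w k • μ k) P Q = ∑ k ∈ s, C (w k) * X ^ (k : ℕ) := by
    intro s
    induction s using Finset.induction_on with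
    | empty =>
      rw [sum_empty, sum_empty]
      unfold restr
      apply sum_eq_zero
      intro e _
      rw [Pi.zero_apply, C_0, zero_mul]
    | insert k s hk ih => rw [sum_insert hk, sum_insert hk, restr_add, restr_smul, hμ, ih]
  exact h4 univ

/-- averages over a finite group and its image -/
lemma surj_avg {A B : Type} [AddCommGroup A] [AddCommGroup B] [Fintype A] [Fintype B] (f : A → B) (hadd : ∀ a a', f (a + a') = f a + f a')
    (hs : Function.Surjective f) (g : B → ℝ) : (Fintype.card B : ℝ) * ∑ a, g (f a) = Fintype.card A * ∑ b, g b := by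
  have h1 : ∀ b : B, ∑ a, g (f a) = ∑ a, g (f a + b) := by
    intro b
    obtain ⟨a₀, ha⟩ := hs b
    rw [← Equiv.sum_comp (Equiv.addRight a₀)]
    refine sum_congr rfl fun a _ => ?_
    rw [Equiv.coe_addRight, hadd, ha]
  have h2 : ∀ a : A, ∑ b, g (f a + b) = ∑ b, g b := fun a => Equiv.sum_comp (Equiv.addLeft (f a)) g
  calc (Fintype.card B : ℝ) * ∑ a, g (f a) = ∑ b : B, ∑ a, g (f a) := by rw [sum_const, card_univ, nsmul_eq_mul]
    _ = ∑ b : B, ∑ a, g (f a + b) := sum_congr rfl fun b _ => h1 b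
    _ = ∑ a : A, ∑ b, g (f a + b) := sum_comm
    _ = ∑ a : A, ∑ b, g b := sum_congr rfl fun a _ => h2 a
    _ = _ := by rw [sum_const, card_univ, nsmul_eq_mul]

open scoped Classical in
/-- the indicator function of the forms whose restriction is irreducible of degree `n` -/
noncomputable def irr {N n : ℕ} {K : Type} [Field K] (P Q : Fin (N + 1) → K) (m : Mo N n → K) : ℝ :=
  if (restr m P Q).natDegree = n ∧ Irreducible (restr m P Q) then 1 else 0

lemma sum_irr {N n : ℕ} (hn : 1 ≤ n) {p : ℕ} [Fact p.Prime] (hp : 3 ≤ p) {P Q : Fin (N + 1) → ZMod p} {i j : Fin (N + 1)}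
    (h : P i * Q j - P j * Q i ≠ 0) : 1 / (4 * (n : ℝ)) ≤ (∑ m : Mo N n → ZMod p, irr P Q m) / (p : ℝ) ^ Fintype.card (Mo N n) := by
  classical
  have hp0 : (0 : ℝ) < p := by exact_mod_cast (Fact.out : p.Prime).pos
  have hn0 : (0 : ℝ) < n := by exact_mod_cast hn
  obtain ⟨g, hg⟩ : ∃ g : (Fin (n + 1) → ZMod p) → ℝ, g = fun v => if (cpol v).natDegree = n ∧ Irreducible (cpol v) then 1 else 0 := ⟨_, rfl⟩
  obtain ⟨f, hf⟩ : ∃ f : (Mo N n → ZMod p) → (Fin (n + 1) → ZMod p), f = fun m => fun j : Fin (n + 1) => (restr m P Q).coeff j := ⟨_, rfl⟩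
  have h1 : ∀ m, irr P Q m = g (f m) := by
    intro m
    rw [hg, hf]
    unfold irr
    beta_reduce
    rw [cpol_of _ (restr_natDegree m P Q)]
  have h2 := surj_avg f (by
    intro m m'
    rw [hf]
    funext k
    rw [Pi.add_apply]
    beta_reduce
    rw [restr_add, coeff_add]) (by
    intro w
    obtain ⟨m, hm⟩ := restr_surj h w
    refine ⟨m, ?_⟩
    rw [hf]
    funext k
    beta_reduce
    rw [hm, cpol_coeff]) g
  have h3 := irr_count (p := p) n hn hp
  have h4 : ∑ v, g v = ((univ.filter (fun v : Fin (n + 1) → ZMod p => (cpol v).natDegree = n ∧ Irreducible (cpol v))).card : ℝ) := by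
    rw [hg, card_filter]
    push_cast
    rfl
  rw [← h4] at h3
  have c1 : (Fintype.card (Fin (n + 1) → ZMod p) : ℝ) = (p : ℝ) ^ (n + 1) := by
    rw [Fintype.card_pi]
    simp [ZMod.card]
  have c2 : (Fintype.card (Mo N n → ZMod p) : ℝ) = (p : ℝ) ^ Fintype.card (Mo N n) := by
    rw [Fintype.card_pi]
    simp [ZMod.card]
  rw [c1, c2] at h2
  rw [sum_congr rfl fun m _ => h1 m]
  rw [le_div_iff₀ (by positivity)]
  have hpn : 0 < (p : ℝ) ^ (n + 1) := by positivity
  rw [← mul_le_mul_iff_right₀ hpn, h2]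
  calc (p : ℝ) ^ (n + 1) * (1 / (4 * (n : ℝ)) * (p : ℝ) ^ Fintype.card (Mo N n)) = (p : ℝ) ^ Fintype.card (Mo N n) * ((p : ℝ) ^ (n + 1) / (4 * n)) := by
        field_simp
    _ ≤ _ := mul_le_mul_of_nonneg_left h3 (by positivity)

/-- the minor of the two vectors -/
def minor {N : ℕ} (t : Fin 2 × Fin (N + 1) → ℤ) (i j : Fin (N + 1)) : ℤ := t (0, i) * t (1, j) - t (0, j) * t (1, i)

/-- linear independence modulo `p` -/
def Indep {N : ℕ} (t : Fin 2 × Fin (N + 1) → ℤ) (p : ℕ) : Prop := ∃ i j, ¬ (p : ℤ) ∣ minor t i j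

/-- the vector number `k` modulo `p` -/
def vec {N : ℕ} (p : ℕ) (t : Fin 2 × Fin (N + 1) → ℤ) (k : Fin 2) : Fin (N + 1) → ZMod p := fun i => (t (k, i) : ZMod p)

open scoped Classical in
/-- the centered indicator function -/
noncomputable def girr {N n : ℕ} (t : Fin 2 × Fin (N + 1) → ℤ) (p : ℕ) (m : Mo N n → ℕ) : ℝ :=
  if h : p.Prime ∧ Indep t p then
    (haveI : Fact p.Prime := ⟨h.1⟩; irr (vec p t 0) (vec p t 1) (fun e => (m e : ZMod p)) -
      (∑ v : Mo N n → ZMod p, irr (vec p t 0) (vec p t 1) v) / (p : ℝ) ^ Fintype.card (Mo N n)) else 0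

lemma girr_mod {N n : ℕ} (t : Fin 2 × Fin (N + 1) → ℤ) (p : ℕ) (m : Mo N n → ℕ) : girr t p m = girr t p (fun l => m l % p) := by
  classical
  unfold girr
  split_ifs with h
  · simp only [ZMod.natCast_mod]
  · rfl

lemma irr_nonneg {N n : ℕ} {K : Type} [Field K] (P Q : Fin (N + 1) → K) (m : Mo N n → K) : 0 ≤ irr P Q m := by
  unfold irr
  split_ifs <;> norm_num

lemma irr_le {N n : ℕ} {K : Type} [Field K] (P Q : Fin (N + 1) → K) (m : Mo N n → K) : irr P Q m ≤ 1 := by
  unfold irr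
  split_ifs <;> norm_num

lemma avg_irr_le {N n p : ℕ} [Fact p.Prime] (P Q : Fin (N + 1) → ZMod p) :
    (∑ v : Mo N n → ZMod p, irr P Q v) / (p : ℝ) ^ Fintype.card (Mo N n) ≤ 1 := by
  have hp0 : (0 : ℝ) < p := by exact_mod_cast (Fact.out : p.Prime).pos
  rw [div_le_one (by positivity)]
  calc ∑ v : Mo N n → ZMod p, irr P Q v ≤ ∑ v : Mo N n → ZMod p, (1 : ℝ) := sum_le_sum fun v _ => irr_le _ _ _
    _ = (p : ℝ) ^ Fintype.card (Mo N n) := by
      rw [sum_const, card_univ, nsmul_eq_mul, mul_one, Fintype.card_pi]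
      simp [ZMod.card]

lemma girr_bound {N n : ℕ} (t : Fin 2 × Fin (N + 1) → ℤ) (p : ℕ) (m : Mo N n → ℕ) : |girr t p m| ≤ 1 := by
  classical
  unfold girr
  split_ifs with h
  · have : Fact p.Prime := ⟨h.1⟩
    have h1 : 0 ≤ (∑ v : Mo N n → ZMod p, irr (vec p t 0) (vec p t 1) v) / (p : ℝ) ^ Fintype.card (Mo N n) :=
      div_nonneg (sum_nonneg fun v _ => irr_nonneg _ _ v) (by positivity)
    have h2 := avg_irr_le (N := N) (n := n) (vec p t 0) (vec p t 1)
    have h3 := irr_nonneg (vec p t 0) (vec p t 1) (fun e => (m e : ZMod p))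
    have h4 := irr_le (vec p t 0) (vec p t 1) (fun e => (m e : ZMod p))
    rw [abs_le]
    constructor <;> linarith
  · simp

lemma avg_girr {N n : ℕ} (t : Fin 2 × Fin (N + 1) → ℤ) {p : ℕ} (hp : p.Prime) : avg p (girr (N := N) (n := n) t p) = 0 := by
  classical
  have : Fact p.Prime := ⟨hp⟩
  have hp0 : (0 : ℝ) < p := by exact_mod_cast hp.pos
  by_cases h : p.Prime ∧ Indep t p
  · obtain ⟨α, hα⟩ : ∃ α, α = (∑ v : Mo N n → ZMod p, irr (vec p t 0) (vec p t 1) v) / (p : ℝ) ^ Fintype.card (Mo N n) := ⟨_, rfl⟩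
    have e : girr (N := N) (n := n) t p = fun m => (fun v : Mo N n → ZMod p => irr (vec p t 0) (vec p t 1) v - α) (fun l => (m l : ZMod p)) := by
      funext m
      unfold girr
      rw [dif_pos h, hα]
    rw [e, avg_zmod (fun v : Mo N n → ZMod p => irr (vec p t 0) (vec p t 1) v - α), sum_sub_distrib, sum_const, card_univ, nsmul_eq_mul, hα]
    have c2 : (Fintype.card (Mo N n → ZMod p) : ℝ) = (p : ℝ) ^ Fintype.card (Mo N n) := by
      rw [Fintype.card_pi]
      simp [ZMod.card]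
    rw [c2]
    field_simp
    ring
  · have e : girr (N := N) (n := n) t p = fun _ => 0 := by
      funext m
      unfold girr
      rw [dif_neg h]
    rw [e, avg_const hp.one_lt.le]

/-- there are many primes -/
lemma many (M : ℝ) (hM : 0 < M) : ∃ x₁ : ℕ, ∀ x : ℕ, x₁ ≤ x → M * (x : ℝ) ^ (3 / 4 : ℝ) ≤ ((primesTo x).card : ℝ) := by
  obtain ⟨c, hc, N0, H⟩ := Pool.Agent.H312R2.PG.class_primes 1 (by omega)
  have h1 : Tendsto (fun x : ℝ => x ^ (1 / 8 : ℝ)) atTop atTop := tendsto_rpow_atTop (by norm_num)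
  have hev := (h1.comp tendsto_natCast_atTop_atTop).eventually (eventually_ge_atTop (8 * M / c))
  obtain ⟨x₁, hx₁⟩ := eventually_atTop.1 hev
  refine ⟨x₁ + N0 + 3, fun x hx => ?_⟩
  have h2 : 8 * M / c ≤ (x : ℝ) ^ (1 / 8 : ℝ) := hx₁ x (by omega)
  have hx0 : (0 : ℝ) < x := by exact_mod_cast (by omega : 0 < x)
  have hx3 : (3 : ℝ) ≤ x := by exact_mod_cast (by omega : 3 ≤ x)
  have h3 := H x (by omega) 0 (by omega)
  have h4 : (Icc 1 x).filter (fun q => q.Prime ∧ 0 < q ∧ q ≡ 1 [MOD 1]) ⊆ primesTo x := by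
    intro q hq
    rw [mem_filter, mem_Icc] at hq
    rw [mem_primesTo]
    exact ⟨hq.2.1, hq.1.2⟩
  have h5 : (((Icc 1 x).filter (fun q => q.Prime ∧ 0 < q ∧ q ≡ 1 [MOD 1])).card : ℝ) ≤ (primesTo x).card := by
    exact_mod_cast card_le_card h4
  refine le_trans ?_ (h3.trans h5)
  have hlx : 0 < Real.log x := Real.log_pos (by linarith)
  have hlog : Real.log x ≤ 8 * (x : ℝ) ^ (1 / 8 : ℝ) := by
    have := Real.log_le_rpow_div hx0.le (show (0 : ℝ) < 1 / 8 by norm_num)
    linarith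
  obtain ⟨u, hu⟩ : ∃ u, u = (x : ℝ) ^ (1 / 8 : ℝ) := ⟨_, rfl⟩
  rw [← hu] at h2 hlog
  have e1 : (x : ℝ) = u ^ 8 := by
    rw [hu, ← Real.rpow_natCast, ← Real.rpow_mul hx0.le]
    norm_num
  have e2 : (x : ℝ) ^ (3 / 4 : ℝ) = u ^ 6 := by
    rw [hu, ← Real.rpow_natCast, ← Real.rpow_mul hx0.le]
    norm_num
  rw [e2, ← mul_div_assoc, le_div_iff₀ hlx]
  have hu0 : 0 < u := by
    rw [hu]; positivity
  have h6 : 8 * M ≤ c * u := by
    rw [div_le_iff₀ hc] at h2
    linarith
  calc M * u ^ 6 * Real.log x ≤ M * u ^ 6 * (8 * u) := mul_le_mul_of_nonneg_left hlog (by positivity)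
    _ = 8 * M * u ^ 7 := by ring
    _ ≤ (c * u) * u ^ 7 := mul_le_mul_of_nonneg_right h6 (by positivity)
    _ = c * u ^ 8 := by ring
    _ = c * x := by rw [e1]

/-- **Restrictions to lines of small height are irreducible.** -/
theorem lines (N n : ℕ) (hn : 1 ≤ n) {b : ℕ} (hb : 2 ≤ b) (A B : ℕ) :
    ForAlmostAll (Mo N n) b A (fun (_ : Unit) x m => ∀ P Q : Fin (N + 1) → ℤ, (∀ i, |P i| ≤ (x : ℤ) ^ B) → (∀ i, |Q i| ≤ (x : ℤ) ^ B) →
      (∃ i j, P i * Q j ≠ P j * Q i) → (restr (fun e => (m e : ℤ)) P Q).natDegree = n ∧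
        Irreducible ((restr (fun e => (m e : ℤ)) P Q).map (Int.castRingHom ℚ))) := by
  classical
  have hn0 : (0 : ℝ) < n := by exact_mod_cast hn
  have h1 := centered (L := Mo N n) hb (show (0 : ℝ) < 1 / 4 by norm_num) A 0 ((B + 2) * Fintype.card (Fin 2 × Fin (N + 1)))
    (fun x => box (Fin 2 × Fin (N + 1)) (x ^ B)) (fun x hx => card_box_le _ hx le_rfl) (fun t p m => girr t p m)
    (fun t p n _ => girr_mod t p n) (C := 1) le_rfl (fun t p n _ => girr_bound t p n) (fun t p hp => by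
      rw [show (fun m => girr (N := N) (n := n) t p m) = girr t p from rfl, avg_girr t hp, abs_zero]
      positivity)
  obtain ⟨x₁, hx₁⟩ := many (8 * n + 4) (by positivity)
  obtain ⟨x₂, hx₂⟩ := log_small (2 * B + 1)
  obtain ⟨c, hc, y₀, H⟩ := h1
  refine ⟨c, hc, y₀ + x₁ + x₂ + 3, fun _ K r N' f y hs hy => ?_⟩
  refine le_trans (Nat.cast_le.2 (exceptions_mono ?_)) (H allPrimes K r N' f y hs (by omega))
  intro m hm x hx hr P Q hP hQ hind
  obtain ⟨t, ht⟩ : ∃ t : Fin 2 × Fin (N + 1) → ℤ, t = fun k => if k.1 = 0 then P k.2 else Q k.2 := ⟨_, rfl⟩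
  have ht0 : ∀ i, t (0, i) = P i := by intro i; rw [ht]; simp
  have ht1 : ∀ i, t (1, i) = Q i := by intro i; rw [ht]; simp
  have htbox : t ∈ box (Fin 2 × Fin (N + 1)) (x ^ B) := by
    rw [mem_box]
    rintro ⟨k, i⟩
    rw [ht]
    push_cast
    split_ifs
    · exact hP i
    · exact hQ i
  have g1 := hm x hx hr (primesTo x) (mem_singleton_self _) t htbox
  have hx1 : (1 : ℝ) ≤ x := by exact_mod_cast (by omega : 1 ≤ x)
  have hx0 : (0 : ℝ) < x := by linarith
  have hmany := hx₁ x (by omega)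
  obtain ⟨W, hW⟩ : ∃ W : ℝ, W = (x : ℝ) ^ (3 / 4 : ℝ) := ⟨_, rfl⟩
  have hW1 : 1 ≤ W := by rw [hW]; exact Real.one_le_rpow hx1 (by norm_num)
  have hbound : Real.sqrt (max 1 (primesTo x).card) * (x : ℝ) ^ (1 / 4 : ℝ) ≤ W := by
    have h4 : Real.sqrt (max 1 ((primesTo x).card : ℝ)) ≤ (x : ℝ) ^ (1 / 2 : ℝ) := by
      rw [← Real.sqrt_eq_rpow]
      exact Real.sqrt_le_sqrt (max_le hx1 (card_primesTo x))
    have h5 : (x : ℝ) ^ (1 / 2 : ℝ) * (x : ℝ) ^ (1 / 4 : ℝ) = W := by
      rw [hW, ← Real.rpow_add hx0]; norm_num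
    rw [← h5]
    exact mul_le_mul_of_nonneg_right h4 (by positivity)
  have g1' := g1.trans hbound
  obtain ⟨i, j, hij⟩ := hind
  have hmin : minor t i j ≠ 0 := by
    unfold minor
    rw [ht0, ht1, ht0, ht1]
    exact sub_ne_zero.2 hij
  have hminb : |minor t i j| ≤ (x : ℤ) ^ (2 * B + 1) := by
    unfold minor
    rw [ht0, ht1, ht0, ht1]
    have a1 : |P i * Q j| ≤ (x : ℤ) ^ B * (x : ℤ) ^ B := by
      rw [abs_mul]
      exact mul_le_mul (hP i) (hQ j) (abs_nonneg _) (by positivity)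
    have a2 : |P j * Q i| ≤ (x : ℤ) ^ B * (x : ℤ) ^ B := by
      rw [abs_mul]
      exact mul_le_mul (hP j) (hQ i) (abs_nonneg _) (by positivity)
    have a3 : |P i * Q j - P j * Q i| ≤ |P i * Q j| + |P j * Q i| := abs_sub _ _
    have a4 : (2 : ℤ) ≤ x := by exact_mod_cast (by omega : 2 ≤ x)
    have a5 : (0 : ℤ) ≤ (x : ℤ) ^ B * (x : ℤ) ^ B := by positivity
    calc |P i * Q j - P j * Q i| ≤ 2 * ((x : ℤ) ^ B * (x : ℤ) ^ B) := by linarith
      _ ≤ x * ((x : ℤ) ^ B * (x : ℤ) ^ B) := mul_le_mul_of_nonneg_right a4 a5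
      _ = (x : ℤ) ^ (2 * B + 1) := by ring
  have hfew := few_primes hmin hminb
  have hlogs := hx₂ x (by omega)
  push_cast at hfew hlogs
  rw [← hW] at hlogs hmany
  by_contra hcon
  -- no prime for which the reduction is irreducible
  have hno : ∀ p : ℕ, p.Prime → ∀ _ : Fact p.Prime, irr (vec p t 0) (vec p t 1) (fun e => (m e : ZMod p)) = 0 := by
    intro p hp _
    unfold irr
    rw [if_neg]
    rintro ⟨h2, h3⟩
    apply hcon
    have e1 : restr (fun e => (m e : ZMod p)) (vec p t 0) (vec p t 1) = (restr (fun e => (m e : ℤ)) P Q).map (Int.castRingHom (ZMod p)) := by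
      rw [restr_map]
      unfold vec
      simp only [ht0, ht1, eq_intCast, Int.cast_natCast]
    rw [e1] at h2 h3
    exact irr_of_mod hn _ (restr_natDegree _ _ _) h2 h3
  have h4 : ∀ p ∈ primesTo x, girr t p m ≤ -(1 / (4 * (n : ℝ))) * (if ¬ (p : ℤ) ∣ minor t i j then 1 else 0) + (if p = 2 then 1 else 0) := by
    intro p hp
    have hpp := (mem_primesTo.1 hp).1
    have : Fact p.Prime := ⟨hpp⟩
    have hc0 : 0 < 1 / (4 * (n : ℝ)) := by positivity
    have hc1 : 1 / (4 * (n : ℝ)) ≤ 1 := by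
      rw [div_le_one (by positivity)]
      have : (1 : ℝ) ≤ n := by exact_mod_cast hn
      linarith
    unfold girr
    by_cases h : p.Prime ∧ Indep t p
    · rw [dif_pos h, hno p hpp this]
      have h5 : 0 ≤ (∑ v : Mo N n → ZMod p, irr (vec p t 0) (vec p t 1) v) / (p : ℝ) ^ Fintype.card (Mo N n) :=
        div_nonneg (sum_nonneg fun v _ => irr_nonneg _ _ v) (by positivity)
      by_cases h2 : p = 2
      · rw [if_pos h2]
        split_ifs <;> linarith
      · rw [if_neg h2]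
        by_cases h6 : ¬ (p : ℤ) ∣ minor t i j
        · rw [if_pos h6]
          have hp3 : 3 ≤ p := by have := hpp.two_le; omega
          have h7 : vec p t 0 i * vec p t 1 j - vec p t 0 j * vec p t 1 i ≠ 0 := by
            intro h8
            apply h6
            rw [← ZMod.intCast_zmod_eq_zero_iff_dvd]
            unfold minor vec at *
            push_cast
            exact h8
          have h8 := sum_irr (n := n) hn hp3 h7
          linarith
        · rw [if_neg h6]
          linarith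
    · rw [dif_neg h]
      have h6 : ¬ (¬ (p : ℤ) ∣ minor t i j) := fun h7 => h ⟨hpp, i, j, h7⟩
      rw [if_neg h6]
      split_ifs <;> norm_num
  have h5 := sum_le_sum h4
  rw [sum_add_distrib, ← mul_sum, ← sum_filter, sum_const, nsmul_eq_mul, mul_one] at h5
  have h6 : ∑ p ∈ primesTo x, (if p = 2 then (1 : ℝ) else 0) ≤ 1 := by
    rw [sum_ite_eq']
    split_ifs <;> norm_num
  have h7 := card_filter_add_card_filter_not (s := primesTo x) (fun p : ℕ => (p : ℤ) ∣ minor t i j)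
  have h8 : (((primesTo x).filter (fun p : ℕ => (p : ℤ) ∣ minor t i j)).card : ℝ) + ((primesTo x).filter (fun p : ℕ => ¬ (p : ℤ) ∣ minor t i j)).card =
      (primesTo x).card := by exact_mod_cast h7
  have h9 := (abs_le.1 g1').1
  obtain ⟨q, hq⟩ : ∃ q : ℝ, q = ((primesTo x).filter (fun p : ℕ => ¬ (p : ℤ) ∣ minor t i j)).card := ⟨_, rfl⟩
  rw [← hq] at h5 h8
  have h10 : (8 * n + 3) * W ≤ q := by nlinarith
  have h11 : -W ≤ -(1 / (4 * (n : ℝ))) * q + 1 := by linarith
  have h12 : 1 / (4 * (n : ℝ)) * q ≤ W + 1 := by linarith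
  rw [one_div, inv_mul_le_iff₀ (by positivity)] at h12
  nlinarith

end Pool.Agent.Q235.FD
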