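import Pool.Agent.Q235.FD.Series

/-! The L-functions of the odd cohomology groups of products of curves. -/

set_option autoImplicit false

namespace Pool.Agent.Q235.FD

open Finset

section

variable {s : ℕ} {D : Fin s → ℕ}

/-- The trace of Frobenius on `H ^ n` of the product of the curves number `i 1, ..., i r`, by the Künneth formula: `H ^ n` is the sum
over all `e : Fin r → {0, 1, 2}` of sum `n` of the tensor products of the `H ^ (e k)` of the curves. -/
noncomputable def cohTrace {r : ℕ} (n p : ℕ) (m : (Σ i, Fin (D i)) → ℕ) (i : Fin r → Fin s) : ℝ :=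
  ∑ e ∈ univ.filter (fun e : Fin r → Fin 3 => ∑ k, (e k : ℕ) = n), ∏ k, factor p (curveTrace p (fun l => m ⟨i k, l⟩)) (e k)

lemma sum_mult {r : ℕ} (i : Fin r → Fin s) (e : Fin r → Fin 3) : ∑ a, mult i e a = (univ.filter (fun k => e k = 1)).card := by
  classical
  unfold mult
  rw [card_eq_sum_card_fiberwise (f := i) (t := univ) (fun _ _ => mem_univ _)]
  refine sum_congr rfl fun a _ => ?_
  rw [filter_filter]

lemma prod_gmom_odd {r n : ℕ} (hn : Odd n) (i : Fin r → Fin s) (e : Fin r → Fin 3) (he : ∑ k, (e k : ℕ) = n) :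
    ∏ a, gmom (mult i e a) = 0 := by
  classical
  have h1 : ∃ a, Odd (mult i e a) := by
    by_contra h
    push Not at h
    have h2 : Even (∑ a, mult i e a) := by
      apply Finset.even_sum
      intro a _
      exact Nat.not_odd_iff_even.1 (h a)
    rw [sum_mult] at h2
    have h3 : ∑ k, (e k : ℕ) = (univ.filter (fun k => e k = 1)).card + 2 * (univ.filter (fun k => e k = 2)).card := by
      rw [card_filter, card_filter, mul_sum, ← sum_add_distrib]
      refine sum_congr rfl fun k _ => ?_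
      have : ∀ x : Fin 3, (x : ℕ) = (if x = 1 then 1 else 0) + 2 * (if x = 2 then 1 else 0) := by decide
      exact this (e k)
    have h4 : Even n := by
      rw [← he, h3]
      exact h2.add (even_two_mul _)
    exact (Nat.not_even_iff_odd.2 hn) h4
  obtain ⟨a, ha⟩ := h1
  apply prod_eq_zero (mem_univ a)
  unfold gmom
  rw [if_neg (Nat.not_even_iff_odd.2 ha)]

open scoped Classical in
lemma cohTrace_odd {r n p : ℕ} (hn : Odd n) (hp : p.Prime) (m : (Σ i, Fin (D i)) → ℕ) (i : Fin r → Fin s) (hg : AllGood p m) :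
    cohTrace n p m i = Real.sqrt p ^ n *
      ∑ e ∈ univ.filter (fun e : Fin r → Fin 3 => ∑ k, (e k : ℕ) = n), jpow (mult i e) p m := by
  unfold cohTrace
  rw [mul_sum]
  refine sum_congr rfl fun e he => ?_
  have he2 := (mem_filter.1 he).2
  rw [prod_congr rfl (fun k _ => factor_eq hp _ _), prod_mul_distrib, prod_pow_eq_pow_sum, he2,
    prod_mult i e (fun a => ntrace p (fun l => m ⟨a, l⟩))]
  unfold jpow
  rw [if_pos hg, prod_gmom_odd hn i e he2, sub_zero]

/-- the sum over the good primes in the interval from `y` to `x` of `w_p b_p log p p^(-s)`, for `H ^ n` of the product -/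
noncomputable def cohSeries {r : ℕ} (n y x : ℕ) (m : (Σ i, Fin (D i)) → ℕ) (i : Fin r → Fin s) (w : ℕ → ℝ) (z : ℂ) : ℂ :=
  open Classical in primeSum y x (fun p => if AllGood p m then (w p * cohTrace n p m i * Real.log p : ℝ) * (p : ℂ) ^ (-z) else 0)

/-- **The L-functions of all odd cohomology groups of products.** -/
theorem odd_series (hs : 1 ≤ s) (hD : ∀ i, Odd (D i)) (r : ℕ) {b : ℕ} (hb : 2 ≤ b) {δ : ℝ} (hδ : 0 < δ) (A B : ℕ) :
    ForAlmostAllFrom (Σ i, Fin (D i)) b A (fun (θ : Weights B) y x m => ∀ w ∈ θ.W y, ∀ i : Fin r → Fin s,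
      (∀ a, (univ.filter (fun k => i k = a)).card ≤ D a) → ∀ n : ℕ, Odd n → ∀ z : ℂ, (n + 1) / 2 + δ ≤ z.re →
      ‖cohSeries n y x m i w z‖ ≤ 3 ^ r * (1 + n + ‖z‖) * (y : ℝ) ^ (-(δ / 4))) := by
  classical
  obtain ⟨c, hc, y₀, H⟩ := joint_series (D := D) hs hD hb hδ A B
  refine ⟨c, hc, y₀, fun θ K d N f y hset hy => le_trans (Nat.cast_le.2 (exceptions_mono ?_)) (H θ K d N f y hset hy)⟩
  intro m hm x hx hr w hw i hi n hn z hz
  have h1 := (hm x hx hr w hw (z - n / 2) (by
    have e0 : ((n : ℂ) / 2).re = (n : ℝ) / 2 := by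
      rw [show ((n : ℂ) / 2) = (((n : ℝ) / 2 : ℝ) : ℂ) by push_cast; ring]
      exact Complex.ofReal_re _
    rw [Complex.sub_re, e0]
    linarith)).2
  obtain ⟨T, hT⟩ : ∃ T : Finset (Fin r → Fin 3), T = univ.filter (fun e : Fin r → Fin 3 => ∑ k, (e k : ℕ) = n) := ⟨_, rfl⟩
  have e : cohSeries n y x m i w z = ∑ e ∈ T, primeSum y x (fun p => ((w p * Real.log p * jpow (mult i e) p m : ℝ) : ℂ) *
      (p : ℂ) ^ (-(z - n / 2))) := by
    unfold cohSeries primeSum
    rw [sum_comm]
    refine sum_congr rfl fun p hp => ?_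
    beta_reduce
    have hpp := (mem_filter.1 hp).2
    by_cases hgood : AllGood p m
    · rw [if_pos hgood, cohTrace_odd hn hpp m i hgood, ← hT]
      have hpc : ((p : ℕ) : ℂ) ≠ 0 := by exact_mod_cast hpp.ne_zero
      have hp0 : (0 : ℝ) < p := by exact_mod_cast hpp.pos
      have e4 : ((p : ℕ) : ℂ) ^ (-(z - n / 2)) = (p : ℂ) ^ (-z) * ((Real.sqrt p : ℝ) : ℂ) ^ n := by
        rw [show -(z - n / 2) = -z + (1 / 2 : ℂ) * n by ring, Complex.cpow_add _ _ hpc, Complex.cpow_mul_nat]
        congr 2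
        rw [Real.sqrt_eq_rpow, Complex.ofReal_cpow hp0.le]
        push_cast
        rfl
      rw [e4, ← sum_mul]
      push_cast
      rw [← mul_sum]
      ring
    · rw [if_neg hgood]
      symm
      apply sum_eq_zero
      intro e _
      unfold jpow
      rw [if_neg hgood]
      simp
  rw [e]
  have hcard : (T.card : ℝ) ≤ 3 ^ r := by
    have : T.card ≤ 3 ^ r := by
      rw [hT]
      refine (card_filter_le _ _).trans ?_
      rw [card_univ, Fintype.card_fun, Fintype.card_fin, Fintype.card_fin]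
    exact_mod_cast this
  have hnorm : 1 + ‖z - n / 2‖ ≤ 1 + n + ‖z‖ := by
    have h2 := norm_sub_le z ((n : ℂ) / 2)
    rw [norm_div, Complex.norm_natCast] at h2
    have h3 : (n : ℝ) / ‖(2 : ℂ)‖ ≤ n := by
      rw [Complex.norm_ofNat]
      have : (0 : ℝ) ≤ n := Nat.cast_nonneg n
      linarith
    linarith
  have hk : ∀ e : Fin r → Fin 3, ∀ a, mult i e a ≤ D a := by
    intro e a
    refine le_trans (card_le_card ?_) (hi a)
    intro k hk
    rw [mem_filter] at hk ⊢
    exact ⟨hk.1, hk.2.2⟩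
  calc _ ≤ ∑ e ∈ T, (1 + n + ‖z‖) * (y : ℝ) ^ (-(δ / 4)) := by
        refine (norm_sum_le _ _).trans (sum_le_sum fun e _ => (h1 _ (hk e)).trans ?_)
        exact mul_le_mul_of_nonneg_right hnorm (by positivity)
    _ = T.card * ((1 + n + ‖z‖) * (y : ℝ) ^ (-(δ / 4))) := by rw [sum_const, nsmul_eq_mul]
    _ ≤ 3 ^ r * ((1 + n + ‖z‖) * (y : ℝ) ^ (-(δ / 4))) := mul_le_mul_of_nonneg_right hcard (by positivity)
    _ = _ := by ring

end

end Pool.Agent.Q235.FD
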