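import Pool.Agent.Q235.FD.Hyp3
import Pool.Agent.Q235.FD.Rough

/-! Character sums over sets of points at which the values are pairwise independent. -/

set_option autoImplicit false

namespace Pool.Agent.Q235.FD

open Finset

section

variable {L : Type} [Fintype L] [DecidableEq L] {p : ℕ} [Fact p.Prime]

lemma sum_qc (hp : p ≠ 2) : ∑ c : ZMod p, qc c = 0 := by
  have h3 : ∑ c : ZMod p, quadraticChar (ZMod p) c = 0 := quadraticChar_sum_zero (by rw [ZMod.ringChar_zmod_n]; exact hp)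
  unfold qc
  rw [← Int.cast_sum, h3, Int.cast_zero]

lemma qc_sq_le (z : ZMod p) : qc z * qc z ≤ 1 := by
  rcases qc_cases z with ⟨_, h⟩ | ⟨_, h | h⟩ <;> rw [h] <;> norm_num

lemma shift_zero (hp : p ≠ 2) (F : (L → ZMod p) → ℝ) (e : (L → ZMod p) → ZMod p) (w : L → ZMod p) {u : ZMod p} (hu : u ≠ 0)
    (hF : ∀ (v : L → ZMod p) (c : ZMod p), F (v + c • w) = F v) (he : ∀ (v : L → ZMod p) (c : ZMod p), e (v + c • w) = e v + c * u) :
    ∑ v, F v * qc (e v) = 0 := by
  have hp0 : (p : ℝ) ≠ 0 := by exact_mod_cast (Fact.out : p.Prime).ne_zero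
  have h1 : ∀ c : ZMod p, ∑ v, F v * qc (e v) = ∑ v, F v * qc (e v + c * u) := by
    intro c
    rw [← Equiv.sum_comp (Equiv.addRight (c • w))]
    refine sum_congr rfl fun v _ => ?_
    rw [Equiv.coe_addRight, hF, he]
  have h2 : (p : ℝ) * ∑ v, F v * qc (e v) = ∑ c : ZMod p, ∑ v, F v * qc (e v + c * u) := by
    rw [← sum_congr rfl (fun c _ => h1 c), sum_const, card_univ, ZMod.card, nsmul_eq_mul]
  have h3 : ∀ v : L → ZMod p, ∑ c : ZMod p, qc (e v + c * u) = 0 := by
    intro v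
    rw [← sum_qc hp]
    refine Function.Bijective.sum_comp (e := fun c => e v + c * u) ?_ qc
    rw [← Finite.injective_iff_bijective]
    intro c c' h
    beta_reduce at h
    exact mul_right_cancel₀ hu (add_left_cancel h)
  rw [sum_comm] at h2
  have h4 : ∑ v : L → ZMod p, ∑ c : ZMod p, F v * qc (e v + c * u) = 0 := by
    apply sum_eq_zero
    intro v _
    rw [← mul_sum, h3 v, mul_zero]
  rw [h4] at h2
  exact (mul_eq_zero.1 h2).resolve_left hp0

theorem pair_law {ι : Type} [Fintype ι] (hp : p ≠ 2) (e lam : ι → (L → ZMod p) → ZMod p)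
    (he : ∀ z v (c : ZMod p) w, e z (v + c • w) = e z v + c * lam z w) (h1 : ∀ z, ∃ w, lam z w ≠ 0)
    (h2 : ∀ z z', z ≠ z' → ∃ w, (lam z w = 0 ∧ lam z' w ≠ 0) ∨ (lam z' w = 0 ∧ lam z w ≠ 0)) :
    ∑ v : L → ZMod p, ∑ z, qc (e z v) = 0 ∧
    ∑ v : L → ZMod p, (∑ z, qc (e z v)) ^ 2 ≤ (Fintype.card ι : ℝ) * (p : ℝ) ^ Fintype.card L := by
  classical
  constructor
  · rw [sum_comm]
    apply sum_eq_zero
    intro z _
    obtain ⟨w, hw⟩ := h1 z
    have := shift_zero hp (fun _ : L → ZMod p => (1 : ℝ)) (e z) w hw (fun _ _ => rfl) (fun v c => he z v c w)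
    simpa using this
  · have e1 : ∀ v : L → ZMod p, (∑ z, qc (e z v)) ^ 2 = ∑ z, ∑ z', qc (e z v) * qc (e z' v) := fun v => by
      rw [sq, sum_mul_sum]
    rw [sum_congr rfl (fun v _ => e1 v), sum_comm]
    have e2 : ∀ z : ι, ∑ v : L → ZMod p, ∑ z', qc (e z v) * qc (e z' v) ≤ (p : ℝ) ^ Fintype.card L := by
      intro z
      rw [sum_comm, sum_eq_single_of_mem z (mem_univ z)]
      · calc ∑ v : L → ZMod p, qc (e z v) * qc (e z v) ≤ ∑ v : L → ZMod p, (1 : ℝ) := sum_le_sum fun v _ => qc_sq_le _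
          _ = (p : ℝ) ^ Fintype.card L := by
            simp [ZMod.card]
      · intro z' _ hne
        obtain ⟨w, hw | hw⟩ := h2 z z' (Ne.symm hne)
        · refine shift_zero hp (fun v => qc (e z v)) (e z') w hw.2 (fun v c => ?_) (fun v c => he z' v c w)
          beta_reduce
          rw [he, hw.1, mul_zero, add_zero]
        · have h3 := shift_zero hp (fun v => qc (e z' v)) (e z) w hw.2 (fun v c => by
            beta_reduce
            rw [he, hw.1, mul_zero, add_zero]) (fun v c => he z v c w)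
          rw [← h3]
          exact sum_congr rfl fun v _ => mul_comm _ _
    calc ∑ z : ι, ∑ v : L → ZMod p, ∑ z', qc (e z v) * qc (e z' v) ≤ ∑ z : ι, (p : ℝ) ^ Fintype.card L := sum_le_sum fun z _ => e2 z
      _ = _ := by rw [sum_const, card_univ, nsmul_eq_mul]

/-- counting square roots -/
theorem count_sq {α : Type} [Fintype α] (hp : p ≠ 2) (φ : α → ZMod p) :
    (Nat.card {P : α × ZMod p // P.2 ^ 2 = φ P.1} : ℝ) = Fintype.card α + ∑ a, qc (φ a) := by
  classical
  have hp' : ringChar (ZMod p) ≠ 2 := by rw [ZMod.ringChar_zmod_n]; exact hp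
  have h1 : Nat.card {P : α × ZMod p // P.2 ^ 2 = φ P.1} = ∑ a : α, (Finset.univ.filter (fun y : ZMod p => y ^ 2 = φ a)).card := by
    rw [Nat.card_eq_fintype_card, Fintype.card_subtype]
    rw [card_filter, ← univ_product_univ, sum_product]
    exact sum_congr rfl fun x _ => by rw [card_filter]
  have h2 : ∀ a : α, (((Finset.univ.filter (fun y : ZMod p => y ^ 2 = φ a)).card : ℕ) : ℝ) = 1 + qc (φ a) := by
    intro a
    have h3 := quadraticChar_card_sqrts hp' (φ a)
    have h4 : (Finset.univ.filter (fun y : ZMod p => y ^ 2 = φ a)).card = {y : ZMod p | y ^ 2 = φ a}.toFinset.card := by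
      congr 1
      ext y
      simp
    rw [h4]
    have h5 : ((({y : ZMod p | y ^ 2 = φ a}.toFinset.card : ℤ)) : ℝ) = ((quadraticChar (ZMod p) (φ a) + 1 : ℤ) : ℝ) := by
      rw [h3]
    push_cast at h5
    rw [h5]
    unfold qc
    ring
  rw [h1]
  push_cast
  rw [sum_congr rfl (fun x _ => h2 x), sum_add_distrib, sum_const, card_univ, nsmul_eq_mul, mul_one]

/-- the sum over a fibre, for the monic polynomials -/
lemma fibre_bound {D : ℕ} (hp : p ≠ 2) (hD : Odd D) {Λ : Type} [Fintype Λ] (a : Λ → ZMod p) (E : Λ → ℕ) (hE : ∀ l, E l < D) :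
    |∑ z : ZMod p, qc (z ^ D + ∑ l, a l * z ^ E l)| ≤ ((D : ℝ) - 1) * Real.sqrt p := by
  classical
  have h := chs_bound (D := D) hp hD (fun k : Fin D => ∑ l with (⟨E l, hE l⟩ : Fin D) = k, a l)
  refine le_trans (le_of_eq ?_) h
  unfold chs ev
  congr 1
  refine sum_congr rfl fun z _ => ?_
  congr 2
  have h1 := Finset.sum_fiberwise (univ : Finset Λ) (fun l => (⟨E l, hE l⟩ : Fin D)) (fun l => a l * z ^ E l)
  rw [← h1]
  refine sum_congr rfl fun k _ => ?_
  rw [sum_mul]
  refine sum_congr rfl fun l hl => ?_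
  rw [mem_filter] at hl
  rw [← hl.2]

end

end Pool.Agent.Q235.FD
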