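import Pool.Agent.Q235.FD.WJoint

/-! Pairs of curves: the Dirichlet series of the products of two traces. -/

set_option autoImplicit false

namespace Pool.Agent.Q235.FD

open Finset

theorem ForAlmostAll.from' {L : Type} [Fintype L] {b A : ℕ} {Θ : Type} {F : Θ → ℕ → (L → ℕ) → Prop}
    {E : Θ → ℕ → ℕ → (L → ℕ) → Prop} (h1 : ForAlmostAll L b A F) (y₁ : ℕ)
    (h : ∀ θ y, y₁ ≤ y → ∃ θ', ∀ x m, y ≤ x → (∀ t, y ≤ t → t ≤ x → F θ' t m) → E θ y x m) : ForAlmostAllFrom L b A E := by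
  obtain ⟨c, hc, y₀, H⟩ := h1
  refine ⟨c, hc, y₀ + y₁, fun θ K r N f y hs hy => ?_⟩
  obtain ⟨θ', h'⟩ := h θ y (by omega)
  refine le_trans (Nat.cast_le.2 (exceptions_mono ?_)) (H θ' K r N f y hs (by omega))
  intro m hm x hx hr
  exact h' x m hx fun t ht htx => hm t ht fun l => le_trans (by exact_mod_cast htx) (hr l)

/-- the constant family of weights -/
noncomputable def constWeights {B : ℕ} (θ : Weights B) (y : ℕ) : Weights B where
  W := fun t => if y ≤ t then θ.W y else ∅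
  card := by
    intro t
    split_ifs with h
    · exact (θ.card y).trans (Nat.pow_le_pow_left h B)
    · simp
  bound := by
    intro t w hw p
    split_ifs at hw with h
    · exact θ.bound y w hw p
    · exact absurd hw (notMem_empty _)

lemma primesTo_succ (n : ℕ) : primesTo (n + 1) = if (n + 1).Prime then insert (n + 1) (primesTo n) else primesTo n := by
  ext p
  split_ifs with h
  · rw [mem_insert, mem_primesTo, mem_primesTo]
    constructor
    · rintro ⟨h1, h2⟩
      by_cases h3 : p = n + 1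
      · exact Or.inl h3
      · exact Or.inr ⟨h1, by omega⟩
    · rintro (rfl | ⟨h1, h2⟩)
      · exact ⟨h, le_rfl⟩
      · exact ⟨h1, by omega⟩
  · rw [mem_primesTo, mem_primesTo]
    constructor
    · rintro ⟨h1, h2⟩
      refine ⟨h1, ?_⟩
      by_contra h3
      have : p = n + 1 := by omega
      exact h (this ▸ h1)
    · rintro ⟨h1, h2⟩
      exact ⟨h1, by omega⟩

/-- the sum over the primes in the interval from `y` to `x` (without `y`) -/
noncomputable def primeSum (y x : ℕ) (g : ℕ → ℂ) : ℂ := ∑ p ∈ (Ioc y x).filter Nat.Prime, g p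

/-- from sums with logarithms over primes to the half plane -/
theorem half_plane {δ : ℝ} (hδ : 0 < δ) : ∃ y₁ : ℕ, ∀ (y x : ℕ), y₁ ≤ y → y ≤ x → ∀ v : ℕ → ℝ,
    (∀ t, y ≤ t → t ≤ x → |∑ p ∈ primesTo t, v p| ≤ (t : ℝ) ^ (1 / 2 + δ / 2)) → ∀ z : ℂ, 1 / 2 + δ ≤ z.re →
    ‖primeSum y x (fun p => (v p : ℂ) * (p : ℂ) ^ (-z))‖ ≤ (1 + ‖z‖) * (y : ℝ) ^ (-(δ / 4)) := by
  obtain ⟨x₁, hx₁⟩ := eventually_le (δ := δ / 4) (by positivity) (2 + 2 / δ) (by positivity)
  refine ⟨x₁ + 1, fun y x hy hx v hv z hz => ?_⟩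
  have hy0 : (0 : ℝ) < y := by exact_mod_cast (by omega : 0 < y)
  have hy1 : (1 : ℝ) ≤ y := by exact_mod_cast (by omega : 1 ≤ y)
  have h1 := dirichlet (α := 1 / 2 + δ / 2) (β := δ / 2) (by positivity) (by positivity) (y := y) (x := x) (by omega) hx
    (fun n => if n.Prime then (v n : ℂ) else 0) (fun n => ((∑ p ∈ primesTo n, v p : ℝ) : ℂ)) (by
      intro n
      beta_reduce
      rw [primesTo_succ]
      split_ifs with h
      · rw [sum_insert (by rw [mem_primesTo]; omega)]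
        push_cast
        ring
      · rw [add_zero]) (by
      intro n hn hnx
      beta_reduce
      rw [Complex.norm_real, Real.norm_eq_abs]
      exact hv n hn hnx) z (by linarith)
  have e : primeSum y x (fun p => (v p : ℂ) * (p : ℂ) ^ (-z)) = ∑ n ∈ Ioc y x, (if n.Prime then (v n : ℂ) else 0) * ((n : ℕ) : ℂ) ^ (-z) := by
    unfold primeSum
    rw [sum_filter]
    refine sum_congr rfl fun n _ => ?_
    split_ifs <;> simp
  rw [e]
  refine h1.trans ?_
  have h2 := hx₁ y (by omega)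
  have h3 : 0 ≤ Real.log y := Real.log_nonneg hy1
  have h4 : 0 < (y : ℝ) ^ (δ / 4 / 2) := by positivity
  have h5 : 2 + 2 / δ ≤ (y : ℝ) ^ (δ / 4) := by
    have h6 : 0 ≤ (2 + 2 / δ) * (y : ℝ) ^ (δ / 4 / 2) := by positivity
    have h7 : 0 ≤ (2 + 2 / δ) * Real.log y := by positivity
    nlinarith
  have h8 : (y : ℝ) ^ (-(δ / 4)) = (y : ℝ) ^ (δ / 4) * (y : ℝ) ^ (-(δ / 2)) := by
    rw [← Real.rpow_add hy0]
    congr 1
    ring
  rw [h8, ← mul_assoc]
  apply mul_le_mul_of_nonneg_right _ (by positivity)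
  have e2 : 1 + 1 / (δ / 2) = 1 + 2 / δ := by field_simp
  rw [e2]
  have h9 := norm_nonneg z
  calc 2 + ‖z‖ * (1 + 2 / δ) ≤ (1 + ‖z‖) * (2 + 2 / δ) := by
        have : 0 < 2 / δ := by positivity
        nlinarith
    _ ≤ _ := mul_le_mul_of_nonneg_left h5 (by positivity)

/-! ### pairs of curves -/

section

variable {s : ℕ} {D : Fin s → ℕ}

lemma gmom_zero : gmom 0 = 1 := by
  unfold gmom
  simp

lemma gmom_one : gmom 1 = 0 := by
  unfold gmom
  simp

lemma gmom_two : gmom 2 = 1 := by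
  unfold gmom
  simp

open scoped Classical in
/-- the product of two traces, minus its mean value -/
lemma jpow_pair (i j : Fin s) (p : ℕ) (m : (Σ i, Fin (D i)) → ℕ) :
    jpow (Pi.single i 1 + Pi.single j 1) p m =
      if AllGood p m then ntrace p (fun l => m ⟨i, l⟩) * ntrace p (fun l => m ⟨j, l⟩) - (if i = j then 1 else 0) else 0 := by
  unfold jpow
  have e1 : ∀ (u : Fin s → ℝ) (i : Fin s), ∏ l, u l ^ ((Pi.single i 1 : Fin s → ℕ) l) = u i := by
    intro u i
    rw [prod_eq_single_of_mem i (mem_univ i)]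
    · rw [Pi.single_eq_same, pow_one]
    · intro l _ hl
      rw [Pi.single_eq_of_ne hl, pow_zero]
  have e2 : ∏ l, ntrace p (fun a => m ⟨l, a⟩) ^ ((Pi.single i 1 + Pi.single j 1 : Fin s → ℕ) l) =
      ntrace p (fun l => m ⟨i, l⟩) * ntrace p (fun l => m ⟨j, l⟩) := by
    simp only [Pi.add_apply, pow_add]
    rw [prod_mul_distrib, e1 (fun l => ntrace p (fun a => m ⟨l, a⟩)) i, e1 (fun l => ntrace p (fun a => m ⟨l, a⟩)) j]
  have e3 : ∏ l, gmom ((Pi.single i 1 + Pi.single j 1 : Fin s → ℕ) l) = if i = j then 1 else 0 := by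
    by_cases h : i = j
    · rw [if_pos h, h, prod_eq_single_of_mem j (mem_univ j)]
      · rw [Pi.add_apply, Pi.single_eq_same]
        exact gmom_two
      · intro l _ hl
        rw [Pi.add_apply, Pi.single_eq_of_ne hl]
        exact gmom_zero
    · rw [if_neg h]
      apply prod_eq_zero (mem_univ i)
      rw [Pi.add_apply, Pi.single_eq_same, Pi.single_eq_of_ne h]
      exact gmom_one
  rw [e2, e3]

open scoped Classical in
/-- **The Dirichlet series of the products of two traces.** -/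
theorem pair_series (hs : 1 ≤ s) (hD : ∀ i, Odd (D i)) (hD' : ∀ i, 2 ≤ D i) {b : ℕ} (hb : 2 ≤ b) {δ : ℝ} (hδ : 0 < δ) (A B : ℕ) :
    ForAlmostAllFrom (Σ i, Fin (D i)) b A (fun (θ : Weights B) y x m => ∀ w ∈ θ.W y, ∀ z : ℂ, 1 / 2 + δ ≤ z.re →
      ‖primeSum y x (fun p => ((w p * Real.log p * jbad p m : ℝ) : ℂ) * (p : ℂ) ^ (-z))‖ ≤ (1 + ‖z‖) * (y : ℝ) ^ (-(δ / 4)) ∧
      ∀ i j : Fin s, ‖primeSum y x (fun p => ((w p * Real.log p * (if AllGood p m then
          ntrace p (fun l => m ⟨i, l⟩) * ntrace p (fun l => m ⟨j, l⟩) - (if i = j then 1 else 0) else 0) : ℝ) : ℂ) *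
          (p : ℂ) ^ (-z))‖ ≤ (1 + ‖z‖) * (y : ℝ) ^ (-(δ / 4))) := by
  obtain ⟨y₁, hy₁⟩ := half_plane hδ
  refine (wjoint_law (D := D) hs hD hb (show 0 < δ / 2 by positivity) A B).from' y₁ ?_
  intro θ y hy
  refine ⟨constWeights θ y, fun x m hx h w hw z hz => ?_⟩
  have hw' : ∀ t, y ≤ t → w ∈ (constWeights θ y).W t := by
    intro t ht
    show w ∈ if y ≤ t then θ.W y else ∅
    rw [if_pos ht]
    exact hw
  refine ⟨?_, fun i j => ?_⟩
  · exact hy₁ y x hy hx (fun p => w p * Real.log p * jbad p m) (fun t ht htx => (h t ht htx w (hw' t ht)).1) z hz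
  · have hk : ∀ l, (Pi.single i 1 + Pi.single j 1 : Fin s → ℕ) l ≤ D l := by
      intro l
      rw [Pi.add_apply]
      have h1 : (Pi.single i 1 : Fin s → ℕ) l ≤ 1 := by
        by_cases h : l = i
        · rw [h, Pi.single_eq_same]
        · rw [Pi.single_eq_of_ne h]; omega
      have h2 : (Pi.single j 1 : Fin s → ℕ) l ≤ 1 := by
        by_cases h : l = j
        · rw [h, Pi.single_eq_same]
        · rw [Pi.single_eq_of_ne h]; omega
      have := hD' l
      omega
    have e : ∀ p, (if AllGood p m then ntrace p (fun l => m ⟨i, l⟩) * ntrace p (fun l => m ⟨j, l⟩) - (if i = j then 1 else 0) else 0) =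
        jpow (Pi.single i 1 + Pi.single j 1) p m := fun p => (jpow_pair i j p m).symm
    simp only [e]
    generalize (Pi.single i 1 + Pi.single j 1 : Fin s → ℕ) = k at hk ⊢
    exact hy₁ y x hy hx (fun p => w p * Real.log p * jpow k p m) (fun t ht htx => (h t ht htx w (hw' t ht)).2 k hk) z hz

end

end Pool.Agent.Q235.FD
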