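import Pool.Agent.Q235.FD.Pair

/-! Double planes branched along a plane curve with a rational point. -/

set_option autoImplicit false

namespace Pool.Agent.Q235.FD

open Finset

/-- the exponents `(i, j)` with `2 ≤ i + j ≤ 2 d` -/
abbrev Mon (d : ℕ) : Type := {ij : Fin (2 * d + 1) × Fin (2 * d + 1) // 2 ≤ (ij.1 : ℕ) + ij.2 ∧ (ij.1 : ℕ) + ij.2 ≤ 2 * d}

/-- The value of the form `x z^(2d-1) + ∑ m(i,j) x^i y^j z^(2d-i-j)` of degree `2 d`, where the sum is over the pairs `(i, j)` with
`2 ≤ i + j ≤ 2 d`; the curve `F = 0` passes through `(0 : 0 : 1)` with the tangent `x = 0`. -/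
def form (d : ℕ) {R : Type} [CommRing R] (m : Mon d → R) (x y z : R) : R :=
  x * z ^ (2 * d - 1) + ∑ l : Mon d, m l * x ^ (l.1.1 : ℕ) * y ^ (l.1.2 : ℕ) * z ^ (2 * d - l.1.1 - l.1.2)

/-- The number of points of the double plane `w^2 = F(x, y, z)` over the field with `p` elements: the points over the points `(1 : t : z)`,
over the points `(0 : 1 : z)` and over the point `(0 : 0 : 1)` of the plane. -/
noncomputable def planePoints (d p : ℕ) (m : Mon d → ℕ) : ℕ :=
  Nat.card {P : (ZMod p × ZMod p) × ZMod p // P.2 ^ 2 = form d (fun l => (m l : ZMod p)) 1 P.1.1 P.1.2} +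
  Nat.card {P : ZMod p × ZMod p // P.2 ^ 2 = form d (fun l => (m l : ZMod p)) 0 1 P.1} +
  Nat.card {w : ZMod p // w ^ 2 = form d (fun l => (m l : ZMod p)) 0 0 1}

section

variable {d p : ℕ}

lemma form_tangent {R : Type} [CommRing R] (m : Mon d → R) : form d m 0 0 1 = 0 := by
  unfold form
  rw [zero_mul, zero_add]
  apply sum_eq_zero
  intro l _
  have h := l.2.1
  by_cases h1 : (l.1.1 : ℕ) = 0
  · have h2 : (l.1.2 : ℕ) ≠ 0 := by omega
    rw [zero_pow h2]; ring
  · rw [zero_pow h1]; ring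

lemma form_mod (n : Mon d → ℕ) (x y z : ZMod p) :
    form d (fun l => ((n l % p : ℕ) : ZMod p)) x y z = form d (fun l => (n l : ZMod p)) x y z := by
  unfold form
  simp only [ZMod.natCast_mod]

lemma planePoints_mod (n : Mon d → ℕ) : planePoints d p (fun l => n l % p) = planePoints d p n := by
  unfold planePoints
  simp only [form_mod]

/-- the linear part -/
def lin (d : ℕ) {R : Type} [CommRing R] (m : Mon d → R) (x y z : R) : R :=
  ∑ l : Mon d, m l * (x ^ (l.1.1 : ℕ) * y ^ (l.1.2 : ℕ) * z ^ (2 * d - l.1.1 - l.1.2))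

lemma form_add {R : Type} [CommRing R] (m w : Mon d → R) (c x y z : R) :
    form d (m + c • w) x y z = form d m x y z + c * lin d w x y z := by
  unfold form lin
  rw [mul_sum, add_assoc, ← sum_add_distrib]
  congr 1
  refine sum_congr rfl fun l _ => ?_
  rw [Pi.add_apply, Pi.smul_apply, smul_eq_mul]
  ring

lemma lin_single {R : Type} [CommRing R] [DecidableEq (Mon d)] (l : Mon d) (c x y z : R) :
    lin d (Pi.single l c) x y z = c * (x ^ (l.1.1 : ℕ) * y ^ (l.1.2 : ℕ) * z ^ (2 * d - l.1.1 - l.1.2)) := by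
  unfold lin
  rw [sum_eq_single_of_mem l (mem_univ l)]
  · rw [Pi.single_eq_same]
  · intro l' _ h
    rw [Pi.single_eq_of_ne h, zero_mul]

lemma lin_sub {R : Type} [CommRing R] (m w : Mon d → R) (x y z : R) :
    lin d (m - w) x y z = lin d m x y z - lin d w x y z := by
  unfold lin
  rw [← sum_sub_distrib]
  refine sum_congr rfl fun l _ => ?_
  rw [Pi.sub_apply]
  ring

/-- the index of a monomial -/
def monOf (d i j : ℕ) (h1 : 2 ≤ i + j) (h2 : i + j ≤ 2 * d) : Mon d :=
  ⟨(⟨i, by omega⟩, ⟨j, by omega⟩), h1, h2⟩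

/-- the coordinates of the points -/
def co {R : Type} [CommRing R] : (R × R) ⊕ R → R × R × R
  | Sum.inl a => (1, a.1, a.2)
  | Sum.inr z => (0, 1, z)

lemma dir1 (hd : 1 ≤ d) [Fact p.Prime] (P : (ZMod p × ZMod p) ⊕ ZMod p) :
    ∃ w : Mon d → ZMod p, lin d w (co P).1 (co P).2.1 (co P).2.2 ≠ 0 := by
  classical
  rcases P with a | z
  · refine ⟨Pi.single (monOf d (2 * d) 0 (by omega) (by omega)) 1, ?_⟩
    rw [lin_single]
    simp [co, monOf]
  · refine ⟨Pi.single (monOf d 0 (2 * d) (by omega) (by omega)) 1, ?_⟩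
    rw [lin_single]
    simp [co, monOf]

lemma dir2 (hd : 2 ≤ d) [Fact p.Prime] (P P' : (ZMod p × ZMod p) ⊕ ZMod p) (h : P ≠ P') :
    ∃ w : Mon d → ZMod p, (lin d w (co P).1 (co P).2.1 (co P).2.2 = 0 ∧ lin d w (co P').1 (co P').2.1 (co P').2.2 ≠ 0) ∨
      (lin d w (co P').1 (co P').2.1 (co P').2.2 = 0 ∧ lin d w (co P).1 (co P).2.1 (co P).2.2 ≠ 0) := by
  classical
  have e1 : 2 * d - (2 * d - 1) - 0 = 1 := by omega
  have e2 : 2 * d - 2 * d - 0 = 0 := by omega
  have e3 : 2 * d - (2 * d - 1) - 1 = 0 := by omega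
  have e4 : 2 * d - 0 - 2 * d = 0 := by omega
  have e5 : 2 * d - 0 - (2 * d - 1) = 1 := by omega
  have e6 : (0 : ZMod p) ^ (2 * d) = 0 := zero_pow (by omega)
  rcases P with a | z <;> rcases P' with a' | z'
  · by_cases h1 : a.1 = a'.1
    · have h2 : a.2 ≠ a'.2 := fun h' => h (by rw [Prod.ext h1 h'])
      refine ⟨Pi.single (monOf d (2 * d - 1) 0 (by omega) (by omega)) 1 - Pi.single (monOf d (2 * d) 0 (by omega) (by omega)) a.2, Or.inl ⟨?_, ?_⟩⟩
      · rw [lin_sub, lin_single, lin_single]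
        simp [co, monOf, e1]
      · rw [lin_sub, lin_single, lin_single]
        simp only [co, monOf, e1, e2, one_pow, pow_zero, pow_one, one_mul, mul_one]
        exact sub_ne_zero.2 (Ne.symm h2)
    · refine ⟨Pi.single (monOf d (2 * d - 1) 1 (by omega) (by omega)) 1 - Pi.single (monOf d (2 * d) 0 (by omega) (by omega)) a.1, Or.inl ⟨?_, ?_⟩⟩
      · rw [lin_sub, lin_single, lin_single]
        simp [co, monOf, e3]
      · rw [lin_sub, lin_single, lin_single]
        simp only [co, monOf, e3, e2, one_pow, pow_zero, pow_one, one_mul, mul_one]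
        exact sub_ne_zero.2 (Ne.symm h1)
  · refine ⟨Pi.single (monOf d (2 * d) 0 (by omega) (by omega)) 1, Or.inr ⟨?_, ?_⟩⟩
    · rw [lin_single]
      simp only [co, monOf, e6, zero_mul, mul_zero]
    · rw [lin_single]
      simp [co, monOf]
  · refine ⟨Pi.single (monOf d (2 * d) 0 (by omega) (by omega)) 1, Or.inl ⟨?_, ?_⟩⟩
    · rw [lin_single]
      simp only [co, monOf, e6, zero_mul, mul_zero]
    · rw [lin_single]
      simp [co, monOf]
  · have h2 : z ≠ z' := fun h' => h (by rw [h'])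
    refine ⟨Pi.single (monOf d 0 (2 * d - 1) (by omega) (by omega)) 1 - Pi.single (monOf d 0 (2 * d) (by omega) (by omega)) z, Or.inl ⟨?_, ?_⟩⟩
    · rw [lin_sub, lin_single, lin_single]
      simp only [co, monOf, e5, e4, one_pow, pow_zero, pow_one, one_mul, mul_one, sub_self]
    · rw [lin_sub, lin_single, lin_single]
      simp only [co, monOf, e5, e4, one_pow, pow_zero, pow_one, one_mul, mul_one]
      exact sub_ne_zero.2 (Ne.symm h2)

/-- the character sum over the plane -/
noncomputable def planeSum (d p : ℕ) [Fact p.Prime] (v : Mon d → ZMod p) : ℝ :=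
  ∑ P : (ZMod p × ZMod p) ⊕ ZMod p, qc (form d v (co P).1 (co P).2.1 (co P).2.2)

lemma planeSum_moments (hd : 2 ≤ d) [Fact p.Prime] (hp : p ≠ 2) :
    ∑ v : Mon d → ZMod p, planeSum d p v = 0 ∧
    ∑ v : Mon d → ZMod p, planeSum d p v ^ 2 ≤ ((p : ℝ) ^ 2 + p) * (p : ℝ) ^ Fintype.card (Mon d) := by
  classical
  have h := pair_law (L := Mon d) (p := p) (ι := (ZMod p × ZMod p) ⊕ ZMod p) hp
    (fun P v => form d v (co P).1 (co P).2.1 (co P).2.2) (fun P w => lin d w (co P).1 (co P).2.1 (co P).2.2)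
    (fun P v c w => form_add v w c _ _ _) (fun P => dir1 (by omega) P) (fun P P' h => dir2 hd P P' h)
  have e : (Fintype.card ((ZMod p × ZMod p) ⊕ ZMod p) : ℝ) = (p : ℝ) ^ 2 + p := by
    rw [Fintype.card_sum, Fintype.card_prod, ZMod.card]
    push_cast
    ring
  rw [e] at h
  exact h

lemma abs_qc_le [Fact p.Prime] (z : ZMod p) : |qc z| ≤ 1 := by
  rcases qc_cases z with ⟨_, h⟩ | ⟨_, h | h⟩ <;> rw [h] <;> norm_num

lemma planeSum_bound (hd : 2 ≤ d) [Fact p.Prime] (hp : p ≠ 2) (v : Mon d → ZMod p) :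
    |planeSum d p v| ≤ 2 * d * (Real.sqrt p * p) := by
  classical
  have hp1 : (1 : ℝ) ≤ p := by exact_mod_cast (Fact.out : p.Prime).one_lt.le
  have hs1 : 1 ≤ Real.sqrt p := Real.one_le_sqrt.2 hp1
  have hd1 : (2 : ℝ) ≤ d := by exact_mod_cast hd
  unfold planeSum
  rw [Fintype.sum_sum_type, Fintype.sum_prod_type]
  have h1 : ∀ t : ZMod p, |∑ z : ZMod p, qc (form d v (co (Sum.inl (t, z))).1 (co (Sum.inl (t, z))).2.1 (co (Sum.inl (t, z))).2.2)| ≤
      (2 * d - 2) * Real.sqrt p := by
    intro t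
    have hodd : Odd (2 * d - 1) := ⟨d - 1, by omega⟩
    have h2 := fibre_bound (p := p) hp hodd (fun l : Mon d => v l * t ^ (l.1.2 : ℕ)) (fun l => 2 * d - l.1.1 - l.1.2) (fun l => by
      have := l.2.1
      omega)
    have e1 : ((2 * d - 1 : ℕ) : ℝ) - 1 = 2 * d - 2 := by
      rw [Nat.cast_sub (by omega)]; push_cast; ring
    rw [e1] at h2
    refine le_trans (le_of_eq ?_) h2
    congr 1
    refine sum_congr rfl fun z _ => ?_
    congr 1
    simp only [co, form, one_pow, one_mul, mul_one]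
  have h2 : |∑ t : ZMod p, ∑ z : ZMod p, qc (form d v (co (Sum.inl (t, z))).1 (co (Sum.inl (t, z))).2.1 (co (Sum.inl (t, z))).2.2)| ≤
      p * ((2 * d - 2) * Real.sqrt p) := by
    refine (abs_sum_le_sum_abs _ _).trans ((sum_le_sum fun t _ => h1 t).trans (le_of_eq ?_))
    rw [sum_const, card_univ, ZMod.card, nsmul_eq_mul]
  have h3 : |∑ z : ZMod p, qc (form d v (co (Sum.inr z : (ZMod p × ZMod p) ⊕ ZMod p)).1 (co (Sum.inr z : (ZMod p × ZMod p) ⊕ ZMod p)).2.1
      (co (Sum.inr z : (ZMod p × ZMod p) ⊕ ZMod p)).2.2)| ≤ p := by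
    refine (abs_sum_le_sum_abs _ _).trans ((sum_le_sum fun t _ => abs_qc_le _).trans (le_of_eq ?_))
    rw [sum_const, card_univ, ZMod.card, nsmul_eq_mul, mul_one]
  refine (abs_add_le _ _).trans ((add_le_add h2 h3).trans ?_)
  nlinarith

lemma card_sqrt_zero [Fact p.Prime] : Nat.card {w : ZMod p // w ^ 2 = 0} = 1 := by
  have : Unique {w : ZMod p // w ^ 2 = 0} :=
    { default := ⟨0, by simp⟩
      uniq := fun a => Subtype.ext (pow_eq_zero_iff (two_ne_zero) |>.1 a.2) }
  exact Nat.card_unique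

lemma planePoints_eq [Fact p.Prime] (hp : p ≠ 2) (n : Mon d → ℕ) :
    (planePoints d p n : ℝ) = (p : ℝ) ^ 2 + p + 1 + planeSum d p (fun l => (n l : ZMod p)) := by
  classical
  unfold planePoints
  have h1 := count_sq (p := p) hp (fun a : ZMod p × ZMod p => form d (fun l => (n l : ZMod p)) 1 a.1 a.2)
  have h2 := count_sq (p := p) hp (fun a : ZMod p => form d (fun l => (n l : ZMod p)) 0 1 a)
  have h3 : Nat.card {w : ZMod p // w ^ 2 = form d (fun l => (n l : ZMod p)) 0 0 1} = 1 := by
    rw [form_tangent]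
    exact card_sqrt_zero
  push_cast
  rw [h1, h2, h3]
  unfold planeSum
  rw [Fintype.sum_sum_type, Fintype.card_prod, ZMod.card]
  simp only [co]
  push_cast
  ring

lemma sq_two (a : ZMod 2) : a ^ 2 = a := by
  revert a; decide

lemma planePoints_two (n : Mon d → ℕ) : planePoints d 2 n = 7 := by
  have : Fact (Nat.Prime 2) := ⟨Nat.prime_two⟩
  unfold planePoints
  rw [form_tangent, card_sqrt_zero]
  have e1 : ∀ {α : Type} (φ : α → ZMod 2), Nat.card {P : α × ZMod 2 // P.2 ^ 2 = φ P.1} = Nat.card α := by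
    intro α φ
    refine Nat.card_congr ⟨fun P => P.1.1, fun a => ⟨(a, φ a), sq_two _⟩, fun P => ?_, fun a => rfl⟩
    apply Subtype.ext
    apply Prod.ext
    · rfl
    · show φ P.1.1 = P.1.2
      rw [← P.2, sq_two]
  have h1 := e1 (fun a : ZMod 2 × ZMod 2 => form d (fun l => (n l : ZMod 2)) 1 a.1 a.2)
  have h2 := e1 (fun a : ZMod 2 => form d (fun l => (n l : ZMod 2)) 0 1 a)
  rw [h1, h2, Nat.card_prod, Nat.card_zmod]

end

/-- The trace `b_p` of the Frobenius on the second cohomology of the double plane `w^2 = F(x, y, z)`, at a prime `p` of good reduction: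
the number of the points over the field with `p` elements minus `1 + p^2` (the first and the third cohomology of a double plane vanish). -/
noncomputable def planeTrace (d p : ℕ) (m : Mon d → ℕ) : ℝ := planePoints d p m - 1 - (p : ℝ) ^ 2

/-- the normalized deviation -/
noncomputable def planeDev (d p : ℕ) (m : Mon d → ℕ) : ℝ := planeTrace d p m / p - 1

lemma planeDev_two {d : ℕ} (n : Mon d → ℕ) : planeDev d 2 n = 0 := by
  unfold planeDev planeTrace
  rw [planePoints_two]
  norm_num

lemma planeDev_eq {d p : ℕ} [Fact p.Prime] (hp : p ≠ 2) (n : Mon d → ℕ) :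
    planeDev d p n = planeSum d p (fun l => (n l : ZMod p)) / p := by
  have hp0 : (p : ℝ) ≠ 0 := by exact_mod_cast (Fact.out : p.Prime).ne_zero
  unfold planeDev planeTrace
  rw [planePoints_eq hp]
  field_simp
  ring

/-- **Tauberian Tate for double planes.** -/
theorem planes {d : ℕ} (hd : 2 ≤ d) {b : ℕ} (hb : 2 ≤ b) {δ : ℝ} (hδ : 0 < δ) (A B : ℕ) :
    ForAlmostAll (Mon d) b A (fun (θ : Weights B) x m => ∀ w ∈ θ.W x,
      |∑ p ∈ primesTo x, w p * Real.log p * (planeTrace d p m / p - 1)| ≤ (x : ℝ) ^ (1 / 2 + δ)) := by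
  classical
  have hd0 : (2 : ℝ) ≤ d := by exact_mod_cast hd
  have : Nonempty (Mon d) := ⟨monOf d (2 * d) 0 (by omega) (by omega)⟩
  have key := rough (L := Mon d) hb hδ A B 0 (τ := Unit) (fun _ => {()}) (fun x _ => by simp) (fun _ p n => planeDev d p n)
    (fun _ p n hp => by
      unfold planeDev planeTrace
      rw [planePoints_mod]) (C := 2 * d) (by linarith) (by
      intro _ p n hp
      have : Fact p.Prime := ⟨hp⟩
      have hp0 : (0 : ℝ) < p := by exact_mod_cast hp.pos
      by_cases h2 : p = 2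
      · subst h2
        rw [planeDev_two, abs_zero]
        positivity
      · rw [planeDev_eq h2, abs_div, abs_of_pos hp0, div_le_iff₀ hp0, mul_assoc]
        exact planeSum_bound hd h2 _) (by
      intro _ p hp
      have : Fact p.Prime := ⟨hp⟩
      by_cases h2 : p = 2
      · subst h2
        have e : (fun n : Mon d → ℕ => planeDev d 2 n) = fun _ => 0 := funext fun n => planeDev_two n
        beta_reduce
        rw [e, avg_const]
        norm_num
      · have e : (fun n : Mon d → ℕ => planeDev d p n) = fun n => planeSum d p (fun l => (n l : ZMod p)) / p :=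
          funext fun n => planeDev_eq h2 n
        beta_reduce
        rw [e, avg_zmod (fun v => planeSum d p v / p), ← sum_div, (planeSum_moments hd h2).1]
        simp) (by
      intro _ p hp
      have : Fact p.Prime := ⟨hp⟩
      have hp0 : (0 : ℝ) < p := by exact_mod_cast hp.pos
      have hp1 : (1 : ℝ) ≤ p := by exact_mod_cast hp.one_lt.le
      by_cases h2 : p = 2
      · subst h2
        have e : (fun n : Mon d → ℕ => planeDev d 2 n ^ 2) = fun _ => 0 := funext fun n => by
          rw [planeDev_two]; norm_num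
        beta_reduce
        rw [e, avg_const]
        · positivity
        all_goals norm_num
      · have e : (fun n : Mon d → ℕ => planeDev d p n ^ 2) = fun n => (planeSum d p (fun l => (n l : ZMod p)) / p) ^ 2 :=
          funext fun n => by rw [planeDev_eq h2 n]
        beta_reduce
        rw [e, avg_zmod (fun v => (planeSum d p v / p) ^ 2)]
        simp only [div_pow]
        rw [← sum_div, div_div, div_le_iff₀ (by positivity)]
        refine (planeSum_moments hd h2).2.trans ?_
        have h3 : (p : ℝ) ^ 2 + p ≤ 2 * d * (p : ℝ) ^ 2 := by nlinarith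
        calc ((p : ℝ) ^ 2 + p) * (p : ℝ) ^ Fintype.card (Mon d) ≤ 2 * d * (p : ℝ) ^ 2 * (p : ℝ) ^ Fintype.card (Mon d) :=
              mul_le_mul_of_nonneg_right h3 (by positivity)
          _ = _ := by ring)
  refine ForAlmostAll.mono key 0 ?_
  intro θ x m _ h w hw
  exact h w hw () (mem_singleton_self _)

end Pool.Agent.Q235.FD
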