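import Pool.Agent.Q235.FD.Forms

/-! Integral points of small height of forms whose coefficients arise by changing a few digits. -/

set_option autoImplicit false

namespace Pool.Agent.Q235.FD

open Finset Filter

/-- few primes divide a nonzero integer of bounded size -/
lemma few_primes {a : ℤ} (ha : a ≠ 0) {B x : ℕ} (hax : |a| ≤ (x : ℤ) ^ B) :
    (((primesTo x).filter (fun p : ℕ => (p : ℤ) ∣ a)).card : ℝ) ≤ 2 * B * Real.log x := by
  have h1 : (primesTo x).filter (fun p : ℕ => (p : ℤ) ∣ a) ⊆ a.natAbs.primeFactors := by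
    intro p hp
    rw [mem_filter] at hp
    rw [Nat.mem_primeFactors]
    exact ⟨(mem_primesTo.1 hp.1).1, Int.natCast_dvd.1 hp.2, Int.natAbs_ne_zero.2 ha⟩
  have h2 : 2 ^ a.natAbs.primeFactors.card ≤ ∏ p ∈ a.natAbs.primeFactors, p :=
    Finset.pow_card_le_prod _ _ _ fun p hp => (Nat.prime_of_mem_primeFactors hp).two_le
  have h3 : ∏ p ∈ a.natAbs.primeFactors, p ≤ a.natAbs :=
    Nat.le_of_dvd (Int.natAbs_pos.2 ha) (Nat.prod_primeFactors_dvd _)
  have h4 : a.natAbs ≤ x ^ B := by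
    rw [Int.abs_eq_natAbs] at hax
    exact_mod_cast hax
  have h5 : 2 ^ ((primesTo x).filter (fun p : ℕ => (p : ℤ) ∣ a)).card ≤ x ^ B :=
    ((Nat.pow_le_pow_right (by norm_num) (card_le_card h1)).trans h2).trans (h3.trans h4)
  have h6 : (2 : ℝ) ^ ((primesTo x).filter (fun p : ℕ => (p : ℤ) ∣ a)).card ≤ (x : ℝ) ^ B := by exact_mod_cast h5
  have h7 := Real.log_le_log (by positivity) h6
  rw [Real.log_pow, Real.log_pow] at h7
  have hlog2 : (1 / 2 : ℝ) < Real.log 2 := by have := Real.log_two_gt_d9; linarith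
  have h8 : (0 : ℝ) ≤ (((primesTo x).filter (fun p : ℕ => (p : ℤ) ∣ a)).card : ℝ) := by positivity
  nlinarith

/-- a logarithm is smaller than a power -/
lemma log_small (B : ℕ) : ∃ x₁ : ℕ, ∀ x : ℕ, x₁ ≤ x → 2 * B * Real.log x ≤ (x : ℝ) ^ (3 / 4 : ℝ) := by
  have h1 : Tendsto (fun x : ℝ => x ^ (1 / 2 : ℝ)) atTop atTop := tendsto_rpow_atTop (by norm_num)
  have hev := (h1.comp tendsto_natCast_atTop_atTop).eventually (eventually_ge_atTop (8 * (B : ℝ)))
  obtain ⟨x₁, hx₁⟩ := eventually_atTop.1 hev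
  refine ⟨x₁ + 1, fun x hx => ?_⟩
  have h2 : 8 * (B : ℝ) ≤ (x : ℝ) ^ (1 / 2 : ℝ) := hx₁ x (by omega)
  have hx0 : (0 : ℝ) < x := by exact_mod_cast (by omega : 0 < x)
  have hlog : Real.log x ≤ 4 * (x : ℝ) ^ (1 / 4 : ℝ) := by
    have := Real.log_le_rpow_div hx0.le (show (0 : ℝ) < 1 / 4 by norm_num)
    linarith
  calc 2 * B * Real.log x ≤ 2 * B * (4 * (x : ℝ) ^ (1 / 4 : ℝ)) := mul_le_mul_of_nonneg_left hlog (by positivity)
    _ = 8 * B * (x : ℝ) ^ (1 / 4 : ℝ) := by ring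
    _ ≤ (x : ℝ) ^ (1 / 2 : ℝ) * (x : ℝ) ^ (1 / 4 : ℝ) := mul_le_mul_of_nonneg_right h2 (by positivity)
    _ = (x : ℝ) ^ (3 / 4 : ℝ) := by rw [← Real.rpow_add hx0]; norm_num

/-- the box of integer vectors of size at most `H` -/
noncomputable def box (I : Type) [Fintype I] [DecidableEq I] (H : ℕ) : Finset (I → ℤ) := Fintype.piFinset (fun _ => Finset.Icc (-(H : ℤ)) H)

lemma mem_box {I : Type} [Fintype I] [DecidableEq I] {H : ℕ} {P : I → ℤ} : P ∈ box I H ↔ ∀ i, |P i| ≤ H := by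
  unfold box
  rw [Fintype.mem_piFinset]
  simp only [mem_Icc, abs_le]

lemma card_box_le (I : Type) [Fintype I] [DecidableEq I] {H x B : ℕ} (hx : 2 ≤ x) (hH : H ≤ x ^ B) :
    (box I H).card ≤ x ^ ((B + 2) * Fintype.card I) := by
  unfold box
  rw [Fintype.card_piFinset, prod_const, card_univ, Int.card_Icc, pow_mul]
  apply Nat.pow_le_pow_left
  have h1 : 1 ≤ x ^ B := Nat.one_le_pow _ _ (by omega)
  have h2 : x ^ (B + 2) = x ^ B * (x * x) := by ring
  have h3 : 4 ≤ x * x := Nat.mul_le_mul hx hx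
  have h4 : x ^ B * 4 ≤ x ^ B * (x * x) := Nat.mul_le_mul_left _ h3
  omega

/-- **Points of small height.** `φ P` is an affine form with a twist, for every parameter vector `P : I → ℤ` in the box; for every admissible `P`
there are two nonzero integers of bounded size such that a prime for which the form is not primitive or which divides the twist divides one of them. -/
theorem points {L : Type} [Fintype L] [Nonempty L] {b : ℕ} (hb : 2 ≤ b) (A B : ℕ) (I : Type) [Fintype I] [DecidableEq I] (φ : (I → ℤ) → Form L)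
    (Adm : (I → ℤ) → Prop) (hA : ∀ P, Adm P → ∃ i j, P i ≠ 0 ∧ P j ≠ 0 ∧ ∀ p : ℕ, p.Prime → ((∀ l, (p : ℤ) ∣ (φ P).1.2 l) ∨ (p : ℤ) ∣ (φ P).2) →
      (p : ℤ) ∣ P i ∨ (p : ℤ) ∣ P j) :
    ForAlmostAll L b A (fun (_ : Unit) x m => ∀ P : I → ℤ, (∀ i, |P i| ≤ (x : ℤ) ^ B) → Adm P →
      val (φ P).1.1 (φ P).1.2 m ≠ 0 ∧ ¬ IsSquare ((φ P).2 * val (φ P).1.1 (φ P).1.2 m)) := by
  classical
  obtain ⟨x₁, hx₁⟩ := log_small (2 * B)
  refine ForAlmostAll.mono (forms hb A ((B + 2) * Fintype.card I) (fun x => (box I (x ^ B)).image φ) ?_) (x₁ + 1) ?_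
  · intro x hx
    exact card_image_le.trans (card_box_le I hx le_rfl)
  · intro _ x m hx h P hP hAd
    refine h (φ P) (mem_image_of_mem _ (mem_box.2 (by push_cast; exact hP))) ?_
    obtain ⟨i, j, hi, hj, hp⟩ := hA P hAd
    have h1 : (primesTo x).filter (fun p : ℕ => (∀ l, (p : ℤ) ∣ (φ P).1.2 l) ∨ (p : ℤ) ∣ (φ P).2) ⊆
        (primesTo x).filter (fun p : ℕ => (p : ℤ) ∣ P i) ∪ (primesTo x).filter (fun p : ℕ => (p : ℤ) ∣ P j) := by
      intro p hp'
      rw [mem_filter] at hp'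
      rw [mem_union, mem_filter, mem_filter]
      rcases hp p (mem_primesTo.1 hp'.1).1 hp'.2 with h2 | h2
      · exact Or.inl ⟨hp'.1, h2⟩
      · exact Or.inr ⟨hp'.1, h2⟩
    have h2 := few_primes hi (hP i)
    have h3 := few_primes hj (hP j)
    have h4 : (((primesTo x).filter (fun p : ℕ => (∀ l, (p : ℤ) ∣ (φ P).1.2 l) ∨ (p : ℤ) ∣ (φ P).2)).card : ℝ) ≤
        (((primesTo x).filter (fun p : ℕ => (p : ℤ) ∣ P i)).card : ℝ) + ((primesTo x).filter (fun p : ℕ => (p : ℤ) ∣ P j)).card := by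
      exact_mod_cast (card_le_card h1).trans (card_union_le _ _)
    have h5 := hx₁ x (by omega)
    push_cast at h5
    linarith

end Pool.Agent.Q235.FD
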