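import Pool.Agent.Q235.FD.Points
import Pool.Agent.H312R2.PG.ClassPrimes

/-! Values of affine forms at tuples obtained by changing a few digits: they are not `c w ^ k`. -/

set_option autoImplicit false

namespace Pool.Agent.Q235.FD

open Finset Filter

section

variable {p : ℕ} [Fact p.Prime]

open scoped Classical in
/-- the indicator function of the values `c z ^ k` -/
noncomputable def ind (k : ℕ) (c v : ZMod p) : ℝ := if ∃ z : ZMod p, v = c * z ^ k then 1 else 0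

lemma ind_nonneg (k : ℕ) (c v : ZMod p) : 0 ≤ ind k c v := by
  unfold ind
  split_ifs <;> norm_num

lemma ind_le (k : ℕ) (c v : ZMod p) : ind k c v ≤ 1 := by
  unfold ind
  split_ifs <;> norm_num

/-- the number of `k`-th powers for `p ≡ 1 (mod k)` -/
lemma card_powers {k : ℕ} (hk : 2 ≤ k) (hp : k ∣ p - 1) : 2 * (Finset.univ.image (fun z : ZMod p => z ^ k)).card ≤ p + 1 := by
  classical
  have hpr : p.Prime := Fact.out
  have hsub : Finset.univ.image (fun z : ZMod p => z ^ k) ⊆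
      insert 0 ((Set.toFinset ((powMonoidHom k : (ZMod p)ˣ →* (ZMod p)ˣ).range : Set (ZMod p)ˣ)).image (fun u : (ZMod p)ˣ => (u : ZMod p))) := by
    intro v hv
    obtain ⟨z, _, rfl⟩ := mem_image.1 hv
    rw [mem_insert]
    by_cases hz : z = 0
    · left
      rw [hz, zero_pow (by omega)]
    · right
      rw [mem_image]
      refine ⟨(Units.mk0 z hz) ^ k, ?_, by simp⟩
      rw [Set.mem_toFinset]
      exact ⟨Units.mk0 z hz, rfl⟩
  have h1 := (card_le_card hsub).trans (card_insert_le _ _)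
  have h2 : ((Set.toFinset ((powMonoidHom k : (ZMod p)ˣ →* (ZMod p)ˣ).range : Set (ZMod p)ˣ)).image (fun u : (ZMod p)ˣ => (u : ZMod p))).card ≤
      Nat.card ((powMonoidHom k : (ZMod p)ˣ →* (ZMod p)ˣ).range) := by
    refine card_image_le.trans ?_
    rw [Set.toFinset_card, ← Nat.card_eq_fintype_card]
    exact le_rfl
  have h3 := (powMonoidHom k : (ZMod p)ˣ →* (ZMod p)ˣ).range.card_mul_index
  have hcard : Nat.card (ZMod p)ˣ = p - 1 := by rw [Nat.card_eq_fintype_card, ZMod.card_units_eq_totient, Nat.totient_prime hpr]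
  rw [IsCyclic.index_powMonoidHom_range, hcard, Nat.gcd_eq_right hp] at h3
  have h4 : Nat.card ((powMonoidHom k : (ZMod p)ˣ →* (ZMod p)ˣ).range) * 2 ≤ p - 1 := by
    rw [← h3]
    exact Nat.mul_le_mul_left _ hk
  have := hpr.one_lt
  omega

lemma sum_ind {k : ℕ} (hk : 2 ≤ k) (hp : k ∣ p - 1) (c : ZMod p) : ∑ v, ind k c v ≤ ((p : ℝ) + 1) / 2 := by
  classical
  have h1 : ∑ v, ind k c v ≤ ((Finset.univ.image (fun z : ZMod p => z ^ k)).image (fun y => c * y)).card := by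
    unfold ind
    rw [← sum_filter, sum_const, nsmul_eq_mul, mul_one]
    rw [Nat.cast_le]
    apply card_le_card
    intro v hv
    rw [mem_filter] at hv
    obtain ⟨z, hz⟩ := hv.2
    rw [mem_image]
    exact ⟨z ^ k, mem_image_of_mem _ (mem_univ z), hz.symm⟩
  have h2 : (((Finset.univ.image (fun z : ZMod p => z ^ k)).image (fun y => c * y)).card : ℝ) ≤ (Finset.univ.image (fun z : ZMod p => z ^ k)).card := by
    exact_mod_cast card_image_le
  have h3 : 2 * ((Finset.univ.image (fun z : ZMod p => z ^ k)).card : ℝ) ≤ (p : ℝ) + 1 := by exact_mod_cast card_powers hk hp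
  linarith

end

section

variable {L : Type} [Fintype L]

open scoped Classical in
/-- the centered indicator function of the values `c z ^ k` for the primes `≡ 1 (mod k)` -/
noncomputable def gpow (k : ℕ) (t : Form L) (p : ℕ) (m : L → ℕ) : ℝ :=
  if h : p.Prime ∧ k ∣ p - 1 ∧ Primitive t p then
    (haveI : Fact p.Prime := ⟨h.1⟩; ind k (t.2 : ZMod p) ((val t.1.1 t.1.2 m : ℤ) : ZMod p) - (∑ v, ind k (t.2 : ZMod p) v) / p) else 0

lemma gpow_mod (k : ℕ) (t : Form L) (p : ℕ) (m : L → ℕ) : gpow k t p m = gpow k t p (fun l => m l % p) := by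
  classical
  unfold gpow
  split_ifs with h
  · rw [val_mod]
  · rfl

lemma gpow_bound (k : ℕ) (t : Form L) (p : ℕ) (m : L → ℕ) : |gpow k t p m| ≤ 1 := by
  classical
  unfold gpow
  split_ifs with h
  · have : Fact p.Prime := ⟨h.1⟩
    have hp : (0 : ℝ) < p := by exact_mod_cast h.1.pos
    have h1 : 0 ≤ (∑ v, ind k (t.2 : ZMod p) v) / p := div_nonneg (sum_nonneg fun v _ => ind_nonneg k _ v) hp.le
    have h2 : (∑ v, ind k (t.2 : ZMod p) v) / p ≤ 1 := by
      rw [div_le_one hp]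
      calc ∑ v, ind k (t.2 : ZMod p) v ≤ ∑ v : ZMod p, (1 : ℝ) := sum_le_sum fun v _ => ind_le k _ v
        _ = p := by rw [sum_const, card_univ, ZMod.card, nsmul_eq_mul, mul_one]
    have h3 := ind_nonneg k (t.2 : ZMod p) ((val t.1.1 t.1.2 m : ℤ) : ZMod p)
    have h4 := ind_le k (t.2 : ZMod p) ((val t.1.1 t.1.2 m : ℤ) : ZMod p)
    rw [abs_le]
    constructor <;> linarith
  · simp

lemma avg_gpow (k : ℕ) (t : Form L) {p : ℕ} (hp : p.Prime) : avg p (gpow k t p) = 0 := by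
  classical
  have : Fact p.Prime := ⟨hp⟩
  have hp0 : (p : ℝ) ≠ 0 := by exact_mod_cast hp.ne_zero
  by_cases h : p.Prime ∧ k ∣ p - 1 ∧ Primitive t p
  · obtain ⟨α, hα⟩ : ∃ α, α = (∑ v, ind k (t.2 : ZMod p) v) / p := ⟨_, rfl⟩
    have e : gpow k t p = fun n => (fun v : L → ZMod p => ind k (t.2 : ZMod p) (valMod t.1.1 t.1.2 v) - α) (fun l => (n l : ZMod p)) := by
      funext n
      unfold gpow
      rw [dif_pos h]
      beta_reduce
      rw [← val_cast, hα]
    obtain ⟨l, hl⟩ := h.2.2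
    rw [e, avg_zmod (fun v : L → ZMod p => ind k (t.2 : ZMod p) (valMod t.1.1 t.1.2 v) - α),
      shift_avg (fun c => ind k (t.2 : ZMod p) c - α) t.1.1 t.1.2 hl]
    have e2 : ∑ c : ZMod p, (ind k (t.2 : ZMod p) c - α) = 0 := by
      rw [sum_sub_distrib, sum_const, card_univ, ZMod.card, nsmul_eq_mul, hα]
      field_simp
      ring
    rw [e2]
    simp
  · have e : gpow k t p = fun _ => 0 := by
      funext n
      unfold gpow
      rw [dif_neg h]
    rw [e, avg_const hp.one_lt.le]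

/-- there are many primes `≡ 1 (mod k)` -/
lemma many_primes_class {k : ℕ} (hk : 1 ≤ k) : ∃ x₁ : ℕ, ∀ x : ℕ, x₁ ≤ x →
    9 * (x : ℝ) ^ (3 / 4 : ℝ) ≤ ((primesTo x).filter (fun p : ℕ => k ∣ p - 1)).card := by
  obtain ⟨c, hc, N0, H⟩ := Pool.Agent.H312R2.PG.class_primes k (by omega)
  have h1 : Tendsto (fun x : ℝ => x ^ (1 / 8 : ℝ)) atTop atTop := tendsto_rpow_atTop (by norm_num)
  have hev := (h1.comp tendsto_natCast_atTop_atTop).eventually (eventually_ge_atTop (72 / c))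
  obtain ⟨x₁, hx₁⟩ := eventually_atTop.1 hev
  refine ⟨x₁ + N0 + 3, fun x hx => ?_⟩
  have h2 : 72 / c ≤ (x : ℝ) ^ (1 / 8 : ℝ) := hx₁ x (by omega)
  have hx0 : (0 : ℝ) < x := by exact_mod_cast (by omega : 0 < x)
  have hx3 : (3 : ℝ) ≤ x := by exact_mod_cast (by omega : 3 ≤ x)
  have h3 := H x (by omega) 0 (by omega)
  have h4 : (Icc 1 x).filter (fun q => q.Prime ∧ 0 < q ∧ q ≡ 1 [MOD k]) ⊆ (primesTo x).filter (fun p : ℕ => k ∣ p - 1) := by
    intro q hq
    rw [mem_filter, mem_Icc] at hq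
    rw [mem_filter, mem_primesTo]
    refine ⟨⟨hq.2.1, hq.1.2⟩, ?_⟩
    exact (Nat.modEq_iff_dvd' hq.2.1.one_lt.le).1 hq.2.2.2.symm
  have h5 : (((Icc 1 x).filter (fun q => q.Prime ∧ 0 < q ∧ q ≡ 1 [MOD k])).card : ℝ) ≤ ((primesTo x).filter (fun p : ℕ => k ∣ p - 1)).card := by
    exact_mod_cast card_le_card h4
  refine le_trans ?_ (h3.trans h5)
  have hlx : 0 < Real.log x := Real.log_pos (by linarith)
  have hlog : Real.log x ≤ 8 * (x : ℝ) ^ (1 / 8 : ℝ) := by
    have := Real.log_le_rpow_div hx0.le (show (0 : ℝ) < 1 / 8 by norm_num)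
    linarith
  obtain ⟨u, hu⟩ : ∃ u, u = (x : ℝ) ^ (1 / 8 : ℝ) := ⟨_, rfl⟩
  rw [← hu] at h2 hlog
  have e1 : (x : ℝ) = u ^ 8 := by
    rw [hu, ← Real.rpow_natCast, ← Real.rpow_mul hx0.le]
    norm_num
  have e2 : (x : ℝ) ^ (3 / 4 : ℝ) = u ^ 6 := by
    rw [hu, ← Real.rpow_natCast, ← Real.rpow_mul hx0.le]
    norm_num
  rw [e2, ← mul_div_assoc, le_div_iff₀ hlx]
  have hu0 : 0 < u := by
    rw [hu]; positivity
  have h6 : 72 ≤ c * u := by
    rw [div_le_iff₀ hc] at h2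
    linarith
  calc 9 * u ^ 6 * Real.log x ≤ 9 * u ^ 6 * (8 * u) := mul_le_mul_of_nonneg_left hlog (by positivity)
    _ = 72 * u ^ 7 := by ring
    _ ≤ (c * u) * u ^ 7 := mul_le_mul_of_nonneg_right h6 (by positivity)
    _ = c * u ^ 8 := by ring
    _ = c * x := by rw [e1]

/-- a prime which divides the denominator of `w` divides `c`, if `c w ^ k` is an integer -/
lemma not_dvd_den {c v : ℤ} {w : ℚ} {k p : ℕ} (hk : 1 ≤ k) (hp : p.Prime) (h : (c : ℚ) * w ^ k = v) (hc : ¬ (p : ℤ) ∣ c) : ¬ p ∣ w.den := by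
  intro hd
  have h1 : c * w.num ^ k = v * (w.den : ℤ) ^ k := by
    have hden : (w.den : ℚ) ≠ 0 := by exact_mod_cast w.den_nz
    have h2 : (w.num : ℚ) = w * w.den := by rw [Rat.mul_den_eq_num]
    have h3 : ((c * w.num ^ k : ℤ) : ℚ) = ((v * (w.den : ℤ) ^ k : ℤ) : ℚ) := by
      push_cast
      rw [h2, mul_pow, ← mul_assoc, h]
    exact_mod_cast h3
  have h4 : (p : ℤ) ∣ c * w.num ^ k := by
    rw [h1]
    exact Dvd.dvd.mul_left (dvd_pow (Int.natCast_dvd_natCast.2 hd) (by omega)) _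
  rcases (Nat.prime_iff_prime_int.1 hp).dvd_or_dvd h4 with h5 | h5
  · exact hc h5
  · have h6 := (Nat.prime_iff_prime_int.1 hp).dvd_of_dvd_pow h5
    have h7 : p ∣ w.num.natAbs := Int.natCast_dvd.1 h6
    have h8 := Nat.dvd_gcd h7 hd
    rw [w.reduced] at h8
    exact hp.one_lt.ne' (Nat.dvd_one.1 h8)

lemma residue_power {c v : ℤ} {w : ℚ} {k p : ℕ} [Fact p.Prime] (hk : 1 ≤ k) (h : (c : ℚ) * w ^ k = v) (hc : ¬ (p : ℤ) ∣ c) :
    ∃ z : ZMod p, (v : ZMod p) = c * z ^ k := by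
  have hp : p.Prime := Fact.out
  have hd := not_dvd_den hk hp h hc
  have hd0 : (w.den : ZMod p) ≠ 0 := fun h0 => hd ((ZMod.natCast_eq_zero_iff _ _).1 h0)
  have h1 : c * w.num ^ k = v * (w.den : ℤ) ^ k := by
    have hden : (w.den : ℚ) ≠ 0 := by exact_mod_cast w.den_nz
    have h2 : (w.num : ℚ) = w * w.den := by rw [Rat.mul_den_eq_num]
    have h3 : ((c * w.num ^ k : ℤ) : ℚ) = ((v * (w.den : ℤ) ^ k : ℤ) : ℚ) := by
      push_cast
      rw [h2, mul_pow, ← mul_assoc, h]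
    exact_mod_cast h3
  have h2 := congrArg (fun z : ℤ => (z : ZMod p)) h1
  simp only [Int.cast_mul, Int.cast_pow, Int.cast_natCast] at h2
  refine ⟨(w.num : ZMod p) / w.den, ?_⟩
  rw [div_pow, ← mul_div_assoc, h2]
  field_simp

/-- **The values are not of the form `c w ^ k`.** -/
theorem forms_pow [Nonempty L] {b : ℕ} (hb : 2 ≤ b) {k : ℕ} (hk : 2 ≤ k) (A A₃ : ℕ) (U : ℕ → Finset (Form L)) (hU : ∀ x, 2 ≤ x → (U x).card ≤ x ^ A₃) :
    ForAlmostAll L b A (fun (_ : Unit) x m => ∀ t ∈ U x,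
      (((primesTo x).filter (fun p : ℕ => (∀ l, (p : ℤ) ∣ t.1.2 l) ∨ (p : ℤ) ∣ t.2)).card : ℝ) ≤ (x : ℝ) ^ (3 / 4 : ℝ) →
      ∀ w : ℚ, (t.2 : ℚ) * w ^ k ≠ (val t.1.1 t.1.2 m : ℤ)) := by
  classical
  have h1 := centered (L := L) hb (show (0 : ℝ) < 1 / 4 by norm_num) A 0 A₃ U hU (fun t p m => gpow k t p m)
    (fun t p n _ => gpow_mod k t p n) (C := 1) le_rfl (fun t p n _ => gpow_bound k t p n) (fun t p hp => by
      rw [show (fun m => gpow k t p m) = gpow k t p from rfl, avg_gpow k t hp, abs_zero]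
      positivity)
  obtain ⟨x₁, hx₁⟩ := many_primes_class (show 1 ≤ k by omega)
  obtain ⟨c, hc, y₀, H⟩ := h1
  refine ⟨c, hc, y₀ + x₁ + 3, fun _ K r N f y hs hy => ?_⟩
  refine le_trans (Nat.cast_le.2 (exceptions_mono ?_)) (H allPrimes K r N f y hs (by omega))
  intro m hm x hx hr t ht hbad w hw
  have g1 := hm x hx hr (primesTo x) (mem_singleton_self _) t ht
  have hx1 : (1 : ℝ) ≤ x := by exact_mod_cast (by omega : 1 ≤ x)
  have hx0 : (0 : ℝ) < x := by linarith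
  have hmany := hx₁ x (by omega)
  obtain ⟨W, hW⟩ : ∃ W : ℝ, W = (x : ℝ) ^ (3 / 4 : ℝ) := ⟨_, rfl⟩
  have hW1 : 1 ≤ W := by rw [hW]; exact Real.one_le_rpow hx1 (by norm_num)
  have hbound : Real.sqrt (max 1 (primesTo x).card) * (x : ℝ) ^ (1 / 4 : ℝ) ≤ W := by
    have h4 : Real.sqrt (max 1 ((primesTo x).card : ℝ)) ≤ (x : ℝ) ^ (1 / 2 : ℝ) := by
      rw [← Real.sqrt_eq_rpow]
      exact Real.sqrt_le_sqrt (max_le hx1 (card_primesTo x))
    have h5 : (x : ℝ) ^ (1 / 2 : ℝ) * (x : ℝ) ^ (1 / 4 : ℝ) = W := by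
      rw [hW, ← Real.rpow_add hx0]; norm_num
    rw [← h5]
    exact mul_le_mul_of_nonneg_right h4 (by positivity)
  rw [← hW] at hbad hmany
  have g1' := g1.trans hbound
  obtain ⟨Q, hQ⟩ : ∃ Q, Q = ((primesTo x).filter (fun p : ℕ => k ∣ p - 1)).filter (fun p : ℕ => ¬ ((∀ l, (p : ℤ) ∣ t.1.2 l) ∨ (p : ℤ) ∣ t.2)) := ⟨_, rfl⟩
  have hQcard : (Q.card : ℝ) ≥ ((primesTo x).filter (fun p : ℕ => k ∣ p - 1)).card - W := by
    have h4 := card_filter_add_card_filter_not (s := (primesTo x).filter (fun p : ℕ => k ∣ p - 1)) (fun p : ℕ => (∀ l, (p : ℤ) ∣ t.1.2 l) ∨ (p : ℤ) ∣ t.2)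
    have h5 : ((((primesTo x).filter (fun p : ℕ => k ∣ p - 1)).filter (fun p : ℕ => (∀ l, (p : ℤ) ∣ t.1.2 l) ∨ (p : ℤ) ∣ t.2)).card : ℝ) + Q.card =
        ((primesTo x).filter (fun p : ℕ => k ∣ p - 1)).card := by
      rw [hQ]
      exact_mod_cast h4
    have h6 : ((((primesTo x).filter (fun p : ℕ => k ∣ p - 1)).filter (fun p : ℕ => (∀ l, (p : ℤ) ∣ t.1.2 l) ∨ (p : ℤ) ∣ t.2)).card : ℝ) ≤
        ((primesTo x).filter (fun p : ℕ => (∀ l, (p : ℤ) ∣ t.1.2 l) ∨ (p : ℤ) ∣ t.2)).card := by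
      exact_mod_cast card_le_card (filter_subset_filter _ (filter_subset _ _))
    linarith
  have h4 : ∀ p ∈ primesTo x, gpow k t p m ≥ if p ∈ Q then 1 / 3 else -(if p ∈ (primesTo x).filter (fun p : ℕ => (∀ l, (p : ℤ) ∣ t.1.2 l) ∨ (p : ℤ) ∣ t.2) then 1 else 0) := by
    intro p hp
    have hpp := (mem_primesTo.1 hp).1
    have : Fact p.Prime := ⟨hpp⟩
    have hp0 : (0 : ℝ) < p := by exact_mod_cast hpp.pos
    by_cases hpQ : p ∈ Q
    · rw [if_pos hpQ]
      rw [hQ, mem_filter, mem_filter, not_or] at hpQ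
      have hprim : Primitive t p := by
        unfold Primitive
        by_contra h
        push Not at h
        exact hpQ.2.1 h
      unfold gpow
      rw [dif_pos ⟨hpp, hpQ.1.2, hprim⟩]
      have e1 : ind k (t.2 : ZMod p) ((val t.1.1 t.1.2 m : ℤ) : ZMod p) = 1 := by
        unfold ind
        rw [if_pos (residue_power (by omega) hw hpQ.2.2)]
      have e2 : (∑ v, ind k (t.2 : ZMod p) v) / p ≤ 2 / 3 := by
        have h5 := sum_ind hk hpQ.1.2 (t.2 : ZMod p)
        have h6 : (3 : ℝ) ≤ p := by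
          have h7 := Nat.le_of_dvd (by have := hpp.one_lt; omega) hpQ.1.2
          exact_mod_cast (by omega : 3 ≤ p)
        rw [div_le_iff₀ hp0]
        linarith
      rw [e1]
      linarith
    · rw [if_neg hpQ]
      unfold gpow
      by_cases h : p.Prime ∧ k ∣ p - 1 ∧ Primitive t p
      · have hin : p ∈ (primesTo x).filter (fun p : ℕ => (∀ l, (p : ℤ) ∣ t.1.2 l) ∨ (p : ℤ) ∣ t.2) := by
          by_contra hcon
          apply hpQ
          rw [hQ, mem_filter, mem_filter]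
          refine ⟨⟨hp, h.2.1⟩, fun h' => hcon ?_⟩
          rw [mem_filter]
          exact ⟨hp, h'⟩
        rw [dif_pos h, if_pos hin]
        have h5 := ind_nonneg k (t.2 : ZMod p) ((val t.1.1 t.1.2 m : ℤ) : ZMod p)
        have h6 : (∑ v, ind k (t.2 : ZMod p) v) / p ≤ 1 := by
          rw [div_le_one hp0]
          calc ∑ v, ind k (t.2 : ZMod p) v ≤ ∑ v : ZMod p, (1 : ℝ) := sum_le_sum fun v _ => ind_le k _ v
            _ = p := by rw [sum_const, card_univ, ZMod.card, nsmul_eq_mul, mul_one]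
        linarith
      · rw [dif_neg h]
        split_ifs <;> norm_num
  have h5 : ∑ p ∈ primesTo x, gpow k t p m ≥ (Q.card : ℝ) * (1 / 3) - W := by
    have h6 : ∀ p ∈ primesTo x, gpow k t p m ≥ (if p ∈ Q then 1 / 3 else 0) -
        (if p ∈ (primesTo x).filter (fun p : ℕ => (∀ l, (p : ℤ) ∣ t.1.2 l) ∨ (p : ℤ) ∣ t.2) then 1 else 0) := by
      intro p hp
      refine ge_trans (h4 p hp) ?_
      split_ifs <;> norm_num
    refine ge_trans (sum_le_sum h6) ?_
    rw [sum_sub_distrib, ← sum_filter, ← sum_filter, sum_const, sum_const, nsmul_eq_mul, nsmul_eq_mul, mul_one]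
    have h7 : (primesTo x).filter (fun p : ℕ => p ∈ Q) = Q := by
      ext p
      rw [mem_filter]
      constructor
      · exact fun h => h.2
      · intro h
        refine ⟨?_, h⟩
        rw [hQ, mem_filter, mem_filter] at h
        exact h.1.1
    have h8 : (primesTo x).filter (fun p : ℕ => p ∈ (primesTo x).filter (fun p : ℕ => (∀ l, (p : ℤ) ∣ t.1.2 l) ∨ (p : ℤ) ∣ t.2)) =
        (primesTo x).filter (fun p : ℕ => (∀ l, (p : ℤ) ∣ t.1.2 l) ∨ (p : ℤ) ∣ t.2) := by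
      ext p
      rw [mem_filter, mem_filter]
      constructor
      · exact fun h => h.2
      · exact fun h => ⟨h.1, h⟩
    rw [h7, h8]
    linarith
  have h8 := (abs_le.1 g1').2
  linarith

end

end Pool.Agent.Q235.FD
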