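import Pool.Agent.Q235.FD.Twist

/-! Dirichlet series of the mixed moments; traces on the cohomology of products of curves. -/

set_option autoImplicit false

namespace Pool.Agent.Q235.FD

open Finset

section

variable {s : ℕ} {D : Fin s → ℕ}

/-- **The Dirichlet series of the mixed moments.** -/
theorem joint_series (hs : 1 ≤ s) (hD : ∀ i, Odd (D i)) {b : ℕ} (hb : 2 ≤ b) {δ : ℝ} (hδ : 0 < δ) (A B : ℕ) :
    ForAlmostAllFrom (Σ i, Fin (D i)) b A (fun (θ : Weights B) y x m => ∀ w ∈ θ.W y, ∀ z : ℂ, 1 / 2 + δ ≤ z.re →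
      ‖primeSum y x (fun p => ((w p * Real.log p * jbad p m : ℝ) : ℂ) * (p : ℂ) ^ (-z))‖ ≤ (1 + ‖z‖) * (y : ℝ) ^ (-(δ / 4)) ∧
      ∀ k : Fin s → ℕ, (∀ i, k i ≤ D i) → ‖primeSum y x (fun p => ((w p * Real.log p * jpow k p m : ℝ) : ℂ) * (p : ℂ) ^ (-z))‖ ≤
        (1 + ‖z‖) * (y : ℝ) ^ (-(δ / 4))) := by
  obtain ⟨y₁, hy₁⟩ := half_plane hδ
  refine (wjoint_law (D := D) hs hD hb (show 0 < δ / 2 by positivity) A B).from' y₁ ?_
  intro θ y hy
  refine ⟨constWeights θ y, fun x m hx h w hw z hz => ?_⟩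
  have hw' : ∀ t, y ≤ t → w ∈ (constWeights θ y).W t := by
    intro t ht
    show w ∈ if y ≤ t then θ.W y else ∅
    rw [if_pos ht]
    exact hw
  refine ⟨?_, fun k hk => ?_⟩
  · exact hy₁ y x hy hx (fun p => w p * Real.log p * jbad p m) (fun t ht htx => (h t ht htx w (hw' t ht)).1) z hz
  · exact hy₁ y x hy hx (fun p => w p * Real.log p * jpow k p m) (fun t ht htx => (h t ht htx w (hw' t ht)).2 k hk) z hz

/-! ### products of curves -/

/-- The trace `a_p` of Frobenius on `H ^ 1` of the curve `Y ^ 2 = X ^ D + m (D - 1) X ^ (D - 1) + ... + m 0`, `D` odd: it is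
`p + 1 - N`, where the number `N` of the points modulo `p` is `affine p m + 1` (there is one point at infinity). -/
noncomputable def curveTrace {D : ℕ} (p : ℕ) (m : Fin D → ℕ) : ℝ := (p : ℝ) + 1 - ((affine p m + 1 : ℕ) : ℝ)

/-- the traces on `H ^ 0`, `H ^ 1`, `H ^ 2` of a curve with the trace `a` on `H ^ 1`, for the Frobenius at `p` -/
noncomputable def factor (p : ℕ) (a : ℝ) (e : Fin 3) : ℝ := if e = 0 then 1 else if e = 1 then a else p

/-- The trace of Frobenius on `H ^ (2 j)` of the product of the curves number `i 1, ..., i r`, by the Künneth formula: `H ^ (2 j)` is the sum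
over all `e : Fin r → {0, 1, 2}` of sum `2 j` of the tensor products of the `H ^ (e k)` of the curves. -/
noncomputable def prodTrace {r : ℕ} (j p : ℕ) (m : (Σ i, Fin (D i)) → ℕ) (i : Fin r → Fin s) : ℝ :=
  ∑ e ∈ univ.filter (fun e : Fin r → Fin 3 => ∑ k, (e k : ℕ) = 2 * j), ∏ k, factor p (curveTrace p (fun l => m ⟨i k, l⟩)) (e k)

/-- the number of the factors `k` with `e k = 1` and `i k = a` -/
def mult {r : ℕ} (i : Fin r → Fin s) (e : Fin r → Fin 3) (a : Fin s) : ℕ := (univ.filter (fun k => e k = 1 ∧ i k = a)).card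

/-- The dimension of the space of the classes in `H ^ (2 j)` of the product which are invariant under the product of the groups
`Sp (2 g_a)`, for at most `2 g_a + 1` factors `C_a`: the sum over the `e` of sum `2 j` of the products over `a` of the numbers
`(M_a - 1)!!` of the perfect matchings of the `M_a` factors with `e k = 1`, `i k = a` (`0` for odd `M_a`). -/
noncomputable def invariants {r : ℕ} (j : ℕ) (i : Fin r → Fin s) : ℝ :=
  ∑ e ∈ univ.filter (fun e : Fin r → Fin 3 => ∑ k, (e k : ℕ) = 2 * j),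
    ∏ a, (if Even (mult i e a) then ((mult i e a - 1).doubleFactorial : ℝ) else 0)

lemma factor_eq {D p : ℕ} (hp : p.Prime) (m : Fin D → ℕ) (e : Fin 3) :
    factor p (curveTrace p m) e = Real.sqrt p ^ (e : ℕ) * (if e = 1 then ntrace p m else 1) := by
  have hpp : (0 : ℝ) < p := by exact_mod_cast hp.pos
  have hs0 : 0 < Real.sqrt p := Real.sqrt_pos.2 hpp
  have hs2 : Real.sqrt p ^ 2 = p := Real.sq_sqrt hpp.le
  unfold factor
  fin_cases e
  · simp
  · simp only [Fin.mk_one, Fin.isValue, one_ne_zero, if_false, if_true, Fin.val_one, pow_one]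
    unfold curveTrace ntrace
    push_cast
    field_simp
    ring
  · have h1 : ((⟨2, by omega⟩ : Fin 3) = 0) = False := by simp
    have h2 : ((⟨2, by omega⟩ : Fin 3) = 1) = False := by simp
    simp only [h1, h2, if_false, mul_one]
    exact hs2.symm

lemma prod_mult {r : ℕ} (i : Fin r → Fin s) (e : Fin r → Fin 3) (u : Fin s → ℝ) :
    ∏ k, (if e k = 1 then u (i k) else 1) = ∏ a, u a ^ mult i e a := by
  classical
  unfold mult
  rw [← prod_filter, ← Finset.prod_fiberwise (univ.filter (fun k => e k = 1)) i (fun k => u (i k))]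
  refine prod_congr rfl fun a _ => ?_
  rw [prod_congr rfl (g := fun _ => u a) (fun k hk => by rw [(mem_filter.1 hk).2]), prod_const, filter_filter]

open scoped Classical in
lemma prodTrace_eq {r j p : ℕ} (hp : p.Prime) (m : (Σ i, Fin (D i)) → ℕ) (i : Fin r → Fin s) (hg : AllGood p m) :
    prodTrace j p m i - invariants j i * (p : ℝ) ^ j = (p : ℝ) ^ j *
      ∑ e ∈ univ.filter (fun e : Fin r → Fin 3 => ∑ k, (e k : ℕ) = 2 * j), jpow (mult i e) p m := by
  have hpp : (0 : ℝ) < p := by exact_mod_cast hp.pos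
  have hs2 : Real.sqrt p ^ 2 = p := Real.sq_sqrt hpp.le
  unfold prodTrace invariants
  rw [sum_mul, ← sum_sub_distrib, mul_sum]
  refine sum_congr rfl fun e he => ?_
  have he2 := (mem_filter.1 he).2
  have e1 : ∏ k, factor p (curveTrace p (fun l => m ⟨i k, l⟩)) (e k) = (p : ℝ) ^ j * ∏ a, ntrace p (fun l => m ⟨a, l⟩) ^ mult i e a := by
    rw [prod_congr rfl (fun k _ => factor_eq hp _ _), prod_mul_distrib, prod_pow_eq_pow_sum, he2, pow_mul, hs2,
      prod_mult i e (fun a => ntrace p (fun l => m ⟨a, l⟩))]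
  rw [e1]
  unfold jpow
  rw [if_pos hg]
  have e2 : ∏ a, (if Even (mult i e a) then ((mult i e a - 1).doubleFactorial : ℝ) else 0) = ∏ a, gmom (mult i e a) := rfl
  rw [e2]
  ring

/-- the sum over the good primes in the interval from `y` to `x` of `w_p (b_p - ρ p^j) log p p^(-s)`, for `H ^ (2 j)` of the product -/
noncomputable def prodSeries {r : ℕ} (j y x : ℕ) (m : (Σ i, Fin (D i)) → ℕ) (i : Fin r → Fin s) (w : ℕ → ℝ) (z : ℂ) : ℂ :=
  open Classical in primeSum y x (fun p => if AllGood p m then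
    (w p * (prodTrace j p m i - invariants j i * (p : ℝ) ^ j) * Real.log p : ℝ) * (p : ℂ) ^ (-z) else 0)

/-- **The L-functions of all even cohomology groups of products.** -/
theorem prod_series (hs : 1 ≤ s) (hD : ∀ i, Odd (D i)) (r : ℕ) {b : ℕ} (hb : 2 ≤ b) {δ : ℝ} (hδ : 0 < δ) (A B : ℕ) :
    ForAlmostAllFrom (Σ i, Fin (D i)) b A (fun (θ : Weights B) y x m => ∀ w ∈ θ.W y, ∀ i : Fin r → Fin s,
      (∀ a, (univ.filter (fun k => i k = a)).card ≤ D a) → ∀ j : ℕ, ∀ z : ℂ, j + 1 / 2 + δ ≤ z.re →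
      ‖prodSeries j y x m i w z‖ ≤ 3 ^ r * (1 + j + ‖z‖) * (y : ℝ) ^ (-(δ / 4))) := by
  classical
  obtain ⟨c, hc, y₀, H⟩ := joint_series (D := D) hs hD hb hδ A B
  refine ⟨c, hc, y₀, fun θ K d N f y hset hy => le_trans (Nat.cast_le.2 (exceptions_mono ?_)) (H θ K d N f y hset hy)⟩
  intro m hm x hx hr w hw i hi j z hz
  have h1 := (hm x hx hr w hw (z - j) (by rw [Complex.sub_re, Complex.natCast_re]; linarith)).2
  obtain ⟨T, hT⟩ : ∃ T : Finset (Fin r → Fin 3), T = univ.filter (fun e : Fin r → Fin 3 => ∑ k, (e k : ℕ) = 2 * j) := ⟨_, rfl⟩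
  have e : prodSeries j y x m i w z = ∑ e ∈ T, primeSum y x (fun p => ((w p * Real.log p * jpow (mult i e) p m : ℝ) : ℂ) *
      (p : ℂ) ^ (-(z - j))) := by
    unfold prodSeries primeSum
    rw [sum_comm]
    refine sum_congr rfl fun p hp => ?_
    beta_reduce
    have hpp := (mem_filter.1 hp).2
    by_cases hgood : AllGood p m
    · rw [if_pos hgood, prodTrace_eq hpp m i hgood, ← hT]
      have hpc : ((p : ℕ) : ℂ) ≠ 0 := by exact_mod_cast hpp.ne_zero
      have e4 : ((p : ℕ) : ℂ) ^ (-(z - j)) = (p : ℂ) ^ (-z) * (p : ℂ) ^ j := by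
        rw [show -(z - j) = -z + j by ring, Complex.cpow_add _ _ hpc, Complex.cpow_natCast]
      rw [e4, ← sum_mul]
      push_cast
      rw [← mul_sum]
      ring
    · rw [if_neg hgood]
      symm
      apply sum_eq_zero
      intro e _
      unfold jpow
      rw [if_neg hgood]
      simp
  rw [e]
  have hcard : (T.card : ℝ) ≤ 3 ^ r := by
    have : T.card ≤ 3 ^ r := by
      rw [hT]
      refine (card_filter_le _ _).trans ?_
      rw [card_univ, Fintype.card_fun, Fintype.card_fin, Fintype.card_fin]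
    exact_mod_cast this
  have hnorm : 1 + ‖z - j‖ ≤ 1 + j + ‖z‖ := by
    have := norm_sub_le z (j : ℂ)
    rw [Complex.norm_natCast] at this
    linarith
  have hk : ∀ e : Fin r → Fin 3, ∀ a, mult i e a ≤ D a := by
    intro e a
    refine le_trans (card_le_card ?_) (hi a)
    intro k hk
    rw [mem_filter] at hk ⊢
    exact ⟨hk.1, hk.2.2⟩
  calc _ ≤ ∑ e ∈ T, (1 + j + ‖z‖) * (y : ℝ) ^ (-(δ / 4)) := by
        refine (norm_sum_le _ _).trans (sum_le_sum fun e _ => (h1 _ (hk e)).trans ?_)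
        exact mul_le_mul_of_nonneg_right hnorm (by positivity)
    _ = T.card * ((1 + j + ‖z‖) * (y : ℝ) ^ (-(δ / 4))) := by rw [sum_const, nsmul_eq_mul]
    _ ≤ 3 ^ r * ((1 + j + ‖z‖) * (y : ℝ) ^ (-(δ / 4))) := mul_le_mul_of_nonneg_right hcard (by positivity)
    _ = _ := by ring

end

end Pool.Agent.Q235.FD
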