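import Pool.Agent.Q235.FD.Gen

/-! Consequences of the general law. -/

set_option autoImplicit false

namespace Pool.Agent.Q235.FD

open Finset

variable {L : Type} [Fintype L]

lemma exceptions_mono {b : ℕ} {K r N : L → ℕ} {f : L → ℕ → ℕ} {E E' : (L → ℕ) → Prop} (h : ∀ m, E' m → E m) :
    exceptions b K r N f E ≤ exceptions b K r N f E' := by
  classical
  unfold exceptions
  apply card_le_card
  intro S hS
  rw [mem_filter] at hS ⊢
  exact ⟨hS.1, fun h' => hS.2 (h _ h')⟩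

lemma exceptions_and {b : ℕ} {K r N : L → ℕ} {f : L → ℕ → ℕ} {E E' F : (L → ℕ) → Prop} (h : ∀ m, E m → E' m → F m) :
    exceptions b K r N f F ≤ exceptions b K r N f E + exceptions b K r N f E' := by
  classical
  unfold exceptions
  refine le_trans (card_le_card ?_) (card_union_le _ _)
  intro S hS
  rw [mem_filter] at hS
  rw [mem_union, mem_filter, mem_filter]
  by_cases h1 : E (fun l => change b (K l) (N l) (f l) (S l))
  · exact Or.inr ⟨hS.1, fun h2 => hS.2 (h _ h1 h2)⟩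
  · exact Or.inl ⟨hS.1, h1⟩

theorem forAlmostAll_of [Nonempty L] {b : ℕ} (hb : 2 ≤ b) {δ : ℝ} (hδ : 0 < δ) {A A₂ : ℕ} {Θ : Type}
    (D : Θ → Data L A₂) {E : Θ → ℕ → (L → ℕ) → Prop} (y₁ : ℕ)
    (h : ∀ θ x m, y₁ ≤ x → Law δ (D θ) x m → E θ x m) : ForAlmostAll L b A E := by
  obtain ⟨c, hc, y₀, H⟩ := gen L b hb δ hδ A A₂
  refine ⟨c, hc, y₀ + y₁, fun θ K r N f y hs hy => ?_⟩
  refine le_trans (Nat.cast_le.2 (exceptions_mono ?_)) (H (D θ) K r N f y hs (by omega))
  exact fun m hm x hx hr => h θ x m (by omega) (hm x hx hr)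

theorem ForAlmostAll.and {b A : ℕ} {Θ : Type} {E E' F : Θ → ℕ → (L → ℕ) → Prop}
    (h1 : ForAlmostAll L b (A + 1) E) (h2 : ForAlmostAll L b (A + 1) E')
    (h : ∀ θ x m, E θ x m → E' θ x m → F θ x m) : ForAlmostAll L b A F := by
  obtain ⟨c, hc, y₀, H⟩ := h1
  obtain ⟨c', hc', y₀', H'⟩ := h2
  refine ⟨min c c', lt_min hc hc', y₀ + y₀' + 2, fun θ K r N f y hs hy => ?_⟩
  have hy2 : (2 : ℝ) ≤ y := by exact_mod_cast (by omega : 2 ≤ y)
  have hy0 : (0 : ℝ) < y := by linarith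
  have g1 := H θ K r N f y hs (by omega)
  have g2 := H' θ K r N f y hs (by omega)
  obtain ⟨C, hC⟩ : ∃ C : ℝ, C = ∏ l, ((K l).choose (r l) : ℝ) := ⟨_, rfl⟩
  have hC0 : 0 ≤ C := by rw [hC]; exact prod_nonneg fun i _ => Nat.cast_nonneg _
  rw [← hC] at g1 g2 ⊢
  have g3 : (exceptions b K r N f (fun m => ∀ x : ℕ, y ≤ x → (∀ l, (x : ℝ) ≤ Real.exp (min c c' * r l)) → F θ x m) : ℝ) ≤
      (exceptions b K r N f (fun m => ∀ x : ℕ, y ≤ x → (∀ l, (x : ℝ) ≤ Real.exp (c * r l)) → E θ x m) : ℝ) +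
      (exceptions b K r N f (fun m => ∀ x : ℕ, y ≤ x → (∀ l, (x : ℝ) ≤ Real.exp (c' * r l)) → E' θ x m) : ℝ) := by
    have : exceptions b K r N f (fun m => ∀ x : ℕ, y ≤ x → (∀ l, (x : ℝ) ≤ Real.exp (min c c' * r l)) → F θ x m) ≤
      exceptions b K r N f (fun m => ∀ x : ℕ, y ≤ x → (∀ l, (x : ℝ) ≤ Real.exp (c * r l)) → E θ x m) +
      exceptions b K r N f (fun m => ∀ x : ℕ, y ≤ x → (∀ l, (x : ℝ) ≤ Real.exp (c' * r l)) → E' θ x m) := by
      apply exceptions_and
      intro m hm hm' x hx hr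
      refine h θ x m (hm x hx fun l => (hr l).trans ?_) (hm' x hx fun l => (hr l).trans ?_)
      · exact Real.exp_le_exp.2 (mul_le_mul_of_nonneg_right (min_le_left _ _) (Nat.cast_nonneg _))
      · exact Real.exp_le_exp.2 (mul_le_mul_of_nonneg_right (min_le_right _ _) (Nat.cast_nonneg _))
    exact_mod_cast this
  refine g3.trans ((add_le_add g1 g2).trans ?_)
  have g4 : 1 / (y : ℝ) ^ (A + 1) + 1 / (y : ℝ) ^ (A + 1) ≤ 1 / (y : ℝ) ^ A := by
    rw [← add_div, div_le_div_iff₀ (by positivity) (by positivity), pow_succ]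
    nlinarith [pow_pos hy0 A]
  calc 1 / (y : ℝ) ^ (A + 1) * C + 1 / (y : ℝ) ^ (A + 1) * C = (1 / (y : ℝ) ^ (A + 1) + 1 / (y : ℝ) ^ (A + 1)) * C := by ring
    _ ≤ _ := mul_le_mul_of_nonneg_right g4 hC0

theorem ForAlmostAll.mono {b A : ℕ} {Θ : Type} {E F : Θ → ℕ → (L → ℕ) → Prop}
    (h1 : ForAlmostAll L b A E) (y₁ : ℕ) (h : ∀ θ x m, y₁ ≤ x → E θ x m → F θ x m) : ForAlmostAll L b A F := by
  obtain ⟨c, hc, y₀, H⟩ := h1
  refine ⟨c, hc, y₀ + y₁, fun θ K r N f y hs hy => ?_⟩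
  refine le_trans (Nat.cast_le.2 (exceptions_mono ?_)) (H θ K r N f y hs (by omega))
  exact fun m hm x hx hr => h θ x m (by omega) (hm x hx hr)

/-! ### averages -/

open Classical in
lemma card_box (p : ℕ) : (Fintype.piFinset (fun _ : L => range p)).card = p ^ Fintype.card L := by
  rw [Fintype.card_piFinset]
  simp

lemma avg_const {p : ℕ} (hp : 1 ≤ p) (c : ℝ) : avg (L := L) p (fun _ => c) = c := by
  classical
  unfold avg
  rw [sum_const, card_box, nsmul_eq_mul]
  have : (p : ℝ) ≠ 0 := by exact_mod_cast (by omega : p ≠ 0)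
  push_cast
  field_simp

lemma avg_add (p : ℕ) (F G : (L → ℕ) → ℝ) : avg p (fun n => F n + G n) = avg p F + avg p G := by
  classical
  unfold avg
  rw [sum_add_distrib, add_div]

lemma avg_sub (p : ℕ) (F G : (L → ℕ) → ℝ) : avg p (fun n => F n - G n) = avg p F - avg p G := by
  classical
  unfold avg
  rw [sum_sub_distrib, sub_div]

lemma avg_mul (p : ℕ) (c : ℝ) (F : (L → ℕ) → ℝ) : avg p (fun n => c * F n) = c * avg p F := by
  classical
  unfold avg
  rw [← mul_sum, mul_div_assoc]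

lemma avg_div (p : ℕ) (c : ℝ) (F : (L → ℕ) → ℝ) : avg p (fun n => F n / c) = avg p F / c := by
  classical
  unfold avg
  rw [← sum_div, div_right_comm]

lemma avg_mono {p : ℕ} {F G : (L → ℕ) → ℝ} (h : ∀ n, F n ≤ G n) : avg p F ≤ avg p G := by
  classical
  unfold avg
  exact div_le_div_of_nonneg_right (sum_le_sum fun n _ => h n) (by positivity)

lemma avg_nonneg {p : ℕ} {F : (L → ℕ) → ℝ} (h : ∀ n, 0 ≤ F n) : 0 ≤ avg p F := by
  classical
  unfold avg
  exact div_nonneg (sum_nonneg fun n _ => h n) (by positivity)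

lemma avg_congr {p : ℕ} {F G : (L → ℕ) → ℝ} (h : ∀ n, (∀ l, n l < p) → F n = G n) : avg p F = avg p G := by
  classical
  unfold avg
  congr 1
  refine sum_congr rfl fun n hn => h n ?_
  rw [Fintype.mem_piFinset] at hn
  exact fun l => mem_range.1 (hn l)

lemma abs_avg_le {p : ℕ} (F : (L → ℕ) → ℝ) : |avg p F| ≤ avg p (fun n => |F n|) := by
  classical
  unfold avg
  rw [abs_div, abs_of_nonneg (show (0 : ℝ) ≤ (p : ℝ) ^ Fintype.card L by positivity)]
  exact div_le_div_of_nonneg_right (abs_sum_le_sum_abs _ _) (by positivity)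

open Classical in
/-- the proportion of the tuples of residues modulo `p` with a property -/
noncomputable def proportion (p : ℕ) (T : (L → ℕ) → Prop) : ℝ :=
  (((Fintype.piFinset (fun _ : L => range p)).filter T).card : ℝ) / (p : ℝ) ^ Fintype.card L

open Classical in
lemma avg_ind (p : ℕ) (T : (L → ℕ) → Prop) : avg p (fun n => if T n then (1 : ℝ) else 0) = proportion p T := by
  unfold avg proportion
  rw [card_filter]
  push_cast
  rfl

/-- a set of at most `x ^ A₂` sets of primes up to `x`, for every `x` -/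
structure Sets (A₂ : ℕ) where
  /-- the sets -/
  S : ℕ → Finset (Finset ℕ)
  card : ∀ x, (S x).card ≤ x ^ A₂
  prime : ∀ x, ∀ P ∈ S x, ∀ p ∈ P, p.Prime ∧ p ≤ x

open Classical in
/-- the data for properties -/
noncomputable def propData {A₂ A₃ : ℕ} (θ : Sets A₂) {τ : Type} (U : ℕ → Finset τ) (hU : ∀ x, 2 ≤ x → (U x).card ≤ x ^ A₃)
    (T : τ → ℕ → (L → ℕ) → Prop) (hT : ∀ t p n, T t p n ↔ T t p (fun i => n i % p)) : Data L (A₂ + A₃) where
  κ := Finset ℕ × τ
  Λ := fun x => θ.S x ×ˢ U x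
  card := by
    intro x hx
    rw [card_product, pow_add]
    exact Nat.mul_le_mul (θ.card x) (hU x hx)
  P := fun x l => l.1.filter (fun p => p.Prime ∧ p ≤ x)
  prime := by
    intro x l p hp
    rw [mem_filter] at hp
    exact hp.2
  G := fun _ l p n => if T l.2 p n then 1 else 0
  per := by
    intro x l p n _
    by_cases h : T l.2 p n
    · rw [if_pos h, if_pos ((hT _ _ _).1 h)]
    · rw [if_neg h, if_neg (fun h' => h ((hT _ _ _).2 h'))]
  bound := by
    intro x l p n _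
    split_ifs <;> simp

open Classical in
/-- the number of the primes in the set with a property -/
noncomputable def number (P : Finset ℕ) (E : ℕ → Prop) : ℕ := (P.filter E).card

/-- counts -/
theorem law_prop {A₂ A₃ : ℕ} (θ : Sets A₂) {τ : Type} (U : ℕ → Finset τ) (hU : ∀ x, 2 ≤ x → (U x).card ≤ x ^ A₃)
    (T : τ → ℕ → (L → ℕ) → Prop) (hT : ∀ t p n, T t p n ↔ T t p (fun i => n i % p)) {δ : ℝ} {x : ℕ} {m : L → ℕ}
    (h : Law δ (propData θ U hU T hT) x m) : ∀ P ∈ θ.S x, ∀ t ∈ U x,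
      |(number P (fun p => T t p m) : ℝ) - ∑ p ∈ P, proportion p (T t p)| ≤
        Real.sqrt (max 1 (∑ p ∈ P, proportion p (T t p))) * (x : ℝ) ^ δ := by
  classical
  intro P hP t ht
  have h1 := h (P, t) (mem_product.2 ⟨hP, ht⟩)
  have h2 : P.filter (fun p => p.Prime ∧ p ≤ x) = P := filter_true_of_mem (fun p hp => θ.prime x P hP p hp)
  have h3 : (propData θ U hU T hT).P x (P, t) = P := h2
  have h4 : ∀ p, avg p ((propData θ U hU T hT).G x (P, t) p) = proportion p (T t p) := fun p => avg_ind p _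
  have h5 : ∀ p, avg p (fun n => (propData θ U hU T hT).G x (P, t) p n ^ 2) = proportion p (T t p) := by
    intro p
    rw [← avg_ind p]
    congr 1
    funext n
    show (if T t p n then (1 : ℝ) else 0) ^ 2 = _
    split_ifs <;> simp
  have h6 : ∑ p ∈ P, (propData θ U hU T hT).G x (P, t) p m = number P (fun p => T t p m) := by
    show ∑ p ∈ P, (if T t p m then (1 : ℝ) else 0) = _
    unfold number
    rw [card_filter]
    push_cast
    rfl
  rw [h3, h6] at h1
  simp only [h4, h5] at h1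
  exact h1

end Pool.Agent.Q235.FD
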