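import Pool.Agent.Q235.FD.PairSum

/-! The twist fibrations `h(t) y^2 = f(x)`. -/

set_option autoImplicit false

namespace Pool.Agent.Q235.FD

open Finset Polynomial

/-- The average `p^(-1) ∑ a_p(X_t)` of the traces of Frobenius of the fibres of `h(t) y^2 = f(x)` over the `t` modulo `p`. The fibres
over the zeros of `h` contribute `0`, and for the other `t` the trace is `p` minus the number of the affine points of the fibre (there
is one point at infinity); so the average is `#{t : h(t) ≠ 0} - #{(t, x, y) : h(t) ≠ 0, h(t) y^2 = f(x)} / p`. -/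
noncomputable def twistAverage {D D' : ℕ} (p : ℕ) (f : Fin D → ℕ) (h : Fin D' → ℕ) : ℝ :=
  (Nat.card {t : ZMod p // (poly p h).eval t ≠ 0} : ℝ) -
    (Nat.card {P : ({t : ZMod p // (poly p h).eval t ≠ 0} × ZMod p) × ZMod p //
      (poly p h).eval P.1.1.1 * P.2 ^ 2 = (poly p f).eval P.1.2} : ℝ) / p

lemma qc_mul {p : ℕ} [Fact p.Prime] (a b : ZMod p) : qc (a * b) = qc a * qc b := by
  unfold qc
  rw [map_mul]
  push_cast
  rfl

lemma qc_inv {p : ℕ} [Fact p.Prime] (b : ZMod p) (hb : b ≠ 0) : qc b⁻¹ = qc b := by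
  have h1 : b⁻¹ = b * (b⁻¹ * b⁻¹) := by field_simp
  have h2 : qc (b⁻¹ * b⁻¹) = 1 := by
    rw [qc_mul]
    rcases qc_cases b⁻¹ with ⟨h, _⟩ | ⟨_, h | h⟩
    · exact absurd (inv_eq_zero.1 h) hb
    · rw [h]; norm_num
    · rw [h]; norm_num
  conv_lhs => rw [h1, qc_mul, h2, mul_one]

lemma twistAverage_eq {D D' p : ℕ} [Fact p.Prime] (hp : p ≠ 2) (f : Fin D → ℕ) (h : Fin D' → ℕ) :
    twistAverage p f h = -(ntrace p f * ntrace p h) := by
  classical
  have hp0 : (0 : ℝ) < p := by exact_mod_cast (Fact.out : p.Prime).pos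
  have e1 : Nat.card {P : ({t : ZMod p // (poly p h).eval t ≠ 0} × ZMod p) × ZMod p //
      (poly p h).eval P.1.1.1 * P.2 ^ 2 = (poly p f).eval P.1.2} =
      Nat.card {P : ({t : ZMod p // (poly p h).eval t ≠ 0} × ZMod p) × ZMod p //
        P.2 ^ 2 = (poly p f).eval P.1.2 * ((poly p h).eval P.1.1.1)⁻¹} := by
    refine Nat.card_congr (Equiv.subtypeEquivRight fun P => ?_)
    have hne := P.1.1.2
    constructor
    · intro h1
      rw [← h1]
      field_simp
    · intro h1
      rw [h1]
      field_simp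
  have e2 := count_sq hp (fun a : {t : ZMod p // (poly p h).eval t ≠ 0} × ZMod p => (poly p f).eval a.2 * ((poly p h).eval a.1.1)⁻¹)
  have e3 : ∑ a : {t : ZMod p // (poly p h).eval t ≠ 0} × ZMod p, qc ((poly p f).eval a.2 * ((poly p h).eval a.1.1)⁻¹) =
      chs (fun i => ((h i : ℕ) : ZMod p)) * chs (fun i => ((f i : ℕ) : ZMod p)) := by
    have e4 : ∀ a : {t : ZMod p // (poly p h).eval t ≠ 0} × ZMod p, qc ((poly p f).eval a.2 * ((poly p h).eval a.1.1)⁻¹) =
        qc ((poly p h).eval a.1.1) * qc ((poly p f).eval a.2) := by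
      intro a
      rw [qc_mul, qc_inv _ a.1.2, mul_comm]
    rw [sum_congr rfl (fun a _ => e4 a), Fintype.sum_prod_type]
    simp only [← mul_sum]
    rw [← sum_mul]
    congr 1
    · unfold chs
      have e5 : ∑ t : ZMod p, qc (ev (fun i => ((h i : ℕ) : ZMod p)) t) = ∑ t ∈ univ.filter (fun t : ZMod p => (poly p h).eval t ≠ 0), qc ((poly p h).eval t) := by
        rw [sum_filter]
        refine sum_congr rfl fun t _ => ?_
        rw [← eval_poly]
        split_ifs with h0
        · rfl
        · rw [not_not] at h0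
          rw [h0]
          unfold qc
          simp
      rw [e5]
      exact (Finset.sum_subtype (univ.filter (fun t : ZMod p => (poly p h).eval t ≠ 0)) (fun x => by simp) (fun t => qc ((poly p h).eval t))).symm
    · unfold chs
      exact sum_congr rfl fun x _ => by rw [eval_poly]
  unfold twistAverage
  rw [e1, e2, e3, ntrace_eq hp, ntrace_eq hp]
  have e6 : (Fintype.card ({t : ZMod p // (poly p h).eval t ≠ 0} × ZMod p) : ℝ) = Nat.card {t : ZMod p // (poly p h).eval t ≠ 0} * p := by
    rw [Fintype.card_prod, ZMod.card, Nat.card_eq_fintype_card]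
    push_cast
    rfl
  rw [e6]
  have hs : Real.sqrt p * Real.sqrt p = p := Real.mul_self_sqrt hp0.le
  have hs0 : 0 < Real.sqrt p := Real.sqrt_pos.2 hp0
  generalize chs (fun i => ((h i : ℕ) : ZMod p)) = a
  generalize chs (fun i => ((f i : ℕ) : ZMod p)) = c
  have e7 : -(c / Real.sqrt p) * -(a / Real.sqrt p) = c * a / p := by
    rw [neg_mul_neg, div_mul_div_comm, hs]
  rw [e7]
  field_simp
  ring

end Pool.Agent.Q235.FD
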