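import Pool.Agent.Q235.FD.Dir

/-! Weighted sums over primes of functions with small averages; joint moments with weights. -/

set_option autoImplicit false

namespace Pool.Agent.Q235.FD

open Finset Filter

section

variable {L : Type} [Fintype L]

lemma sum_log_sqrt (x : ℕ) : ∑ p ∈ primesTo x, Real.log p * (1 / Real.sqrt p) ≤ 2 * Real.sqrt x * Real.log x := by
  have h1 : ∀ n : ℕ, ∑ k ∈ Icc 1 n, 1 / Real.sqrt k ≤ 2 * Real.sqrt n := by
    intro n
    induction n with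
    | zero => simp
    | succ n ih =>
      rw [Finset.sum_Icc_succ_top (by omega)]
      have h2 : Real.sqrt n ≤ Real.sqrt ((n + 1 : ℕ) : ℝ) := Real.sqrt_le_sqrt (by push_cast; linarith)
      have h3 : 0 < Real.sqrt ((n + 1 : ℕ) : ℝ) := Real.sqrt_pos.2 (by positivity)
      have h4 : Real.sqrt ((n + 1 : ℕ) : ℝ) ^ 2 = (n : ℝ) + 1 := by rw [Real.sq_sqrt (by positivity)]; push_cast; ring
      have h5 : Real.sqrt (n : ℝ) ^ 2 = n := Real.sq_sqrt (Nat.cast_nonneg n)
      have h6 : 1 / Real.sqrt ((n + 1 : ℕ) : ℝ) ≤ 2 * (Real.sqrt ((n + 1 : ℕ) : ℝ) - Real.sqrt n) := by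
        rw [div_le_iff₀ h3]
        nlinarith [Real.sqrt_nonneg (n : ℝ)]
      linarith
  rcases Nat.eq_zero_or_pos x with h0 | h0
  · subst h0
    have : primesTo 0 = ∅ := by
      unfold primesTo
      decide
    rw [this]
    simp
  · have hlx : 0 ≤ Real.log x := Real.log_nonneg (by exact_mod_cast h0)
    calc ∑ p ∈ primesTo x, Real.log p * (1 / Real.sqrt p) ≤ ∑ p ∈ primesTo x, Real.log x * (1 / Real.sqrt p) := by
          apply sum_le_sum
          intro p hp
          have h2 := mem_primesTo.1 hp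
          apply mul_le_mul_of_nonneg_right _ (by positivity)
          exact Real.log_le_log (by exact_mod_cast h2.1.pos) (by exact_mod_cast h2.2)
      _ = Real.log x * ∑ p ∈ primesTo x, 1 / Real.sqrt p := by rw [mul_sum]
      _ ≤ Real.log x * ∑ p ∈ Icc 1 x, 1 / Real.sqrt p := by
          apply mul_le_mul_of_nonneg_left _ hlx
          apply sum_le_sum_of_subset_of_nonneg
          · intro p hp
            have h2 := mem_primesTo.1 hp
            exact mem_Icc.2 ⟨h2.1.one_lt.le, h2.2⟩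
          · intro p _ _
            positivity
      _ ≤ Real.log x * (2 * Real.sqrt x) := mul_le_mul_of_nonneg_left (h1 x) hlx
      _ = _ := by ring

/-- as `rough`, with small averages -/
theorem rough' [Nonempty L] {b : ℕ} (hb : 2 ≤ b) {δ : ℝ} (hδ : 0 < δ) (A B A₃ : ℕ) {τ : Type} (U : ℕ → Finset τ)
    (hU : ∀ x, 2 ≤ x → (U x).card ≤ x ^ A₃) (G : τ → ℕ → (L → ℕ) → ℝ)
    (hper : ∀ t p n, p.Prime → G t p n = G t p (fun i => n i % p)) {C : ℝ} (hC : 1 ≤ C)
    (hbd : ∀ t p n, p.Prime → |G t p n| ≤ C * Real.sqrt p) (hav : ∀ t p, p.Prime → |avg p (G t p)| ≤ C / Real.sqrt p)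
    (hsq : ∀ t p, p.Prime → avg p (fun n => G t p n ^ 2) ≤ C) :
    ForAlmostAll L b A (fun (θ : Weights B) x m => ∀ w ∈ θ.W x, ∀ t ∈ U x,
      |∑ p ∈ primesTo x, w p * Real.log p * G t p m| ≤ (x : ℝ) ^ (1 / 2 + δ)) := by
  have hC0 : 0 < C := by linarith
  have key := rough (L := L) hb (show 0 < δ / 2 by positivity) A B A₃ U hU (fun t p n => G t p n - avg p (G t p))
    (fun t p n hp => by rw [hper t p n hp]) (C := 2 * C) (by linarith) (by
      intro t p n hp
      have hs : 0 < Real.sqrt p := Real.sqrt_pos.2 (by exact_mod_cast hp.pos)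
      have h1 := hbd t p n hp
      have h2 := hav t p hp
      have h3 : C / Real.sqrt p ≤ C * Real.sqrt p := by
        rw [div_le_iff₀ hs, mul_assoc, ← sq, Real.sq_sqrt (Nat.cast_nonneg p)]
        have : (1 : ℝ) ≤ p := by exact_mod_cast hp.one_lt.le
        nlinarith
      have h4 := abs_sub (G t p n) (avg p (G t p))
      linarith) (by
      intro t p hp
      rw [avg_sub, avg_const hp.one_lt.le, sub_self]) (by
      intro t p hp
      have e : (fun n => (G t p n - avg p (G t p)) ^ 2) = fun n => G t p n ^ 2 - ((2 * avg p (G t p)) * G t p n - avg p (G t p) ^ 2) := by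
        funext n; ring
      rw [e, avg_sub, avg_sub, avg_mul, avg_const hp.one_lt.le]
      have := hsq t p hp
      nlinarith [sq_nonneg (avg p (G t p))])
  obtain ⟨x₁, hx₁⟩ := eventually_le (δ := δ / 2) (by positivity) (2 * C + 1) (by positivity)
  refine ForAlmostAll.mono key (x₁ + 2) ?_
  intro θ x m hx h w hw t ht
  have h1 := h w hw t ht
  have hx1 : (1 : ℝ) ≤ x := by exact_mod_cast (by omega : 1 ≤ x)
  have hx0 : (0 : ℝ) < x := by linarith
  have e : ∑ p ∈ primesTo x, w p * Real.log p * G t p m = ∑ p ∈ primesTo x, w p * Real.log p * (G t p m - avg p (G t p)) +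
      ∑ p ∈ primesTo x, w p * Real.log p * avg p (G t p) := by
    rw [← sum_add_distrib]
    exact sum_congr rfl fun p _ => by ring
  have h2 : |∑ p ∈ primesTo x, w p * Real.log p * avg p (G t p)| ≤ C * (2 * Real.sqrt x * Real.log x) := by
    refine (abs_sum_le_sum_abs _ _).trans (le_trans (sum_le_sum (g := fun p : ℕ => C * (Real.log p * (1 / Real.sqrt p))) fun p hp => ?_) ?_)
    · have hp' := mem_primesTo.1 hp
      have hlp : 0 < Real.log p := Real.log_pos (by exact_mod_cast hp'.1.one_lt)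
      rw [abs_mul, abs_mul, abs_of_pos hlp]
      calc |w p| * Real.log p * |avg p (G t p)| ≤ 1 * Real.log p * (C / Real.sqrt p) :=
            mul_le_mul (mul_le_mul_of_nonneg_right (θ.bound x w hw p) hlp.le) (hav t p hp'.1) (abs_nonneg _) (by rw [one_mul]; exact hlp.le)
        _ = _ := by ring
    · rw [← mul_sum]
      exact mul_le_mul_of_nonneg_left (sum_log_sqrt x) hC0.le
  rw [e]
  refine (abs_add_le _ _).trans ((add_le_add h1 h2).trans ?_)
  have h3 := hx₁ x (by omega)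
  have h8 : 0 ≤ Real.log x := Real.log_nonneg hx1
  have hs : 0 < Real.sqrt x := Real.sqrt_pos.2 hx0
  have h12 : (x : ℝ) ^ (1 / 2 + δ / 2) = Real.sqrt x * (x : ℝ) ^ (δ / 2) := by
    rw [Real.rpow_add hx0, Real.sqrt_eq_rpow]
  have h13 : (x : ℝ) ^ (1 / 2 + δ) = Real.sqrt x * ((x : ℝ) ^ (δ / 2) * (x : ℝ) ^ (δ / 2)) := by
    rw [Real.sqrt_eq_rpow, ← Real.rpow_add hx0, ← Real.rpow_add hx0]
    congr 1
    ring
  have h14 : (x : ℝ) ^ (δ / 2) = (x : ℝ) ^ (δ / 2 / 2) * (x : ℝ) ^ (δ / 2 / 2) := by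
    rw [← Real.rpow_add hx0]
    congr 1
    ring
  have h15 : (1 : ℝ) ≤ (x : ℝ) ^ (δ / 2 / 2) := Real.one_le_rpow hx1 (by positivity)
  have h16 : 2 * C * Real.log x + 2 ≤ (x : ℝ) ^ (δ / 2) := by nlinarith
  rw [h12, h13]
  have h17 : (x : ℝ) ^ (δ / 2) + C * (2 * Real.log x) ≤ (x : ℝ) ^ (δ / 2) * (x : ℝ) ^ (δ / 2) := by nlinarith
  calc Real.sqrt x * (x : ℝ) ^ (δ / 2) + C * (2 * Real.sqrt x * Real.log x) = Real.sqrt x * ((x : ℝ) ^ (δ / 2) + C * (2 * Real.log x)) := by ring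
    _ ≤ _ := mul_le_mul_of_nonneg_left h17 hs.le

end

section

variable {s : ℕ} {D : Fin s → ℕ}

/-- **The law for the joint moments, with weights.** -/
theorem wjoint_law (hs : 1 ≤ s) (hD : ∀ i, Odd (D i)) {b : ℕ} (hb : 2 ≤ b) {δ : ℝ} (hδ : 0 < δ) (A B : ℕ) :
    ForAlmostAll (Σ i, Fin (D i)) b A (fun (θ : Weights B) x m => ∀ w ∈ θ.W x,
      |∑ p ∈ primesTo x, w p * Real.log p * jbad p m| ≤ (x : ℝ) ^ (1 / 2 + δ) ∧
      ∀ k : Fin s → ℕ, (∀ i, k i ≤ D i) → |∑ p ∈ primesTo x, w p * Real.log p * jpow k p m| ≤ (x : ℝ) ^ (1 / 2 + δ)) := by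
  classical
  have : Nonempty (Σ i, Fin (D i)) := ⟨⟨⟨0, hs⟩, ⟨0, (hD _).pos⟩⟩⟩
  obtain ⟨Q, hQ⟩ : ∃ Q : Finset (Fin s → ℕ), Q = Fintype.piFinset (fun i => range (D i + 1)) := ⟨_, rfl⟩
  have hQ' : ∀ k, k ∈ Q ↔ ∀ i, k i ≤ D i := by
    intro k
    rw [hQ, Fintype.mem_piFinset]
    exact forall_congr' fun i => by rw [mem_range]; omega
  have hex : ∀ k : {k // k ∈ Q}, ∃ C : ℝ, 0 ≤ C ∧ ∀ p : ℕ, p.Prime → |avg p (jpow (D := D) k.1 p)| ≤ C / p :=
    fun k => avg_jpow hD ((hQ' k.1).1 k.2)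
  choose C hC0 hC using hex
  have hS : 0 ≤ ∑ k, C k := sum_nonneg fun k _ => hC0 k
  have h0 := CJ_one (D := D)
  have h0' : 1 ≤ CJ D ^ s := one_le_pow₀ h0
  have hDs : 0 ≤ ∑ i, ((D i : ℝ) + 2) := sum_nonneg fun i _ => by positivity
  obtain ⟨T, hT⟩ : ∃ T : ℝ, T = 2 * CJ D ^ s + ∑ k, C k + ∑ i, ((D i : ℝ) + 2) := ⟨_, rfl⟩
  have hT1 : 1 ≤ T := by linarith
  have hsqrt : ∀ p : ℕ, p.Prime → (1 : ℝ) ≤ Real.sqrt p := fun p hp => Real.one_le_sqrt.2 (by exact_mod_cast hp.one_lt.le)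
  have hdiv : ∀ p : ℕ, p.Prime → ∀ a : ℝ, 0 ≤ a → a / p ≤ a / Real.sqrt p := by
    intro p hp a ha
    have h1 := hsqrt p hp
    apply div_le_div_of_nonneg_left ha (by linarith)
    calc Real.sqrt p = Real.sqrt p * 1 := (mul_one _).symm
      _ ≤ Real.sqrt p * Real.sqrt p := mul_le_mul_of_nonneg_left h1 (by linarith)
      _ = p := Real.mul_self_sqrt (Nat.cast_nonneg p)
  have sqle : ∀ (F : ((Σ i, Fin (D i)) → ℕ) → ℝ) (p : ℕ), p.Prime → (∀ n, |F n| ≤ T) → avg p (fun n => F n ^ 2) ≤ T ^ 2 := by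
    intro F p hp hF
    refine le_trans (avg_mono (G := fun _ => T ^ 2) fun n => ?_) (le_of_eq (avg_const hp.one_lt.le _))
    rw [← sq_abs]
    exact pow_le_pow_left₀ (abs_nonneg _) (hF n) 2
  have hT2 : T ≤ T ^ 2 := by nlinarith
  have h1 := rough' (L := Σ i, Fin (D i)) hb hδ (A + 1) B Q.card (fun _ => (univ : Finset {k // k ∈ Q})) (by
    intro x hx
    rw [card_univ, Fintype.card_coe]
    calc Q.card ≤ 2 ^ Q.card := Nat.lt_two_pow_self.le
      _ ≤ x ^ Q.card := Nat.pow_le_pow_left hx _) (fun k p m => jpow k.1 p m) (fun k p n _ => jpow_mod k.1 p n)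
    (C := T ^ 2) (by linarith) (fun k p n hp => by
      have h2 := jpow_bound hD ((hQ' k.1).1 k.2) hp n
      have h3 := hsqrt p hp
      calc |jpow k.1 p n| ≤ T ^ 2 * 1 := by linarith
        _ ≤ T ^ 2 * Real.sqrt p := mul_le_mul_of_nonneg_left h3 (by positivity)) (fun k p hp => by
      have hpp : (0 : ℝ) < Real.sqrt p := by linarith [hsqrt p hp]
      refine (hC k p hp).trans ((hdiv p hp _ (hC0 k)).trans (div_le_div_of_nonneg_right ?_ hpp.le))
      have := single_le_sum (f := C) (fun k _ => hC0 k) (mem_univ k)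
      linarith) (fun k p hp => sqle _ p hp fun n => (jpow_bound hD ((hQ' k.1).1 k.2) hp n).trans (by linarith))
  have hjb : ∀ (p : ℕ) (n : (Σ i, Fin (D i)) → ℕ), |jbad p n| ≤ T := by
    intro p n
    unfold jbad
    split_ifs
    · rw [abs_zero]; linarith
    · rw [abs_one]; linarith
  have h2 := rough' (L := Σ i, Fin (D i)) hb hδ (A + 1) B 1 (fun _ => (univ : Finset Unit)) (by
    intro x hx
    rw [card_univ, Fintype.card_unit, pow_one]
    omega) (fun _ p m => jbad p m) (fun _ p n _ => jbad_mod p n)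
    (C := T ^ 2) (by linarith) (fun _ p n hp => by
      have h3 := hsqrt p hp
      calc |jbad p n| ≤ T ^ 2 * 1 := by linarith [hjb p n]
        _ ≤ T ^ 2 * Real.sqrt p := mul_le_mul_of_nonneg_left h3 (by positivity)) (fun _ p hp => (avg_jbad hD p hp).trans (by
        have hpp : (0 : ℝ) < Real.sqrt p := by linarith [hsqrt p hp]
        exact (hdiv p hp _ hDs).trans (div_le_div_of_nonneg_right (by linarith) hpp.le))) (fun _ p hp => sqle _ p hp fun n => hjb p n)
  refine ForAlmostAll.and h1 h2 ?_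
  intro θ x m g1 g2 w hw
  exact ⟨g2 w hw () (mem_univ _), fun k hk => g1 w hw ⟨k, (hQ' k).2 hk⟩ (mem_univ _)⟩

end

end Pool.Agent.Q235.FD
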